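import Pool.Agent.GO3.L.Core
import Pool.Agent.GO3.Gro
import Pool.Agent.GO3.B.B2

/-! GO3 / L / Lim: the limit theorem (interface of part L). -/

open MeasureTheory Filter Topology Set
open scoped ContDiff Real

noncomputable section

namespace GO3

/-- A sequence of almost minimisers without concentration at the origin yields a minimiser. -/
theorem limit (K : ℝ) (hK : 1 ≤ K) : ∃ n₀ : ℕ, 2 ≤ n₀ ∧ ∀ n : ℕ, n₀ ≤ n → ∀ σ : ℝ,
    (σ = 1 ∨ σ = -1) → ∀ r₀ : ℝ, 0 < r₀ → ∀ (c : ℕ → Cf) (δ : ℕ → ℝ), Tendsto δ atTop (𝓝 0) →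
    (∀ k, 0 ≤ δ k) → (∀ k, (c k).Alm K n σ (δ k)) → (∀ k, (c k).ee 0 r₀ ≤ 1 / 100000) →
    ∃ c' : Cf, c'.Mini n σ ∧ c'.EL ∧ c'.E ≤ K * n ^ 2 := by
  refine limit_core K hK ?_ ?_
  · obtain ⟨n₀, h2, h⟩ := growth K hK
    refine ⟨n₀, fun n hn r₀ hr₀ => ?_⟩
    obtain ⟨C, hC, h1⟩ := h n hn r₀ hr₀
    refine ⟨C, hC, fun σ δ hδ c hc he q r hr hr1 => h1 σ ?_ δ hδ c hc he q r hr hr1⟩
    rw [← hc.1.2.2]
    exact hc.1.1.h_zero (h2.trans hn)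
  · intro n hn c hc hr hE s hs hs1
    have h := ee_ge hn hc hr (t := 1 / 2) hs (fun r h0 h1 =>
      Cf.beta_half hn hc hr hK hE h0 (h1.trans hs1)) (by norm_num)
    have hpi := Real.pi_gt_three
    have h0 := abs_nonneg (c.cc n s - c.cc n 0)
    nlinarith

end GO3
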