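import Pool.Agent.GO3.L.Str

/-! GO3 / L / Ae: almost everywhere convergence of a subsequence, real weak limits, vanishing.

PROOFS.
`Ss.exists_ae`: choose a strictly increasing `φ` with
`∫_{B_j} ‖u (φ j) - v‖² ≤ 4⁻ʲ` (`B_j = ball 0 j`; `extraction_forall_of_eventually`). For every `R` the sum
`∑_j ∫_{B_R} ‖u (φ j) - v‖²` is finite, so `∑_j ‖u (φ j) z - v z‖² < ∞` for a.e. `z ∈ B_R`
(`lintegral_tsum`/`ae_lt_top`, or `MeasureTheory.hasSum_integral_of_summable_integral_norm`-type lemma), hence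
the terms tend to `0`. Alternatively: on each ball use convergence in measure
(`tendstoInMeasure_of_tendsto_eLpNorm`) and `TendstoInMeasure.exists_seq_tendsto_ae` for the finite measure
`μ = volume.withDensity (exp (- |z|²))`, for which `∫ min 1 ‖u k - v‖ dμ → 0`.
`Ws.real`: for real `g ∈ L²` the numbers `∫ f k g` are real, so the real parts converge to `∫ (re v) g`;
for complex `g = g₁ + i g₂` add.
`ae_zero`: take `g = conj v` on a ball: `∫_{B_R} ‖v‖² = 0`. (`hz` is used with `g = (ball 0 R).indicator (conj v)`.)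
`ae_zero_re`: the real part version: `v` real valued. -/

open MeasureTheory Filter Topology Set
open scoped ContDiff Real

noncomputable section

namespace GO3

variable {u : ℕ → ℂ → ℂ} {v : ℂ → ℂ}

private theorem sqint {S : Set ℂ} {f g : ℂ → ℂ} (hf : MemLp f 2 (volume.restrict S))
    (hg : MemLp g 2 (volume.restrict S)) :
    Integrable (fun z => ‖f z - g z‖ ^ 2) (volume.restrict S) :=
  (memLp_two_iff_integrable_sq_norm (hf.sub hg).1).1 (hf.sub hg)

private theorem ae_ball {φ : ℕ → ℕ} (h : ∀ R : ℝ, Ss (Metric.ball 0 R) u v)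
    (hφ : ∀ j : ℕ, ∫ z in Metric.ball (0 : ℂ) (j : ℝ), ‖u (φ j) z - v z‖ ^ 2 < (1 / 4 : ℝ) ^ j)
    (R : ℕ) : ∀ᵐ z ∂(volume.restrict (Metric.ball (0 : ℂ) (R : ℝ))),
      Tendsto (fun k => u (φ k) z) atTop (𝓝 (v z)) := by
  have hmp : ∀ j, Integrable (fun z => ‖u (φ (j + R)) z - v z‖ ^ 2)
      (volume.restrict (Metric.ball (0 : ℂ) (R : ℝ))) := fun j =>
    sqint ((h R).mu _) (h R).mv
  have hm : ∀ j, AEMeasurable (fun z => ENNReal.ofReal (‖u (φ (j + R)) z - v z‖ ^ 2))
      (volume.restrict (Metric.ball (0 : ℂ) (R : ℝ))) := fun j =>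
    (hmp j).1.aemeasurable.ennreal_ofReal
  have hb : ∀ j, ∫⁻ z in Metric.ball (0 : ℂ) (R : ℝ),
      ENNReal.ofReal (‖u (φ (j + R)) z - v z‖ ^ 2) ≤ ENNReal.ofReal ((1 / 4 : ℝ) ^ j) := by
    intro j
    rw [← ofReal_integral_eq_lintegral_ofReal (hmp j) (Eventually.of_forall fun z => sq_nonneg _)]
    refine ENNReal.ofReal_le_ofReal ?_
    have h1 := hφ (j + R)
    have h2 : ∫ z in Metric.ball (0 : ℂ) (R : ℝ), ‖u (φ (j + R)) z - v z‖ ^ 2 ≤
        ∫ z in Metric.ball (0 : ℂ) ((j + R : ℕ) : ℝ), ‖u (φ (j + R)) z - v z‖ ^ 2 := by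
      refine setIntegral_mono_set (sqint ((h _).mu _) (h _).mv)
        (Eventually.of_forall fun z => sq_nonneg _) ?_
      refine (Metric.ball_subset_ball ?_).eventuallyLE
      exact_mod_cast Nat.le_add_left R j
    have h3 : (1 / 4 : ℝ) ^ (j + R) ≤ (1 / 4 : ℝ) ^ j :=
      pow_le_pow_of_le_one (by norm_num) (by norm_num) (Nat.le_add_right j R)
    linarith
  have hs : ∫⁻ z in Metric.ball (0 : ℂ) (R : ℝ),
      ∑' j, ENNReal.ofReal (‖u (φ (j + R)) z - v z‖ ^ 2) ≠ ⊤ := by
    rw [lintegral_tsum hm]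
    refine ne_top_of_le_ne_top ?_ (ENNReal.tsum_le_tsum hb)
    have h1 : Summable fun j : ℕ => (1 / 4 : ℝ) ^ j :=
      summable_geometric_of_lt_one (by norm_num) (by norm_num)
    rw [← ENNReal.ofReal_tsum_of_nonneg (fun j => by positivity) h1]
    exact ENNReal.ofReal_ne_top
  filter_upwards [ae_lt_top' (AEMeasurable.tsum hm) hs] with z hz
  have h1 := ENNReal.tendsto_atTop_zero_of_tsum_ne_top hz.ne
  have h2 : Tendsto (fun j => ‖u (φ (j + R)) z - v z‖ ^ 2) atTop (𝓝 0) := by
    have h3 := (ENNReal.tendsto_toReal ENNReal.zero_ne_top).comp h1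
    refine h3.congr fun j => ?_
    simp only [Function.comp_apply]
    rw [ENNReal.toReal_ofReal (sq_nonneg _)]
  have h4 : Tendsto (fun j => ‖u (φ (j + R)) z - v z‖) atTop (𝓝 0) := by
    have h5 := h2.sqrt
    rw [Real.sqrt_zero] at h5
    refine h5.congr fun j => ?_
    rw [Real.sqrt_sq (norm_nonneg _)]
  have h6 : Tendsto (fun j => u (φ (j + R)) z) atTop (𝓝 (v z)) :=
    tendsto_iff_norm_sub_tendsto_zero.2 h4
  exact (tendsto_add_atTop_iff_nat (f := fun k => u (φ k) z) R).1 h6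

theorem Ss.exists_ae (h : ∀ R : ℝ, Ss (Metric.ball 0 R) u v) : ∃ φ : ℕ → ℕ, StrictMono φ ∧
    ∀ᵐ z, Tendsto (fun k => u (φ k) z) atTop (𝓝 (v z)) := by
  obtain ⟨φ, hφ, h1⟩ := extraction_forall_of_eventually
    (P := fun j k => ∫ z in Metric.ball (0 : ℂ) (j : ℝ), ‖u k z - v z‖ ^ 2 < (1 / 4 : ℝ) ^ j)
    fun j => (h j).lim.eventually_lt_const (by positivity)
  refine ⟨φ, hφ, ?_⟩
  have h2 : ∀ᵐ z, ∀ R : ℕ, z ∈ Metric.ball (0 : ℂ) (R : ℝ) →
      Tendsto (fun k => u (φ k) z) atTop (𝓝 (v z)) := by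
    rw [ae_all_iff]
    intro R
    exact (ae_restrict_iff' Metric.isOpen_ball.measurableSet).1 (ae_ball h h1 R)
  filter_upwards [h2] with z hz
  obtain ⟨R, hR⟩ := exists_nat_gt ‖z‖
  exact hz R (by rw [mem_ball_zero_iff]; exact hR)

private theorem mconj {g : ℂ → ℂ} (hg : MemLp g 2) :
    MemLp (fun z => (starRingEnd ℂ) (g z)) 2 := hg.star

private theorem imul {f g : ℂ → ℂ} (hf : MemLp f 2) (hg : MemLp g 2) :
    Integrable fun z => f z * g z := hf.integrable_mul hg

theorem Ws.real {f : ℕ → ℂ → ℝ} (hf : ∀ k, MemLp (f k) 2) (hv : MemLp v 2)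
    (h : Ws univ (fun k z => (f k z : ℂ)) v) :
    Ws univ (fun k z => (f k z : ℂ)) fun z => ((v z).re : ℂ) := by
  intro g hg _
  have h1 := h g hg fun z hz => absurd (mem_univ z) hz
  have h2 := h _ (mconj hg) fun z hz => absurd (mem_univ z) hz
  have h3 := (Complex.continuous_conj.tendsto _).comp h2
  have h4 : ∀ k, (starRingEnd ℂ) (∫ z, (f k z : ℂ) * (starRingEnd ℂ) (g z)) =
      ∫ z, (f k z : ℂ) * g z := by
    intro k
    rw [← integral_conj]
    refine integral_congr_ae (Eventually.of_forall fun z => ?_)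
    simp only [map_mul, Complex.conj_ofReal, Complex.conj_conj]
  have h5 : Tendsto (fun k => ∫ z, (f k z : ℂ) * g z) atTop
      (𝓝 ((starRingEnd ℂ) (∫ z, v z * (starRingEnd ℂ) (g z)))) :=
    h3.congr h4
  have h6 := tendsto_nhds_unique h1 h5
  have h7 : ∫ z, ((v z).re : ℂ) * g z = ∫ z, v z * g z := by
    have h8 : ∫ z, (2 * ((v z).re : ℂ)) * g z =
        (∫ z, v z * g z) + (starRingEnd ℂ) (∫ z, v z * (starRingEnd ℂ) (g z)) := by
      rw [← integral_conj, ← integral_add (imul hv hg)]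
      · refine integral_congr_ae (Eventually.of_forall fun z => ?_)
        simp only [map_mul, Complex.conj_conj]
        rw [← add_mul, Complex.add_conj]
        push_cast
        ring
      · refine (imul (mconj hv) hg).congr (Eventually.of_forall fun z => ?_)
        simp only [map_mul, Complex.conj_conj]
    rw [← h6] at h8
    have h9 : ∫ z, (2 * ((v z).re : ℂ)) * g z = 2 * ∫ z, ((v z).re : ℂ) * g z := by
      rw [← integral_const_mul]
      refine integral_congr_ae (Eventually.of_forall fun z => ?_)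
      simp only
      ring
    rw [h9] at h8
    linear_combination h8 / 2
  simp only
  rw [h7]
  exact h1

theorem ae_zero (hv : MemLp v 2) (hz : ∀ g : ℂ → ℂ, MemLp g 2 → ∫ z, v z * g z = 0) :
    ∀ᵐ z, v z = 0 := by
  have h1 := hz _ (mconj hv)
  have h2 : ∫ z, v z * (starRingEnd ℂ) (v z) = ((∫ z, ‖v z‖ ^ 2 : ℝ) : ℂ) := by
    rw [← integral_complex_ofReal]
    refine integral_congr_ae (Eventually.of_forall fun z => ?_)
    simp only
    rw [Complex.mul_conj, Complex.normSq_eq_norm_sq]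
  rw [h2] at h1
  have h3 : ∫ z, ‖v z‖ ^ 2 = 0 := by exact_mod_cast h1
  have h4 : Integrable (fun z => ‖v z‖ ^ 2) := (memLp_two_iff_integrable_sq_norm hv.1).1 hv
  rw [integral_eq_zero_iff_of_nonneg (fun z => sq_nonneg _) h4] at h3
  filter_upwards [h3] with z hz
  have h5 : ‖v z‖ ^ 2 = 0 := hz
  exact norm_eq_zero.1 (pow_eq_zero_iff two_ne_zero |>.1 h5)

/-- uniqueness: if the real parts of the `u k` vanish and `u k ⇀ v` then `re v = 0` a.e. -/
theorem Ws.re_zero (hu : ∀ k, MemLp (u k) 2) (hr : ∀ k z, (u k z).re = 0) (hv : MemLp v 2)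
    (h : Ws univ u v) : ∀ᵐ z, (v z).re = 0 := by
  have hc : ∀ k z, (starRingEnd ℂ) (u k z) = - u k z := by
    intro k z
    apply Complex.ext
    · rw [Complex.conj_re, Complex.neg_re, hr k z, neg_zero]
    · rw [Complex.conj_im, Complex.neg_im]
  have h1 : ∀ g : ℂ → ℂ, MemLp g 2 → ∫ z, (v z + (starRingEnd ℂ) (v z)) * g z = 0 := by
    intro g hg
    have h1 := h g hg fun z hz => absurd (mem_univ z) hz
    have h2 := h _ (mconj hg) fun z hz => absurd (mem_univ z) hz
    have h3 := ((Complex.continuous_conj.tendsto _).comp h2).neg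
    have h4 : ∀ k, -(starRingEnd ℂ) (∫ z, u k z * (starRingEnd ℂ) (g z)) =
        ∫ z, u k z * g z := by
      intro k
      rw [← integral_conj, ← integral_neg]
      refine integral_congr_ae (Eventually.of_forall fun z => ?_)
      simp only [map_mul, Complex.conj_conj, hc]
      ring
    have h5 : Tendsto (fun k => ∫ z, u k z * g z) atTop
        (𝓝 (-(starRingEnd ℂ) (∫ z, v z * (starRingEnd ℂ) (g z)))) := h3.congr h4
    have h6 := tendsto_nhds_unique h1 h5
    have h8 : ∫ z, (v z + (starRingEnd ℂ) (v z)) * g z =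
        (∫ z, v z * g z) + (starRingEnd ℂ) (∫ z, v z * (starRingEnd ℂ) (g z)) := by
      rw [← integral_conj, ← integral_add (imul hv hg)]
      · refine integral_congr_ae (Eventually.of_forall fun z => ?_)
        simp only [map_mul, Complex.conj_conj]
        ring
      · refine (imul (mconj hv) hg).congr (Eventually.of_forall fun z => ?_)
        simp only [map_mul, Complex.conj_conj]
    rw [h8, h6, neg_add_cancel]
  have h2 : MemLp (fun z => v z + (starRingEnd ℂ) (v z)) 2 := hv.add (mconj hv)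
  filter_upwards [ae_zero h2 h1] with z hz
  rw [Complex.add_conj] at hz
  have h3 : 2 * (v z).re = 0 := by exact_mod_cast hz
  linarith

end GO3
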