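import Pool.Agent.GO3.L.Avg1
import Pool.Agent.GO3.R.Dil1

/-! GO3 / L / AofL: the radial gauge potential is a bounded operator on `L²(ball 0 R)`.

PROOFS.
* `aof_lint` (Tonelli version of the bound): for measurable `Φ : ℂ → ℝ≥0∞`
  `∫⁻_{B_R} ofReal(‖z‖²) ∫⁻_{t ∈ (0,1)} ofReal (t²) Φ (t z)² ≤ R² ∫⁻_{B_R} Φ²`: for fixed `t ∈ (0, 1)` substitute `z' = t z`
  (`Measure.addHaar_smul`, real dimension `2`): `∫⁻_{B_R} Φ (t z)² t² dz = ∫⁻_{B_{tR}} Φ²`. (See also
  `Pool.Agent.GO3.R.Dil1`, `dil_cov`, `avg_sq`, which contain the same computation for `O3R.avg`.)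
* `aof_mem`: `|z Gof F z|² ≤ ‖z‖² ∫_0^1 t² F (t z)² dt` (Cauchy-Schwarz on `[0,1]`), measurability: `(z, t) ↦ F (t z)` is
  a.e. strongly measurable on `ℂ × (0, 1)` (for `F` only a.e. strongly measurable use
  `O3R` lemmas of `Dil1` or a measurable representative: a null set `N` has `{(z, t) : t z ∈ N}` null).
* `aof_sub_le`: for a.e. `z ∈ B_R` the functions `t ↦ F (t z) t`, `t ↦ F' (t z) t` are integrable on `[0,1]`
  (from the square bound), so `Aof F z - Aof F' z = Aof (F - F') z`. -/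

open MeasureTheory Filter Topology Set
open scoped ContDiff Real

noncomputable section

namespace GO3

private theorem aofl_ball {R : ℝ} : (Metric.ball (0 : ℂ) R : Set ℂ) =ᵐ[volume] Metric.closedBall 0 R := by
  have h : volume (Metric.sphere (0 : ℂ) R) = 0 := Measure.addHaar_sphere volume 0 R
  refine ae_eq_set.2 ⟨?_, ?_⟩
  · rw [sdiff_eq_empty.2 Metric.ball_subset_closedBall]
    exact measure_empty
  · rw [Metric.closedBall_sdiff_ball]
    exact h

private theorem aofl_restr (R : ℝ) : (volume : Measure ℂ).restrict (Metric.ball 0 R) =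
    volume.restrict (Metric.closedBall 0 R) := Measure.restrict_congr_set aofl_ball

private theorem aofl_l2 {F : ℂ → ℝ} (hF : ∀ R : ℝ, MemLp F 2 (volume.restrict (Metric.ball 0 R))) :
    O3R.L2l fun z => (F z : ℂ) := by
  intro R
  rw [← aofl_restr]
  exact (hF R).ofReal

private theorem aofl_eq (F : ℂ → ℝ) (z : ℂ) :
    Aof F z = Complex.I * z * O3R.avg 1 (fun z => (F z : ℂ)) z := by
  unfold Aof Gof O3R.avg
  congr 1
  rw [← intervalIntegral.integral_ofReal]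
  refine intervalIntegral.integral_congr (fun t _ => ?_)
  simp only
  push_cast
  ring

private theorem aofl_enorm (F : ℂ → ℂ) (z : ℂ) :
    ‖O3R.avg 1 F z‖ₑ ≤ ∫⁻ t in Set.Ioc (0 : ℝ) 1, ENNReal.ofReal (t ^ 1) * ‖F (t * z)‖ₑ := by
  unfold O3R.avg
  rw [intervalIntegral.integral_of_le zero_le_one]
  refine (enorm_integral_le_lintegral_enorm _).trans ?_
  refine setLIntegral_mono' measurableSet_Ioc fun t ht => ?_
  rw [enorm_mul]
  gcongr
  rw [← ofReal_norm, Complex.norm_real, Real.norm_of_nonneg (by have := ht.1; positivity)]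

private theorem aofl_lint {F : ℂ → ℝ} (hF : ∀ R : ℝ, MemLp F 2 (volume.restrict (Metric.ball 0 R)))
    (R : ℝ) : ∫⁻ z in Metric.ball 0 R, ‖Aof F z‖ₑ ^ 2 ≤
      ENNReal.ofReal (R ^ 2) * ∫⁻ z in Metric.ball 0 R, ‖F z‖ₑ ^ 2 := by
  rw [aofl_restr]
  have h1 := O3R.avg_sq (F := fun z => (F z : ℂ)) 1 le_rfl (aofl_l2 hF).ae R
  have h2 : ∀ z : ℂ, ‖((F z : ℝ) : ℂ)‖ₑ = ‖F z‖ₑ := by
    intro z
    rw [← ofReal_norm, ← ofReal_norm, Complex.norm_real]
  simp only [h2] at h1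
  calc ∫⁻ z in Metric.closedBall 0 R, ‖Aof F z‖ₑ ^ 2
      ≤ ∫⁻ z in Metric.closedBall 0 R, ENNReal.ofReal (R ^ 2) *
        (∫⁻ t in Set.Ioc (0 : ℝ) 1, ENNReal.ofReal (t ^ 1) * ‖F (t * z)‖ₑ) ^ 2 := by
        refine setLIntegral_mono' Metric.isClosed_closedBall.measurableSet fun z hz => ?_
        rw [Metric.mem_closedBall, dist_zero_right] at hz
        rw [aofl_eq, enorm_mul, enorm_mul, mul_pow]
        have h3 : (‖Complex.I‖ₑ * ‖z‖ₑ) ^ 2 ≤ ENNReal.ofReal (R ^ 2) := by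
          have h4 : ‖Complex.I‖ₑ = 1 := by
            rw [← ofReal_norm, Complex.norm_I, ENNReal.ofReal_one]
          rw [h4, one_mul, ← ofReal_norm, ← ENNReal.ofReal_pow (norm_nonneg _)]
          refine ENNReal.ofReal_le_ofReal ?_
          exact pow_le_pow_left₀ (norm_nonneg _) hz 2
        have h5 := aofl_enorm (fun z => (F z : ℂ)) z
        simp only [h2] at h5
        exact mul_le_mul' h3 (pow_le_pow_left' h5 2)
    _ = ENNReal.ofReal (R ^ 2) * ∫⁻ z in Metric.closedBall 0 R,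
        (∫⁻ t in Set.Ioc (0 : ℝ) 1, ENNReal.ofReal (t ^ 1) * ‖F (t * z)‖ₑ) ^ 2 :=
        lintegral_const_mul' _ _ ENNReal.ofReal_ne_top
    _ ≤ _ := by gcongr

private theorem aofl_aesm {F : ℂ → ℝ}
    (hF : ∀ R : ℝ, MemLp F 2 (volume.restrict (Metric.ball 0 R))) :
    AEStronglyMeasurable (Aof F) := by
  have h1 : Aof F = fun z => Complex.I * z * O3R.avg 1 (fun z => (F z : ℂ)) z := by
    funext z
    exact aofl_eq F z
  rw [h1]
  exact (by fun_prop : Measurable fun z : ℂ => Complex.I * z).aestronglyMeasurable.mul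
    (O3R.avg_ae 1 (aofl_l2 hF).ae)

private theorem aofl_sq {V : Type*} [NormedAddCommGroup V] {u : ℂ → V} {R : ℝ} :
    ∫⁻ z in Metric.ball (0 : ℂ) R, ‖u z‖ₑ ^ (2 : ENNReal).toReal =
      ∫⁻ z in Metric.ball (0 : ℂ) R, ‖u z‖ₑ ^ 2 := by
  refine lintegral_congr fun z => ?_
  rw [ENNReal.toReal_ofNat]
  norm_cast

private theorem aofl_int {V : Type*} [NormedAddCommGroup V] {u : ℂ → V} {R : ℝ}
    (hu : AEStronglyMeasurable u (volume.restrict (Metric.ball 0 R))) :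
    ∫ z in Metric.ball (0 : ℂ) R, ‖u z‖ ^ 2 =
      (∫⁻ z in Metric.ball (0 : ℂ) R, ‖u z‖ₑ ^ 2).toReal := by
  have hm : AEStronglyMeasurable (fun z => ‖u z‖ ^ 2) (volume.restrict (Metric.ball 0 R)) :=
    hu.norm.pow 2
  rw [integral_eq_lintegral_of_nonneg_ae (ae_of_all _ fun z => by positivity) hm]
  congr 1
  refine lintegral_congr fun z => ?_
  rw [ENNReal.ofReal_pow (norm_nonneg _), ofReal_norm]

private theorem aofl_fin {V : Type*} [NormedAddCommGroup V] {u : ℂ → V} {R : ℝ}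
    (hu : MemLp u 2 (volume.restrict (Metric.ball 0 R))) :
    ∫⁻ z in Metric.ball (0 : ℂ) R, ‖u z‖ₑ ^ 2 < ⊤ := by
  have := hu.2
  rw [eLpNorm_lt_top_iff_lintegral_rpow_enorm_lt_top (by norm_num) (by norm_num), aofl_sq] at this
  exact this

private theorem aofl_ii {F : ℂ → ℝ} (hF : ∀ R : ℝ, MemLp F 2 (volume.restrict (Metric.ball 0 R)))
    (R : ℝ) : ∀ᵐ z ∂(volume.restrict (Metric.ball (0 : ℂ) R)),
      IntervalIntegrable (fun t : ℝ => F (t * z) * t) volume 0 1 := by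
  have hl := aofl_l2 hF
  have hFae : AEStronglyMeasurable F volume := by
    have h1 := hl.ae
    have h2 := Complex.continuous_re.comp_aestronglyMeasurable h1
    exact h2
  have h1 := O3R.avg_sq (F := fun z => (F z : ℂ)) 1 le_rfl hl.ae R
  rw [← aofl_restr] at h1
  have h2 : ∀ z : ℂ, ‖((F z : ℝ) : ℂ)‖ₑ = ‖F z‖ₑ := by
    intro z
    rw [← ofReal_norm, ← ofReal_norm, Complex.norm_real]
  simp only [h2] at h1
  have h3 : ∫⁻ z in Metric.ball (0 : ℂ) R,
      (∫⁻ t in Set.Ioc (0 : ℝ) 1, ENNReal.ofReal (t ^ 1) * ‖F (t * z)‖ₑ) ^ 2 < ⊤ :=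
    h1.trans_lt (aofl_fin (hF R))
  -- measurable representative
  have hmk : StronglyMeasurable (hFae.mk F) := hFae.stronglyMeasurable_mk
  have h4 : volume {z : ℂ | ¬ F z = (hFae.mk F) z} = 0 := ae_iff.1 hFae.ae_eq_mk
  have h5 := O3R.dil_null h4
  have hae : ∀ᵐ z : ℂ, ∫⁻ t in Set.Ioc (0 : ℝ) 1, ENNReal.ofReal (t ^ 1) * ‖F (t * z)‖ₑ =
      ∫⁻ t in Set.Ioc (0 : ℝ) 1, ENNReal.ofReal (t ^ 1) * ‖(hFae.mk F) (t * z)‖ₑ := by
    filter_upwards [h5] with z hz
    refine lintegral_congr_ae ?_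
    filter_upwards [hz] with t ht
    have : F (t * z) = (hFae.mk F) (t * z) := by
      by_contra hc
      exact ht hc
    rw [this]
  have hm : Measurable fun z : ℂ => (∫⁻ t in Set.Ioc (0 : ℝ) 1,
      ENNReal.ofReal (t ^ 1) * ‖(hFae.mk F) (t * z)‖ₑ) ^ 2 := by
    have h6 : Measurable fun q : ℂ × ℝ => ENNReal.ofReal (q.2 ^ 1) *
        ‖(hFae.mk F) ((q.2 : ℂ) * q.1)‖ₑ := by
      have : Measurable fun q : ℂ × ℝ => ‖(hFae.mk F) ((q.2 : ℂ) * q.1)‖ₑ :=
        hmk.measurable.enorm.comp (by fun_prop)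
      fun_prop
    exact (h6.lintegral_prod_right').pow_const 2
  have h7 : ∫⁻ z in Metric.ball (0 : ℂ) R, (∫⁻ t in Set.Ioc (0 : ℝ) 1,
      ENNReal.ofReal (t ^ 1) * ‖(hFae.mk F) (t * z)‖ₑ) ^ 2 < ⊤ := by
    refine lt_of_le_of_lt (le_of_eq ?_) h3
    refine lintegral_congr_ae (ae_restrict_of_ae ?_)
    filter_upwards [hae] with z hz
    rw [hz]
  filter_upwards [ae_lt_top hm h7.ne, ae_restrict_of_ae h5] with z hz hz5
  rw [intervalIntegrable_iff_integrableOn_Ioc_of_le zero_le_one]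
  have h8 : ∫⁻ t in Set.Ioc (0 : ℝ) 1, ENNReal.ofReal (t ^ 1) * ‖(hFae.mk F) (t * z)‖ₑ < ⊤ := by
    by_contra hc
    rw [not_lt, top_le_iff] at hc
    rw [hc] at hz
    simp at hz
  have h9 : IntegrableOn (fun t : ℝ => (hFae.mk F) (t * z) * t) (Set.Ioc 0 1) := by
    refine ⟨?_, ?_⟩
    · exact (((hmk.measurable.comp (by fun_prop : Measurable fun t : ℝ => (t : ℂ) * z)).mul
        measurable_id).stronglyMeasurable).aestronglyMeasurable
    · rw [hasFiniteIntegral_iff_enorm]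
      refine lt_of_le_of_lt ?_ h8
      refine setLIntegral_mono' measurableSet_Ioc fun t ht => ?_
      rw [enorm_mul, mul_comm, pow_one]
      gcongr
      rw [← ofReal_norm, Real.norm_of_nonneg ht.1.le]
  refine h9.congr ?_
  filter_upwards [hz5] with t ht
  have : F (t * z) = (hFae.mk F) (t * z) := by
    by_contra hc
    exact ht hc
  rw [this]

theorem aof_mem {F : ℂ → ℝ} (hF : ∀ R : ℝ, MemLp F 2 (volume.restrict (Metric.ball 0 R))) (R : ℝ) :
    MemLp (Aof F) 2 (volume.restrict (Metric.ball 0 R)) ∧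
    ∫ z in Metric.ball 0 R, ‖Aof F z‖ ^ 2 ≤ R ^ 2 * ∫ z in Metric.ball 0 R, F z ^ 2 := by
  have hl := aofl_lint hF R
  have hm : AEStronglyMeasurable (Aof F) (volume.restrict (Metric.ball 0 R)) :=
    (aofl_aesm hF).restrict
  have hfin := aofl_fin (hF R)
  have hlt : ENNReal.ofReal (R ^ 2) * ∫⁻ z in Metric.ball 0 R, ‖F z‖ₑ ^ 2 < ⊤ :=
    ENNReal.mul_lt_top ENNReal.ofReal_lt_top hfin
  refine ⟨⟨hm, ?_⟩, ?_⟩
  · rw [eLpNorm_lt_top_iff_lintegral_rpow_enorm_lt_top (by norm_num) (by norm_num), aofl_sq]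
    exact hl.trans_lt hlt
  · rw [aofl_int hm]
    have h1 : ∫ z in Metric.ball 0 R, F z ^ 2 = (∫⁻ z in Metric.ball 0 R, ‖F z‖ₑ ^ 2).toReal := by
      rw [← aofl_int (hF R).1]
      refine integral_congr_ae (ae_of_all _ fun z => ?_)
      simp only [Real.norm_eq_abs, sq_abs]
    rw [h1]
    refine (ENNReal.toReal_mono hlt.ne hl).trans (le_of_eq ?_)
    rw [ENNReal.toReal_mul, ENNReal.toReal_ofReal (sq_nonneg _)]

theorem aof_sub_le {F F' : ℂ → ℝ} (hF : ∀ R : ℝ, MemLp F 2 (volume.restrict (Metric.ball 0 R)))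
    (hF' : ∀ R : ℝ, MemLp F' 2 (volume.restrict (Metric.ball 0 R))) (R : ℝ) :
    ∫ z in Metric.ball 0 R, ‖Aof F z - Aof F' z‖ ^ 2 ≤
      R ^ 2 * ∫ z in Metric.ball 0 R, (F z - F' z) ^ 2 := by
  have hd : ∀ R : ℝ, MemLp (fun z => F z - F' z) 2 (volume.restrict (Metric.ball 0 R)) :=
    fun R => (hF R).sub (hF' R)
  refine le_trans (le_of_eq ?_) (aof_mem hd R).2
  refine integral_congr_ae ?_
  filter_upwards [aofl_ii hF R, aofl_ii hF' R] with z h1 h2
  have h3 : Aof F z - Aof F' z = Aof (fun z => F z - F' z) z := by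
    unfold Aof Gof
    rw [← mul_sub, ← Complex.ofReal_sub, ← intervalIntegral.integral_sub h1 h2]
    simp only [sub_mul]
  rw [h3]

end GO3
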