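import Pool.Agent.GO3.L.Str

/-! GO3 / L / Avg1: averages over discs.

PROOFS. `volume (ball z ε) = π ε²` (`Complex.volume_ball`), and
`∫ y in ball 0 ε, u (z - y) = ∫ y in ball z ε, u y` (substitution, `ba_eq`).
* `ba_aesm`: `(z, y) ↦ u (z - y)` is a.e. strongly measurable on the product
  (`AEStronglyMeasurable.comp_quasiMeasurePreserving`, `quasiMeasurePreserving_sub`), then
  `AEStronglyMeasurable.integral_prod_right'` for `volume.prod (volume.restrict (ball 0 ε))`
  (the restricted product measure is absolutely continuous w.r.t. the product).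
* `ba_sq_le`: Cauchy-Schwarz `‖∫_{ball z ε} u‖² ≤ π ε² ∫_{ball z ε} ‖u‖²`.
* `ba_int_sq`: `∫ ‖ba ε u z‖² dz ≤ (1/(π ε²)) ∫ ∫_{ball 0 ε} ‖u (z - y)‖² dy dz = ∫ ‖u‖²` (Fubini,
  `integral_prod`, translation invariance).
* `ba_ss`: for `z ∈ ball 0 R` the ball `ball z ε` lies in `ball 0 (R + ε)`; the test
  `g = (ball z ε).indicator 1` gives `ba ε (u k) z → ba ε v z`; `‖ba ε (u k) z‖² ≤ C / (π ε²)` (`ba_sq_le`), the
  same bound for the limit; dominated convergence on `ball 0 R` (finite measure). -/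

open MeasureTheory Filter Topology Set
open scoped ContDiff Real

noncomputable section

namespace GO3

theorem ba_eq {V : Type*} [NormedAddCommGroup V] [NormedSpace ℝ V] (ε : ℝ) (u : ℂ → V) (z : ℂ) :
    ba ε u z = (1 / (π * ε ^ 2)) • ∫ y in Metric.ball z ε, u y := by
  unfold ba
  congr 1
  rw [← integral_indicator Metric.isOpen_ball.measurableSet,
    ← integral_indicator Metric.isOpen_ball.measurableSet,
    ← integral_sub_left_eq_self (fun y => (Metric.ball z ε).indicator u y) volume z]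
  congr 1
  funext y
  have h : z - y ∈ Metric.ball z ε ↔ y ∈ Metric.ball (0 : ℂ) ε := by
    simp [Metric.mem_ball, dist_eq_norm]
  by_cases hy : y ∈ Metric.ball (0 : ℂ) ε
  · rw [indicator_of_mem hy, indicator_of_mem (h.2 hy)]
  · rw [indicator_of_notMem hy, indicator_of_notMem (fun h' => hy (h.1 h'))]

theorem ba_aesm {V : Type*} [NormedAddCommGroup V] [NormedSpace ℝ V] {ε : ℝ} {u : ℂ → V}
    (hu : AEStronglyMeasurable u) : AEStronglyMeasurable (ba ε u) := by
  have h1 : AEStronglyMeasurable (fun p : ℂ × ℂ => u (p.1 - p.2)) (volume.prod volume) :=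
    hu.comp_quasiMeasurePreserving (quasiMeasurePreserving_sub_of_right_invariant volume volume)
  have h2 : AEStronglyMeasurable (fun p : ℂ × ℂ => u (p.1 - p.2))
      (volume.prod (volume.restrict (Metric.ball (0 : ℂ) ε))) :=
    h1.mono_ac (Measure.AbsolutelyContinuous.rfl.prod Measure.restrict_le_self.absolutelyContinuous)
  exact (h2.integral_prod_right').const_smul _

theorem ba_ofReal (ε : ℝ) (u : ℂ → ℝ) (z : ℂ) :
    ba ε (fun z => (u z : ℂ)) z = ((ba ε u z : ℝ) : ℂ) := by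
  unfold ba
  have h : ∫ y in Metric.ball (0 : ℂ) ε, ((u (z - y) : ℝ) : ℂ)
      = ((∫ y in Metric.ball (0 : ℂ) ε, u (z - y) : ℝ) : ℂ) := integral_ofReal
  simp only
  rw [h, Complex.real_smul, smul_eq_mul]
  push_cast
  rfl

theorem vol_ball_real {ε : ℝ} (hε : 0 < ε) (z : ℂ) :
    volume.real (Metric.ball z ε) = π * ε ^ 2 := by
  rw [Measure.real, Complex.volume_ball, ENNReal.toReal_mul, ENNReal.toReal_pow,
    ENNReal.toReal_ofReal hε.le]
  simp [mul_comm]

theorem ba_sq_le {ε : ℝ} (hε : 0 < ε) {u : ℂ → ℂ} {z : ℂ}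
    (hu : MemLp u 2 (volume.restrict (Metric.ball z ε))) :
    ‖ba ε u z‖ ^ 2 ≤ 1 / (π * ε ^ 2) * ∫ y in Metric.ball z ε, ‖u y‖ ^ 2 := by
  have hfin : IsFiniteMeasure (volume.restrict (Metric.ball z ε)) :=
    ⟨by rw [Measure.restrict_apply_univ]; exact measure_ball_lt_top⟩
  have hv := vol_ball_real hε z
  have hp : 0 < π * ε ^ 2 := mul_pos Real.pi_pos (by positivity)
  have h1 := csq (S := Metric.ball z ε) hu (memLp_const (1 : ℂ))
  have h2 : ∫ y in Metric.ball z ε, ‖(1 : ℂ)‖ ^ 2 = π * ε ^ 2 := by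
    simp [hv]
  rw [h2] at h1
  simp only [mul_one] at h1
  rw [ba_eq, norm_smul, mul_pow, Real.norm_of_nonneg (by positivity)]
  calc (1 / (π * ε ^ 2)) ^ 2 * ‖∫ y in Metric.ball z ε, u y‖ ^ 2
      ≤ (1 / (π * ε ^ 2)) ^ 2 * ((∫ y in Metric.ball z ε, ‖u y‖ ^ 2) * (π * ε ^ 2)) := by
        gcongr
    _ = 1 / (π * ε ^ 2) * ∫ y in Metric.ball z ε, ‖u y‖ ^ 2 := by
        field_simp

theorem ba_l1 {ε : ℝ} (hε : 0 < ε) {f : ℂ → ℝ} (hf : Integrable f) :
    Integrable (ba ε f) ∧ ∫ z, ba ε f z = ∫ z, f z := by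
  have hfin : IsFiniteMeasure (volume.restrict (Metric.ball (0 : ℂ) ε)) :=
    ⟨by rw [Measure.restrict_apply_univ]; exact measure_ball_lt_top⟩
  have hv := vol_ball_real hε 0
  have hp : 0 < π * ε ^ 2 := mul_pos Real.pi_pos (by positivity)
  have hmp := measurePreserving_prod_sub (volume.restrict (Metric.ball (0 : ℂ) ε))
    (volume : Measure ℂ)
  have h0 : Integrable (fun p : ℂ × ℂ => f p.2)
      ((volume.restrict (Metric.ball (0 : ℂ) ε)).prod volume) := hf.comp_snd _
  have h1 : Integrable (fun p : ℂ × ℂ => f (p.2 - p.1))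
      ((volume.restrict (Metric.ball (0 : ℂ) ε)).prod volume) := hmp.integrable_comp_of_integrable h0
  have h2 : Integrable fun z => ∫ y in Metric.ball (0 : ℂ) ε, f (z - y) := h1.integral_prod_right
  have h3 : ∫ p, f (p.2 - p.1) ∂((volume.restrict (Metric.ball (0 : ℂ) ε)).prod volume)
      = ∫ p : ℂ × ℂ, f p.2 ∂((volume.restrict (Metric.ball (0 : ℂ) ε)).prod volume) := by
    have h4 := hmp.map_eq
    conv_rhs => rw [← h4]
    rw [integral_map hmp.measurable.aemeasurable]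
    rw [h4]
    exact h0.aestronglyMeasurable
  have h5 : ∫ z, ∫ y in Metric.ball (0 : ℂ) ε, f (z - y) = (π * ε ^ 2) * ∫ z, f z := by
    rw [← integral_prod_symm _ h1, h3, integral_prod _ h0]
    simp [hv]
  refine ⟨h2.smul (1 / (π * ε ^ 2)), ?_⟩
  unfold ba
  rw [integral_smul, h5, smul_eq_mul]
  field_simp

theorem ba_int_sq {ε : ℝ} (hε : 0 < ε) {u : ℂ → ℂ} (hu : MemLp u 2) :
    MemLp (ba ε u) 2 ∧ ∫ z, ‖ba ε u z‖ ^ 2 ≤ ∫ z, ‖u z‖ ^ 2 := by
  have hf : Integrable fun z => ‖u z‖ ^ 2 := hu.integrable_norm_pow (by norm_num)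
  obtain ⟨h1, h2⟩ := ba_l1 hε hf
  have hle : ∀ z, ‖ba ε u z‖ ^ 2 ≤ ba ε (fun z => ‖u z‖ ^ 2) z := by
    intro z
    rw [ba_eq ε (fun z => ‖u z‖ ^ 2), smul_eq_mul]
    exact ba_sq_le hε (hu.mono_measure Measure.restrict_le_self)
  have hm := ba_aesm (ε := ε) hu.aestronglyMeasurable
  have hi : Integrable fun z => ‖ba ε u z‖ ^ 2 := by
    refine h1.mono' (hm.norm.pow 2) (Eventually.of_forall fun z => ?_)
    rw [Real.norm_of_nonneg (by positivity)]
    exact hle z
  refine ⟨?_, ?_⟩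
  · exact (memLp_two_iff_integrable_sq_norm hm).2 hi
  · calc ∫ z, ‖ba ε u z‖ ^ 2 ≤ ∫ z, ba ε (fun z => ‖u z‖ ^ 2) z :=
        integral_mono hi h1 hle
      _ = _ := h2

theorem ba_ss {ε R : ℝ} (hε : 0 < ε) {u : ℕ → ℂ → ℂ} {v : ℂ → ℂ}
    (hm : ∀ k, AEStronglyMeasurable (u k)) (hm' : AEStronglyMeasurable v)
    (hu : ∀ k, MemLp (u k) 2 (volume.restrict (Metric.ball 0 (R + ε))))
    (hv : MemLp v 2 (volume.restrict (Metric.ball 0 (R + ε)))) {C : ℝ}
    (hC : ∀ k, ∫ z in Metric.ball 0 (R + ε), ‖u k z‖ ^ 2 ≤ C)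
    (hw : Ws (Metric.ball 0 (R + ε)) u v) :
    Ss (Metric.ball 0 R) (fun k => ba ε (u k)) (ba ε v) := by
  have hp : 0 < π * ε ^ 2 := mul_pos Real.pi_pos (by positivity)
  have hsub : ∀ z ∈ Metric.ball (0 : ℂ) R, Metric.ball z ε ⊆ Metric.ball (0 : ℂ) (R + ε) := by
    intro z hz y hy
    rw [Metric.mem_ball] at *
    calc dist y 0 ≤ dist y z + dist z 0 := dist_triangle _ _ _
      _ < R + ε := by linarith
  have hC0 : 0 ≤ C := le_trans (integral_nonneg fun z => by positivity) (hC 0)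
  have hb : ∀ (f : ℂ → ℂ), MemLp f 2 (volume.restrict (Metric.ball 0 (R + ε))) →
      ∀ z ∈ Metric.ball (0 : ℂ) R, ‖ba ε f z‖ ^ 2 ≤
        1 / (π * ε ^ 2) * ∫ z in Metric.ball (0 : ℂ) (R + ε), ‖f z‖ ^ 2 := by
    intro f hf z hz
    refine (ba_sq_le hε (hf.mono_measure (Measure.restrict_mono (hsub z hz) le_rfl))).trans ?_
    refine mul_le_mul_of_nonneg_left ?_ (by positivity)
    exact setIntegral_mono_set (hf.integrable_norm_pow (by norm_num))
      (Eventually.of_forall fun z => by positivity) (hsub z hz).eventuallyLE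
  have hlim : ∀ z ∈ Metric.ball (0 : ℂ) R,
      Tendsto (fun k => ba ε (u k) z) atTop (𝓝 (ba ε v z)) := by
    intro z hz
    have hg : MemLp ((Metric.ball z ε).indicator fun _ => (1 : ℂ)) 2 :=
      memLp_indicator_const 2 Metric.isOpen_ball.measurableSet 1 (Or.inr measure_ball_lt_top.ne)
    have h1 := hw _ hg (fun y hy => indicator_of_notMem (fun h => hy (hsub z hz h)) _)
    have h2 : ∀ f : ℂ → ℂ, ∫ y, f y * (Metric.ball z ε).indicator (fun _ => (1 : ℂ)) y
        = ∫ y in Metric.ball z ε, f y := by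
      intro f
      rw [← integral_indicator Metric.isOpen_ball.measurableSet]
      congr 1
      funext y
      by_cases hy : y ∈ Metric.ball z ε
      · rw [indicator_of_mem hy, indicator_of_mem hy, mul_one]
      · rw [indicator_of_notMem hy, indicator_of_notMem hy, mul_zero]
    simp only [h2] at h1
    simp only [ba_eq]
    exact h1.const_smul _
  set M : ℝ := Real.sqrt (1 / (π * ε ^ 2) * C) with hM
  have hbM : ∀ k, ∀ z ∈ Metric.ball (0 : ℂ) R, ‖ba ε (u k) z‖ ≤ M := by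
    intro k z hz
    refine Real.le_sqrt_of_sq_le ((hb _ (hu k) z hz).trans ?_)
    exact mul_le_mul_of_nonneg_left (hC k) (by positivity)
  have hS : volume (Metric.ball (0 : ℂ) R) < ⊤ := measure_ball_lt_top
  have hms : MeasurableSet (Metric.ball (0 : ℂ) R) := Metric.isOpen_ball.measurableSet
  have key := Ss.of_ae (S := Metric.ball (0 : ℂ) R)
    (m := fun k => (Metric.ball (0 : ℂ) R).indicator (ba ε (u k)))
    (m₀ := (Metric.ball (0 : ℂ) R).indicator (ba ε v)) hS
    (fun k => (ba_aesm (hm k)).indicator hms) (M := M)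
    (fun k z => by
      by_cases hz : z ∈ Metric.ball (0 : ℂ) R
      · simp only [indicator_of_mem hz]; exact hbM k z hz
      · simp only [indicator_of_notMem hz, norm_zero]; exact Real.sqrt_nonneg _)
    (Eventually.of_forall fun z => by
      by_cases hz : z ∈ Metric.ball (0 : ℂ) R
      · simp only [indicator_of_mem hz]; exact hlim z hz
      · simp only [indicator_of_notMem hz]; exact tendsto_const_nhds)
  have hae : ∀ f : ℂ → ℂ, (Metric.ball (0 : ℂ) R).indicator f
      =ᵐ[volume.restrict (Metric.ball (0 : ℂ) R)] f := fun f => indicator_ae_eq_restrict hms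
  refine ⟨fun k => (key.mu k).ae_eq (hae _), key.mv.ae_eq (hae _), ?_⟩
  refine key.lim.congr fun k => ?_
  refine setIntegral_congr_fun hms fun z hz => ?_
  simp only [indicator_of_mem hz]

end GO3
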