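import Pool.Agent.GO3.L.Avg1

/-! GO3 / L / Avg2: the distance of a `C¹` function from its averages; strong local compactness.

Write `Γ u z = ‖∂₁ u‖² + ‖∂₂ u‖²` (`Gam`).
PROOFS.
* `shift_le` (fixed `y`): `u z - u (z - y) = ∫_0^1 du_{z - t y} (y) dt`, `‖du_x (y)‖² ≤ ‖y‖² Γ u x`
  (`du (y) = y₁ ∂₁ u + y₂ ∂₂ u`, Cauchy-Schwarz), so `‖u z - u (z - y)‖² ≤ ‖y‖² ∫_0^1 Γ u (z - t y) dt`;
  integrate over `z ∈ B_R`, Fubini, and `∫_{B_R} Γ u (z - t y) dz ≤ ∫_{B_{R + ‖y‖}} Γ u`.
* `ba_grad`: `u z - ba ε u z = (1/(π ε²)) ∫_{ball 0 ε} (u z - u (z - y)) dy`, so by Cauchy-Schwarz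
  `‖u z - ba ε u z‖² ≤ (1/(π ε²)) ∫_{ball 0 ε} ‖u z - u (z - y)‖² dy`; integrate over `B_R` (Fubini: the
  integrand is continuous in `(z, y)`, bounded sets) and use `shift_le`, `B_{R + ‖y‖} ⊆ B_{R + ε}`.
* `ss_of_grad`: `Ss.of_approx` with `s = ba ε (u k)`, `t = ba ε v` (`ba_ss`), `ε` small such that `ε ≤ 1` and
  `ε² C_{R + 1} ≤ e`. -/

open MeasureTheory Filter Topology Set
open scoped ContDiff Real

noncomputable section

namespace GO3

/-- squared norm of the gradient -/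
def Gam (u : ℂ → ℂ) (z : ℂ) : ℝ := ‖fderiv ℝ u z 1‖ ^ 2 + ‖fderiv ℝ u z Complex.I‖ ^ 2

private theorem gam_cont {u : ℂ → ℂ} (hu : ContDiff ℝ 1 u) : Continuous (Gam u) := by
  have h := hu.continuous_fderiv one_ne_zero
  unfold Gam
  exact ((h.clm_apply continuous_const).norm.pow 2).add
    ((h.clm_apply continuous_const).norm.pow 2)

private theorem gam_nonneg (u : ℂ → ℂ) (z : ℂ) : 0 ≤ Gam u z := by
  unfold Gam; positivity

private theorem int_ball {f : ℂ → ℝ} (hf : Continuous f) (c : ℂ) (R : ℝ) :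
    IntegrableOn f (Metric.ball c R) :=
  (hf.continuousOn.integrableOn_compact (isCompact_closedBall c R)).mono_set
    Metric.ball_subset_closedBall

private theorem memLp_ball {f : ℂ → ℂ} (hf : Continuous f) (c : ℂ) (R : ℝ) :
    MemLp f 2 (volume.restrict (Metric.ball c R)) :=
  (memLp_two_iff_integrable_sq_norm hf.aestronglyMeasurable).2
    (int_ball (hf.norm.pow 2) c R)

private theorem sq_int_le {f : ℝ → ℝ} (hf : Continuous f) :
    (∫ t in (0 : ℝ)..1, f t) ^ 2 ≤ ∫ t in (0 : ℝ)..1, f t ^ 2 := by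
  set c := ∫ t in (0 : ℝ)..1, f t with hc
  have h1 : 0 ≤ ∫ t in (0 : ℝ)..1, (f t - c) ^ 2 :=
    intervalIntegral.integral_nonneg zero_le_one (fun t _ => sq_nonneg _)
  have h2 : ∫ t in (0 : ℝ)..1, (f t - c) ^ 2 = (∫ t in (0 : ℝ)..1, f t ^ 2) - c ^ 2 := by
    have e : ∀ t, (f t - c) ^ 2 = f t ^ 2 - (2 * c * f t - c ^ 2) := by intro t; ring
    have i1 : IntervalIntegrable (fun t => f t ^ 2) volume 0 1 := (hf.pow 2).intervalIntegrable 0 1
    have i2 : IntervalIntegrable (fun t => 2 * c * f t) volume 0 1 :=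
      (continuous_const.mul hf).intervalIntegrable 0 1
    have i3 : IntervalIntegrable (fun _ : ℝ => c ^ 2) volume 0 1 :=
      continuous_const.intervalIntegrable 0 1
    have i4 : IntervalIntegrable (fun t => 2 * c * f t - c ^ 2) volume 0 1 := i2.sub i3
    simp_rw [e]
    rw [intervalIntegral.integral_sub i1 i4, intervalIntegral.integral_sub i2 i3,
      intervalIntegral.integral_const_mul, intervalIntegral.integral_const, ← hc]
    simp only [sub_zero, one_smul]
    ring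
  linarith

private theorem fd_le (u : ℂ → ℂ) (x y : ℂ) : ‖fderiv ℝ u x y‖ ^ 2 ≤ ‖y‖ ^ 2 * Gam u x := by
  have h1 : y = y.re • (1 : ℂ) + y.im • Complex.I := by
    apply Complex.ext <;> simp
  have h2 : fderiv ℝ u x y = y.re • fderiv ℝ u x 1 + y.im • fderiv ℝ u x Complex.I := by
    conv_lhs => rw [h1]
    rw [map_add, map_smul, map_smul]
  have h3 : ‖fderiv ℝ u x y‖ ≤ |y.re| * ‖fderiv ℝ u x 1‖ + |y.im| * ‖fderiv ℝ u x Complex.I‖ := by
    rw [h2]
    refine (norm_add_le _ _).trans_eq ?_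
    rw [norm_smul, norm_smul, Real.norm_eq_abs, Real.norm_eq_abs]
  have h4 : ‖y‖ ^ 2 = |y.re| ^ 2 + |y.im| ^ 2 := by
    rw [Complex.sq_norm, Complex.normSq_apply, sq_abs, sq_abs]
    ring
  have h5 : ‖fderiv ℝ u x y‖ ^ 2
      ≤ (|y.re| * ‖fderiv ℝ u x 1‖ + |y.im| * ‖fderiv ℝ u x Complex.I‖) ^ 2 :=
    pow_le_pow_left₀ (norm_nonneg _) h3 2
  refine h5.trans ?_
  rw [h4]
  unfold Gam
  nlinarith [sq_nonneg (|y.re| * ‖fderiv ℝ u x Complex.I‖ - |y.im| * ‖fderiv ℝ u x 1‖)]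

private theorem line_cont {f : ℂ → ℝ} (hf : Continuous f) (z y : ℂ) :
    Continuous fun t : ℝ => f (z - (t : ℂ) * y) :=
  hf.comp (continuous_const.sub (Complex.continuous_ofReal.mul continuous_const))

private theorem pt_le {u : ℂ → ℂ} (hu : ContDiff ℝ 1 u) (z y : ℂ) :
    ‖u z - u (z - y)‖ ^ 2 ≤ ‖y‖ ^ 2 * ∫ t in (0 : ℝ)..1, Gam u (z - (t : ℂ) * y) := by
  have hcf := hu.continuous_fderiv one_ne_zero
  have hg : ∀ t : ℝ, HasDerivAt (fun t : ℝ => u (z - (t : ℂ) * y))
      (fderiv ℝ u (z - (t : ℂ) * y) (-y)) t := by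
    intro t
    have h1 : HasDerivAt (fun t : ℝ => z - (t : ℂ) * y) (-y) t := by
      have h2 : HasDerivAt (fun t : ℝ => (t : ℂ) * y) (1 * y) t :=
        (Complex.ofRealCLM.hasDerivAt (x := t)).mul_const y
      rw [one_mul] at h2
      exact h2.const_sub z
    have h3 := (hu.differentiable one_ne_zero (z - (t : ℂ) * y)).hasFDerivAt
    exact h3.comp_hasDerivAt t h1
  have hcont : Continuous fun t : ℝ => fderiv ℝ u (z - (t : ℂ) * y) (-y) :=
    (hcf.comp (continuous_const.sub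
      (Complex.continuous_ofReal.mul continuous_const))).clm_apply continuous_const
  have hftc := intervalIntegral.integral_eq_sub_of_hasDerivAt (a := 0) (b := 1)
    (fun t _ => hg t) (hcont.intervalIntegrable 0 1)
  have h1 : ‖u z - u (z - y)‖ ≤ ∫ t in (0 : ℝ)..1, ‖fderiv ℝ u (z - (t : ℂ) * y) (-y)‖ := by
    have h2 : ‖u z - u (z - y)‖ = ‖∫ t in (0 : ℝ)..1, fderiv ℝ u (z - (t : ℂ) * y) (-y)‖ := by
      rw [hftc, norm_sub_rev]
      simp
    rw [h2]
    exact intervalIntegral.norm_integral_le_integral_norm zero_le_one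
  calc ‖u z - u (z - y)‖ ^ 2
      ≤ (∫ t in (0 : ℝ)..1, ‖fderiv ℝ u (z - (t : ℂ) * y) (-y)‖) ^ 2 :=
        pow_le_pow_left₀ (norm_nonneg _) h1 2
    _ ≤ ∫ t in (0 : ℝ)..1, ‖fderiv ℝ u (z - (t : ℂ) * y) (-y)‖ ^ 2 := sq_int_le hcont.norm
    _ ≤ ∫ t in (0 : ℝ)..1, ‖y‖ ^ 2 * Gam u (z - (t : ℂ) * y) := by
        apply intervalIntegral.integral_mono_on zero_le_one
          ((hcont.norm.pow 2).intervalIntegrable 0 1)
          ((continuous_const.mul (line_cont (gam_cont hu) z y)).intervalIntegrable 0 1)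
        intro t _
        have := fd_le u (z - (t : ℂ) * y) (-y)
        rwa [norm_neg] at this
    _ = ‖y‖ ^ 2 * ∫ t in (0 : ℝ)..1, Gam u (z - (t : ℂ) * y) :=
        intervalIntegral.integral_const_mul _ _

private theorem tr_le {f : ℂ → ℝ} (hf : Continuous f) (h0 : ∀ z, 0 ≤ f z) (R r : ℝ) (y : ℂ)
    (hy : ‖y‖ ≤ r) :
    ∫ z in Metric.ball 0 R, f (z - y) ≤ ∫ z in Metric.ball 0 (R + r), f z := by
  have h1 : ∫ z in Metric.ball 0 R, f (z - y) = ∫ z in Metric.ball (-y) R, f z := by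
    rw [← integral_indicator measurableSet_ball, ← integral_indicator measurableSet_ball,
      ← integral_sub_right_eq_self (fun z => (Metric.ball (-y) R).indicator f z) y]
    congr 1
    ext z
    have h2 : z ∈ Metric.ball (0 : ℂ) R ↔ z - y ∈ Metric.ball (-y) R := by
      rw [Metric.mem_ball, Metric.mem_ball, dist_eq_norm, dist_eq_norm]
      have : z - y - -y = z - 0 := by ring
      rw [this]
    by_cases hz : z ∈ Metric.ball (0 : ℂ) R
    · rw [Set.indicator_of_mem hz, Set.indicator_of_mem (h2.1 hz)]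
    · rw [Set.indicator_of_notMem hz, Set.indicator_of_notMem (fun h => hz (h2.2 h))]
  rw [h1]
  refine setIntegral_mono_set (int_ball hf 0 (R + r)) (ae_of_all _ h0)
    (Metric.ball_subset_ball' ?_).eventuallyLE
  rw [dist_zero_right, norm_neg]
  linarith

/-- integrability on a product of two bounded sets -/
private theorem int_prod {X Y : Type*} [MeasureSpace X] [MeasureSpace Y] [TopologicalSpace X]
    [TopologicalSpace Y] [SFinite (volume : Measure X)] [SFinite (volume : Measure Y)]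
    [OpensMeasurableSpace X] [OpensMeasurableSpace Y] [OpensMeasurableSpace (X × Y)]
    [T2Space X] [T2Space Y]
    [IsFiniteMeasureOnCompacts ((volume : Measure X).prod (volume : Measure Y))]
    {f : X × Y → ℝ} (hf : Continuous f)
    {s K : Set X} {t L : Set Y} (hs : s ⊆ K) (ht : t ⊆ L) (hK : IsCompact K) (hL : IsCompact L) :
    Integrable f ((volume.restrict s).prod (volume.restrict t)) := by
  rw [Measure.prod_restrict]
  exact (hf.continuousOn.integrableOn_compact (hK.prod hL)).mono_set (Set.prod_mono hs ht)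

theorem shift_le {u : ℂ → ℂ} (hu : ContDiff ℝ 1 u) (R : ℝ) (y : ℂ) :
    ∫ z in Metric.ball 0 R, ‖u z - u (z - y)‖ ^ 2 ≤
      ‖y‖ ^ 2 * ∫ z in Metric.ball 0 (R + ‖y‖), Gam u z := by
  set C := ∫ z in Metric.ball 0 (R + ‖y‖), Gam u z with hC
  have hF : Continuous fun p : ℂ × ℝ => Gam u (p.1 - (p.2 : ℂ) * y) :=
    (gam_cont hu).comp (continuous_fst.sub
      ((Complex.continuous_ofReal.comp continuous_snd).mul continuous_const))
  have hint : Integrable (fun p : ℂ × ℝ => Gam u (p.1 - (p.2 : ℂ) * y))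
      ((volume.restrict (Metric.ball (0 : ℂ) R)).prod (volume.restrict (Ioc (0 : ℝ) 1))) :=
    int_prod hF Metric.ball_subset_closedBall Ioc_subset_Icc_self (isCompact_closedBall 0 R)
      isCompact_Icc
  have h1 : ∫ z in Metric.ball 0 R, ‖u z - u (z - y)‖ ^ 2 ≤
      ∫ z in Metric.ball (0 : ℂ) R, ‖y‖ ^ 2 * ∫ t in Ioc (0 : ℝ) 1, Gam u (z - (t : ℂ) * y) := by
    apply integral_mono_of_nonneg (ae_of_all _ fun z => by positivity)
      (hint.integral_prod_left.const_mul _)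
    refine ae_of_all _ fun z => ?_
    have := pt_le hu z y
    rwa [intervalIntegral.integral_of_le zero_le_one] at this
  refine h1.trans ?_
  rw [integral_const_mul]
  refine mul_le_mul_of_nonneg_left ?_ (by positivity)
  have h2 : ∫ z in Metric.ball (0 : ℂ) R, ∫ t in Ioc (0 : ℝ) 1, Gam u (z - (t : ℂ) * y)
      = ∫ t in Ioc (0 : ℝ) 1, ∫ z in Metric.ball (0 : ℂ) R, Gam u (z - (t : ℂ) * y) :=
    integral_integral_swap (f := fun (z : ℂ) (t : ℝ) => Gam u (z - (t : ℂ) * y)) hint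
  rw [h2]
  have h3 : ∫ t in Ioc (0 : ℝ) 1, ∫ z in Metric.ball (0 : ℂ) R, Gam u (z - (t : ℂ) * y)
      ≤ ∫ _t in Ioc (0 : ℝ) 1, C := by
    have h5 : ∀ t ∈ Ioc (0 : ℝ) 1,
        ∫ z in Metric.ball (0 : ℂ) R, Gam u (z - (t : ℂ) * y) ≤ C := by
      intro t ht
      refine tr_le (gam_cont hu) (gam_nonneg u) R ‖y‖ ((t : ℂ) * y) ?_
      rw [norm_mul, Complex.norm_real, Real.norm_eq_abs, abs_of_pos ht.1]
      exact mul_le_of_le_one_left (norm_nonneg _) ht.2
    exact setIntegral_mono_on hint.integral_prod_right (by simp) measurableSet_Ioc h5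
  refine h3.trans_eq ?_
  simp

theorem ba_grad {u : ℂ → ℂ} (hu : ContDiff ℝ 1 u) {ε : ℝ} (hε : 0 < ε) (R : ℝ) :
    ∫ z in Metric.ball 0 R, ‖u z - ba ε u z‖ ^ 2 ≤ ε ^ 2 * ∫ z in Metric.ball 0 (R + ε), Gam u z := by
  have hpi : 0 < π * ε ^ 2 := by positivity
  have hvol : volume.real (Metric.ball (0 : ℂ) ε) = π * ε ^ 2 := by
    rw [Measure.real, Complex.volume_ball, ENNReal.toReal_mul, ENNReal.toReal_pow,
      ENNReal.toReal_ofReal hε.le]
    simp [mul_comm]
  have huc := hu.continuous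
  -- the pointwise bound
  have hpt : ∀ z : ℂ, ‖u z - ba ε u z‖ ^ 2 ≤
      1 / (π * ε ^ 2) * ∫ y in Metric.ball (0 : ℂ) ε, ‖u z - u (z - y)‖ ^ 2 := by
    intro z
    have hU : Continuous fun w => u z - u w := continuous_const.sub huc
    have h1 := ba_sq_le hε (u := fun w => u z - u w) (z := z) (memLp_ball hU z ε)
    have h2 : ba ε (fun w => u z - u w) z = u z - ba ε u z := by
      unfold ba
      have hi : IntegrableOn (fun y => u (z - y)) (Metric.ball (0 : ℂ) ε) :=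
        ((huc.comp (continuous_const.sub continuous_id)).continuousOn.integrableOn_compact
          (isCompact_closedBall (0 : ℂ) ε)).mono_set Metric.ball_subset_closedBall
      have hc : IntegrableOn (fun _ : ℂ => u z) (Metric.ball (0 : ℂ) ε) :=
        (continuous_const.continuousOn.integrableOn_compact
          (isCompact_closedBall (0 : ℂ) ε)).mono_set Metric.ball_subset_closedBall
      rw [integral_sub hc hi, smul_sub, setIntegral_const, hvol, smul_smul,
        one_div_mul_cancel hpi.ne', one_smul]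
    have h3 : (1 / (π * ε ^ 2)) • ∫ y in Metric.ball z ε, ‖u z - u y‖ ^ 2 =
        (1 / (π * ε ^ 2)) • ∫ y in Metric.ball (0 : ℂ) ε, ‖u z - u (z - y)‖ ^ 2 := by
      rw [← ba_eq ε (fun w => ‖u z - u w‖ ^ 2) z]
      rfl
    rw [smul_eq_mul, smul_eq_mul] at h3
    rw [h2, h3] at h1
    exact h1
  set C := ∫ z in Metric.ball 0 (R + ε), Gam u z with hC
  have hC0 : 0 ≤ C := integral_nonneg (gam_nonneg u)
  have hF : Continuous fun p : ℂ × ℂ => ‖u p.1 - u (p.1 - p.2)‖ ^ 2 :=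
    ((huc.comp continuous_fst).sub
      (huc.comp (continuous_fst.sub continuous_snd))).norm.pow 2
  have hint : Integrable (fun p : ℂ × ℂ => ‖u p.1 - u (p.1 - p.2)‖ ^ 2)
      ((volume.restrict (Metric.ball (0 : ℂ) R)).prod
        (volume.restrict (Metric.ball (0 : ℂ) ε))) :=
    int_prod hF Metric.ball_subset_closedBall Metric.ball_subset_closedBall
      (isCompact_closedBall 0 R) (isCompact_closedBall 0 ε)
  have h1 : ∫ z in Metric.ball 0 R, ‖u z - ba ε u z‖ ^ 2 ≤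
      ∫ z in Metric.ball (0 : ℂ) R,
        1 / (π * ε ^ 2) * ∫ y in Metric.ball (0 : ℂ) ε, ‖u z - u (z - y)‖ ^ 2 :=
    integral_mono_of_nonneg (ae_of_all _ fun z => by positivity)
      (hint.integral_prod_left.const_mul _) (ae_of_all _ hpt)
  refine h1.trans ?_
  rw [integral_const_mul]
  have h2 : ∫ z in Metric.ball (0 : ℂ) R, ∫ y in Metric.ball (0 : ℂ) ε, ‖u z - u (z - y)‖ ^ 2
      = ∫ y in Metric.ball (0 : ℂ) ε, ∫ z in Metric.ball (0 : ℂ) R, ‖u z - u (z - y)‖ ^ 2 :=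
    integral_integral_swap (f := fun (z y : ℂ) => ‖u z - u (z - y)‖ ^ 2) hint
  rw [h2]
  have h3 : ∫ y in Metric.ball (0 : ℂ) ε, ∫ z in Metric.ball (0 : ℂ) R, ‖u z - u (z - y)‖ ^ 2
      ≤ ∫ _y in Metric.ball (0 : ℂ) ε, ε ^ 2 * C := by
    have h5 : ∀ y ∈ Metric.ball (0 : ℂ) ε,
        ∫ z in Metric.ball (0 : ℂ) R, ‖u z - u (z - y)‖ ^ 2 ≤ ε ^ 2 * C := by
      intro y hy
      have hy' : ‖y‖ < ε := by simpa using hy
      refine (shift_le hu R y).trans ?_
      apply mul_le_mul (pow_le_pow_left₀ (norm_nonneg _) hy'.le 2) _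
        (integral_nonneg (gam_nonneg u)) (by positivity)
      exact setIntegral_mono_set (int_ball (gam_cont hu) 0 (R + ε))
        (ae_of_all _ (gam_nonneg u)) (Metric.ball_subset_ball (by linarith)).eventuallyLE
    exact setIntegral_mono_on hint.integral_prod_right
      (integrableOn_const measure_ball_lt_top.ne) measurableSet_ball h5
  have h4 : ∫ _y in Metric.ball (0 : ℂ) ε, ε ^ 2 * C = π * ε ^ 2 * (ε ^ 2 * C) := by
    rw [setIntegral_const, hvol, smul_eq_mul]
  rw [h4] at h3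
  calc 1 / (π * ε ^ 2) *
        ∫ y in Metric.ball (0 : ℂ) ε, ∫ z in Metric.ball (0 : ℂ) R, ‖u z - u (z - y)‖ ^ 2
      ≤ 1 / (π * ε ^ 2) * (π * ε ^ 2 * (ε ^ 2 * C)) :=
        mul_le_mul_of_nonneg_left h3 (by positivity)
    _ = ε ^ 2 * C := by
        rw [← mul_assoc, one_div_mul_cancel hpi.ne', one_mul]

theorem ss_of_grad {u : ℕ → ℂ → ℂ} {v : ℂ → ℂ} (hu : ∀ k, ContDiff ℝ 1 (u k))
    (hm : AEStronglyMeasurable v) (hv : ∀ R, MemLp v 2 (volume.restrict (Metric.ball 0 R)))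
    (hb : ∀ R : ℝ, ∃ C, ∀ k, ∫ z in Metric.ball 0 R, (‖u k z‖ ^ 2 + Gam (u k) z) ≤ C)
    (hw : ∀ R, Ws (Metric.ball 0 R) u v) (R : ℝ) : Ss (Metric.ball 0 R) u v := by
  have hcs : ∀ k, Continuous fun z => ‖u k z‖ ^ 2 := fun k => (hu k).continuous.norm.pow 2
  have hcg : ∀ k, Continuous fun z => ‖u k z‖ ^ 2 + Gam (u k) z := fun k =>
    (hcs k).add (gam_cont (hu k))
  refine Ss.of_approx measurableSet_ball (fun k => memLp_ball (hu k).continuous 0 R) (hv R)
    (hw R) fun e he => ?_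
  obtain ⟨C, hC⟩ := hb (R + 1)
  have hC0 : 0 ≤ C := by
    refine le_trans ?_ (hC 0)
    exact integral_nonneg fun z => add_nonneg (by positivity) (gam_nonneg _ _)
  set ε : ℝ := min 1 (e / (C + 1)) with hε
  have hε0 : 0 < ε := lt_min one_pos (by positivity)
  have hε1 : ε ≤ 1 := min_le_left _ _
  have hε2 : ε ^ 2 * C ≤ e := by
    have h1 : ε ≤ e / (C + 1) := min_le_right _ _
    have h2 : ε ^ 2 ≤ e / (C + 1) := by nlinarith
    calc ε ^ 2 * C ≤ e / (C + 1) * C := mul_le_mul_of_nonneg_right h2 hC0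
      _ ≤ e / (C + 1) * (C + 1) := mul_le_mul_of_nonneg_left (by linarith) (by positivity)
      _ = e := div_mul_cancel₀ _ (by positivity)
  obtain ⟨C', hC'⟩ := hb (R + ε)
  refine ⟨fun k => ba ε (u k), ba ε v, ?_, ?_⟩
  · refine ba_ss hε0 (fun k => (hu k).continuous.aestronglyMeasurable) hm
      (fun k => memLp_ball (hu k).continuous 0 _) (hv _) (C := C') (fun k => ?_) (hw _)
    refine le_trans ?_ (hC' k)
    exact setIntegral_mono_on (int_ball (hcs k) 0 _) (int_ball (hcg k) 0 _) measurableSet_ball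
      fun z _ => le_add_of_nonneg_right (gam_nonneg _ _)
  · refine Eventually.of_forall fun k => ?_
    refine (ba_grad (hu k) hε0 R).trans (le_trans ?_ hε2)
    apply mul_le_mul_of_nonneg_left _ (by positivity)
    refine le_trans ?_ (hC k)
    calc ∫ z in Metric.ball 0 (R + ε), Gam (u k) z
        ≤ ∫ z in Metric.ball 0 (R + 1), Gam (u k) z :=
          setIntegral_mono_set (int_ball (gam_cont (hu k)) 0 (R + 1))
            (ae_of_all _ (gam_nonneg (u k)))
            (Metric.ball_subset_ball (by linarith)).eventuallyLE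
      _ ≤ ∫ z in Metric.ball 0 (R + 1), (‖u k z‖ ^ 2 + Gam (u k) z) :=
          setIntegral_mono_on (int_ball (gam_cont (hu k)) 0 _) (int_ball (hcg k) 0 _)
            measurableSet_ball fun z _ => le_add_of_nonneg_left (by positivity)

end GO3
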