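import Pool.Agent.GO3.L.Avg2
import Pool.Agent.GO3.L.AofL
import Pool.Agent.GO3.Rd

/-! GO3 / L / Bds: square integrability and uniform bounds.

PROOFS. Everything is continuous (`contDiff_F`, `contDiff_Dw`, `contDiff_dh`, `hc.sh`), each square is at most
`dens`, `∫ dens = 2 E ≤ 2 M` (`memLp_two_iff_integrable_sq_norm`, `Integrable.mono'`).
`gam_w`: `∂_v w = D_v w + i ⟨A, v⟩ w`, so `Gam w ≤ 2 (‖D_1 w‖² + ‖D_i w‖²) + 2 ‖A‖²`, `∫_{B_R} ‖A‖² ≤ R² ∫ F²`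
(`Rad.A_eq`, `aof_mem`). `gam_h`: the derivative of `z ↦ ((1 - h z : ℝ) : ℂ)` in the direction `v` is `- ∂_v h`. -/

open MeasureTheory Filter Topology Set
open scoped ContDiff Real

noncomputable section

namespace GO3

variable {c : Cf} {n : ℕ}

structure MemAll (c : Cf) : Prop where
  F : MemLp c.F 2
  W1 : MemLp (fun z => c.Dw z 1) 2
  W2 : MemLp (fun z => c.Dw z Complex.I) 2
  H1 : MemLp (fun z => c.dh z 1) 2
  H2 : MemLp (fun z => c.dh z Complex.I) 2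
  h : MemLp (fun z => 1 - c.h z) 2

structure BdAll (c : Cf) (M : ℝ) : Prop where
  F : ∫ z, c.F z ^ 2 ≤ M
  W1 : ∫ z, ‖c.Dw z 1‖ ^ 2 ≤ M
  W2 : ∫ z, ‖c.Dw z Complex.I‖ ^ 2 ≤ M
  H1 : ∫ z, c.dh z 1 ^ 2 ≤ M
  H2 : ∫ z, c.dh z Complex.I ^ 2 ≤ M
  h : ∫ z, (1 - c.h z) ^ 2 ≤ M


private theorem bds_int (hc : c.Adm n) {g : ℂ → ℝ} (hg : Continuous g)
    (h : ∀ z, 0 ≤ g z ∧ g z ≤ c.dens z) : Integrable g := by
  refine hc.fin.mono' hg.aestronglyMeasurable (ae_of_all _ fun z => ?_)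
  rw [Real.norm_eq_abs, abs_of_nonneg (h z).1]
  exact (h z).2

private theorem bds_mem {V : Type*} [NormedAddCommGroup V] (hc : c.Adm n) {f : ℂ → V}
    (hf : Continuous f) (h : ∀ z, ‖f z‖ ^ 2 ≤ c.dens z) : MemLp f 2 := by
  refine (memLp_two_iff_integrable_sq_norm hf.aestronglyMeasurable).2 ?_
  exact bds_int hc (hf.norm.pow 2) fun z => ⟨sq_nonneg _, h z⟩

private theorem bds_dens (c : Cf) : ∫ z, c.dens z = 2 * c.E := by
  unfold Cf.E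
  ring

private theorem bds_le (hc : c.Adm n) {M : ℝ} (hE : c.E ≤ M) {g : ℂ → ℝ}
    (h : ∀ z, 0 ≤ g z ∧ g z ≤ c.dens z) : ∫ z, g z ≤ 2 * M := by
  refine (integral_mono_of_nonneg (ae_of_all _ fun z => (h z).1) hc.fin
    (ae_of_all _ fun z => (h z).2)).trans ?_
  rw [bds_dens]
  linarith

private theorem bds_set (hc : c.Adm n) {M : ℝ} (hE : c.E ≤ M) {g : ℂ → ℝ} (S : Set ℂ)
    (h : ∀ z, 0 ≤ g z ∧ g z ≤ c.dens z) : ∫ z in S, g z ≤ 2 * M := by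
  have h0 : ∀ z, 0 ≤ c.dens z := fun z => (h z).1.trans (h z).2
  refine (integral_mono_of_nonneg (ae_of_all _ fun z => (h z).1) hc.fin.integrableOn
    (ae_of_all _ fun z => (h z).2)).trans ?_
  refine (setIntegral_le_integral hc.fin (ae_of_all _ h0)).trans ?_
  rw [bds_dens]
  linarith

private theorem bds_eq (c : Cf) (z : ℂ) : c.dens z = ‖c.Dw z 1‖ ^ 2 + ‖c.Dw z Complex.I‖ ^ 2 +
    c.dh z 1 ^ 2 + c.dh z Complex.I ^ 2 + (1 - c.h z) ^ 2 + c.F z ^ 2 := by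
  unfold Cf.dens Cf.grad Cf.nsq
  ring

private theorem bds_cW (hc : c.Adm n) (v : ℂ) : Continuous fun z => c.Dw z v := by
  have h1 : Continuous fun z : ℂ => ((z, v) : ℂ × ℂ) := by fun_prop
  exact hc.contDiff_Dw.continuous.comp h1

private theorem bds_cH (hc : c.Adm n) (v : ℂ) : Continuous fun z => c.dh z v := by
  have h1 : Continuous fun z : ℂ => ((z, v) : ℂ × ℂ) := by fun_prop
  exact hc.contDiff_dh.continuous.comp h1

private theorem bds_ch (hc : c.Adm n) : Continuous fun z => 1 - c.h z :=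
  continuous_const.sub hc.sh.continuous

private theorem bds_b (c : Cf) (z : ℂ) : ‖c.Dw z 1‖ ^ 2 ≤ c.dens z ∧
    ‖c.Dw z Complex.I‖ ^ 2 ≤ c.dens z ∧ c.dh z 1 ^ 2 ≤ c.dens z ∧ c.dh z Complex.I ^ 2 ≤ c.dens z ∧
    (1 - c.h z) ^ 2 ≤ c.dens z ∧ c.F z ^ 2 ≤ c.dens z := by
  rw [bds_eq]
  have h1 := sq_nonneg ‖c.Dw z 1‖
  have h2 := sq_nonneg ‖c.Dw z Complex.I‖
  have h3 := sq_nonneg (c.dh z 1)
  have h4 := sq_nonneg (c.dh z Complex.I)
  have h5 := sq_nonneg (1 - c.h z)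
  have h6 := sq_nonneg (c.F z)
  refine ⟨?_, ?_, ?_, ?_, ?_, ?_⟩ <;> linarith

private theorem bds_add {μ : Measure ℂ} {a b : ℂ → ℝ} (ha : Integrable a μ)
    (hb : Integrable b μ) : Integrable (fun z => a z + b z) μ ∧
    (∫ z, a z ∂μ) + (∫ z, b z ∂μ) = ∫ z, (a z + b z) ∂μ :=
  ⟨ha.add hb, (integral_add ha hb).symm⟩

private theorem bds_i1 (hc : c.Adm n) : Integrable fun z => ‖c.Dw z 1‖ ^ 2 :=
  bds_int hc ((bds_cW hc 1).norm.pow 2) fun z => ⟨sq_nonneg _, (bds_b c z).1⟩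

private theorem bds_i2 (hc : c.Adm n) : Integrable fun z => ‖c.Dw z Complex.I‖ ^ 2 :=
  bds_int hc ((bds_cW hc Complex.I).norm.pow 2) fun z => ⟨sq_nonneg _, (bds_b c z).2.1⟩

private theorem bds_i3 (hc : c.Adm n) : Integrable fun z => c.dh z 1 ^ 2 :=
  bds_int hc ((bds_cH hc 1).pow 2) fun z => ⟨sq_nonneg _, (bds_b c z).2.2.1⟩

private theorem bds_i4 (hc : c.Adm n) : Integrable fun z => c.dh z Complex.I ^ 2 :=
  bds_int hc ((bds_cH hc Complex.I).pow 2) fun z => ⟨sq_nonneg _, (bds_b c z).2.2.2.1⟩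

private theorem bds_i5 (hc : c.Adm n) : Integrable fun z => (1 - c.h z) ^ 2 :=
  bds_int hc ((bds_ch hc).pow 2) fun z => ⟨sq_nonneg _, (bds_b c z).2.2.2.2.1⟩

private theorem bds_i6 (hc : c.Adm n) : Integrable fun z => c.F z ^ 2 :=
  bds_int hc (hc.contDiff_F.continuous.pow 2) fun z => ⟨sq_nonneg _, (bds_b c z).2.2.2.2.2⟩

theorem mem_all (hc : c.Adm n) : MemAll c := by
  refine ⟨bds_mem hc hc.contDiff_F.continuous fun z => ?_, bds_mem hc (bds_cW hc 1) fun z => ?_,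
    bds_mem hc (bds_cW hc Complex.I) fun z => ?_, bds_mem hc (bds_cH hc 1) fun z => ?_,
    bds_mem hc (bds_cH hc Complex.I) fun z => ?_, bds_mem hc (bds_ch hc) fun z => ?_⟩
  · rw [Real.norm_eq_abs, sq_abs]
    exact (bds_b c z).2.2.2.2.2
  · exact (bds_b c z).1
  · exact (bds_b c z).2.1
  · rw [Real.norm_eq_abs, sq_abs]
    exact (bds_b c z).2.2.1
  · rw [Real.norm_eq_abs, sq_abs]
    exact (bds_b c z).2.2.2.1
  · rw [Real.norm_eq_abs, sq_abs]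
    exact (bds_b c z).2.2.2.2.1

theorem bd_all (hc : c.Adm n) {M : ℝ} (hE : c.E ≤ M) : BdAll c (2 * M) := by
  exact ⟨bds_le hc hE fun z => ⟨sq_nonneg _, (bds_b c z).2.2.2.2.2⟩,
    bds_le hc hE fun z => ⟨sq_nonneg _, (bds_b c z).1⟩,
    bds_le hc hE fun z => ⟨sq_nonneg _, (bds_b c z).2.1⟩,
    bds_le hc hE fun z => ⟨sq_nonneg _, (bds_b c z).2.2.1⟩,
    bds_le hc hE fun z => ⟨sq_nonneg _, (bds_b c z).2.2.2.1⟩,
    bds_le hc hE fun z => ⟨sq_nonneg _, (bds_b c z).2.2.2.2.1⟩⟩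

/-- the energy as a sum -/
theorem E_sum (hc : c.Adm n) : (∫ z, ‖c.Dw z 1‖ ^ 2) + (∫ z, ‖c.Dw z Complex.I‖ ^ 2) +
    (∫ z, c.dh z 1 ^ 2) + (∫ z, c.dh z Complex.I ^ 2) + (∫ z, (1 - c.h z) ^ 2) +
    (∫ z, c.F z ^ 2) = 2 * c.E := by
  have k2 := bds_add (bds_i1 hc) (bds_i2 hc)
  have k3 := bds_add k2.1 (bds_i3 hc)
  have k4 := bds_add k3.1 (bds_i4 hc)
  have k5 := bds_add k4.1 (bds_i5 hc)
  have k6 := bds_add k5.1 (bds_i6 hc)
  rw [← bds_dens, k2.2, k3.2, k4.2, k5.2, k6.2]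
  refine integral_congr_ae (ae_of_all _ fun z => ?_)
  exact (bds_eq c z).symm

/-- the gradient energy in a disc as a sum -/
theorem ee_sum (hc : c.Adm n) (q : ℂ) (r : ℝ) : (∫ z in Metric.ball q r, ‖c.Dw z 1‖ ^ 2) +
    (∫ z in Metric.ball q r, ‖c.Dw z Complex.I‖ ^ 2) + (∫ z in Metric.ball q r, c.dh z 1 ^ 2) +
    (∫ z in Metric.ball q r, c.dh z Complex.I ^ 2) = 2 * c.ee q r := by
  have j1 := (bds_i1 hc).integrableOn (s := Metric.ball q r)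
  have j2 := (bds_i2 hc).integrableOn (s := Metric.ball q r)
  have j3 := (bds_i3 hc).integrableOn (s := Metric.ball q r)
  have j4 := (bds_i4 hc).integrableOn (s := Metric.ball q r)
  have e : 2 * c.ee q r = ∫ z in Metric.ball q r, c.grad z := by
    unfold Cf.ee
    ring
  have k2 := bds_add j1 j2
  have k3 := bds_add k2.1 j3
  have k4 := bds_add k3.1 j4
  rw [e, k2.2, k3.2, k4.2]
  refine integral_congr_ae (ae_of_all _ fun z => ?_)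
  show ‖c.Dw z 1‖ ^ 2 + ‖c.Dw z Complex.I‖ ^ 2 + c.dh z 1 ^ 2 + c.dh z Complex.I ^ 2 = c.grad z
  unfold Cf.grad Cf.nsq
  ring

theorem gam_w (hc : c.Adm n) (hr : c.Rad) {M : ℝ} (hE : c.E ≤ M) (R : ℝ) :
    ∫ z in Metric.ball 0 R, Gam c.w z ≤ 4 * M * (1 + R ^ 2) := by
  have hF : ∀ R : ℝ, MemLp c.F 2 (volume.restrict (Metric.ball 0 R)) :=
    fun R => (mem_all hc).F.restrict _
  obtain ⟨hA1, hA2⟩ := aof_mem hF R
  have hAe : c.A = Aof c.F := funext fun z => hr.A_eq hc.sA z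
  rw [← hAe] at hA1 hA2
  have hAi : IntegrableOn (fun z => ‖c.A z‖ ^ 2) (Metric.ball 0 R) :=
    (memLp_two_iff_integrable_sq_norm hA1.1).1 hA1
  have hw : ∀ z, ‖c.w z‖ ≤ 1 := by
    intro z
    have h1 := hc.unit z
    have h2 := sq_nonneg (c.h z)
    have h3 := norm_nonneg (c.w z)
    nlinarith
  have hv : ∀ z v, ‖fderiv ℝ c.w z v‖ ^ 2 ≤ 2 * ‖c.Dw z v‖ ^ 2 + 2 * ip (c.A z) v ^ 2 := by
    intro z v
    have e : fderiv ℝ c.w z v = c.Dw z v + Complex.I * (ip (c.A z) v : ℂ) * c.w z := by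
      unfold Cf.Dw
      ring
    have h1 : ‖Complex.I * (ip (c.A z) v : ℂ) * c.w z‖ ≤ |ip (c.A z) v| := by
      rw [norm_mul, norm_mul, Complex.norm_I, one_mul, Complex.norm_real, Real.norm_eq_abs]
      exact mul_le_of_le_one_right (abs_nonneg _) (hw z)
    have h2 : ‖fderiv ℝ c.w z v‖ ≤ ‖c.Dw z v‖ + |ip (c.A z) v| := by
      rw [e]
      exact (norm_add_le _ _).trans (add_le_add le_rfl h1)
    have h3 := norm_nonneg (fderiv ℝ c.w z v)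
    have h4 := sq_abs (ip (c.A z) v)
    have h5 := pow_le_pow_left₀ h3 h2 2
    have h6 := sq_nonneg (‖c.Dw z v‖ - |ip (c.A z) v|)
    nlinarith
  have hG : ∀ z, Gam c.w z ≤ 2 * (‖c.Dw z 1‖ ^ 2 + ‖c.Dw z Complex.I‖ ^ 2) + 2 * ‖c.A z‖ ^ 2 := by
    intro z
    have h1 := hv z 1
    have h2 := hv z Complex.I
    have h3 : ip (c.A z) 1 ^ 2 + ip (c.A z) Complex.I ^ 2 = ‖c.A z‖ ^ 2 := by
      rw [Complex.sq_norm, Complex.normSq_apply]
      unfold ip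
      simp only [Complex.one_re, Complex.one_im, Complex.I_re, Complex.I_im]
      ring
    unfold Gam
    linarith
  have j1 := (bds_i1 hc).integrableOn (s := Metric.ball 0 R)
  have j2 := (bds_i2 hc).integrableOn (s := Metric.ball 0 R)
  have hG0 : ∀ z, 0 ≤ Gam c.w z := by
    intro z
    unfold Gam
    positivity
  have h1 : ∫ z in Metric.ball 0 R, Gam c.w z ≤ ∫ z in Metric.ball 0 R,
      (2 * (‖c.Dw z 1‖ ^ 2 + ‖c.Dw z Complex.I‖ ^ 2) + 2 * ‖c.A z‖ ^ 2) := by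
    refine integral_mono_of_nonneg (ae_of_all _ hG0) ?_ (ae_of_all _ hG)
    exact ((j1.add j2).const_mul 2).add (hAi.const_mul 2)
  have h2 : ∫ z in Metric.ball 0 R,
      (2 * (‖c.Dw z 1‖ ^ 2 + ‖c.Dw z Complex.I‖ ^ 2) + 2 * ‖c.A z‖ ^ 2) =
      2 * (∫ z in Metric.ball 0 R, (‖c.Dw z 1‖ ^ 2 + ‖c.Dw z Complex.I‖ ^ 2)) +
        2 * ∫ z in Metric.ball 0 R, ‖c.A z‖ ^ 2 := by
    rw [← integral_const_mul, ← integral_const_mul]
    exact integral_add ((j1.add j2).const_mul 2) (hAi.const_mul 2)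
  have h3 : ∫ z in Metric.ball 0 R, (‖c.Dw z 1‖ ^ 2 + ‖c.Dw z Complex.I‖ ^ 2) ≤ 2 * M := by
    refine bds_set hc hE _ fun z => ⟨by positivity, ?_⟩
    rw [bds_eq]
    have h3 := sq_nonneg (c.dh z 1)
    have h4 := sq_nonneg (c.dh z Complex.I)
    have h5 := sq_nonneg (1 - c.h z)
    have h6 := sq_nonneg (c.F z)
    linarith
  have h4 : ∫ z in Metric.ball 0 R, c.F z ^ 2 ≤ 2 * M :=
    bds_set hc hE _ fun z => ⟨sq_nonneg _, (bds_b c z).2.2.2.2.2⟩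
  have h5 : R ^ 2 * ∫ z in Metric.ball 0 R, c.F z ^ 2 ≤ R ^ 2 * (2 * M) :=
    mul_le_mul_of_nonneg_left h4 (sq_nonneg R)
  linarith

theorem gam_h (hc : c.Adm n) {M : ℝ} (hE : c.E ≤ M) (R : ℝ) :
    ∫ z in Metric.ball 0 R, Gam (fun z => ((1 - c.h z : ℝ) : ℂ)) z ≤ 2 * M := by
  refine bds_set hc hE _ fun z => ?_
  have hd : HasFDerivAt c.h (fderiv ℝ c.h z) z :=
    (hc.sh.differentiable (by simp)).differentiableAt.hasFDerivAt
  have h1 : HasFDerivAt (fun z => ((1 - c.h z : ℝ) : ℂ))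
      (Complex.ofRealCLM.comp (-fderiv ℝ c.h z)) z :=
    Complex.ofRealCLM.hasFDerivAt.comp z (hd.const_sub 1)
  have h2 : ∀ v : ℂ, ‖fderiv ℝ (fun z => ((1 - c.h z : ℝ) : ℂ)) z v‖ ^ 2 = c.dh z v ^ 2 := by
    intro v
    rw [h1.fderiv]
    show ‖(((-fderiv ℝ c.h z) v : ℝ) : ℂ)‖ ^ 2 = _
    rw [Complex.norm_real, Real.norm_eq_abs, sq_abs]
    show (-(fderiv ℝ c.h z v)) ^ 2 = c.dh z v ^ 2
    rw [neg_sq]
    rfl
  unfold Gam
  rw [h2, h2]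
  refine ⟨by positivity, ?_⟩
  rw [bds_eq]
  have h3 := sq_nonneg ‖c.Dw z 1‖
  have h4 := sq_nonneg ‖c.Dw z Complex.I‖
  have h5 := sq_nonneg (1 - c.h z)
  have h6 := sq_nonneg (c.F z)
  linarith

end GO3
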