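import Pool.Agent.GO3.L.Defs
import Pool.Agent.GO3.Lmo
import Pool.Agent.GO3.Sup

/-! GO3 / L / Close: the one-dimensional data depend continuously on the configuration in `L²`.

PROOFS. `m = n³`, `α m = π`, `α ≤ π / 8 ≤ 1`.
* `der_all`: `exists_rad` gives `om`; `c₁ = c.gt om` is `Adm`, radial, has the same `aa`, `V`, `cc` (`gt_data`, as
  functions by `funext`), the same `T` (`gt_nsq`) and `Y` (`gt_F`); apply `der_aa`, `der_V`, `der_cc` to `c₁`.
* `P_bounds`. For `s ∈ [a, R]`: `(cc' - cc)² ≤ (1/α) ∫_0^α (h' - h)²`; by `wedge_circle` and `polar_ball`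
  (the function `(h' - h)²` is even and `2α`-periodic in `χ`) `∫_0^R s ∫_0^α f dχ ds = (1/(2 n³)) ∫_{B_R} f`, and
  `1/s ≤ s / a²`, so `∫ (cc' - cc)² ds / s ≤ (1/(2 π a²)) ∫_{B_R} (h' - h)²`.
  `aa' - aa = ∫_0^α (b' - b) dχ` (`aa = B (r, α) - α`), `|b' - b| ≤ s ‖A' - A‖` (`abs_ip_le`), so
  `(aa' - aa)² / s ≤ α s ∫_0^α ‖A' - A‖²`.
  `|V' - V| ≤ (1/α) ∫_0^α (‖w' - w‖ + |B' - B|)`, `|B' - B| ≤ ∫_0^α |b' - b|` (`|e^{ix} - e^{iy}| ≤ |x - y|`,
  `‖w‖ ≤ 1`), so `|V' - V|² ≤ (2/α) ∫_0^α ‖w' - w‖² + 2 s² α ∫_0^α ‖A' - A‖²`.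
  The symmetry of `‖A' - A‖²`, `‖w' - w‖²`: `rA, cA, rw, cw` and `norm_ze`, `norm_star`.
* `data_close`: `sup_sub` for the three differences with `P = (2 / a² + 2) dist2`, `Q = 4 M (1 + R²)`: with
  `g' = ` difference of the derivatives of `der_all`, `∫ s T ds, ∫ s Y ds ≤ M / m` (`int_T`, `int_Y`, monotonicity
  of the set, nonnegativity), `s² ≤ R²`:
  `∫ s (cc')² ≤ (2/α) 2 M / m ≤ 4 M / π`; `∫ s (aa')² ≤ 2 α R² 2 M / m`;
  `∫ s ‖V'‖² ≤ 2 (2/α + 2 α R²) 2 M / m ≤ 8 M / π + 8 α R² M / m`. All at most `4 M (1 + R²)`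
  (for the real part of `V`: `|re| ≤ ‖ ‖`). -/

open MeasureTheory Filter Topology Set
open scoped ContDiff Real

noncomputable section

namespace GO3

variable {c c' : Cf} {n : ℕ}

/-- Cauchy-Schwarz on an interval -/
private theorem clo_cs {g : ℝ → ℝ} (hg : Continuous g) {b : ℝ} (hL : 0 < b) :
    (∫ χ in (0 : ℝ)..b, g χ) ^ 2 ≤ b * ∫ χ in (0 : ℝ)..b, g χ ^ 2 := by
  set I := ∫ χ in (0 : ℝ)..b, g χ with hI
  set J := ∫ χ in (0 : ℝ)..b, g χ ^ 2 with hJ
  have h0 : 0 ≤ ∫ χ in (0 : ℝ)..b, (g χ - I / b) ^ 2 :=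
    intervalIntegral.integral_nonneg hL.le fun χ _ => sq_nonneg _
  have h1 : (∫ χ in (0 : ℝ)..b, (g χ - I / b) ^ 2) =
      J - 2 * (I / b) * I + (I / b) ^ 2 * b := by
    have e : ∀ χ, (g χ - I / b) ^ 2 =
        (g χ ^ 2 - 2 * (I / b) * g χ) + (I / b) ^ 2 := fun χ => by ring
    have i1 : IntervalIntegrable (fun χ => g χ ^ 2) volume 0 b :=
      (hg.pow 2).intervalIntegrable 0 b
    have i2 : IntervalIntegrable (fun χ => 2 * (I / b) * g χ) volume 0 b :=
      (continuous_const.mul hg).intervalIntegrable 0 b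
    simp only [e]
    rw [intervalIntegral.integral_add (i1.sub i2) intervalIntegrable_const,
      intervalIntegral.integral_sub i1 i2, intervalIntegral.integral_const_mul,
      intervalIntegral.integral_const, smul_eq_mul, ← hI, ← hJ]
    ring
  rw [h1] at h0
  have h2 : b * (J - 2 * (I / b) * I + (I / b) ^ 2 * b) = b * J - I ^ 2 := by
    field_simp
    ring
  have h3 := mul_nonneg hL.le h0
  rw [h2] at h3
  linarith

private theorem clo_sub {f : ℝ → ℝ} (h0 : ∀ s, 0 < s → 0 ≤ f s) (hi : IntegrableOn f (Ioi 0))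
    {a b : ℝ} (ha : 0 < a) (hab : a ≤ b) : ∫ s in a..b, f s ≤ ∫ s in Ioi (0 : ℝ), f s := by
  rw [intervalIntegral.integral_of_le hab]
  refine setIntegral_mono_set hi ?_ ?_
  · filter_upwards [ae_restrict_mem measurableSet_Ioi] with s hs using h0 s hs
  · refine (Eventually.of_forall ?_)
    intro s hs
    exact lt_trans ha hs.1

/-- the integrand of `dist2` -/
private def clD (c c' : Cf) (z : ℂ) : ℝ :=
  ‖c'.w z - c.w z‖ ^ 2 + (c'.h z - c.h z) ^ 2 + ‖c'.A z - c.A z‖ ^ 2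

/-- its wedge integral -/
private def clW (c c' : Cf) (n : ℕ) (r : ℝ) : ℝ := ∫ χ in (0 : ℝ)..al n, clD c c' (pt r χ)

private theorem clD_cont (hc : c.Adm n) (hc' : c'.Adm n) : Continuous (clD c c') := by
  have := hc.sw.continuous
  have := hc.sh.continuous
  have := hc.sA.continuous
  have := hc'.sw.continuous
  have := hc'.sh.continuous
  have := hc'.sA.continuous
  unfold clD
  fun_prop

private theorem clD_rot (hc : c.Adm n) (hc' : c'.Adm n) (z : ℂ) :
    clD c c' (ze n * z) = clD c c' z := by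
  unfold clD
  rw [hc.rw, hc'.rw, hc.rh, hc'.rh, hc.rA, hc'.rA, ← mul_sub, ← mul_sub, norm_mul, norm_mul,
    norm_ze, one_mul, one_mul]

private theorem clD_star (hc : c.Adm n) (hc' : c'.Adm n) (z : ℂ) :
    clD c c' (star z) = clD c c' z := by
  unfold clD
  have e : -star (c'.A z) - -star (c.A z) = -star (c'.A z - c.A z) := by
    rw [star_sub]; ring
  rw [hc.cw, hc'.cw, hc.ch, hc'.ch, hc.cA, hc'.cA, e, ← star_sub, norm_star, norm_neg, norm_star]

private theorem clW_nonneg (hn : 0 < n) (r : ℝ) : 0 ≤ clW c c' n r :=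
  intervalIntegral.integral_nonneg (al_pos hn).le fun χ _ => by unfold clD; positivity

private theorem clW_cont (hc : c.Adm n) (hc' : c'.Adm n) : Continuous (clW c c' n) := by
  have h := continuous_circle (clD c c') (clD_cont hc hc') 0 0 (al n)
  simp only [zero_add] at h
  exact h

private theorem clo_circle (hn : 0 < n) (hc : c.Adm n) (hc' : c'.Adm n) (r : ℝ) :
    ∫ χ in (0 : ℝ)..2 * π, clD c c' (pt r χ) = 2 * (n : ℝ) ^ 3 * clW c c' n r := by
  unfold clW
  refine wedge_circle hn (fun χ => clD c c' (pt r χ)) ?_ ?_ ?_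
  · exact (clD_cont hc hc').comp (continuous_pt.comp (Continuous.prodMk_right r))
  · intro χ
    show clD c c' (pt r (χ + 2 * al n)) = clD c c' (pt r χ)
    rw [← ze_mul_pt, clD_rot hc hc']
  · intro χ
    show clD c c' (pt r (-χ)) = clD c c' (pt r χ)
    rw [← star_pt, clD_star hc hc']

private theorem clo_dist (hn : 0 < n) (hc : c.Adm n) (hc' : c'.Adm n) {R : ℝ} (hR : 0 ≤ R) :
    dist2 c c' R = 2 * (n : ℝ) ^ 3 * ∫ r in (0 : ℝ)..R, r * clW c c' n r := by
  have h := polar_ball (clD c c') (clD_cont hc hc') 0 hR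
  have e1 : dist2 c c' R = ∫ z in Metric.ball (0 : ℂ) R, clD c c' z := rfl
  rw [e1, h, ← intervalIntegral.integral_const_mul]
  refine intervalIntegral.integral_congr fun r _ => ?_
  show r * ∫ χ in (0 : ℝ)..2 * π, clD c c' (0 + pt r χ) = 2 * (n : ℝ) ^ 3 * (r * clW c c' n r)
  simp only [zero_add]
  rw [clo_circle hn hc hc']
  ring

private theorem clo_al (hn : 2 ≤ n) : al n ≤ π / 8 ∧ al n * (n : ℝ) ^ 3 = π := by
  have h2 : (2 : ℝ) ≤ n := by exact_mod_cast hn
  have h8 : (8 : ℝ) ≤ (n : ℝ) ^ 3 := by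
    have := pow_le_pow_left₀ (by norm_num : (0 : ℝ) ≤ 2) h2 3
    norm_num at this
    exact this
  constructor
  · unfold al
    exact div_le_div_of_nonneg_left Real.pi_pos.le (by norm_num) h8
  · unfold al
    field_simp

/-- the common estimate for `P` -/
private theorem clo_P (hn : 2 ≤ n) (hc : c.Adm n) (hc' : c'.Adm n) {a R : ℝ} (ha : 0 < a)
    (hR : a < R) {g : ℝ → ℝ} (hg : Continuous g)
    (hb : ∀ s, 0 < s → g s ^ 2 ≤ 2 / al n * clW c c' n s + 2 * al n * (s ^ 2 * clW c c' n s)) :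
    ∫ s in a..R, g s ^ 2 / s ≤ (2 / a ^ 2 + 2) * dist2 c c' R := by
  have hn0 : 0 < n := by omega
  have hα := al_pos hn0
  obtain ⟨hα8, hα3⟩ := clo_al hn
  have hWc := clW_cont hc hc'
  have hW0 := fun s => clW_nonneg (c := c) (c' := c') hn0 s
  set k : ℝ := 2 / (al n * a ^ 2) + 2 * al n with hk
  have hk0 : 0 ≤ k := by positivity
  have e1 : ∫ s in a..R, g s ^ 2 / s ≤ ∫ s in a..R, k * (s * clW c c' n s) := by
    refine intervalIntegral.integral_mono_on hR.le ?_ ?_ fun s hs => ?_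
    · refine ContinuousOn.intervalIntegrable ?_
      rw [uIcc_of_le hR.le]
      exact (hg.pow 2).continuousOn.div continuousOn_id fun s hs =>
        (lt_of_lt_of_le ha hs.1).ne'
    · exact (continuous_const.mul (continuous_id.mul hWc)).intervalIntegrable _ _
    · have hs0 : 0 < s := lt_of_lt_of_le ha hs.1
      rw [div_le_iff₀ hs0]
      refine (hb s hs0).trans ?_
      have h1 : a ^ 2 ≤ s ^ 2 := pow_le_pow_left₀ ha.le hs.1 2
      have h2 : 1 ≤ s ^ 2 / a ^ 2 := by rw [one_le_div (by positivity)]; exact h1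
      have h3 : 2 / al n * clW c c' n s ≤ 2 / al n * clW c c' n s * (s ^ 2 / a ^ 2) :=
        le_mul_of_one_le_right (mul_nonneg (by positivity) (hW0 s)) h2
      have h4 : k * (s * clW c c' n s) * s = 2 / al n * clW c c' n s * (s ^ 2 / a ^ 2) +
          2 * al n * (s ^ 2 * clW c c' n s) := by
        rw [hk]
        field_simp
      rw [h4]
      linarith
  have e2 : ∫ s in a..R, k * (s * clW c c' n s) ≤ k * ∫ s in (0 : ℝ)..R, s * clW c c' n s := by
    rw [intervalIntegral.integral_const_mul]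
    refine mul_le_mul_of_nonneg_left ?_ hk0
    have hi : ∀ x y, IntervalIntegrable (fun s => s * clW c c' n s) volume x y :=
      fun x y => (continuous_id.mul hWc).intervalIntegrable _ _
    have := intervalIntegral.integral_add_adjacent_intervals (hi 0 a) (hi a R)
    have h0 : 0 ≤ ∫ s in (0 : ℝ)..a, s * clW c c' n s :=
      intervalIntegral.integral_nonneg ha.le fun s hs => mul_nonneg hs.1 (hW0 s)
    linarith
  have e3 := clo_dist hn0 hc hc' (ha.le.trans hR.le)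
  have hn3 : (0 : ℝ) < (n : ℝ) ^ 3 := by positivity
  set S := ∫ s in (0 : ℝ)..R, s * clW c c' n s with hS
  have hS0 : 0 ≤ S := intervalIntegral.integral_nonneg (ha.le.trans hR.le) fun s hs =>
    mul_nonneg hs.1 (hW0 s)
  rw [e3]
  refine (e1.trans e2).trans ?_
  have h5 : k ≤ (2 / a ^ 2 + 2) * (2 * (n : ℝ) ^ 3) := by
    have h6 : 2 / (al n * a ^ 2) ≤ 2 / a ^ 2 * (2 * (n : ℝ) ^ 3) := by
      have : 1 / al n = (n : ℝ) ^ 3 / π := by
        rw [div_eq_div_iff hα.ne' Real.pi_pos.ne']; linarith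
      have h7 : 2 / (al n * a ^ 2) = 2 / a ^ 2 * ((n : ℝ) ^ 3 / π) := by
        rw [← this]; field_simp
      rw [h7]
      refine mul_le_mul_of_nonneg_left ?_ (by positivity)
      rw [div_le_iff₀ Real.pi_pos]
      nlinarith [Real.pi_gt_three]
    have h8 : 2 * al n ≤ 2 * (2 * (n : ℝ) ^ 3) := by
      have h9 : (1 : ℝ) ≤ (n : ℝ) ^ 3 := by
        have : (1 : ℝ) ≤ n := by exact_mod_cast hn0
        exact one_le_pow₀ this
      nlinarith [Real.pi_lt_d2]
    rw [add_mul]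
    linarith
  calc k * S ≤ (2 / a ^ 2 + 2) * (2 * (n : ℝ) ^ 3) * S := mul_le_mul_of_nonneg_right h5 hS0
    _ = _ := by ring

private theorem clo_contB (hc : c.Adm n) (r : ℝ) : Continuous fun χ => c.B r χ :=
  hc.contDiff_B.continuous.comp (Continuous.prodMk_right r)

private theorem clo_contb (hc : c.Adm n) (r : ℝ) : Continuous fun χ => c.b r χ :=
  hc.contDiff_b.continuous.comp (Continuous.prodMk_right r)

private theorem clo_pt (r : ℝ) : Continuous fun χ => pt r χ :=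
  continuous_pt.comp (Continuous.prodMk_right r)

private theorem clo_mono (hn : 0 < n) (hc : c.Adm n) (hc' : c'.Adm n) {f : ℝ → ℝ}
    (hf : Continuous f) {r : ℝ} (h : ∀ χ, f χ ≤ clD c c' (pt r χ)) :
    ∫ χ in (0 : ℝ)..al n, f χ ≤ clW c c' n r :=
  intervalIntegral.integral_mono_on (al_pos hn).le (hf.intervalIntegrable _ _)
    (((clD_cont hc hc').comp (clo_pt r)).intervalIntegrable _ _) fun χ _ => h χ

/-- the angular components -/
private theorem clo_b (hn : 0 < n) (hc : c.Adm n) (hc' : c'.Adm n) (s : ℝ) :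
    (∫ χ in (0 : ℝ)..al n, |c'.b s χ - c.b s χ|) ^ 2 ≤ al n * (s ^ 2 * clW c c' n s) := by
  have hcb := (clo_contb hc' s).sub (clo_contb hc s)
  refine (clo_cs hcb.abs (al_pos hn)).trans ?_
  refine mul_le_mul_of_nonneg_left ?_ (al_pos hn).le
  have e : ∫ χ in (0 : ℝ)..al n, |c'.b s χ - c.b s χ| ^ 2 ≤
      ∫ χ in (0 : ℝ)..al n, s ^ 2 * clD c c' (pt s χ) := by
    refine intervalIntegral.integral_mono_on (al_pos hn).le ((hcb.abs.pow 2).intervalIntegrable _ _)
      ((continuous_const.mul ((clD_cont hc hc').comp (clo_pt s))).intervalIntegrable _ _)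
      fun χ _ => ?_
    have h1 : c'.b s χ - c.b s χ = ip (c'.A (pt s χ) - c.A (pt s χ)) (Complex.I * pt s χ) := by
      unfold Cf.b ip
      simp only [Complex.sub_re, Complex.sub_im]
      ring
    have h2 : |c'.b s χ - c.b s χ| ≤ ‖c'.A (pt s χ) - c.A (pt s χ)‖ * |s| := by
      rw [h1]
      refine (abs_ip_le _ _).trans ?_
      rw [norm_mul, Complex.norm_I, one_mul, norm_pt]
    have h3 := pow_le_pow_left₀ (abs_nonneg _) h2 2
    refine h3.trans ?_
    rw [mul_pow, sq_abs]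
    unfold clD
    have h4 := sq_nonneg s
    have h5 := sq_nonneg ‖c'.w (pt s χ) - c.w (pt s χ)‖
    have h6 := sq_nonneg (c'.h (pt s χ) - c.h (pt s χ))
    nlinarith [mul_nonneg h4 h5, mul_nonneg h4 h6]
  refine e.trans (le_of_eq ?_)
  rw [intervalIntegral.integral_const_mul]
  rfl

private theorem clo_cc (hn : 0 < n) (hc : c.Adm n) (hc' : c'.Adm n) (s : ℝ) :
    (c'.cc n s - c.cc n s) ^ 2 ≤ 1 / al n * clW c c' n s := by
  have hα := al_pos hn
  have k1 : Continuous fun χ => c'.h (pt s χ) := hc'.sh.continuous.comp (clo_pt s)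
  have k2 : Continuous fun χ => c.h (pt s χ) := hc.sh.continuous.comp (clo_pt s)
  have e : c'.cc n s - c.cc n s = 1 / al n *
      ∫ χ in (0 : ℝ)..al n, (c'.h (pt s χ) - c.h (pt s χ)) := by
    unfold Cf.cc
    rw [intervalIntegral.integral_sub (k1.intervalIntegrable _ _) (k2.intervalIntegrable _ _)]
    ring
  rw [e, mul_pow]
  have k12 : Continuous fun χ => c'.h (pt s χ) - c.h (pt s χ) := k1.sub k2
  have h1 := clo_cs k12 hα
  have k3 : Continuous fun χ => (c'.h (pt s χ) - c.h (pt s χ)) ^ 2 := k12.pow 2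
  have h2 := clo_mono hn hc hc' k3 (r := s) fun χ => by
    unfold clD
    have h5 := sq_nonneg ‖c'.w (pt s χ) - c.w (pt s χ)‖
    have h6 := sq_nonneg ‖c'.A (pt s χ) - c.A (pt s χ)‖
    linarith
  calc (1 / al n) ^ 2 * (∫ χ in (0 : ℝ)..al n, (c'.h (pt s χ) - c.h (pt s χ))) ^ 2 ≤
      (1 / al n) ^ 2 * (al n * clW c c' n s) := by
        refine mul_le_mul_of_nonneg_left (h1.trans ?_) (by positivity)
        exact mul_le_mul_of_nonneg_left h2 hα.le
    _ = 1 / al n * clW c c' n s := by field_simp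

private theorem clo_Bd (hc : c.Adm n) (hc' : c'.Adm n) (s : ℝ) {χ : ℝ}
    (h0 : 0 ≤ χ) (h1 : χ ≤ al n) :
    |c'.B s χ - c.B s χ| ≤ ∫ t in (0 : ℝ)..al n, |c'.b s t - c.b s t| := by
  have k := (clo_contb hc' s).sub (clo_contb hc s)
  have e : c'.B s χ - c.B s χ = ∫ t in (0 : ℝ)..χ, (c'.b s t - c.b s t) := by
    unfold Cf.B
    rw [intervalIntegral.integral_sub ((clo_contb hc' s).intervalIntegrable _ _)
      ((clo_contb hc s).intervalIntegrable _ _)]
  rw [e]
  refine (intervalIntegral.abs_integral_le_integral_abs h0).trans ?_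
  have hi : ∀ x y, IntervalIntegrable (fun t => |c'.b s t - c.b s t|) volume x y :=
    fun x y => k.abs.intervalIntegrable _ _
  have h2 := intervalIntegral.integral_add_adjacent_intervals (hi 0 χ) (hi χ (al n))
  have h3 : 0 ≤ ∫ t in χ..al n, |c'.b s t - c.b s t| :=
    intervalIntegral.integral_nonneg h1 fun t _ => abs_nonneg _
  linarith

private theorem clo_aa (hn : 0 < n) (hc : c.Adm n) (hc' : c'.Adm n) (s : ℝ) :
    (c'.aa n s - c.aa n s) ^ 2 ≤ al n * (s ^ 2 * clW c c' n s) := by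
  have hα := al_pos hn
  have e : c'.aa n s - c.aa n s = c'.B s (al n) - c.B s (al n) := by
    unfold Cf.aa Cf.beta
    field_simp
    ring
  have h1 := clo_Bd hc hc' s hα.le le_rfl
  rw [e, ← sq_abs]
  exact (pow_le_pow_left₀ (abs_nonneg _) h1 2).trans (clo_b hn hc hc' s)

private theorem clo_exp (x y : ℝ) : ‖Complex.exp (-(x : ℂ) * Complex.I) -
    Complex.exp (-(y : ℂ) * Complex.I)‖ ≤ |x - y| := by
  have h := Real.norm_exp_I_mul_ofReal_sub_one_le (x := y - x)
  have e : Complex.exp (-(x : ℂ) * Complex.I) - Complex.exp (-(y : ℂ) * Complex.I) =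
      Complex.exp (-(y : ℂ) * Complex.I) *
        (Complex.exp (Complex.I * ((y - x : ℝ) : ℂ)) - 1) := by
    rw [mul_sub, ← Complex.exp_add, mul_one]
    congr 2
    push_cast
    ring
  have h3 : ‖Complex.exp (-(y : ℂ) * Complex.I)‖ = 1 := by
    rw [← Complex.ofReal_neg]
    exact Complex.norm_exp_ofReal_mul_I _
  rw [e, norm_mul, h3, one_mul]
  refine h.trans ?_
  rw [Real.norm_eq_abs, abs_sub_comm]

private theorem clo_V (hn : 0 < n) (hc : c.Adm n) (hc' : c'.Adm n) (s : ℝ) :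
    ‖c'.V n s - c.V n s‖ ^ 2 ≤ 2 / al n * clW c c' n s + 2 * al n * (s ^ 2 * clW c c' n s) := by
  have hα := al_pos hn
  have cB := clo_contB hc s
  have cB' := clo_contB hc' s
  have kw : Continuous fun χ => c.w (pt s χ) := hc.sw.continuous.comp (clo_pt s)
  have kw' : Continuous fun χ => c'.w (pt s χ) := hc'.sw.continuous.comp (clo_pt s)
  have ke : Continuous fun χ => Complex.exp (-(c.B s χ : ℂ) * Complex.I) := by fun_prop
  have ke' : Continuous fun χ => Complex.exp (-(c'.B s χ : ℂ) * Complex.I) := by fun_prop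
  have e : c'.V n s - c.V n s = ((1 / al n : ℝ) : ℂ) * ∫ χ in (0 : ℝ)..al n,
      (c'.w (pt s χ) * Complex.exp (-(c'.B s χ : ℂ) * Complex.I) -
        c.w (pt s χ) * Complex.exp (-(c.B s χ : ℂ) * Complex.I)) := by
    unfold Cf.V
    have i1 : IntervalIntegrable (fun χ => c'.w (pt s χ) *
        Complex.exp (-(c'.B s χ : ℂ) * Complex.I)) volume 0 (al n) :=
      (kw'.mul ke').intervalIntegrable _ _
    have i2 : IntervalIntegrable (fun χ => c.w (pt s χ) *
        Complex.exp (-(c.B s χ : ℂ) * Complex.I)) volume 0 (al n) :=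
      (kw.mul ke).intervalIntegrable _ _
    rw [intervalIntegral.integral_sub i1 i2]
    ring
  set b1 : ℝ := ∫ t in (0 : ℝ)..al n, |c'.b s t - c.b s t| with hb1
  set d1 : ℝ := ∫ χ in (0 : ℝ)..al n, ‖c'.w (pt s χ) - c.w (pt s χ)‖ with hd1
  have h1 : ‖∫ χ in (0 : ℝ)..al n,
      (c'.w (pt s χ) * Complex.exp (-(c'.B s χ : ℂ) * Complex.I) -
        c.w (pt s χ) * Complex.exp (-(c.B s χ : ℂ) * Complex.I))‖ ≤ d1 + al n * b1 := by
    refine (intervalIntegral.norm_integral_le_integral_norm hα.le).trans ?_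
    have h2 : ∫ χ in (0 : ℝ)..al n, ‖c'.w (pt s χ) * Complex.exp (-(c'.B s χ : ℂ) * Complex.I) -
        c.w (pt s χ) * Complex.exp (-(c.B s χ : ℂ) * Complex.I)‖ ≤
        ∫ χ in (0 : ℝ)..al n, (‖c'.w (pt s χ) - c.w (pt s χ)‖ + b1) := by
      refine intervalIntegral.integral_mono_on hα.le
        (((kw'.mul ke').sub (kw.mul ke)).norm.intervalIntegrable _ _)
        (((kw'.sub kw).norm.add continuous_const).intervalIntegrable _ _) fun χ hχ => ?_
      have e2 : c'.w (pt s χ) * Complex.exp (-(c'.B s χ : ℂ) * Complex.I) -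
          c.w (pt s χ) * Complex.exp (-(c.B s χ : ℂ) * Complex.I) =
          (c'.w (pt s χ) - c.w (pt s χ)) * Complex.exp (-(c'.B s χ : ℂ) * Complex.I) +
          c.w (pt s χ) * (Complex.exp (-(c'.B s χ : ℂ) * Complex.I) -
            Complex.exp (-(c.B s χ : ℂ) * Complex.I)) := by ring
      have h3 : ‖Complex.exp (-(c'.B s χ : ℂ) * Complex.I)‖ = 1 := by
        rw [← Complex.ofReal_neg]
        exact Complex.norm_exp_ofReal_mul_I _
      rw [e2]
      refine (norm_add_le _ _).trans ?_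
      rw [norm_mul, norm_mul, h3, mul_one]
      have h4 := clo_exp (c'.B s χ) (c.B s χ)
      have h5 := clo_Bd hc hc' s hχ.1 hχ.2
      have h6 := hc.norm_w_le (pt s χ)
      have h7 : ‖c.w (pt s χ)‖ * ‖Complex.exp (-(c'.B s χ : ℂ) * Complex.I) -
          Complex.exp (-(c.B s χ : ℂ) * Complex.I)‖ ≤ 1 * b1 :=
        mul_le_mul h6 (h4.trans h5) (norm_nonneg _) zero_le_one
      linarith
    refine h2.trans (le_of_eq ?_)
    have i1 : IntervalIntegrable (fun χ => ‖c'.w (pt s χ) - c.w (pt s χ)‖) volume 0 (al n) :=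
      (kw'.sub kw).norm.intervalIntegrable _ _
    rw [intervalIntegral.integral_add i1 intervalIntegrable_const,
      intervalIntegral.integral_const, sub_zero, smul_eq_mul]
  have kn : Continuous fun χ => ‖c'.w (pt s χ) - c.w (pt s χ)‖ := (kw'.sub kw).norm
  have kn2 : Continuous fun χ => ‖c'.w (pt s χ) - c.w (pt s χ)‖ ^ 2 := kn.pow 2
  have h8 : d1 ^ 2 ≤ al n * clW c c' n s := by
    refine (clo_cs kn hα).trans ?_
    refine mul_le_mul_of_nonneg_left ?_ hα.le
    refine clo_mono hn hc hc' kn2 (r := s) fun χ => ?_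
    unfold clD
    have h5 := sq_nonneg (c'.h (pt s χ) - c.h (pt s χ))
    have h6 := sq_nonneg ‖c'.A (pt s χ) - c.A (pt s χ)‖
    linarith
  have h9 : b1 ^ 2 ≤ al n * (s ^ 2 * clW c c' n s) := clo_b hn hc hc' s
  have h10 : ‖c'.V n s - c.V n s‖ ≤ 1 / al n * d1 + b1 := by
    rw [e, norm_mul, Complex.norm_real, Real.norm_eq_abs, abs_of_pos (by positivity)]
    calc _ ≤ 1 / al n * (d1 + al n * b1) := mul_le_mul_of_nonneg_left h1 (by positivity)
      _ = _ := by field_simp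
  have h11 := pow_le_pow_left₀ (norm_nonneg _) h10 2
  have h12 : (1 / al n * d1) ^ 2 ≤ 1 / al n * clW c c' n s := by
    rw [mul_pow]
    calc (1 / al n) ^ 2 * d1 ^ 2 ≤ (1 / al n) ^ 2 * (al n * clW c c' n s) :=
          mul_le_mul_of_nonneg_left h8 (by positivity)
      _ = _ := by field_simp
  have h13 : 2 / al n * clW c c' n s = 2 * (1 / al n * clW c c' n s) := by ring
  rw [h13]
  nlinarith [sq_nonneg (1 / al n * d1 - b1)]

/-- the common estimate for `Q` -/
private theorem clo_Q (hn : 2 ≤ n) (hc : c.Adm n) (hc' : c'.Adm n) {M : ℝ} (hE : c.E ≤ M)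
    (hE' : c'.E ≤ M) {a R : ℝ} (ha : 0 < a) (hR : a < R) {G : ℝ → ℝ} (hG : Continuous G)
    (hb : ∀ s, G s ^ 2 ≤ 4 / al n * (c'.T n s + c.T n s) +
      4 * al n * (s ^ 2 * (c'.Y n s + c.Y n s))) :
    ∫ s in a..R, s * G s ^ 2 ≤ 4 * M * (1 + R ^ 2) := by
  have hn0 : 0 < n := by omega
  have hα := al_pos hn0
  obtain ⟨hα8, hα3⟩ := clo_al hn
  have hT := Cf.int_T hn0 hc
  have hT' := Cf.int_T hn0 hc'
  have hY := Cf.int_Y hn0 hc
  have hY' := Cf.int_Y hn0 hc'
  have nT := fun s => Cf.T_nonneg hn0 c s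
  have nT' := fun s => Cf.T_nonneg hn0 c' s
  have nY := fun s => Cf.Y_nonneg hn0 c s
  have nY' := fun s => Cf.Y_nonneg hn0 c' s
  have n3 : (8 : ℝ) ≤ (n : ℝ) ^ 3 := by
    have h2 : (2 : ℝ) ≤ n := by exact_mod_cast hn
    have := pow_le_pow_left₀ (by norm_num : (0 : ℝ) ≤ 2) h2 3
    norm_num at this
    exact this
  have n30 : (0 : ℝ) < (n : ℝ) ^ 3 := by linarith
  have hM : c.E / (n : ℝ) ^ 3 ≤ M / (n : ℝ) ^ 3 := div_le_div_of_nonneg_right hE n30.le
  have hM' : c'.E / (n : ℝ) ^ 3 ≤ M / (n : ℝ) ^ 3 := div_le_div_of_nonneg_right hE' n30.le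
  have hM0 : 0 ≤ M := (Cf.Adm.E_nonneg c).trans hE
  have sT := clo_sub (fun s hs => mul_nonneg hs.le (nT s)) hT.1 ha hR.le
  have sT' := clo_sub (fun s hs => mul_nonneg hs.le (nT' s)) hT'.1 ha hR.le
  have sY := clo_sub (fun s hs => mul_nonneg hs.le (nY s)) hY.1 ha hR.le
  have sY' := clo_sub (fun s hs => mul_nonneg hs.le (nY' s)) hY'.1 ha hR.le
  have cT : Continuous (c.T n) := Cf.contDiff_T hc
  have cT' : Continuous (c'.T n) := Cf.contDiff_T hc'
  have cY : Continuous (c.Y n) := Cf.contDiff_Y hc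
  have cY' : Continuous (c'.Y n) := Cf.contDiff_Y hc'
  have iT : IntervalIntegrable (fun s => s * c.T n s) volume a R :=
    (continuous_id.mul cT).intervalIntegrable _ _
  have iT' : IntervalIntegrable (fun s => s * c'.T n s) volume a R :=
    (continuous_id.mul cT').intervalIntegrable _ _
  have iY : IntervalIntegrable (fun s => s * c.Y n s) volume a R :=
    (continuous_id.mul cY).intervalIntegrable _ _
  have iY' : IntervalIntegrable (fun s => s * c'.Y n s) volume a R :=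
    (continuous_id.mul cY').intervalIntegrable _ _
  have e1 : ∫ s in a..R, s * G s ^ 2 ≤ ∫ s in a..R,
      (4 / al n * (s * c'.T n s + s * c.T n s) +
        4 * al n * R ^ 2 * (s * c'.Y n s + s * c.Y n s)) := by
    refine intervalIntegral.integral_mono_on hR.le
      ((continuous_id.mul (hG.pow 2)).intervalIntegrable _ _)
      (((iT'.add iT).const_mul _).add ((iY'.add iY).const_mul _)) fun s hs => ?_
    have hs0 : 0 < s := lt_of_lt_of_le ha hs.1
    have h1 := mul_le_mul_of_nonneg_left (hb s) hs0.le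
    have h2 : s ^ 2 ≤ R ^ 2 := pow_le_pow_left₀ hs0.le hs.2 2
    have h3 : 0 ≤ 4 * al n * (s * (c'.Y n s + c.Y n s)) :=
      mul_nonneg (by positivity) (mul_nonneg hs0.le (add_nonneg (nY' s) (nY s)))
    have h4 := mul_le_mul_of_nonneg_left h2 h3
    calc s * G s ^ 2 ≤ _ := h1
      _ = 4 / al n * (s * c'.T n s + s * c.T n s) +
        4 * al n * (s * (c'.Y n s + c.Y n s)) * s ^ 2 := by ring
      _ ≤ 4 / al n * (s * c'.T n s + s * c.T n s) +
        4 * al n * (s * (c'.Y n s + c.Y n s)) * R ^ 2 := by linarith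
      _ = _ := by ring
  rw [intervalIntegral.integral_add ((iT'.add iT).const_mul _) ((iY'.add iY).const_mul _),
    intervalIntegral.integral_const_mul, intervalIntegral.integral_const_mul,
    intervalIntegral.integral_add iT' iT, intervalIntegral.integral_add iY' iY] at e1
  refine e1.trans ?_
  have h5 : (∫ s in a..R, s * c'.T n s) + (∫ s in a..R, s * c.T n s) ≤ 2 * (M / (n : ℝ) ^ 3) := by
    linarith [hT.2, hT'.2]
  have h6 : (∫ s in a..R, s * c'.Y n s) + (∫ s in a..R, s * c.Y n s) ≤ 2 * (M / (n : ℝ) ^ 3) := by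
    linarith [hY.2, hY'.2]
  have h7 : 4 / al n * ((∫ s in a..R, s * c'.T n s) + ∫ s in a..R, s * c.T n s) ≤ 4 * M := by
    calc _ ≤ 4 / al n * (2 * (M / (n : ℝ) ^ 3)) := mul_le_mul_of_nonneg_left h5 (by positivity)
      _ = 8 * M / (al n * (n : ℝ) ^ 3) := by field_simp; ring
      _ = 8 * M / π := by rw [hα3]
      _ ≤ 4 * M := by
        rw [div_le_iff₀ Real.pi_pos]
        nlinarith [Real.pi_gt_three]
  have h8 : 4 * al n * R ^ 2 * ((∫ s in a..R, s * c'.Y n s) + ∫ s in a..R, s * c.Y n s) ≤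
      4 * M * R ^ 2 := by
    calc _ ≤ 4 * al n * R ^ 2 * (2 * (M / (n : ℝ) ^ 3)) :=
          mul_le_mul_of_nonneg_left h6 (by positivity)
      _ = (8 * al n / (n : ℝ) ^ 3) * (M * R ^ 2) := by field_simp; ring
      _ ≤ 4 * (M * R ^ 2) := by
        refine mul_le_mul_of_nonneg_right ?_ (by positivity)
        rw [div_le_iff₀ n30]
        nlinarith [Real.pi_lt_d2]
      _ = _ := by ring
  linarith

theorem der_all (hn : 0 < n) (hc : c.Adm n) : ∃ (a' : ℝ → ℝ) (V' : ℝ → ℂ) (c' : ℝ → ℝ),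
    Continuous a' ∧ Continuous V' ∧ Continuous c' ∧
    (∀ r, HasDerivAt (c.aa n) (a' r) r) ∧ (∀ r, HasDerivAt (c.V n) (V' r) r) ∧
    (∀ r, HasDerivAt (c.cc n) (c' r) r) ∧
    (∀ r, a' r ^ 2 ≤ al n * (r ^ 2 * c.Y n r)) ∧
    (∀ r, ‖V' r‖ ^ 2 ≤ 2 * c.T n r / al n + 2 * al n * (r ^ 2 * c.Y n r)) ∧
    ∀ r, c' r ^ 2 ≤ c.T n r / al n := by
  obtain ⟨om, hom, hr⟩ := Cf.exists_rad hn hc
  have hc1 := Cf.gt_adm hn hom hc
  obtain ⟨a', ka, da, ba⟩ := Cf.der_aa hn hc1 hr
  obtain ⟨V', kV, dV, bV⟩ := Cf.der_V hn hc1 hr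
  obtain ⟨e', ke, de, be⟩ := Cf.der_cc hn hc1
  have eT : ∀ r, (c.gt om).T n r = c.T n r := fun r => by
    unfold Cf.T
    simp only [Cf.gt_nsq hom.s hc.sw]
  have eY : ∀ r, (c.gt om).Y n r = c.Y n r := fun r => by
    unfold Cf.Y
    simp only [Cf.gt_F hom.s hc.sA]
  have e1 : (c.gt om).aa n = c.aa n := funext fun r => (Cf.gt_data hn hom hc r).2.1
  have e2 : (c.gt om).cc n = c.cc n := funext fun r => (Cf.gt_data hn hom hc r).2.2.1
  have e3 : (c.gt om).V n = c.V n := funext fun r => (Cf.gt_data hn hom hc r).2.2.2.1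
  simp only [eT, eY, e1, e2, e3] at da ba dV bV de be
  exact ⟨a', V', e', ka, kV, ke, dV |> fun _ => da, dV, de, ba, bV, be⟩

theorem P_bounds (hn : 2 ≤ n) (hc : c.Adm n) (hc' : c'.Adm n) {a R : ℝ} (ha : 0 < a)
    (hR : a < R) :
    (∫ s in a..R, (c'.cc n s - c.cc n s) ^ 2 / s ≤ (2 / a ^ 2 + 2) * dist2 c c' R) ∧
    (∫ s in a..R, (c'.aa n s - c.aa n s) ^ 2 / s ≤ (2 / a ^ 2 + 2) * dist2 c c' R) ∧
    ∫ s in a..R, ((c'.V n s).re - (c.V n s).re) ^ 2 / s ≤ (2 / a ^ 2 + 2) * dist2 c c' R := by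
  have hn0 : 0 < n := by omega
  have hα := al_pos hn0
  have hW0 := fun s => clW_nonneg (c := c) (c' := c') hn0 s
  refine ⟨?_, ?_, ?_⟩
  · refine clo_P hn hc hc' ha hR ((Cf.continuous_cc hn0 hc').sub (Cf.continuous_cc hn0 hc))
      fun s hs => ?_
    have h1 := clo_cc hn0 hc hc' s
    have h2 : 0 ≤ 1 / al n * clW c c' n s := mul_nonneg (by positivity) (hW0 s)
    have h3 : 0 ≤ 2 * al n * (s ^ 2 * clW c c' n s) :=
      mul_nonneg (by positivity) (mul_nonneg (sq_nonneg s) (hW0 s))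
    have h4 : 2 / al n * clW c c' n s = 2 * (1 / al n * clW c c' n s) := by ring
    rw [h4]
    linarith
  · refine clo_P hn hc hc' ha hR ((Cf.continuous_aa hn0 hc').sub (Cf.continuous_aa hn0 hc))
      fun s hs => ?_
    have h1 := clo_aa hn0 hc hc' s
    have h2 : 0 ≤ 2 / al n * clW c c' n s := mul_nonneg (by positivity) (hW0 s)
    have h3 : 0 ≤ al n * (s ^ 2 * clW c c' n s) :=
      mul_nonneg hα.le (mul_nonneg (sq_nonneg s) (hW0 s))
    linarith
  · refine clo_P hn hc hc' ha hR (g := fun s => (c'.V n s).re - (c.V n s).re)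
      ((Complex.continuous_re.comp (Cf.continuous_V hn0 hc')).sub
        (Complex.continuous_re.comp (Cf.continuous_V hn0 hc))) fun s hs => ?_
    refine le_trans ?_ (clo_V hn0 hc hc' s)
    have h1 := Complex.abs_re_le_norm (c'.V n s - c.V n s)
    rw [Complex.sub_re] at h1
    rw [← sq_abs]
    exact pow_le_pow_left₀ (abs_nonneg _) h1 2

/-- the bound for the data -/
def bd (M a R D : ℝ) : ℝ := (2 / a ^ 2 + 2) * D / Real.log (R / a) +
  2 * Real.sqrt ((2 / a ^ 2 + 2) * D * (4 * M * (1 + R ^ 2)))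

theorem data_close (hn : 2 ≤ n) (hc : c.Adm n) (hc' : c'.Adm n) {M : ℝ} (hE : c.E ≤ M)
    (hE' : c'.E ≤ M) {a R : ℝ} (ha : 0 < a) (hR : a < R) : ∀ r ∈ Icc a R,
    (c'.cc n r - c.cc n r) ^ 2 ≤ bd M a R (dist2 c c' R) ∧
    (c'.aa n r - c.aa n r) ^ 2 ≤ bd M a R (dist2 c c' R) ∧
    ((c'.V n r).re - (c.V n r).re) ^ 2 ≤ bd M a R (dist2 c c' R) := by
  have hn0 : 0 < n := by omega
  have hα := al_pos hn0
  have nT := fun s => Cf.T_nonneg hn0 c s
  have nT' := fun s => Cf.T_nonneg hn0 c' s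
  have nY := fun s => Cf.Y_nonneg hn0 c s
  have nY' := fun s => Cf.Y_nonneg hn0 c' s
  obtain ⟨a1, V1, c1, ka1, kV1, kc1, da1, dV1, dc1, ba1, bV1, bc1⟩ := der_all hn0 hc
  obtain ⟨a2, V2, c2, ka2, kV2, kc2, da2, dV2, dc2, ba2, bV2, bc2⟩ := der_all hn0 hc'
  obtain ⟨P1, P2, P3⟩ := P_bounds hn hc hc' ha hR
  have key : ∀ {g g' : ℝ → ℝ}, (∀ s, 0 < s → HasDerivAt g (g' s) s) → Continuous g' →
      (∫ s in a..R, g s ^ 2 / s ≤ (2 / a ^ 2 + 2) * dist2 c c' R) →
      (∀ s, g' s ^ 2 ≤ 4 / al n * (c'.T n s + c.T n s) +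
        4 * al n * (s ^ 2 * (c'.Y n s + c.Y n s))) →
      ∀ r ∈ Icc a R, g r ^ 2 ≤ bd M a R (dist2 c c' R) := by
    intro g g' hg hk hP hQ r hr
    have hQ' := clo_Q hn hc hc' hE hE' ha hR hk hQ
    exact sup_sub hg hk.continuousOn ha hR hP hQ' r hr
  intro r hr
  refine ⟨?_, ?_, ?_⟩
  · refine key (g := fun s => c'.cc n s - c.cc n s) (g' := fun s => c2 s - c1 s)
      (fun s _ => (dc2 s).sub (dc1 s)) (kc2.sub kc1) P1 (fun s => ?_) r hr
    have h1 := bc1 s
    have h2 := bc2 s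
    have h3 : 0 ≤ 4 * al n * (s ^ 2 * (c'.Y n s + c.Y n s)) :=
      mul_nonneg (by positivity) (mul_nonneg (sq_nonneg s) (add_nonneg (nY' s) (nY s)))
    have h4 : 0 ≤ c.T n s / al n := div_nonneg (nT s) hα.le
    have h5 : 0 ≤ c'.T n s / al n := div_nonneg (nT' s) hα.le
    have h6 : 4 / al n * (c'.T n s + c.T n s) = 4 * (c'.T n s / al n) + 4 * (c.T n s / al n) := by
      ring
    rw [h6]
    nlinarith [sq_nonneg (c2 s + c1 s)]
  · refine key (g := fun s => c'.aa n s - c.aa n s) (g' := fun s => a2 s - a1 s)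
      (fun s _ => (da2 s).sub (da1 s)) (ka2.sub ka1) P2 (fun s => ?_) r hr
    have h1 := ba1 s
    have h2 := ba2 s
    have h3 : 0 ≤ 4 / al n * (c'.T n s + c.T n s) :=
      mul_nonneg (by positivity) (add_nonneg (nT' s) (nT s))
    have h4 : 0 ≤ al n * (s ^ 2 * c.Y n s) :=
      mul_nonneg hα.le (mul_nonneg (sq_nonneg s) (nY s))
    have h5 : 0 ≤ al n * (s ^ 2 * c'.Y n s) :=
      mul_nonneg hα.le (mul_nonneg (sq_nonneg s) (nY' s))
    have h6 : 4 * al n * (s ^ 2 * (c'.Y n s + c.Y n s)) = 4 * (al n * (s ^ 2 * c'.Y n s)) +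
        4 * (al n * (s ^ 2 * c.Y n s)) := by ring
    rw [h6]
    nlinarith [sq_nonneg (a2 s + a1 s)]
  · refine key (g := fun s => (c'.V n s).re - (c.V n s).re) (g' := fun s => (V2 s).re - (V1 s).re)
      (fun s _ => ?_) ((Complex.continuous_re.comp kV2).sub (Complex.continuous_re.comp kV1)) P3
      (fun s => ?_) r hr
    · have h1 := Complex.reCLM.hasFDerivAt.comp_hasDerivAt s (dV1 s)
      have h2 := Complex.reCLM.hasFDerivAt.comp_hasDerivAt s (dV2 s)
      exact h2.sub h1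
    · have h1 := bV1 s
      have h2 := bV2 s
      have h3 := Complex.abs_re_le_norm (V1 s)
      have h4 := Complex.abs_re_le_norm (V2 s)
      have h5 := pow_le_pow_left₀ (abs_nonneg _) h3 2
      have h6 := pow_le_pow_left₀ (abs_nonneg _) h4 2
      rw [sq_abs] at h5 h6
      have h7 : 4 / al n * (c'.T n s + c.T n s) = 2 * (2 * c'.T n s / al n) +
          2 * (2 * c.T n s / al n) := by ring
      have h8 : 4 * al n * (s ^ 2 * (c'.Y n s + c.Y n s)) = 2 * (2 * al n * (s ^ 2 * c'.Y n s)) +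
          2 * (2 * al n * (s ^ 2 * c.Y n s)) := by ring
      rw [h7, h8]
      nlinarith [sq_nonneg ((V2 s).re + (V1 s).re)]

end GO3
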