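import Pool.Agent.GO3.L.Close

/-! GO3 / L / Close2: the winding class is determined by the configuration in `L²(ball 0 (rp K n))`;
almost minimality in terms of the `L²` distance.

PROOFS.
* `bd_mono`, `bd_lim`: clear (`D ↦ bd M a R D` is monotone on `[0, ∞)`, continuous, zero at `0`; `M ≥ 0`).
* `wind_L2`: `n₀` from `wind_close K`. `a = rm K n`, `R = rp K n` (`rz_le_rm`: `0 < rm < rp`), `M = K n²`. Choose `ε`
  with `bd M a R ε ≤ 1 / 40000` (`bd_lim`). `r ≤ rm`: `Z = Z' = 1` (`psi_small` for the radial representative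
  `c.gt om` (`exists_rad`, `gt_adm`, `gt_E`, `gt_data`)). `r ≥ rp`: `‖Z' - Z‖ ≤ 2/5` (`Z_sub_one_le`). `rm ≤ r ≤ rp`:
  `Z' - Z = (psi a' - psi a) (Q' - 1) + psi a (Q' - Q)`, `Q = cc + i Re V`, `|Q' - 1| ≤ 3`
  (`abs_cc_le`, `norm_V_le`), `|psi x - psi y| ≤ (8/π) |x - y|`, `0 ≤ psi ≤ 1`, so
  `‖Z' - Z‖ ≤ (24/π + 2) (1/200) < 1/2`.
* `almin`: `n₀` and `ε` from `wind_L2 (K + 1)`. If `c'.E ≤ (K + 1) n²` then `c'.Wind` and `c'.Cls`, use `Alm`.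
  Otherwise `c.E ≤ K n² < c'.E`. -/

open MeasureTheory Filter Topology Set
open scoped ContDiff Real

noncomputable section

namespace GO3

theorem bd_mono {M a R : ℝ} (hM : 0 ≤ M) (ha : 0 < a) (hR : a < R) {D D' : ℝ} (h0 : 0 ≤ D)
    (h : D ≤ D') : bd M a R D ≤ bd M a R D' := by
  have hlog : 0 < Real.log (R / a) := Real.log_pos (by rw [one_lt_div ha]; exact hR)
  have h1 : (2 / a ^ 2 + 2) * D ≤ (2 / a ^ 2 + 2) * D' :=
    mul_le_mul_of_nonneg_left h (by positivity)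
  have h2 : 0 ≤ 4 * M * (1 + R ^ 2) := by positivity
  unfold bd
  have h3 : (2 / a ^ 2 + 2) * D / Real.log (R / a) ≤ (2 / a ^ 2 + 2) * D' / Real.log (R / a) :=
    div_le_div_of_nonneg_right h1 hlog.le
  have h4 : Real.sqrt ((2 / a ^ 2 + 2) * D * (4 * M * (1 + R ^ 2))) ≤
      Real.sqrt ((2 / a ^ 2 + 2) * D' * (4 * M * (1 + R ^ 2))) :=
    Real.sqrt_le_sqrt (mul_le_mul_of_nonneg_right h1 h2)
  linarith

theorem bd_lim {M a R : ℝ} {D : ℕ → ℝ} (hD : Tendsto D atTop (𝓝 0)) :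
    Tendsto (fun k => bd M a R (D k)) atTop (𝓝 0) := by
  have hc : Continuous fun D : ℝ => bd M a R D := by
    unfold bd
    fun_prop
  have h0 : bd M a R 0 = 0 := by
    unfold bd
    simp
  have h := (hc.tendsto 0).comp hD
  rw [h0] at h
  exact h

theorem dist2_nonneg (c c' : Cf) (R : ℝ) : 0 ≤ dist2 c c' R := by
  unfold dist2
  exact integral_nonneg fun z => by positivity

private theorem clz_psi (x : ℝ) : 0 ≤ psi x ∧ psi x ≤ 1 := by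
  unfold psi
  exact ⟨le_max_left _ _, max_le zero_le_one (min_le_left _ _)⟩

private theorem clz_lip (x y : ℝ) : |psi x - psi y| ≤ 8 / π * |x - y| := by
  unfold psi
  have h1 := abs_max_sub_max_le_max 0 (min 1 (2 - 8 / π * |x - π|)) 0
    (min 1 (2 - 8 / π * |y - π|))
  have h2 := abs_min_sub_min_le_max 1 (2 - 8 / π * |x - π|) 1 (2 - 8 / π * |y - π|)
  refine h1.trans (max_le ?_ (h2.trans (max_le ?_ ?_)))
  · rw [sub_self, abs_zero]
    positivity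
  · rw [sub_self, abs_zero]
    positivity
  have e : 2 - 8 / π * |x - π| - (2 - 8 / π * |y - π|) = -(8 / π * (|x - π| - |y - π|)) := by
    ring
  have hp := Real.pi_pos
  rw [e, abs_neg, abs_mul, abs_of_pos (by positivity : 0 < 8 / π)]
  refine mul_le_mul_of_nonneg_left ?_ (by positivity)
  have h3 := abs_abs_sub_abs_le (x - π) (y - π)
  rwa [sub_sub_sub_cancel_right] at h3

private theorem clz_one {c : Cf} {n : ℕ} (hn : 2 ≤ n) (hc : c.Adm n) {K : ℝ} (hK : 1 ≤ K)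
    (hE : c.E ≤ K * n ^ 2) {r : ℝ} (h0 : 0 ≤ r) (h : r ≤ rm K n) : c.Z n r = 1 := by
  have hn0 : 0 < n := by omega
  obtain ⟨om, hom, hrad⟩ := Cf.exists_rad hn0 hc
  have hE' : (c.gt om).E ≤ K * n ^ 2 := by rw [Cf.gt_E hom.s hc.sw hc.sA]; exact hE
  have h1 := (Cf.psi_small hn (Cf.gt_adm hn0 hom hc) hrad hK hE' h0 h).2
  rwa [(Cf.gt_data hn0 hom hc r).2.2.2.2] at h1

/-- the middle range -/
private theorem clz_mid {c c' : Cf} {n : ℕ} (hn : 0 < n) (hc' : c'.Adm n) {r : ℝ}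
    (h1 : |c'.cc n r - c.cc n r| ≤ 1 / 200) (h2 : |c'.aa n r - c.aa n r| ≤ 1 / 200)
    (h3 : |(c'.V n r).re - (c.V n r).re| ≤ 1 / 200) : ‖c'.Z n r - c.Z n r‖ < 1 / 2 := by
  have e : c'.Z n r - c.Z n r = ((psi (c'.aa n r) - psi (c.aa n r) : ℝ) : ℂ) *
      ((c'.cc n r : ℂ) + Complex.I * ((c'.V n r).re : ℂ) - 1) +
      (psi (c.aa n r) : ℂ) * (((c'.cc n r - c.cc n r : ℝ) : ℂ) +
        Complex.I * (((c'.V n r).re - (c.V n r).re : ℝ) : ℂ)) := by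
    unfold Cf.Z
    push_cast
    ring
  have hps := clz_psi (c.aa n r)
  have f1 : ‖((c'.cc n r : ℂ) + Complex.I * ((c'.V n r).re : ℂ) - 1)‖ ≤ 3 := by
    refine (norm_sub_le _ _).trans ?_
    have g1 := Cf.abs_cc_le hn hc' r
    have g2 := (Complex.abs_re_le_norm (c'.V n r)).trans (Cf.norm_V_le hn hc' r)
    have g3 : ‖(c'.cc n r : ℂ) + Complex.I * ((c'.V n r).re : ℂ)‖ ≤ 1 + 1 := by
      refine (norm_add_le _ _).trans ?_
      rw [norm_mul, Complex.norm_I, one_mul, Complex.norm_real, Complex.norm_real,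
        Real.norm_eq_abs, Real.norm_eq_abs]
      exact add_le_add g1 g2
    rw [norm_one]
    linarith
  have f2 : ‖(((c'.cc n r - c.cc n r : ℝ) : ℂ) +
      Complex.I * (((c'.V n r).re - (c.V n r).re : ℝ) : ℂ))‖ ≤ 1 / 100 := by
    refine (norm_add_le _ _).trans ?_
    rw [norm_mul, Complex.norm_I, one_mul, Complex.norm_real, Complex.norm_real, Real.norm_eq_abs,
      Real.norm_eq_abs]
    linarith
  have hp := Real.pi_gt_three
  have f3 : |psi (c'.aa n r) - psi (c.aa n r)| ≤ 1 / 60 := by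
    refine (clz_lip _ _).trans ?_
    have g1 : 8 / π ≤ 8 / 3 := div_le_div_of_nonneg_left (by norm_num) (by norm_num) hp.le
    calc 8 / π * |c'.aa n r - c.aa n r| ≤ 8 / 3 * (1 / 200) :=
          mul_le_mul g1 h2 (abs_nonneg _) (by norm_num)
      _ ≤ 1 / 60 := by norm_num
  rw [e]
  refine (norm_add_le _ _).trans_lt ?_
  rw [norm_mul, norm_mul, Complex.norm_real, Complex.norm_real, Real.norm_of_nonneg hps.1,
    Real.norm_eq_abs]
  have f4 := mul_le_mul f3 f1 (norm_nonneg _) (by norm_num)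
  have f5 := mul_le_mul hps.2 f2 (norm_nonneg _) zero_le_one
  linarith

theorem wind_L2 (K : ℝ) (hK : 1 ≤ K) : ∃ n₀ : ℕ, 2 ≤ n₀ ∧ ∀ n : ℕ, n₀ ≤ n → ∃ ε : ℝ, 0 < ε ∧
    ∀ c c' : Cf, c.Adm n → c'.Adm n → c.E ≤ K * n ^ 2 → c'.E ≤ K * n ^ 2 →
      dist2 c c' (rp K n) ≤ ε → c.Wind n → c'.Wind n := by
  obtain ⟨n₀, h2, hcl⟩ := wind_close K hK
  refine ⟨n₀, h2, fun n hn => ?_⟩
  have hn2 : 2 ≤ n := le_trans h2 hn
  have hn0 : 0 < n := by omega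
  obtain ⟨hzm, hz, hlt, -⟩ := Cf.rz_le_rm hn2 hK
  have hrm : 0 < rm K n := lt_of_lt_of_le hz hzm
  have hM : 0 ≤ K * (n : ℝ) ^ 2 := by positivity
  have hlim := bd_lim (M := K * (n : ℝ) ^ 2) (a := rm K n) (R := rp K n)
    (tendsto_one_div_add_atTop_nhds_zero_nat (𝕜 := ℝ))
  obtain ⟨k, hk⟩ := ((tendsto_order.1 hlim).2 (1 / 40000) (by norm_num)).exists
  refine ⟨1 / ((k : ℝ) + 1), by positivity, fun c c' hc hc' hE hE' hd hw => ?_⟩
  have hb : bd (K * (n : ℝ) ^ 2) (rm K n) (rp K n) (dist2 c c' (rp K n)) ≤ 1 / 40000 :=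
    (bd_mono hM hrm hlt (dist2_nonneg _ _ _) hd).trans hk.le
  refine hcl n hn c c' hc hc' hE (fun r hr0 => ?_) hw
  rcases le_total r (rm K n) with h1 | h1
  · rw [clz_one hn2 hc hK hE hr0 h1, clz_one hn2 hc' hK hE' hr0 h1]
    norm_num
  rcases le_total (rp K n) r with h3 | h3
  · have a1 := Cf.Z_sub_one_le hn2 hc hK hE h3
    have a2 := Cf.Z_sub_one_le hn2 hc' hK hE' h3
    have a3 : ‖c'.Z n r - c.Z n r‖ ≤ ‖c'.Z n r - 1‖ + ‖c.Z n r - 1‖ := by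
      have := norm_sub_le (c'.Z n r - 1) (c.Z n r - 1)
      rwa [sub_sub_sub_cancel_right] at this
    linarith
  obtain ⟨d1, d2, d3⟩ := data_close hn2 hc hc' hE hE' hrm hlt r ⟨h1, h3⟩
  have key : ∀ x : ℝ, x ^ 2 ≤ bd (K * (n : ℝ) ^ 2) (rm K n) (rp K n) (dist2 c c' (rp K n)) →
      |x| ≤ 1 / 200 := by
    intro x hx
    refine abs_le_of_sq_le_sq' ?_ (by norm_num) |> abs_le.2
    calc x ^ 2 ≤ _ := hx
      _ ≤ 1 / 40000 := hb
      _ = (1 / 200 : ℝ) ^ 2 := by norm_num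
  exact clz_mid hn0 hc' (key _ d1) (key _ d2) (key _ d3)

theorem almin (K : ℝ) (hK : 1 ≤ K) : ∃ n₀ : ℕ, 2 ≤ n₀ ∧ ∀ n : ℕ, n₀ ≤ n → ∃ ε : ℝ, 0 < ε ∧
    ∀ (σ δ : ℝ), 0 ≤ δ → ∀ c c' : Cf, c.Alm K n σ δ → c'.Adm n → c'.h 0 = c.h 0 →
      dist2 c c' (rp (K + 1) n) ≤ ε → c.E ≤ c'.E + δ := by
  obtain ⟨n₀, h2, h⟩ := wind_L2 (K + 1) (by linarith)
  refine ⟨n₀, h2, fun n hn => ?_⟩
  obtain ⟨ε, hε, hw⟩ := h n hn
  refine ⟨ε, hε, fun σ δ hδ c c' hal hc' h0 hd => ?_⟩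
  obtain ⟨⟨hc, hcw, hcs⟩, -, hE, hmin⟩ := hal
  have hE1 : c.E ≤ (K + 1) * n ^ 2 := hE.trans (by nlinarith [sq_nonneg (n : ℝ)])
  rcases le_or_gt c'.E ((K + 1) * n ^ 2) with hE' | hE'
  · exact hmin c' ⟨hc', hw c c' hc hc' hE1 hE' hd hcw, h0.trans hcs⟩
  · linarith

end GO3
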