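import Pool.Agent.GO3.L.Ext2

/-! GO3 / L / Ext3: extraction of a convergent subsequence (assembly). -/

open MeasureTheory Filter Topology Set
open scoped ContDiff Real

noncomputable section

namespace GO3

variable {c : ℕ → Cf} {n : ℕ} {M : ℝ} {w : ℂ → ℂ} {h F : ℂ → ℝ} {W1 W2 : ℂ → ℂ} {H1 H2 : ℂ → ℝ}

theorem Cw.comp {φ : ℕ → ℕ} (hφ : StrictMono φ) (H : Cw c w h F W1 W2 H1 H2) :
    Cw (fun k => c (φ k)) w h F W1 W2 H1 H2 where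
  mw := H.mw
  mh := H.mh
  mF := H.mF
  mW1 := H.mW1
  mW2 := H.mW2
  mH1 := H.mH1
  mH2 := H.mH2
  mh1 := H.mh1
  lw := H.lw
  ww := fun R => (H.ww R).comp hφ
  wh := H.wh.comp hφ
  wF := H.wF.comp hφ
  wW1 := H.wW1.comp hφ
  wW2 := H.wW2.comp hφ
  wH1 := H.wH1.comp hφ
  wH2 := H.wH2.comp hφ

private theorem re_tendsto {f : ℕ → ℂ → ℝ} {g : ℂ → ℝ}
    (h : ∀ᵐ z, Tendsto (fun k => ((f k z : ℝ) : ℂ)) atTop (𝓝 ((g z : ℝ) : ℂ))) :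
    ∀ᵐ z, Tendsto (fun k => f k z) atTop (𝓝 (g z)) := by
  filter_upwards [h] with z hz
  have := (Complex.continuous_re.tendsto _).comp hz
  simpa [Function.comp_def] using this

/-- extraction of a convergent subsequence -/
theorem extract (c : ℕ → Cf) {n : ℕ} (hc : ∀ k, (c k).Adm n) (hr : ∀ k, (c k).Rad) {M : ℝ}
    (hE : ∀ k, (c k).E ≤ M) (hF : ∀ e : ℝ, 0 < e → ∃ ε : ℝ, 0 < ε ∧
      ∀ᶠ k in atTop, ∫ z, ((c k).F z - ba ε (c k).F z) ^ 2 ≤ e) :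
    ∃ φ : ℕ → ℕ, StrictMono φ ∧ ∃ (w : ℂ → ℂ) (h F : ℂ → ℝ) (W1 W2 : ℂ → ℂ) (H1 H2 : ℂ → ℝ),
      Cv (fun k => c (φ k)) w h F W1 W2 H1 H2 := by
  obtain ⟨φ, hφ, w, h, F, W1, W2, H1, H2, H⟩ := ext1 c hc hE
  have hF' : ∀ {ψ : ℕ → ℕ}, StrictMono ψ → ∀ e : ℝ, 0 < e → ∃ ε : ℝ, 0 < ε ∧
      ∀ᶠ k in atTop, ∫ z, ((c (ψ k)).F z - ba ε (c (ψ k)).F z) ^ 2 ≤ e := by
    intro ψ hψ e he
    obtain ⟨ε, h1, h2⟩ := hF e he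
    exact ⟨ε, h1, hψ.tendsto_atTop.eventually h2⟩
  -- a.e. convergence of `w`
  obtain ⟨φ₁, hφ₁, a1⟩ := Ss.exists_ae (fun R => strong_w (fun k => hc (φ k)) (fun k => hr (φ k))
    (fun k => hE (φ k)) H R)
  have H1' := H.comp hφ₁
  have m1 : StrictMono (fun k => φ (φ₁ k)) := hφ.comp hφ₁
  obtain ⟨φ₂, hφ₂, a2⟩ := Ss.exists_ae (fun R => strong_h (fun k => hc (φ (φ₁ k)))
    (fun k => hE (φ (φ₁ k))) H1' R)
  have H2' := H1'.comp hφ₂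
  have m2 : StrictMono (fun k => φ (φ₁ (φ₂ k))) := m1.comp hφ₂
  obtain ⟨φ₃, hφ₃, a3⟩ := Ss.exists_ae (fun R => strong_F (fun k => hc (φ (φ₁ (φ₂ k))))
    (fun k => hE (φ (φ₁ (φ₂ k)))) H2' (hF' m2) R)
  have H3' := H2'.comp hφ₃
  have m3 : StrictMono (fun k => φ (φ₁ (φ₂ (φ₃ k)))) := m2.comp hφ₃
  have sF := fun R => strong_F (fun k => hc (φ (φ₁ (φ₂ (φ₃ k)))))
    (fun k => hE (φ (φ₁ (φ₂ (φ₃ k))))) H3' (hF' m3) R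
  refine ⟨fun k => φ (φ₁ (φ₂ (φ₃ k))), m3, w, h, F, W1, W2, H1, H2,
    H3'.mw, H3'.mh, H3'.mF, H3'.mW1, H3'.mW2, H3'.mH1, H3'.mH2, H3'.mh1, ?_, ?_, ?_, sF, ?_, H3'.wh,
    H3'.wF, H3'.wW1, H3'.wW2, H3'.wH1, H3'.wH2⟩
  · filter_upwards [a1] with z hz
    exact hz.comp (hφ₂.comp hφ₃).tendsto_atTop
  · have a2' := re_tendsto a2
    filter_upwards [a2'] with z hz
    have h1 := (hz.comp hφ₃.tendsto_atTop).const_sub 1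
    simpa [Function.comp_def] using h1
  · exact re_tendsto a3
  · exact fun R => strong_A (fun k => hc (φ (φ₁ (φ₂ (φ₃ k))))) (fun k => hr (φ (φ₁ (φ₂ (φ₃ k))))) H3' sF R

end GO3
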