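import Pool.Agent.GO3.L.Str

/-! GO3 / L / Tl: limits of the terms that occur in the weak equations.

`m k` bounded and a.e. convergent, `u k` weakly convergent in `L²(ℂ)`, `a k` strongly convergent in `L²` of every
disc, `g` continuous with compact support.
PROOFS. `supp g ⊆ ball 0 R`; the integrals over `ℂ` are integrals over `S = ball 0 R`
(`setIntegral_eq_integral_of_forall_compl_eq_zero`).
* `term1`: `Ws.mul` on `univ` tested with `g` (`Continuous.memLp_of_hasCompactSupport`).
* `term2`: `Ws.mul` and `Ws.mono` give `m u ⇀ m₀ v` on `S` (bounded: `∫_S ‖m k u k‖² ≤ M² C`; in `L²`), `Ss.mul` with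
  the constant multiplier `g` gives `a g → b g` on `S`; `Ws.pair`.
* `term3`: dominated convergence with bound `M ‖g‖`.
* `term4`: `Ss.mul` twice and `Ss.int`. -/

open MeasureTheory Filter Topology Set
open scoped ContDiff Real

noncomputable section

namespace GO3

variable {u a m : ℕ → ℂ → ℂ} {v b m₀ g : ℂ → ℂ} {M C : ℝ}

private theorem Tl_m0_meas (hm : ∀ k, AEStronglyMeasurable (m k))
    (hae : ∀ᵐ z, Tendsto (fun k => m k z) atTop (𝓝 (m₀ z))) : AEStronglyMeasurable m₀ :=
  aestronglyMeasurable_of_tendsto_ae atTop hm hae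

private theorem Tl_m0_bd (hb : ∀ k z, ‖m k z‖ ≤ M)
    (hae : ∀ᵐ z, Tendsto (fun k => m k z) atTop (𝓝 (m₀ z))) : ∀ᵐ z, ‖m₀ z‖ ≤ M :=
  hae.mono fun z hz => le_of_tendsto hz.norm (Eventually.of_forall fun k => hb k z)

private theorem Tl_supp (hs : HasCompactSupport g) :
    ∃ R : ℝ, ∀ z, z ∉ Metric.ball (0 : ℂ) R → g z = 0 := by
  obtain ⟨R, _, hR⟩ := hs.isCompact.isBounded.subset_ball_lt 0 (0 : ℂ)
  exact ⟨R, fun z hz => image_eq_zero_of_notMem_tsupport fun h => hz (hR h)⟩

private theorem Tl_gbd (hg : Continuous g) (hs : HasCompactSupport g) :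
    ∃ G : ℝ, ∀ z, ‖g z‖ ≤ G :=
  hg.bounded_above_of_compact_support hs

private theorem Tl_ga (R : ℝ) (ha : ∀ R : ℝ, Ss (Metric.ball 0 R) a b) (hg : Continuous g)
    (hs : HasCompactSupport g) :
    Ss (Metric.ball 0 R) (fun k z => g z * a k z) fun z => g z * b z := by
  obtain ⟨G, hG⟩ := Tl_gbd hg hs
  exact Ss.mul (m := fun _ => g) (m₀ := g) (M := G) (fun _ => hg.aestronglyMeasurable)
    (fun _ z => hG z) (Eventually.of_forall fun z => tendsto_const_nhds) (ha R)

theorem term1 (hm : ∀ k, AEStronglyMeasurable (m k)) (hb : ∀ k z, ‖m k z‖ ≤ M)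
    (hae : ∀ᵐ z, Tendsto (fun k => m k z) atTop (𝓝 (m₀ z))) (hu : ∀ k, MemLp (u k) 2)
    (hv : MemLp v 2) (hC : ∀ k, ∫ z, ‖u k z‖ ^ 2 ≤ C) (hw : Ws univ u v) (hg : Continuous g)
    (hs : HasCompactSupport g) : Tendsto (fun k => ∫ z, m k z * u k z * g z) atTop
      (𝓝 (∫ z, m₀ z * v z * g z)) := by
  have h := Ws.mul MeasurableSet.univ hm hb hae (fun k => (hu k).restrict univ)
    (hv.restrict univ) (C := C) (fun k => by simpa using hC k) hw
  exact h g (hg.memLp_of_hasCompactSupport hs) (fun z hz => absurd (mem_univ z) hz)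

theorem term2 (hm : ∀ k, AEStronglyMeasurable (m k)) (hb : ∀ k z, ‖m k z‖ ≤ M)
    (hae : ∀ᵐ z, Tendsto (fun k => m k z) atTop (𝓝 (m₀ z))) (hu : ∀ k, MemLp (u k) 2)
    (hv : MemLp v 2) (hC : ∀ k, ∫ z, ‖u k z‖ ^ 2 ≤ C) (hw : Ws univ u v)
    (ha : ∀ R : ℝ, Ss (Metric.ball 0 R) a b) (hg : Continuous g) (hs : HasCompactSupport g) :
    Tendsto (fun k => ∫ z, m k z * u k z * (a k z * g z)) atTop
      (𝓝 (∫ z, m₀ z * v z * (b z * g z))) := by
  obtain ⟨R, hR⟩ := Tl_supp hs
  have hS : MeasurableSet (Metric.ball (0 : ℂ) R) := measurableSet_ball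
  have hM : 0 ≤ M := (norm_nonneg _).trans (hb 0 0)
  have h1 : Ws (Metric.ball (0 : ℂ) R) (fun k z => m k z * u k z) fun z => m₀ z * v z := by
    refine Ws.mul hS hm hb hae (fun k => (hu k).restrict _) (hv.restrict _) (C := C) ?_
      (hw.mono (subset_univ _))
    intro k
    exact (setIntegral_le_integral ((memLp_two_iff_integrable_sq_norm (hu k).1).1 (hu k))
      (Eventually.of_forall fun z => by positivity)).trans (hC k)
  have h2 := Tl_ga R ha hg hs
  have h3 : ∀ k, MemLp (fun z => m k z * u k z) 2 (volume.restrict (Metric.ball (0 : ℂ) R)) := by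
    intro k
    refine ((hu k).restrict _).of_le_mul (c := M)
      (((hm k).mul (hu k).aestronglyMeasurable).restrict) (Eventually.of_forall fun z => ?_)
    rw [norm_mul]
    exact mul_le_mul_of_nonneg_right (hb k z) (norm_nonneg _)
  have h4 : MemLp (fun z => m₀ z * v z) 2 (volume.restrict (Metric.ball (0 : ℂ) R)) := by
    refine (hv.restrict _).of_le_mul (c := M)
      (((Tl_m0_meas hm hae).mul hv.aestronglyMeasurable).restrict)
      (ae_restrict_of_ae ((Tl_m0_bd hb hae).mono fun z hz => ?_))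
    rw [norm_mul]
    exact mul_le_mul_of_nonneg_right hz (norm_nonneg _)
  have h5 : ∀ k, ∫ z in Metric.ball (0 : ℂ) R, ‖m k z * u k z‖ ^ 2 ≤ M ^ 2 * C := by
    intro k
    have e1 : Integrable (fun z => ‖u k z‖ ^ 2) := (memLp_two_iff_integrable_sq_norm (hu k).1).1 (hu k)
    calc ∫ z in Metric.ball (0 : ℂ) R, ‖m k z * u k z‖ ^ 2
        ≤ ∫ z in Metric.ball (0 : ℂ) R, M ^ 2 * ‖u k z‖ ^ 2 := by
          refine integral_mono ((memLp_two_iff_integrable_sq_norm (h3 k).1).1 (h3 k)) ((e1.const_mul _).restrict) ?_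
          intro z
          show ‖m k z * u k z‖ ^ 2 ≤ M ^ 2 * ‖u k z‖ ^ 2
          rw [norm_mul, mul_pow]
          exact mul_le_mul_of_nonneg_right (pow_le_pow_left₀ (norm_nonneg _) (hb k z) 2)
            (by positivity)
      _ ≤ ∫ z, M ^ 2 * ‖u k z‖ ^ 2 := setIntegral_le_integral (e1.const_mul _)
          (Eventually.of_forall fun z => by positivity)
      _ = M ^ 2 * ∫ z, ‖u k z‖ ^ 2 := integral_const_mul _ _
      _ ≤ M ^ 2 * C := mul_le_mul_of_nonneg_left (hC k) (by positivity)
  have h6 := Ws.pair hS h3 h4 h5 h1 h2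
  have e1 : ∀ k, ∫ z, m k z * u k z * (a k z * g z) =
      ∫ z in Metric.ball (0 : ℂ) R, m k z * u k z * (g z * a k z) := by
    intro k
    rw [setIntegral_eq_integral_of_forall_compl_eq_zero (fun z hz => by rw [hR z hz]; ring)]
    exact integral_congr_ae (Eventually.of_forall fun z => by ring)
  have e2 : ∫ z, m₀ z * v z * (b z * g z) =
      ∫ z in Metric.ball (0 : ℂ) R, m₀ z * v z * (g z * b z) := by
    rw [setIntegral_eq_integral_of_forall_compl_eq_zero (fun z hz => by rw [hR z hz]; ring)]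
    exact integral_congr_ae (Eventually.of_forall fun z => by ring)
  simp only [e1]
  rw [e2]
  exact h6

theorem term3 (hm : ∀ k, AEStronglyMeasurable (m k)) (hb : ∀ k z, ‖m k z‖ ≤ M)
    (hae : ∀ᵐ z, Tendsto (fun k => m k z) atTop (𝓝 (m₀ z))) (hg : Continuous g)
    (hs : HasCompactSupport g) :
    Tendsto (fun k => ∫ z, m k z * g z) atTop (𝓝 (∫ z, m₀ z * g z)) := by
  have hM : 0 ≤ M := (norm_nonneg _).trans (hb 0 0)
  refine tendsto_integral_of_dominated_convergence (fun z => M * ‖g z‖)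
    (fun k => (hm k).mul hg.aestronglyMeasurable)
    ((hg.integrable_of_hasCompactSupport hs).norm.const_mul _) ?_ ?_
  · intro k
    refine Eventually.of_forall fun z => ?_
    rw [norm_mul]
    exact mul_le_mul_of_nonneg_right (hb k z) (norm_nonneg _)
  · exact hae.mono fun z hz => hz.mul_const _

theorem term4 (hm : ∀ k, AEStronglyMeasurable (m k)) (hb : ∀ k z, ‖m k z‖ ≤ M)
    (hae : ∀ᵐ z, Tendsto (fun k => m k z) atTop (𝓝 (m₀ z)))
    (ha : ∀ R : ℝ, Ss (Metric.ball 0 R) a b) (hg : Continuous g) (hs : HasCompactSupport g) :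
    Tendsto (fun k => ∫ z, m k z * (a k z * g z)) atTop (𝓝 (∫ z, m₀ z * (b z * g z))) := by
  obtain ⟨R, hR⟩ := Tl_supp hs
  have h2 := Tl_ga R ha hg hs
  have h3 := Ss.int measure_ball_lt_top (Ss.mul hm hb hae h2)
  have e1 : ∀ k, ∫ z, m k z * (a k z * g z) =
      ∫ z in Metric.ball (0 : ℂ) R, m k z * (g z * a k z) := by
    intro k
    rw [setIntegral_eq_integral_of_forall_compl_eq_zero (fun z hz => by rw [hR z hz]; ring)]
    exact integral_congr_ae (Eventually.of_forall fun z => by ring)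
  have e2 : ∫ z, m₀ z * (b z * g z) =
      ∫ z in Metric.ball (0 : ℂ) R, m₀ z * (g z * b z) := by
    rw [setIntegral_eq_integral_of_forall_compl_eq_zero (fun z hz => by rw [hR z hz]; ring)]
    exact integral_congr_ae (Eventually.of_forall fun z => by ring)
  simp only [e1]
  rw [e2]
  exact h3

/-- the integrands of the limits are integrable -/
theorem term_int (hm : ∀ k, AEStronglyMeasurable (m k)) (hb : ∀ k z, ‖m k z‖ ≤ M)
    (hae : ∀ᵐ z, Tendsto (fun k => m k z) atTop (𝓝 (m₀ z))) (hv : MemLp v 2)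
    (ha : ∀ R : ℝ, Ss (Metric.ball 0 R) a b) (hg : Continuous g) (hs : HasCompactSupport g) :
    Integrable (fun z => m₀ z * v z * g z) ∧ Integrable (fun z => m₀ z * v z * (b z * g z)) ∧
    Integrable (fun z => m₀ z * g z) ∧ Integrable (fun z => m₀ z * (b z * g z)) := by
  obtain ⟨R, hR⟩ := Tl_supp hs
  have hmm := Tl_m0_meas hm hae
  have hmb := Tl_m0_bd hb hae
  have h2 := (Tl_ga R ha hg hs).mv
  have hg2 : MemLp g 2 := hg.memLp_of_hasCompactSupport hs
  have key : ∀ f : ℂ → ℂ, Integrable f → Integrable (fun z => m₀ z * f z) := by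
    intro f hf
    refine (hf.norm.const_mul M).mono' (hmm.mul hf.aestronglyMeasurable) (hmb.mono fun z hz => ?_)
    rw [norm_mul]
    exact mul_le_mul_of_nonneg_right hz (norm_nonneg _)
  have ext : ∀ f : ℂ → ℂ, IntegrableOn (fun z => f z * (g z * b z)) (Metric.ball (0 : ℂ) R) →
      Integrable (fun z => f z * (g z * b z)) := by
    intro f hf
    rw [← integrableOn_iff_integrable_of_support_subset (s := Metric.ball (0 : ℂ) R)]
    · exact hf
    · intro z hz
      by_contra h
      exact hz (by show f z * (g z * b z) = 0; rw [hR z h]; ring)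
  have i1 : Integrable (fun z => v z * g z) := hv.integrable_mul hg2
  have i2 : Integrable (fun z => v z * (g z * b z)) := ext v ((hv.restrict _).integrable_mul h2)
  have i4 : Integrable (fun z => g z * b z) := by
    have e : IntegrableOn (fun z => (1 : ℂ) * (g z * b z)) (Metric.ball (0 : ℂ) R) := by
      have : IsFiniteMeasure (volume.restrict (Metric.ball (0 : ℂ) R)) :=
        ⟨by rw [Measure.restrict_apply_univ]; exact measure_ball_lt_top⟩
      have := h2.integrable (by norm_num)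
      simpa [IntegrableOn] using this
    simpa using ext (fun _ => 1) e
  refine ⟨?_, ?_, ?_, ?_⟩
  · refine (key _ i1).congr (Eventually.of_forall fun z => ?_)
    show m₀ z * (v z * g z) = m₀ z * v z * g z
    ring
  · refine (key _ i2).congr (Eventually.of_forall fun z => ?_)
    show m₀ z * (v z * (g z * b z)) = m₀ z * v z * (b z * g z)
    ring
  · exact key _ (hg.integrable_of_hasCompactSupport hs)
  · refine (key _ i4).congr (Eventually.of_forall fun z => ?_)
    show m₀ z * (g z * b z) = m₀ z * (b z * g z)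
    ring

end GO3
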