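import Pool.Agent.GO3.L.Wl5
import Pool.Agent.GO3.L.Tl

/-! GO3 / L / Lf1: the smooth representative of the limit is admissible; energy; convergence in `L²`.

PROOFS.
* `rp_adm`. `rw`: for a.e. `z` both `w_k z → c'.w z` and `w_k (ζ z) → c'.w (ζ z)` (the map `z ↦ ζ z` preserves null
  sets: it is a measure preserving linear isometry), and `w_k (ζ z) = ζ w_k z`; so `c'.w (ζ z) = ζ c'.w z` a.e., hence
  everywhere by continuity (`Continuous.ae_eq_iff_eq`). In the same way `rh, cw, ch` and the invariance of `c'.F` (from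
  `H.aF`, `R.eF`; `F_rot`, `F_star`; `c'.F` is continuous because `c'.A` is smooth). `rA, cA`: `c'.A = Aof c'.F`
  (`R.hA`), `Gof (F) (ζ z) = Gof F z`, `Gof F (conj z) = Gof F z`, `i conj z = - conj (i z)`.
  `fin`: `c'.dens = ‖W1‖² + ‖W2‖² + H1² + H2² + (1 - h)² + F²` a.e., integrable by `H.mW1`, ...
* `rp_E`: `cv_energy` and the same a.e. identity.
* `rp_dist`: `dist2 (c k) c' R = ∫_{B_R} ‖w - w_k‖² + ∫_{B_R} (h - h_k)² + ∫_{B_R} ‖Aof F - A_k‖²`; the first two tend to
  `0` by dominated convergence (`Ss.of_ae`), the third by `H.sA`. -/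

open MeasureTheory Filter Topology Set
open scoped ContDiff Real

noncomputable section

namespace GO3

/-- the output of the regularity theorem -/
structure Rp (c' : Cf) (w : ℂ → ℂ) (h F : ℂ → ℝ) (W1 W2 : ℂ → ℂ) (H1 H2 : ℂ → ℝ) : Prop where
  sw : ContDiff ℝ ∞ c'.w
  sh : ContDiff ℝ ∞ c'.h
  sA : ContDiff ℝ ∞ c'.A
  rad : c'.Rad
  unit : ∀ z, ‖c'.w z‖ ^ 2 + c'.h z ^ 2 = 1
  el : c'.EL
  hA : ∀ z, c'.A z = Aof c'.F z
  ew : c'.w =ᵐ[volume] w
  eh : c'.h =ᵐ[volume] h
  eF : c'.F =ᵐ[volume] F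
  eA : c'.A =ᵐ[volume] Aof F
  eD : ∀ᵐ z, c'.Dw z 1 = W1 z ∧ c'.Dw z Complex.I = W2 z
  ed : ∀ᵐ z, c'.dh z 1 = H1 z ∧ c'.dh z Complex.I = H2 z

variable {c : ℕ → Cf} {n : ℕ} {M : ℝ} {w : ℂ → ℂ} {h F : ℂ → ℝ} {W1 W2 : ℂ → ℂ} {H1 H2 : ℂ → ℝ}
  {c' : Cf}

private theorem lf_rot_mp (n : ℕ) :
    MeasurePreserving (fun z : ℂ => ze n * z) (volume : Measure ℂ) volume := by
  have hm : ze n ∈ Submonoid.unitSphere ℂ := mem_sphere_zero_iff_norm.2 (norm_ze n)
  exact (rotation (⟨ze n, hm⟩ : Circle)).measurePreserving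

private theorem lf_star_mp :
    MeasurePreserving (fun z : ℂ => star z) (volume : Measure ℂ) volume :=
  Complex.conjLIE.measurePreserving

/-- symmetries pass to the continuous representative of an a.e. limit -/
private theorem lf_inv {V : Type*} [TopologicalSpace V] [T2Space V] {T : ℂ → ℂ} {S : V → V}
    (hT : MeasurePreserving T (volume : Measure ℂ) volume) (hTc : Continuous T)
    (hS : Continuous S) {u : ℕ → ℂ → V} {v v' : ℂ → V}
    (hu : ∀ k z, u k (T z) = S (u k z))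
    (hae : ∀ᵐ z, Tendsto (fun k => u k z) atTop (𝓝 (v z))) (hv' : Continuous v')
    (he : v' =ᵐ[volume] v) (z : ℂ) : v' (T z) = S (v' z) := by
  have h1 : ∀ᵐ z, Tendsto (fun k => u k z) atTop (𝓝 (v' z)) := by
    filter_upwards [hae, he] with z h2 h3
    rw [h3]
    exact h2
  have h2 : ∀ᵐ z, Tendsto (fun k => u k (T z)) atTop (𝓝 (v' (T z))) :=
    hT.quasiMeasurePreserving.ae h1
  have h3 : (fun z => v' (T z)) =ᵐ[volume] fun z => S (v' z) := by
    filter_upwards [h1, h2] with z h4 h5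
    have h6 : Tendsto (fun k => u k (T z)) atTop (𝓝 (S (v' z))) := by
      simp only [hu]
      exact (hS.tendsto _).comp h4
    exact tendsto_nhds_unique h5 h6
  exact congrFun ((Continuous.ae_eq_iff_eq (volume : Measure ℂ) (hv'.comp hTc)
    (hS.comp hv')).1 h3) z

private theorem lf_F_cont (h : ContDiff ℝ ∞ c'.A) : Continuous c'.F := by
  have h1 : ∀ v : ℂ, Continuous fun z : ℂ => fderiv ℝ c'.A z v := fun v =>
    (h.continuous_fderiv (by simp)).clm_apply continuous_const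
  exact (Complex.continuous_im.comp (h1 1)).sub (Complex.continuous_re.comp (h1 Complex.I))

private theorem lf_Dw_cont (hw : ContDiff ℝ ∞ c'.w) (hA : ContDiff ℝ ∞ c'.A) (v : ℂ) :
    Continuous fun z => c'.Dw z v := by
  have h1 : Continuous fun z : ℂ => fderiv ℝ c'.w z v :=
    (hw.continuous_fderiv (by simp)).clm_apply continuous_const
  have h2 : Continuous fun z : ℂ => ((ip (c'.A z) v : ℝ) : ℂ) := by
    unfold ip
    exact Complex.continuous_ofReal.comp
      (((Complex.continuous_re.comp hA.continuous).mul continuous_const).add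
        ((Complex.continuous_im.comp hA.continuous).mul continuous_const))
  exact h1.sub ((continuous_const.mul h2).mul hw.continuous)

private theorem lf_dh_cont (hh : ContDiff ℝ ∞ c'.h) (v : ℂ) : Continuous fun z => c'.dh z v :=
  (hh.continuous_fderiv (by simp)).clm_apply continuous_const

/-- the energy density of the representative -/
private theorem lf_dens (R : Rp c' w h F W1 W2 H1 H2) : c'.dens =ᵐ[volume]
    fun z => ‖W1 z‖ ^ 2 + ‖W2 z‖ ^ 2 + H1 z ^ 2 + H2 z ^ 2 + (1 - h z) ^ 2 + F z ^ 2 := by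
  filter_upwards [R.eh, R.eF, R.eD, R.ed] with z h1 h2 h3 h4
  unfold Cf.dens Cf.grad Cf.nsq
  rw [h1, h2, h3.1, h3.2, h4.1, h4.2]
  ring

private theorem lf_int_dens (H : Cv c w h F W1 W2 H1 H2) : Integrable
    fun z => ‖W1 z‖ ^ 2 + ‖W2 z‖ ^ 2 + H1 z ^ 2 + H2 z ^ 2 + (1 - h z) ^ 2 + F z ^ 2 :=
  (((((H.mW1.integrable_norm_pow two_ne_zero).add (H.mW2.integrable_norm_pow two_ne_zero)).add
    H.mH1.integrable_sq).add H.mH2.integrable_sq).add H.mh1.integrable_sq).add H.mF.integrable_sq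

private theorem lf_Gof_inv {f : ℂ → ℝ} {T : ℂ → ℂ} (hT : ∀ (t : ℝ) (z : ℂ), T (t * z) = t * T z)
    (hf : ∀ z, f (T z) = f z) (z : ℂ) : Gof f (T z) = Gof f z := by
  unfold Gof
  refine intervalIntegral.integral_congr fun t _ => ?_
  show f (t * T z) * t = f (t * z) * t
  rw [← hT, hf]

theorem rp_adm (hn : 0 < n) (hc : ∀ k, (c k).Adm n) (H : Cv c w h F W1 W2 H1 H2)
    (R : Rp c' w h F W1 W2 H1 H2) : c'.Adm n := by
  have hTr : Continuous fun z : ℂ => ze n * z := continuous_const.mul continuous_id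
  have hTs : Continuous fun z : ℂ => star z := continuous_star
  have hFc := lf_F_cont R.sA
  have hFr : ∀ z, c'.F (ze n * z) = c'.F z := lf_inv (S := id) (lf_rot_mp n) hTr continuous_id
    (u := fun k => (c k).F) (fun k z => (hc k).F_rot z) H.aF hFc R.eF
  have hFs : ∀ z, c'.F (star z) = c'.F z := lf_inv (S := id) lf_star_mp hTs continuous_id
    (u := fun k => (c k).F) (fun k z => (hc k).F_star z) H.aF hFc R.eF
  refine ⟨R.sw, R.sh, R.sA, R.unit, ?_, ?_, ?_, ?_, ?_, ?_, ?_⟩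
  · exact (lf_int_dens H).congr (lf_dens R).symm
  · exact lf_inv (S := fun x => ze n * x) (lf_rot_mp n) hTr hTr
      (u := fun k => (c k).w) (fun k z => (hc k).rw z) H.aw R.sw.continuous R.ew
  · exact lf_inv (S := id) (lf_rot_mp n) hTr continuous_id
      (u := fun k => (c k).h) (fun k z => (hc k).rh z) H.ah R.sh.continuous R.eh
  · intro z
    rw [R.hA, R.hA]
    unfold Aof
    rw [lf_Gof_inv (T := fun z => ze n * z) (fun t z => by ring) hFr z]
    ring
  · exact lf_inv (S := fun x => star x) lf_star_mp hTs hTs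
      (u := fun k => (c k).w) (fun k z => (hc k).cw z) H.aw R.sw.continuous R.ew
  · exact lf_inv (S := id) lf_star_mp hTs continuous_id
      (u := fun k => (c k).h) (fun k z => (hc k).ch z) H.ah R.sh.continuous R.eh
  · intro z
    rw [R.hA, R.hA]
    unfold Aof
    rw [lf_Gof_inv (T := fun z => star z) (fun t z => by
      rw [star_mul', Complex.star_def, Complex.conj_ofReal]) hFs z]
    simp only [star_mul', Complex.star_def, Complex.conj_I, Complex.conj_ofReal]
    ring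

theorem rp_E (hc : ∀ k, (c k).Adm n) (H : Cv c w h F W1 W2 H1 H2)
    (R : Rp c' w h F W1 W2 H1 H2) {e : ℕ → ℝ} (he : Tendsto e atTop (𝓝 0))
    (hE : ∃ᶠ k in atTop, (c k).E ≤ M + e k) : c'.E ≤ M := by
  have h1 := cv_energy hc H he hE
  rw [← integral_congr_ae (lf_dens R)] at h1
  unfold Cf.E
  linarith

theorem rp_dist (hc : ∀ k, (c k).Adm n) (H : Cv c w h F W1 W2 H1 H2)
    (R : Rp c' w h F W1 W2 H1 H2) (ρ : ℝ) : Tendsto (fun k => dist2 (c k) c' ρ) atTop (𝓝 0) := by
  have hvol : volume (Metric.ball (0 : ℂ) ρ) < ⊤ := measure_ball_lt_top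
  have s1 : Ss (Metric.ball (0 : ℂ) ρ) (fun k => (c k).w) w := Ss.of_ae (M := 1) hvol
    (fun k => (hc k).sw.continuous.aestronglyMeasurable) (fun k z => (hc k).norm_w_le z) H.aw
  have s2 : Ss (Metric.ball (0 : ℂ) ρ) (fun k z => ((c k).h z : ℂ)) (fun z => (h z : ℂ)) := by
    refine Ss.of_ae (M := 1) hvol
      (fun k => (Complex.continuous_ofReal.comp (hc k).sh.continuous).aestronglyMeasurable)
      (fun k z => ?_) ?_
    · rw [Complex.norm_real]
      exact (hc k).abs_h_le z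
    · filter_upwards [H.ah] with z hz
      exact (Complex.continuous_ofReal.tendsto _).comp hz
  have s3 := H.sA ρ
  have hsum := (s1.lim.add s2.lim).add s3.lim
  rw [add_zero, add_zero] at hsum
  refine hsum.congr fun k => ?_
  have i1 : Integrable (fun z => ‖(c k).w z - w z‖ ^ 2) (volume.restrict (Metric.ball 0 ρ)) :=
    (memLp_two_iff_integrable_sq_norm ((s1.mu k).sub s1.mv).1).1 ((s1.mu k).sub s1.mv)
  have i2 : Integrable (fun z => ‖((c k).h z : ℂ) - (h z : ℂ)‖ ^ 2)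
      (volume.restrict (Metric.ball 0 ρ)) :=
    (memLp_two_iff_integrable_sq_norm ((s2.mu k).sub s2.mv).1).1 ((s2.mu k).sub s2.mv)
  have i3 : Integrable (fun z => ‖(c k).A z - Aof F z‖ ^ 2)
      (volume.restrict (Metric.ball 0 ρ)) :=
    (memLp_two_iff_integrable_sq_norm ((s3.mu k).sub s3.mv).1).1 ((s3.mu k).sub s3.mv)
  have i12 : Integrable (fun z => ‖(c k).w z - w z‖ ^ 2 + ‖((c k).h z : ℂ) - (h z : ℂ)‖ ^ 2)
      (volume.restrict (Metric.ball 0 ρ)) := i1.add i2
  unfold dist2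
  rw [← integral_add i1 i2, ← integral_add i12 i3]
  refine integral_congr_ae ?_
  filter_upwards [ae_restrict_of_ae R.ew, ae_restrict_of_ae R.eh, ae_restrict_of_ae R.eA]
    with z h1 h2 h3
  rw [h1, h2, h3]
  have e1 : ‖((c k).h z : ℂ) - (h z : ℂ)‖ ^ 2 = (h z - (c k).h z) ^ 2 := by
    rw [← Complex.ofReal_sub, Complex.norm_real, Real.norm_eq_abs, sq_abs]
    ring
  show ‖(c k).w z - w z‖ ^ 2 + ‖((c k).h z : ℂ) - (h z : ℂ)‖ ^ 2 + ‖(c k).A z - Aof F z‖ ^ 2 = _
  rw [e1, norm_sub_rev ((c k).w z), norm_sub_rev ((c k).A z)]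

end GO3
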