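import Pool.Agent.GO3.L.Close2

/-! GO3 / L / Lf2: the value at the origin survives in the limit.

PROOF. Fix `0 < s ≤ min 1 (rz K n)`. `|cc_k s - σ| ≤ ee_k 0 s ≤ C s^kap + C δ k` (`data_zero`: `cc_k 0 = h_k 0 = σ`).
`data_close` with `a = s / 2`, `R = s`, `r = s`, `M = K n²` and `bd_lim`: `(cc' s - cc_k s)² → 0`. So
`|cc' s - σ| ≤ C s^kap`. Let `s → 0+`: `cc'` is continuous (`continuous_cc`), `cc' 0 = c'.h 0`, `s^kap → 0`
(`kap > 0`). `rz K n > 0`: `rz_le_rm`. -/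

open MeasureTheory Filter Topology Set
open scoped ContDiff Real

noncomputable section

namespace GO3

theorem lim_h0 {K : ℝ} (hK : 1 ≤ K) {n : ℕ} (hn : 2 ≤ n) {c : ℕ → Cf} (hc : ∀ k, (c k).Adm n)
    (hE : ∀ k, (c k).E ≤ K * n ^ 2) {c' : Cf} (hc' : c'.Adm n) (hE' : c'.E ≤ K * n ^ 2)
    (hd : ∀ ρ, Tendsto (fun k => dist2 (c k) c' ρ) atTop (𝓝 0)) {σ : ℝ}
    (hσ : ∀ k, (c k).h 0 = σ) {C : ℝ} {δ : ℕ → ℝ} (hδ : Tendsto δ atTop (𝓝 0))
    (hg : ∀ (k : ℕ) (s : ℝ), 0 < s → s ≤ 1 → (c k).ee 0 s ≤ C * s ^ kap + C * δ k)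
    (hB : ∀ (k : ℕ) (s : ℝ), 0 < s → s ≤ rz K n →
      |(c k).cc n s - (c k).cc n 0| ≤ (c k).ee 0 s) : c'.h 0 = σ := by
  have hn0 : 0 < n := by omega
  have hz : 0 < rz K n := (Cf.rz_le_rm hn hK).2.1
  have hkap : 0 < kap := by unfold kap; norm_num
  have hcont : Continuous (c'.cc n) := Cf.continuous_cc hn0 hc'
  have h0' : c'.cc n 0 = c'.h 0 := (Cf.data_zero hn hc').2.2.1
  -- the bound for small radii
  have key : ∀ s : ℝ, 0 < s → s ≤ 1 → s ≤ rz K n → |c'.cc n s - σ| ≤ C * s ^ kap := by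
    intro s hs hs1 hsz
    have h1 : ∀ k, |(c k).cc n s - σ| ≤ C * s ^ kap + C * δ k := by
      intro k
      have h2 := hB k s hs hsz
      rw [(Cf.data_zero hn (hc k)).2.2.1, hσ k] at h2
      exact h2.trans (hg k s hs hs1)
    have h3 : Tendsto (fun k => (c'.cc n s - (c k).cc n s) ^ 2) atTop (𝓝 0) := by
      refine squeeze_zero (fun k => sq_nonneg _) (fun k => ?_)
        (bd_lim (M := K * n ^ 2) (a := s / 2) (R := s) (hd s))
      exact (data_close hn (hc k) hc' (hE k) hE' (half_pos hs) (half_lt_self hs) s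
        ⟨(half_lt_self hs).le, le_rfl⟩).1
    have h4 : Tendsto (fun k => c'.cc n s - (c k).cc n s) atTop (𝓝 0) := by
      have h5 := (Real.continuous_sqrt.tendsto 0).comp h3
      rw [Real.sqrt_zero] at h5
      rw [tendsto_zero_iff_abs_tendsto_zero]
      refine h5.congr fun k => ?_
      rw [Function.comp_apply, Function.comp_apply, Real.sqrt_sq_eq_abs]
    have h6 : Tendsto (fun k => (c k).cc n s) atTop (𝓝 (c'.cc n s)) := by
      have h7 := (tendsto_const_nhds (x := c'.cc n s)).sub h4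
      rw [sub_zero] at h7
      refine h7.congr fun k => ?_
      ring
    have h8 : Tendsto (fun k => |(c k).cc n s - σ|) atTop (𝓝 |c'.cc n s - σ|) :=
      (h6.sub_const σ).abs
    have h9 : Tendsto (fun k => C * s ^ kap + C * δ k) atTop (𝓝 (C * s ^ kap)) := by
      have := (hδ.const_mul C).const_add (C * s ^ kap)
      rwa [mul_zero, add_zero] at this
    exact le_of_tendsto_of_tendsto' h8 h9 h1
  -- the limit at the origin
  have h1 : Tendsto (fun s => |c'.cc n s - σ|) (𝓝[>] 0) (𝓝 |c'.cc n 0 - σ|) :=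
    ((hcont.sub continuous_const).abs.tendsto 0).mono_left nhdsWithin_le_nhds
  have h2 : Tendsto (fun s : ℝ => C * s ^ kap) (𝓝[>] 0) (𝓝 0) := by
    have h3 : Tendsto (fun s : ℝ => C * s ^ kap) (𝓝 0) (𝓝 (C * (0 : ℝ) ^ kap)) :=
      ((Real.continuousAt_rpow_const 0 kap (Or.inr hkap.le)).tendsto).const_mul C
    rw [Real.zero_rpow hkap.ne', mul_zero] at h3
    exact h3.mono_left nhdsWithin_le_nhds
  have h3 : ∀ᶠ s : ℝ in 𝓝[>] 0, |c'.cc n s - σ| ≤ C * s ^ kap := by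
    have hm : 0 < min 1 (rz K n) := lt_min one_pos hz
    filter_upwards [Ioo_mem_nhdsGT hm] with s hs
    exact key s hs.1 (hs.2.le.trans (min_le_left _ _)) (hs.2.le.trans (min_le_right _ _))
  have h4 := le_of_tendsto_of_tendsto h1 h2 h3
  rw [h0'] at h4
  have h5 := abs_nonpos_iff.1 h4
  linarith

end GO3
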