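import Pool.Agent.GO3.L.SymAv
import Pool.Agent.GO3.Sym

/-! GO3 / L / InvP: the functional `LP c` is linear and invariant under the dihedral group.

PROOFS. `b_z (u, v) = Re (conj (p z u) (D_v f z))`, `D_v f = df (v) - i ⟨A, v⟩ f`, is bilinear in the real vectors
`u, v`; its trace `b (1, 1) + b (i, i)` does not depend on the orthonormal frame. The integrand is continuous
with compact support, so integrable.
* `rot`: `g z = conj ζ f (ζ z)`: `D_v g z = conj ζ (D_{ζ v} f) (ζ z)` (`ip (A z) v = ip (A (ζ z)) (ζ v)` by `rA`, `ip_mul`),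
  `p z v = conj ζ p (ζ z) (ζ v)` (`Dw_rot`, `dh_rot`, `rw`, `rh`), so the integrand at `z` is the trace at `ζ z` in the
  frame `ζ, i ζ`; `(1 - h) Re (conj w g)` at `z` equals `(1 - h) Re (conj w f)` at `ζ z`. Substitute `z ↦ ζ z`
  (measure preserving linear isometry).
* `ref` (`τ = 1`): `g z = conj (f (conj z))`: `D_v g z = conj ((D_{conj v} f) (conj z))` (`ip (A (conj z)) (conj v) =
  - ip (A z) v` by `cA`), `p (conj z) (conj v) = conj (p z v)`; the frame is `1, - i`. Substitute `z ↦ conj z`. -/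

open MeasureTheory Filter Topology Set
open scoped ContDiff Real

noncomputable section

namespace GO3

namespace InvPaux

/-- covariant derivative of a test function -/
private def cd (c : Cf) (f : ℂ → ℂ) (z v : ℂ) : ℂ :=
  fderiv ℝ f z v - Complex.I * (ip (c.A z) v : ℂ) * f z

/-- the trace entry -/
private def bb (c : Cf) (f : ℂ → ℂ) (z v : ℂ) : ℝ := (star (c.p z v) * cd c f z v).re

/-- the integrand -/
private def li (c : Cf) (f : ℂ → ℂ) (z : ℂ) : ℝ :=
  bb c f z 1 + bb c f z Complex.I + (1 - c.h z) * (star (c.w z) * f z).re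

private theorem lin_aux {E : Type*} [NormedAddCommGroup E] [NormedSpace ℝ E] (L : ℂ →L[ℝ] E) (v : ℂ) :
    L v = v.re • L 1 + v.im • L Complex.I := by
  have h : v = v.re • (1 : ℂ) + v.im • Complex.I := by
    apply Complex.ext <;> simp
  conv_lhs => rw [h]
  rw [map_add, map_smul, map_smul]

private theorem p_lin (c : Cf) (z v : ℂ) :
    c.p z v = v.re * c.p z 1 + v.im * c.p z Complex.I := by
  unfold Cf.p Cf.Dw Cf.dh
  rw [lin_aux (fderiv ℝ c.w z) v, lin_aux (fderiv ℝ c.h z) v]
  simp only [ip, Complex.real_smul, smul_eq_mul, Complex.one_re, Complex.one_im, Complex.I_re, Complex.I_im]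
  push_cast
  ring

private theorem cd_lin (c : Cf) (f : ℂ → ℂ) (z v : ℂ) :
    cd c f z v = v.re * cd c f z 1 + v.im * cd c f z Complex.I := by
  unfold cd
  rw [lin_aux (fderiv ℝ f z) v]
  simp only [ip, Complex.real_smul, Complex.one_re, Complex.one_im, Complex.I_re, Complex.I_im]
  push_cast
  ring

private theorem quad_aux (a b : ℝ) (p q x y : ℂ) :
    (star ((a : ℂ) * p + b * q) * ((a : ℂ) * x + b * y)).re +
      (star ((-b : ℝ) * p + (a : ℂ) * q) * ((-b : ℝ) * x + (a : ℂ) * y)).re =
      (a ^ 2 + b ^ 2) * ((star p * x).re + (star q * y).re) := by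
  simp only [star_add, star_mul', Complex.star_def, Complex.conj_ofReal, Complex.mul_re, Complex.add_re,
    Complex.add_im, Complex.mul_im, Complex.ofReal_re, Complex.ofReal_im, Complex.conj_re, Complex.conj_im]
  ring

private theorem frame (c : Cf) (f : ℂ → ℂ) (z u : ℂ) (hu : ‖u‖ = 1) :
    bb c f z u + bb c f z (u * Complex.I) = bb c f z 1 + bb c f z Complex.I := by
  have h1 : u.re ^ 2 + u.im ^ 2 = 1 := by
    have := Complex.sq_norm u
    rw [hu, Complex.normSq_apply] at this
    nlinarith
  have e1 : (u * Complex.I).re = -u.im := by simp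
  have e2 : (u * Complex.I).im = u.re := by simp
  unfold bb
  rw [p_lin c z u, p_lin c z (u * Complex.I), cd_lin c f z u, cd_lin c f z (u * Complex.I), e1, e2,
    quad_aux, h1, one_mul]

private theorem bb_neg (c : Cf) (f : ℂ → ℂ) (z v : ℂ) : bb c f z (-v) = bb c f z v := by
  have e1 : c.p z (-v) = -c.p z v := by
    rw [p_lin c z (-v), p_lin c z v]
    simp only [Complex.neg_re, Complex.neg_im, Complex.ofReal_neg]
    ring
  have e2 : cd c f z (-v) = -cd c f z v := by
    rw [cd_lin c f z (-v), cd_lin c f z v]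
    simp only [Complex.neg_re, Complex.neg_im, Complex.ofReal_neg]
    ring
  unfold bb
  rw [e1, e2, star_neg, neg_mul_neg]

private theorem p_rot {c : Cf} {n : ℕ} (hc : c.Adm n) (z v : ℂ) :
    c.p (ze n * z) (ze n * v) = ze n * c.p z v := by
  unfold Cf.p
  rw [hc.Dw_rot, hc.dh_rot, hc.rw, hc.rh]
  ring

private theorem p_star {c : Cf} {n : ℕ} (hc : c.Adm n) (z v : ℂ) :
    c.p (star z) (star v) = star (c.p z v) := by
  unfold Cf.p
  rw [hc.Dw_star, hc.dh_star, hc.cw, hc.ch, star_sub, star_mul', star_mul']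
  simp only [Complex.star_def, Complex.conj_ofReal]

private theorem ip_rot {c : Cf} {n : ℕ} (hc : c.Adm n) (z v : ℂ) :
    ip (c.A (ze n * z)) (ze n * v) = ip (c.A z) v := by
  rw [hc.rA, ip_mul _ _ _ (norm_ze n)]

private theorem ip_ref {c : Cf} {n : ℕ} (hc : c.Adm n) (z v : ℂ) :
    ip (c.A (star z)) (star v) = -ip (c.A z) v := by
  rw [hc.cA]
  simp only [ip, Complex.neg_re, Complex.neg_im, Complex.star_def, Complex.conj_re, Complex.conj_im]
  ring

private theorem star_ze (n : ℕ) : star (ze n) * ze n = 1 := by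
  have := Complex.conj_mul' (ze n)
  rw [norm_ze] at this
  simpa using this

private theorem fd_rot {f : ℂ → ℂ} (hf : Differentiable ℝ f) (ζ z v : ℂ) :
    fderiv ℝ (fun z => star ζ * f (ζ * z)) z v = star ζ * fderiv ℝ f (ζ * z) (ζ * v) := by
  have h1 : HasFDerivAt (fun y : ℂ => ζ * y) (ζ • (ContinuousLinearMap.id ℝ ℂ)) z :=
    (hasFDerivAt_id z).const_mul ζ
  have h2 : HasFDerivAt (fun y => f (ζ * y)) ((fderiv ℝ f (ζ * z)).comp (ζ • (ContinuousLinearMap.id ℝ ℂ))) z :=
    (hf (ζ * z)).hasFDerivAt.comp z h1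
  have h3 := h2.const_mul (star ζ)
  rw [h3.fderiv]
  simp

private theorem fd_star {f : ℂ → ℂ} (hf : Differentiable ℝ f) (z v : ℂ) :
    fderiv ℝ (fun z => ((1 : ℝ) : ℂ) * star (f (star z))) z v = star (fderiv ℝ f (star z) (star v)) := by
  have h1 : HasFDerivAt (fun y : ℂ => star y) ((Complex.conjCLE : ℂ ≃L[ℝ] ℂ) : ℂ →L[ℝ] ℂ) z :=
    (Complex.conjCLE : ℂ ≃L[ℝ] ℂ).hasFDerivAt
  have h2 : HasFDerivAt (fun y => f (star y)) ((fderiv ℝ f (star z)).comp
      ((Complex.conjCLE : ℂ ≃L[ℝ] ℂ) : ℂ →L[ℝ] ℂ)) z :=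
    (hf (star z)).hasFDerivAt.comp z h1
  have h3 : HasFDerivAt (fun y : ℂ => star y) ((Complex.conjCLE : ℂ ≃L[ℝ] ℂ) : ℂ →L[ℝ] ℂ) (f (star z)) :=
    (Complex.conjCLE : ℂ ≃L[ℝ] ℂ).hasFDerivAt
  have h4 := (h3.comp z h2).const_mul (((1 : ℝ) : ℂ))
  have h5 : fderiv ℝ (fun z => ((1 : ℝ) : ℂ) * star (f (star z))) z = _ := h4.fderiv
  rw [h5]
  simp

private theorem li_rot {c : Cf} {n : ℕ} (hc : c.Adm n) {f : ℂ → ℂ} (hf : Differentiable ℝ f) (z : ℂ) :
    li c (fun z => star (ze n) * f (ze n * z)) z = li c f (ze n * z) := by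
  have hb : ∀ v, bb c (fun z => star (ze n) * f (ze n * z)) z v = bb c f (ze n * z) (ze n * v) := by
    intro v
    unfold bb cd
    rw [fd_rot hf, p_rot hc, ip_rot hc, star_mul']
    congr 1
    ring
  unfold li
  rw [hb, hb, mul_one, ← frame c f (ze n * z) (ze n) (norm_ze n), hc.rh, hc.rw, star_mul']
  congr 3
  ring

private theorem li_star {c : Cf} {n : ℕ} (hc : c.Adm n) {f : ℂ → ℂ} (hf : Differentiable ℝ f) (z : ℂ) :
    li c (fun z => ((1 : ℝ) : ℂ) * star (f (star z))) z = li c f (star z) := by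
  have hre : ∀ a b : ℂ, (star a * star b).re = (a * b).re := by
    intro a b
    simp [Complex.mul_re]
  have hb : ∀ v, bb c (fun z => ((1 : ℝ) : ℂ) * star (f (star z))) z v = bb c f (star z) (star v) := by
    intro v
    unfold bb cd
    rw [fd_star hf, p_star hc, ip_ref hc, ← hre (star (star (c.p z v)))]
    congr 1
    simp only [star_sub, star_mul', Complex.ofReal_neg, Complex.star_def, Complex.conj_I,
      Complex.conj_ofReal, map_neg, Complex.ofReal_one, Complex.conj_conj]
    ring
  have e1 : star (1 : ℂ) = 1 := star_one ℂ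
  have e2 : star Complex.I = -Complex.I := by simp
  unfold li
  rw [hb, hb, e1, e2, bb_neg, hc.ch, hc.cw, ← hre (star (star (c.w z)))]
  simp only [star_star, Complex.ofReal_one, one_mul]

private theorem li_cont {c : Cf} {n : ℕ} (hc : c.Adm n) {f : ℂ → ℂ} (hf : Tst f) : Continuous (li c f) := by
  have hp : ∀ v, Continuous fun z => c.p z v := by
    intro v
    have h1 : Continuous fun z => c.Dw z v := hc.contDiff_Dw.continuous.comp (by fun_prop : Continuous fun z : ℂ => (z, v))
    have h2 : Continuous fun z => c.dh z v := hc.contDiff_dh.continuous.comp (by fun_prop : Continuous fun z : ℂ => (z, v))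
    exact ((Complex.continuous_ofReal.comp hc.sh.continuous).mul h1).sub
      (hc.sw.continuous.mul (Complex.continuous_ofReal.comp h2))
  have hd : ∀ v, Continuous fun z => cd c f z v := by
    intro v
    have h1 : Continuous fun z => fderiv ℝ f z v :=
      (hf.1.continuous_fderiv (by simp)).clm_apply continuous_const
    have h2 : Continuous fun z => ip (c.A z) v :=
      ((Complex.continuous_re.comp hc.sA.continuous).mul continuous_const).add
        ((Complex.continuous_im.comp hc.sA.continuous).mul continuous_const)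
    exact h1.sub ((continuous_const.mul (Complex.continuous_ofReal.comp h2)).mul hf.1.continuous)
  have hb : ∀ v, Continuous fun z => bb c f z v := fun v =>
    Complex.continuous_re.comp ((continuous_star.comp (hp v)).mul (hd v))
  exact ((hb 1).add (hb Complex.I)).add ((continuous_const.sub hc.sh.continuous).mul
    (Complex.continuous_re.comp ((continuous_star.comp hc.sw.continuous).mul hf.1.continuous)))

private theorem li_int {c : Cf} {n : ℕ} (hc : c.Adm n) {f : ℂ → ℂ} (hf : Tst f) : Integrable (li c f) := by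
  refine (li_cont hc hf).integrable_of_hasCompactSupport (hf.2.mono' ?_)
  intro z hz
  by_contra h
  apply hz
  have h1 : f z = 0 := image_eq_zero_of_notMem_tsupport h
  have h2 : fderiv ℝ f z = 0 := fderiv_of_notMem_tsupport ℝ h
  simp [li, bb, cd, h1, h2]

private theorem LP_eq (c : Cf) (f : ℂ → ℂ) : LP c f = ∫ z, li c f z := rfl

private theorem dif {f : ℂ → ℂ} (hf : Tst f) : Differentiable ℝ f := hf.1.differentiable (by simp)

end InvPaux

open InvPaux in
theorem inv_LP {c : Cf} {n : ℕ} (hc : c.Adm n) : Inv n 1 (LP c) := by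
  refine ⟨?_, ?_, ?_, ?_⟩
  · intro f g hf hg
    rw [LP_eq, LP_eq, LP_eq, ← integral_add (li_int hc hf) (li_int hc hg)]
    refine integral_congr_ae (ae_of_all _ fun z => ?_)
    have h : fderiv ℝ (fun z => f z + g z) z = fderiv ℝ f z + fderiv ℝ g z :=
      fderiv_fun_add (dif hf z) (dif hg z)
    simp only [li, bb, cd, h, _root_.add_apply]
    simp only [Complex.mul_re, Complex.add_re, Complex.add_im, Complex.sub_re, Complex.sub_im, Complex.mul_im]
    ring
  · intro a f hf
    rw [LP_eq, LP_eq, ← integral_const_mul]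
    refine integral_congr_ae (ae_of_all _ fun z => ?_)
    have h : fderiv ℝ (fun z => (a : ℂ) * f z) z = (a : ℂ) • fderiv ℝ f z :=
      ((dif hf z).hasFDerivAt.const_mul (a : ℂ)).fderiv
    simp only [li, bb, cd, h, _root_.smul_apply, smul_eq_mul]
    simp only [Complex.mul_re, Complex.sub_re, Complex.sub_im, Complex.mul_im,
      Complex.ofReal_re, Complex.ofReal_im]
    ring
  · intro f hf
    rw [LP_eq, LP_eq]
    have h1 : ∀ z, li c (fun z => star (ze n) * f (ze n * z)) z = li c f (ze n * z) := li_rot hc (dif hf)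
    simp only [h1]
    have hz : ze n ∈ Submonoid.unitSphere ℂ := mem_sphere_zero_iff_norm.2 (norm_ze n)
    have h2 := (rotation (⟨ze n, hz⟩ : Circle)).measurePreserving.integral_comp
      (rotation (⟨ze n, hz⟩ : Circle)).toHomeomorph.measurableEmbedding (li c f)
    exact h2
  · intro f hf
    rw [LP_eq, LP_eq]
    have h1 : ∀ z, li c (fun z => ((1 : ℝ) : ℂ) * star (f (star z))) z = li c f (star z) := li_star hc (dif hf)
    simp only [h1]
    have h2 := Complex.conjLIE.measurePreserving.integral_comp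
      Complex.conjLIE.toHomeomorph.measurableEmbedding (li c f)
    exact h2

end GO3
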