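import Pool.Agent.GO3.L.Qa
import Pool.Agent.GO3.L.Close2

/-! GO3 / L / VarA: almost minimisers almost satisfy the equation for the potential (symmetric tests).

PROOF. `n₀`, `ε₀` from `almin K`. Put `S = ∫ (‖a‖² + (curl a)²)`, `t > 0` with `t S / 2 ≤ e / 2`,
`t² ∫ ‖a‖² ≤ ε₀`, `d = t e / 2`. For `s = ± t` the potential `s a` is `ASym`; `almin` with `addA_adm`,
`addA_dist` and `addA_E`, `LA_smul`, `curl_smul`: `0 ≤ 2 δ + 2 s LA c a + s² S`; hence
`|LA c a| ≤ δ / t + t S / 2 ≤ e`. -/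

open MeasureTheory Filter Topology Set
open scoped ContDiff Real

noncomputable section

namespace GO3

theorem varA (K : ℝ) (hK : 1 ≤ K) : ∃ n₀ : ℕ, 2 ≤ n₀ ∧ ∀ n : ℕ, n₀ ≤ n → ∀ a : ℂ → ℂ, Tst a →
    (∀ z, a (ze n * z) = ze n * a z) → (∀ z, a (star z) = -star (a z)) → ∀ e : ℝ, 0 < e →
    ∃ d : ℝ, 0 < d ∧ ∀ (σ δ : ℝ), 0 ≤ δ → δ ≤ d → ∀ c : Cf, c.Alm K n σ δ → |LA c a| ≤ e := by
  obtain ⟨n₀, h2, H⟩ := almin K hK
  refine ⟨n₀, h2, fun n hn a ha h1 h2' e he => ?_⟩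
  obtain ⟨ε, hε, Hε⟩ := H n hn
  have hA : ASym n a := ASym.of_tst ha h1 h2'
  set S : ℝ := ∫ z, (‖a z‖ ^ 2 + curl a z ^ 2) with hS
  set S1 : ℝ := ∫ z, ‖a z‖ ^ 2 with hS1
  have hS0 : 0 ≤ S := integral_nonneg fun z => by positivity
  have hS10 : 0 ≤ S1 := integral_nonneg fun z => by positivity
  obtain ⟨t, ht0, ht1, htS, htS1⟩ : ∃ t : ℝ, 0 < t ∧ t ≤ 1 ∧ t * S ≤ e ∧ t * S1 ≤ ε := by
    refine ⟨min 1 (min (e / (S + 1)) (ε / (S1 + 1))), ?_, min_le_left _ _, ?_, ?_⟩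
    · exact lt_min one_pos (lt_min (by positivity) (by positivity))
    · have h : min 1 (min (e / (S + 1)) (ε / (S1 + 1))) ≤ e / (S + 1) :=
        (min_le_right _ _).trans (min_le_left _ _)
      have h' := mul_le_mul_of_nonneg_right h hS0
      refine h'.trans ?_
      rw [div_mul_eq_mul_div, div_le_iff₀ (by linarith)]
      nlinarith
    · have h : min 1 (min (e / (S + 1)) (ε / (S1 + 1))) ≤ ε / (S1 + 1) :=
        (min_le_right _ _).trans (min_le_right _ _)
      have h' := mul_le_mul_of_nonneg_right h hS10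
      refine h'.trans ?_
      rw [div_mul_eq_mul_div, div_le_iff₀ (by linarith)]
      nlinarith
  refine ⟨t * e / 2, by positivity, fun σ δ hδ0 hδ c hc => ?_⟩
  have key : ∀ s : ℝ, s ^ 2 = t ^ 2 → 0 ≤ 2 * δ + 2 * (s * LA c a) + t ^ 2 * S := by
    intro s hs
    have hAs : ASym n (fun z => (s : ℂ) * a z) := hA.smul s
    have hcA : c.Adm n := hc.1.1
    have hn2 : ∀ z, ‖(s : ℂ) * a z‖ ^ 2 = t ^ 2 * ‖a z‖ ^ 2 := fun z => by
      rw [norm_mul, mul_pow, Complex.norm_real, Real.norm_eq_abs, sq_abs, hs]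
    have hd : dist2 c (c.addA fun z => (s : ℂ) * a z) (rp (K + 1) n) ≤ ε := by
      refine (addA_dist hAs _).trans ?_
      rw [integral_congr_ae (Filter.Eventually.of_forall hn2), integral_const_mul]
      have h3 : t ^ 2 * S1 ≤ t * S1 := by
        refine mul_le_mul_of_nonneg_right ?_ hS10
        nlinarith
      exact h3.trans htS1
    have hm := Hε σ δ hδ0 c (c.addA fun z => (s : ℂ) * a z) hc (addA_adm hcA hAs) rfl hd
    have hE := addA_E hcA hAs
    rw [LA_smul hA.s] at hE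
    have hI : ∫ z, (‖(s : ℂ) * a z‖ ^ 2 + curl (fun z => (s : ℂ) * a z) z ^ 2) = t ^ 2 * S := by
      rw [hS, ← integral_const_mul]
      refine integral_congr_ae (Filter.Eventually.of_forall fun z => ?_)
      simp only []
      rw [hn2, curl_smul hA.s, mul_pow, hs]
      ring
    rw [hI] at hE
    linarith
  have k1 := key t rfl
  have k2 := key (-t) (by ring)
  have hts : t ^ 2 * S ≤ t * e := by nlinarith
  rw [abs_le]
  constructor
  · have h3 : t * (-e) ≤ t * LA c a := by nlinarith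
    exact le_of_mul_le_mul_left h3 ht0
  · have h3 : t * LA c a ≤ t * e := by nlinarith
    exact le_of_mul_le_mul_left h3 ht0

end GO3
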