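import Pool.Agent.GO3.L.Vp2
import Pool.Agent.GO3.L.Close2

/-! GO3 / L / VarP: almost minimisers almost satisfy the equation for the field (symmetric tests).

PROOF. `n₀`, `ε₀` from `almin K`; `C₁` from `vp_dist`, `C₂` from `vp_E` with `M = K n²` (both may be enlarged to
be nonnegative). `0 < t ≤ 1` with `t C₂ / 2 ≤ e / 2`, `t² C₁ ≤ ε₀`; `d = t e / 2`. For `s = ± t`, `almin` with
`vp_adm`, `vp_h0`: `0 ≤ 2 δ + 2 s LP c f + s² C₂`; hence `|LP c f| ≤ δ / t + t C₂ / 2 ≤ e`. -/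

open MeasureTheory Filter Topology Set
open scoped ContDiff Real

noncomputable section

namespace GO3

theorem varP (K : ℝ) (hK : 1 ≤ K) : ∃ n₀ : ℕ, 2 ≤ n₀ ∧ ∀ n : ℕ, n₀ ≤ n → ∀ f : ℂ → ℂ, Tst f →
    (∀ z, f (ze n * z) = ze n * f z) → (∀ z, f (star z) = star (f z)) → ∀ e : ℝ, 0 < e →
    ∃ d : ℝ, 0 < d ∧ ∀ (σ δ : ℝ), 0 ≤ δ → δ ≤ d → ∀ c : Cf, c.Alm K n σ δ → |LP c f| ≤ e := by
  obtain ⟨n₀, h2, h⟩ := almin K hK
  refine ⟨n₀, h2, fun n hn f hf f1 f2 e he => ?_⟩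
  obtain ⟨ε, hε, hal⟩ := h n hn
  obtain ⟨C1, hC1⟩ := vp_dist (n := n) hf
  obtain ⟨C2, hC2⟩ := vp_E (n := n) hf f1 f2 (K * n ^ 2)
  -- the step
  obtain ⟨t, ht0, ht1, ht2, ht3⟩ : ∃ t : ℝ, 0 < t ∧ t ≤ 1 ∧ t * |C2| ≤ e ∧ t ^ 2 * |C1| ≤ ε := by
    refine ⟨min 1 (min (e / (|C2| + 1)) (ε / (|C1| + 1))), ?_, min_le_left _ _, ?_, ?_⟩
    · have a1 := abs_nonneg C1
      have a2 := abs_nonneg C2
      exact lt_min one_pos (lt_min (by positivity) (by positivity))
    · have a2 := abs_nonneg C2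
      have a3 : min 1 (min (e / (|C2| + 1)) (ε / (|C1| + 1))) ≤ e / (|C2| + 1) :=
        (min_le_right _ _).trans (min_le_left _ _)
      calc min 1 (min (e / (|C2| + 1)) (ε / (|C1| + 1))) * |C2| ≤ e / (|C2| + 1) * |C2| :=
            mul_le_mul_of_nonneg_right a3 a2
        _ = e * (|C2| / (|C2| + 1)) := by ring
        _ ≤ e * 1 := mul_le_mul_of_nonneg_left ((div_le_one (by linarith)).2 (by linarith)) he.le
        _ = e := mul_one e
    · have a1 := abs_nonneg C1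
      have a2 := abs_nonneg C2
      have b1 : 0 < min 1 (min (e / (|C2| + 1)) (ε / (|C1| + 1))) :=
        lt_min one_pos (lt_min (by positivity) (by positivity))
      have b2 : min 1 (min (e / (|C2| + 1)) (ε / (|C1| + 1))) ≤ 1 := min_le_left _ _
      have a3 : min 1 (min (e / (|C2| + 1)) (ε / (|C1| + 1))) ≤ ε / (|C1| + 1) :=
        (min_le_right _ _).trans (min_le_right _ _)
      generalize min 1 (min (e / (|C2| + 1)) (ε / (|C1| + 1))) = t at b1 b2 a3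
      calc t ^ 2 * |C1| ≤ t * |C1| := by
            refine mul_le_mul_of_nonneg_right ?_ a1
            nlinarith
        _ ≤ ε / (|C1| + 1) * |C1| := mul_le_mul_of_nonneg_right a3 a1
        _ = ε * (|C1| / (|C1| + 1)) := by ring
        _ ≤ ε * 1 := mul_le_mul_of_nonneg_left ((div_le_one (by linarith)).2 (by linarith)) hε.le
        _ = ε := mul_one ε
  refine ⟨t * e / 2, by positivity, fun σ δ hδ0 hδ c hc => ?_⟩
  have hc' := hc
  obtain ⟨⟨hadm, -, -⟩, hrad, hE, -⟩ := hc'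
  have key : ∀ s : ℝ, |s| ≤ t → s ^ 2 = t ^ 2 →
      0 ≤ 2 * δ + 2 * s * LP c f + t ^ 2 * |C2| := by
    intro s hs hs2
    have hs1 : |s| ≤ 1 := hs.trans ht1
    have k1 := hal σ δ hδ0 c (c.vp f s) hc (vp_adm hadm hf f1 f2 s)
      (vp_h0 (h2.trans hn) hadm f1 s) (by
        refine (hC1 c hadm s hs1 (rp (K + 1) n)).trans ?_
        rw [hs2]
        exact (mul_le_mul_of_nonneg_left (le_abs_self C1) (sq_nonneg t)).trans ht3)
    have k2 := hC2 c hadm hrad hE s hs1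
    have k3 : s ^ 2 * C2 ≤ t ^ 2 * |C2| := by
      rw [hs2]
      exact mul_le_mul_of_nonneg_left (le_abs_self C2) (sq_nonneg t)
    linarith
  have k1 := key t (by rw [abs_of_pos ht0]) rfl
  have k2 := key (-t) (by rw [abs_neg, abs_of_pos ht0]) (by ring)
  have k3 : t ^ 2 * |C2| ≤ t * e := by
    calc t ^ 2 * |C2| = t * (t * |C2|) := by ring
      _ ≤ t * e := mul_le_mul_of_nonneg_left ht2 ht0.le
  rw [abs_le]
  constructor
  · have k4 : 0 ≤ t * (LP c f + e) := by nlinarith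
    have := nonneg_of_mul_nonneg_right k4 ht0
    linarith
  · have k4 : 0 ≤ t * (e - LP c f) := by nlinarith
    have := nonneg_of_mul_nonneg_right k4 ht0
    linarith

end GO3
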