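import Pool.Agent.GO3.L.InvA
import Pool.Agent.GO3.L.InvP
import Pool.Agent.GO3.L.VarA
import Pool.Agent.GO3.L.VarP

/-! GO3 / L / Tests: the first variations along almost minimising sequences tend to `0` (all tests). -/

open MeasureTheory Filter Topology Set
open scoped ContDiff Real

noncomputable section

namespace GO3

theorem LA_lim (K : ℝ) (hK : 1 ≤ K) : ∃ n₀ : ℕ, 2 ≤ n₀ ∧ ∀ n : ℕ, n₀ ≤ n → ∀ (σ : ℝ) (c : ℕ → Cf)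
    (δ : ℕ → ℝ), Tendsto δ atTop (𝓝 0) → (∀ k, 0 ≤ δ k) → (∀ k, (c k).Alm K n σ (δ k)) →
    ∀ f : ℂ → ℂ, Tst f → Tendsto (fun k => LA (c k) f) atTop (𝓝 0) := by
  obtain ⟨n₀, h2, h⟩ := varA K hK
  refine ⟨n₀, h2, fun n hn σ c δ hδ h0 hc f hf => ?_⟩
  obtain ⟨g, hg, h3, h4, h5⟩ := sym_av (n := n) (by omega) (τ := -1) (Or.inr rfl) f hf
  have h4' : ∀ z, g (star z) = -star (g z) := fun z => by rw [h4]; push_cast; ring
  rw [Metric.tendsto_atTop]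
  intro e he
  obtain ⟨d, hd, h6⟩ := h n hn g hg h3 h4' (e / 2) (by linarith)
  obtain ⟨N, hN⟩ := (Metric.tendsto_atTop.1 hδ) d hd
  refine ⟨N, fun k hk => ?_⟩
  have h7 := hN k hk
  rw [Real.dist_eq, sub_zero, abs_of_nonneg (h0 k)] at h7
  have h8 := h6 σ (δ k) (h0 k) h7.le (c k) (hc k)
  rw [h5 _ (inv_LA (hc k).1.1)] at h8
  rw [Real.dist_eq, sub_zero]
  linarith

theorem LP_lim (K : ℝ) (hK : 1 ≤ K) : ∃ n₀ : ℕ, 2 ≤ n₀ ∧ ∀ n : ℕ, n₀ ≤ n → ∀ (σ : ℝ) (c : ℕ → Cf)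
    (δ : ℕ → ℝ), Tendsto δ atTop (𝓝 0) → (∀ k, 0 ≤ δ k) → (∀ k, (c k).Alm K n σ (δ k)) →
    ∀ f : ℂ → ℂ, Tst f → Tendsto (fun k => LP (c k) f) atTop (𝓝 0) := by
  obtain ⟨n₀, h2, h⟩ := varP K hK
  refine ⟨n₀, h2, fun n hn σ c δ hδ h0 hc f hf => ?_⟩
  obtain ⟨g, hg, h3, h4, h5⟩ := sym_av (n := n) (by omega) (τ := 1) (Or.inl rfl) f hf
  have h4' : ∀ z, g (star z) = star (g z) := fun z => by rw [h4]; push_cast; ring
  rw [Metric.tendsto_atTop]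
  intro e he
  obtain ⟨d, hd, h6⟩ := h n hn g hg h3 h4' (e / 2) (by linarith)
  obtain ⟨N, hN⟩ := (Metric.tendsto_atTop.1 hδ) d hd
  refine ⟨N, fun k hk => ?_⟩
  have h7 := hN k hk
  rw [Real.dist_eq, sub_zero, abs_of_nonneg (h0 k)] at h7
  have h8 := h6 σ (δ k) (h0 k) h7.le (c k) (hc k)
  rw [h5 _ (inv_LP (hc k).1.1)] at h8
  rw [Real.dist_eq, sub_zero]
  linarith


end GO3
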