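import Pool.Agent.GO3.L.Tl
import Pool.Agent.GO3.L.Bds

/-! GO3 / L / Wl2: the limit of a convergent sequence of configurations: derivatives of `w`.

PROOF. For smooth `w_k` integration by parts (complex valued `w_k`, real test `f`):
`∫ w_k ∂_v f = - ∫ ∂_v w_k f = - ∫ (D_v w_k + i ⟨A_k, v⟩ w_k) f`
(`integral_bilinear_hasLineDerivAt_right_eq_neg_left_of_integrable` or the `smul`/real and imaginary parts version).
Limits: left side `term3` (`m = w_k`, `g = ∂_v f`); `∫ D_v w_k f`: weak convergence with the test `f`;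
`∫ i ⟨A_k, v⟩ w_k f`: `term4` with `m = w_k`, `a = (A_k).re` (`v = 1`) or `(A_k).im` (`v = i`; `Ss.re`, `Ss.im` of
`H.sA`), `g = i f`. `ip z 1 = z.re`, `ip z i = z.im`. -/

open MeasureTheory Filter Topology Set
open scoped ContDiff Real

noncomputable section

namespace GO3

variable {c : ℕ → Cf} {n : ℕ} {w : ℂ → ℂ} {h F : ℂ → ℝ} {W1 W2 : ℂ → ℂ} {H1 H2 : ℂ → ℝ}

/-- the complexified test function -/
private theorem wl2_fderiv {f : ℂ → ℝ} (hf : Tst f) (z v : ℂ) :
    fderiv ℝ (fun z => (f z : ℂ)) z v = ((fderiv ℝ f z v : ℝ) : ℂ) := by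
  have h1 : HasFDerivAt f (fderiv ℝ f z) z :=
    (hf.1.differentiable (by simp)).differentiableAt.hasFDerivAt
  have h2 : HasFDerivAt (fun z => (f z : ℂ)) (Complex.ofRealCLM.comp (fderiv ℝ f z)) z :=
    Complex.ofRealCLM.hasFDerivAt.comp z h1
  rw [h2.fderiv]
  rfl

private theorem wl2_core {v : ℂ} {W : ℂ → ℂ} (hc : ∀ k, (c k).Adm n)
    (H : Cv c w h F W1 W2 H1 H2) (hW : MemLp W 2)
    (hWw : Ws univ (fun k z => (c k).Dw z v) W)
    (hab : ∀ R : ℝ, Ss (Metric.ball 0 R) (fun k z => ((ip ((c k).A z) v : ℝ) : ℂ))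
      fun z => ((ip (Aof F z) v : ℝ) : ℂ)) (f : ℂ → ℝ) (hf : Tst f) :
    ∫ z, w z * (fderiv ℝ f z v : ℂ) =
      -∫ z, (W z + Complex.I * (ip (Aof F z) v : ℂ) * w z) * (f z : ℂ) := by
  -- the test function
  have hfc : Continuous (fun z => (f z : ℂ)) := Complex.continuous_ofReal.comp hf.1.continuous
  have hfs : HasCompactSupport (fun z => (f z : ℂ)) := hf.2.comp_left (g := fun x : ℝ => (x : ℂ))
    Complex.ofReal_zero
  have hfI : Continuous (fun z => Complex.I * (f z : ℂ)) := continuous_const.mul hfc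
  have hfIs : HasCompactSupport (fun z => Complex.I * (f z : ℂ)) := hfs.mul_left
  have hdc : Continuous (fun z => ((fderiv ℝ f z v : ℝ) : ℂ)) :=
    Complex.continuous_ofReal.comp ((hf.1.continuous_fderiv (by simp)).clm_apply continuous_const)
  have hds : HasCompactSupport (fun z => ((fderiv ℝ f z v : ℝ) : ℂ)) :=
    (hf.2.fderiv_apply ℝ v).comp_left (g := fun x : ℝ => (x : ℂ)) Complex.ofReal_zero
  -- the sequence
  have hwc : ∀ k, Continuous (c k).w := fun k => (hc k).sw.continuous
  have hwm : ∀ k, AEStronglyMeasurable (c k).w := fun k => (hwc k).aestronglyMeasurable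
  have hwb : ∀ k z, ‖(c k).w z‖ ≤ 1 := fun k z => (hc k).norm_w_le z
  have hDc : ∀ k, Continuous (fun z => (c k).Dw z v) := fun k =>
    (hc k).contDiff_Dw.continuous.comp (continuous_id.prodMk continuous_const)
  have hAc : ∀ k, Continuous (fun z => ((ip ((c k).A z) v : ℝ) : ℂ)) := by
    intro k
    have h1 := (hc k).sA.continuous
    unfold ip
    refine Complex.continuous_ofReal.comp ?_
    exact ((Complex.continuous_re.comp h1).mul continuous_const).add
      ((Complex.continuous_im.comp h1).mul continuous_const)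
  have hlim1 := term3 (m := fun k => (c k).w) (m₀ := w) hwm hwb H.aw hdc hds
  have hmemf : MemLp (fun z => (f z : ℂ)) 2 := hfc.memLp_of_hasCompactSupport hfs
  have hlim2 := hWw (fun z => (f z : ℂ)) hmemf (fun z hz => absurd (mem_univ z) hz)
  have hlim3 := term4 (m := fun k => (c k).w) (m₀ := w) hwm hwb H.aw hab hfI hfIs
  have hint1 : Integrable (fun z => W z * (f z : ℂ)) := hW.integrable_mul hmemf
  have hint2 := (term_int (m := fun k => (c k).w) (m₀ := w) hwm hwb H.aw hW hab hfI hfIs).2.2.2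
  have heq : ∀ k, ∫ z, (c k).w z * ((fderiv ℝ f z v : ℝ) : ℂ) =
      -((∫ z, (c k).Dw z v * (f z : ℂ)) +
        ∫ z, (c k).w z * (((ip ((c k).A z) v : ℝ) : ℂ) * (Complex.I * (f z : ℂ)))) := by
    intro k
    have i1 : Integrable (fun z => (c k).Dw z v * (f z : ℂ)) :=
      ((hDc k).mul hfc).integrable_of_hasCompactSupport hfs.mul_left
    have i2 : Integrable (fun z => (c k).w z *
        (((ip ((c k).A z) v : ℝ) : ℂ) * (Complex.I * (f z : ℂ)))) :=
      ((hwc k).mul ((hAc k).mul hfI)).integrable_of_hasCompactSupport (hfIs.mul_left.mul_left)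
    have i3 : Integrable (fun z => (c k).w z * ((fderiv ℝ f z v : ℝ) : ℂ)) :=
      ((hwc k).mul hdc).integrable_of_hasCompactSupport hds.mul_left
    have i4 : Integrable (fun z => (c k).w z * (f z : ℂ)) :=
      ((hwc k).mul hfc).integrable_of_hasCompactSupport hfs.mul_left
    have e1 : ∀ z, fderiv ℝ (c k).w z v * (f z : ℂ) = (c k).Dw z v * (f z : ℂ) +
        (c k).w z * (((ip ((c k).A z) v : ℝ) : ℂ) * (Complex.I * (f z : ℂ))) := by
      intro z
      unfold Cf.Dw
      ring
    have i5 : Integrable (fun z => fderiv ℝ (c k).w z v * (f z : ℂ)) := by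
      have := i1.add i2
      refine this.congr (Filter.Eventually.of_forall fun z => ?_)
      exact (e1 z).symm
    have hibp := integral_mul_fderiv_eq_neg_fderiv_mul_of_integrable (μ := volume)
      (f := (c k).w) (g := fun z => (f z : ℂ)) (v := v) i5
      (by
        refine i3.congr (Filter.Eventually.of_forall fun z => ?_)
        change _ = (c k).w z * fderiv ℝ (fun z => (f z : ℂ)) z v
        rw [wl2_fderiv hf])
      i4 (fun z _ => ((hc k).sw.differentiable (by simp)).differentiableAt)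
      (fun z _ => Complex.ofRealCLM.differentiableAt.comp z
        (hf.1.differentiable (by simp)).differentiableAt)
    rw [← integral_add i1 i2]
    simp only [wl2_fderiv hf] at hibp
    rw [hibp]
    congr 1
    exact integral_congr_ae (Filter.Eventually.of_forall fun z => e1 z)
  have hlim4 : Tendsto (fun k => ∫ z, (c k).w z * ((fderiv ℝ f z v : ℝ) : ℂ)) atTop
      (𝓝 (-((∫ z, W z * (f z : ℂ)) +
        ∫ z, w z * (((ip (Aof F z) v : ℝ) : ℂ) * (Complex.I * (f z : ℂ)))))) := by
    simp only [heq]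
    exact (hlim2.add hlim3).neg
  have h5 := tendsto_nhds_unique hlim1 hlim4
  rw [h5, ← integral_add hint1 hint2]
  congr 1
  refine integral_congr_ae (Filter.Eventually.of_forall fun z => ?_)
  change W z * (f z : ℂ) + w z * (((ip (Aof F z) v : ℝ) : ℂ) * (Complex.I * (f z : ℂ))) = _
  ring

theorem cv_dw1 (hc : ∀ k, (c k).Adm n) (H : Cv c w h F W1 W2 H1 H2) (f : ℂ → ℝ) (hf : Tst f) :
    ∫ z, w z * (fderiv ℝ f z 1 : ℂ) =
      -∫ z, (W1 z + Complex.I * (ip (Aof F z) 1 : ℂ) * w z) * (f z : ℂ) := by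
  refine wl2_core hc H H.mW1 H.wW1 (fun R => ?_) f hf
  have h1 := (H.sA R).re
  have e : ∀ z : ℂ, ip z 1 = z.re := fun z => by simp [ip]
  simp only [e]
  exact h1

theorem cv_dw2 (hc : ∀ k, (c k).Adm n) (H : Cv c w h F W1 W2 H1 H2) (f : ℂ → ℝ) (hf : Tst f) :
    ∫ z, w z * (fderiv ℝ f z Complex.I : ℂ) =
      -∫ z, (W2 z + Complex.I * (ip (Aof F z) Complex.I : ℂ) * w z) * (f z : ℂ) := by
  refine wl2_core hc H H.mW2 H.wW2 (fun R => ?_) f hf
  have h1 := (H.sA R).im
  have e : ∀ z : ℂ, ip z Complex.I = z.im := fun z => by simp [ip]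
  simp only [e]
  exact h1

end GO3
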