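import Pool.Agent.GO3.L.Tl
import Pool.Agent.GO3.L.Bds

/-! GO3 / L / Wl3: the limit of a convergent sequence of configurations: the equation for the potential.

PROOF. `LA (c k) f = ∫ F_k curl f - Im (∫ star w_k D_1 w_k f.re) - Im (∫ star w_k D_i w_k f.im)`; the three integrals
converge: weak convergence `H.wF` with the test `curl f` (continuous, compact support), `term1` with `m = star w_k`,
`u = D_v w_k`, `g = f.re`, `f.im`. So the limit of `LA (c k) f` is the same expression for the limit functions, which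
is the integral of the statement (integrability: `term_int`); the limit is `0` by `hA` (`tendsto_nhds_unique`). -/

open MeasureTheory Filter Topology Set
open scoped ContDiff Real

noncomputable section

namespace GO3

variable {c : ℕ → Cf} {n : ℕ} {M : ℝ} {w : ℂ → ℂ} {h F : ℂ → ℝ} {W1 W2 : ℂ → ℂ} {H1 H2 : ℂ → ℝ}

private theorem wl3_split {m u1 u2 : ℂ → ℂ} {G : ℂ → ℝ} {f : ℂ → ℂ}
    (h0 : Integrable fun z => (G z : ℂ) * ((curl f z : ℝ) : ℂ))
    (h1 : Integrable fun z => m z * u1 z * ((f z).re : ℂ))
    (h2 : Integrable fun z => m z * u2 z * ((f z).im : ℂ)) :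
    ∫ z, (G z * curl f z - ((f z).re * (m z * u1 z).im + (f z).im * (m z * u2 z).im)) =
      (∫ z, (G z : ℂ) * ((curl f z : ℝ) : ℂ)).re -
        ((∫ z, m z * u1 z * ((f z).re : ℂ)).im + (∫ z, m z * u2 z * ((f z).im : ℂ)).im) := by
  have e0 : (∫ z, (G z : ℂ) * ((curl f z : ℝ) : ℂ)).re = ∫ z, G z * curl f z := by
    have := integral_re h0
    simp only [RCLike.re_eq_complex_re] at this
    rw [← this]
    refine integral_congr_ae (Eventually.of_forall fun z => ?_)
    simp [Complex.mul_re]
  have e1 : (∫ z, m z * u1 z * ((f z).re : ℂ)).im = ∫ z, (f z).re * (m z * u1 z).im := by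
    have := integral_im h1
    simp only [RCLike.im_eq_complex_im] at this
    rw [← this]
    refine integral_congr_ae (Eventually.of_forall fun z => ?_)
    simp only [Complex.im_mul_ofReal]
    ring
  have e2 : (∫ z, m z * u2 z * ((f z).im : ℂ)).im = ∫ z, (f z).im * (m z * u2 z).im := by
    have := integral_im h2
    simp only [RCLike.im_eq_complex_im] at this
    rw [← this]
    refine integral_congr_ae (Eventually.of_forall fun z => ?_)
    simp only [Complex.im_mul_ofReal]
    ring
  have i0 : Integrable fun z => G z * curl f z := by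
    have := h0.re
    refine this.congr (Eventually.of_forall fun z => ?_)
    simp
  have i1 : Integrable fun z => (f z).re * (m z * u1 z).im := by
    have := h1.im
    refine this.congr (Eventually.of_forall fun z => ?_)
    simp only [RCLike.im_eq_complex_im, Complex.im_mul_ofReal]
    ring
  have i2 : Integrable fun z => (f z).im * (m z * u2 z).im := by
    have := h2.im
    refine this.congr (Eventually.of_forall fun z => ?_)
    simp only [RCLike.im_eq_complex_im, Complex.im_mul_ofReal]
    ring
  have i3 : Integrable fun z => (f z).re * (m z * u1 z).im + (f z).im * (m z * u2 z).im := i1.add i2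
  rw [e0, e1, e2, integral_sub i0 i3, integral_add i1 i2]

private theorem wl3_fd {f : ℂ → ℂ} (hf : Tst f) (v : ℂ) : Continuous fun z => fderiv ℝ f z v :=
  (hf.1.continuous_fderiv (by simp)).clm_apply continuous_const

private theorem wl3_curl {f : ℂ → ℂ} (hf : Tst f) :
    Continuous (fun z => ((curl f z : ℝ) : ℂ)) ∧ HasCompactSupport (fun z => ((curl f z : ℝ) : ℂ)) := by
  constructor
  · refine Complex.continuous_ofReal.comp ?_
    exact (Complex.continuous_im.comp (wl3_fd hf 1)).sub
      (Complex.continuous_re.comp (wl3_fd hf Complex.I))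
  · refine HasCompactSupport.intro hf.2 fun z hz => ?_
    have h0 : fderiv ℝ f z = 0 := fderiv_of_notMem_tsupport ℝ hz
    simp [curl, h0]

private theorem wl3_nw {c : Cf} {n : ℕ} (hc : c.Adm n) (z : ℂ) : ‖star (c.w z)‖ ≤ 1 := by
  rw [norm_star]
  have := hc.unit z
  nlinarith [norm_nonneg (c.w z), sq_nonneg (c.h z)]

theorem cv_eqA (hc : ∀ k, (c k).Adm n) (hE : ∀ k, (c k).E ≤ M) (H : Cv c w h F W1 W2 H1 H2)
    (f : ℂ → ℂ) (hf : Tst f) (hA : Tendsto (fun k => LA (c k) f) atTop (𝓝 0)) :
    ∫ z, (F z * ((fderiv ℝ f z 1).im - (fderiv ℝ f z Complex.I).re) -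
      ((f z).re * (star (w z) * W1 z).im + (f z).im * (star (w z) * W2 z).im)) = 0 := by
  set m : ℕ → ℂ → ℂ := fun k z => star ((c k).w z) with hm
  have hmm : ∀ k, AEStronglyMeasurable (m k) := fun k =>
    (continuous_star.comp (hc k).sw.continuous).aestronglyMeasurable
  have hb : ∀ k z, ‖m k z‖ ≤ 1 := fun k z => wl3_nw (hc k) z
  have hae : ∀ᵐ z, Tendsto (fun k => m k z) atTop (𝓝 (star (w z))) := by
    filter_upwards [H.aw] with z hz
    exact (continuous_star.tendsto _).comp hz
  have hr : Continuous (fun z => ((f z).re : ℂ)) ∧ HasCompactSupport (fun z => ((f z).re : ℂ)) :=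
    ⟨Complex.continuous_ofReal.comp (Complex.continuous_re.comp hf.1.continuous),
      hf.2.comp_left (g := fun z : ℂ => ((z.re : ℝ) : ℂ)) (by simp)⟩
  have hi : Continuous (fun z => ((f z).im : ℂ)) ∧ HasCompactSupport (fun z => ((f z).im : ℂ)) :=
    ⟨Complex.continuous_ofReal.comp (Complex.continuous_im.comp hf.1.continuous),
      hf.2.comp_left (g := fun z : ℂ => ((z.im : ℝ) : ℂ)) (by simp)⟩
  have hcu := wl3_curl hf
  have hcm : MemLp (fun z => ((curl f z : ℝ) : ℂ)) 2 := hcu.1.memLp_of_hasCompactSupport hcu.2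
  -- limits
  have l0 := H.wF _ hcm (fun z hz => absurd (mem_univ z) hz)
  have l1 := term1 hmm hb hae (fun k => (mem_all (hc k)).W1) H.mW1
    (fun k => (bd_all (hc k) (hE k)).W1) H.wW1 hr.1 hr.2
  have l2 := term1 hmm hb hae (fun k => (mem_all (hc k)).W2) H.mW2
    (fun k => (bd_all (hc k) (hE k)).W2) H.wW2 hi.1 hi.2
  have lim := ((Complex.continuous_re.tendsto _).comp l0).sub
    (((Complex.continuous_im.tendsto _).comp l1).add ((Complex.continuous_im.tendsto _).comp l2))
  -- the sequence
  have hF : ∀ G : ℂ → ℝ, MemLp G 2 → Integrable fun z => (G z : ℂ) * ((curl f z : ℝ) : ℂ) := by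
    intro G hG
    exact MemLp.integrable_mul (p := 2) (q := 2) hG.ofReal hcm
  have hk : ∀ k, LA (c k) f = (∫ z, ((c k).F z : ℂ) * ((curl f z : ℝ) : ℂ)).re -
      ((∫ z, m k z * (c k).Dw z 1 * ((f z).re : ℂ)).im +
        (∫ z, m k z * (c k).Dw z Complex.I * ((f z).im : ℂ)).im) := by
    intro k
    have hst : ∀ᵐ z, Tendsto (fun _ : ℕ => m k z) atTop (𝓝 (m k z)) :=
      Eventually.of_forall fun z => tendsto_const_nhds
    have i1 := (term_int (m := fun _ => m k) (fun _ => hmm k) (fun _ => hb k) hst
      (mem_all (hc k)).W1 H.sA hr.1 hr.2).1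
    have i2 := (term_int (m := fun _ => m k) (fun _ => hmm k) (fun _ => hb k) hst
      (mem_all (hc k)).W2 H.sA hi.1 hi.2).1
    exact wl3_split (hF _ (mem_all (hc k)).F) i1 i2
  have j1 := (term_int hmm hb hae H.mW1 H.sA hr.1 hr.2).1
  have j2 := (term_int hmm hb hae H.mW2 H.sA hi.1 hi.2).1
  have hl := wl3_split (hF _ H.mF) j1 j2
  have lim' : Tendsto (fun k => LA (c k) f) atTop (𝓝 (∫ z, (F z * curl f z -
      ((f z).re * (star (w z) * W1 z).im + (f z).im * (star (w z) * W2 z).im)))) := by
    rw [hl]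
    refine lim.congr fun k => ?_
    rw [hk k]
    rfl
  exact tendsto_nhds_unique lim' hA

end GO3
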