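import Pool.Agent.GO3.L.Tl
import Pool.Agent.GO3.L.Bds

/-! GO3 / L / Wl4: the limit of a convergent sequence of configurations: the equation for the field.

PROOF. With `p = h W - w H`, `star p = h star W - star w H` (`h, H` real). For `v = 1, i` and `x_v = ip A v`
(`A.re`, `A.im`):
`star p_v (∂_v f - i x_v f) = h star W_v ∂_v f - star w H_v ∂_v f - h star W_v (x_v i f) + star w H_v (x_v i f)`.
The four integrals converge: `term1`, `term2` with `m = h_k` or `star w_k`, `u = star W_v` (weak convergence of the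
conjugates: conjugate the test and the integral, `star_ws` below) or `H_v`, `a = x_v` (`Ss.re`, `Ss.im` of `H.sA`),
`g = ∂_v f` or `i f`. The last term `(1 - h) Re (star w f)`: `term3` with `m = (1 - h_k) star w_k`.
Hence `LP (c k) f` converges to the integral of the statement (sum of the real parts; integrability: `term_int` and
its analogue for the sequence members, which are continuous with compact support), and to `0` by `hP`. -/

open MeasureTheory Filter Topology Set
open scoped ContDiff Real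

noncomputable section

namespace GO3

variable {c : ℕ → Cf} {n : ℕ} {M : ℝ} {w : ℂ → ℂ} {h F : ℂ → ℝ} {W1 W2 : ℂ → ℂ} {H1 H2 : ℂ → ℝ}

theorem star_ws {S : Set ℂ} {u : ℕ → ℂ → ℂ} {v : ℂ → ℂ} (h : Ws S u v) :
    Ws S (fun k z => star (u k z)) fun z => star (v z) := by
  intro g hg hz
  have h1 := h (fun z => star (g z)) hg.star (fun z hz' => by simp [hz z hz'])
  have e : ∀ a : ℂ → ℂ, star (∫ z, a z * star (g z)) = ∫ z, star (a z) * g z := by
    intro a
    rw [Complex.star_def, ← integral_conj]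
    refine integral_congr_ae (Filter.Eventually.of_forall fun z => ?_)
    simp
  have h2 := (continuous_star.tendsto _).comp h1
  rw [e] at h2
  refine h2.congr fun k => ?_
  exact e _

/-- the constant sequence converges strongly -/
theorem Wl4_const {S : Set ℂ} {v : ℂ → ℂ} (hv : MemLp v 2 (volume.restrict S)) :
    Ss S (fun _ => v) v :=
  ⟨fun _ => hv, hv, by simp⟩

theorem Wl4_split {m1 v1 m2 v2 d x e : ℂ → ℂ} (g1 : Integrable fun z => m1 z * v1 z * d z)
    (g2 : Integrable fun z => m2 z * v2 z * d z)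
    (g3 : Integrable fun z => m1 z * v1 z * (x z * e z))
    (g4 : Integrable fun z => m2 z * v2 z * (x z * e z)) :
    Integrable (fun z => m1 z * v1 z * d z - m2 z * v2 z * d z - m1 z * v1 z * (x z * e z) +
      m2 z * v2 z * (x z * e z)) ∧
    ∫ z, (m1 z * v1 z * d z - m2 z * v2 z * d z - m1 z * v1 z * (x z * e z) +
      m2 z * v2 z * (x z * e z)) = (∫ z, m1 z * v1 z * d z) - (∫ z, m2 z * v2 z * d z) -
      (∫ z, m1 z * v1 z * (x z * e z)) + ∫ z, m2 z * v2 z * (x z * e z) := by
  refine ⟨((g1.sub g2).sub g3).add g4, ?_⟩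
  have e1 := integral_add ((g1.sub g2).sub g3) g4
  have e2 := integral_sub (g1.sub g2) g3
  have e3 := integral_sub g1 g2
  simp only [Pi.sub_apply] at e1 e2 e3
  rw [e1, e2, e3]

theorem Wl4_alg (h H : ℝ) (w W d x f : ℂ) : star (h * W - w * H) * (d - Complex.I * x * f) =
    (h : ℂ) * star W * d - star w * H * d - (h : ℂ) * star W * (x * (Complex.I * f)) +
      star w * H * (x * (Complex.I * f)) := by
  rw [star_sub, star_mul', star_mul', Complex.star_def, Complex.conj_ofReal, Complex.conj_ofReal]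
  ring

/-- one direction of the equation -/
theorem Wl4_dir {hk : ℕ → ℂ → ℝ} {wk Wk xk : ℕ → ℂ → ℂ} {Hk : ℕ → ℂ → ℝ} {h H : ℂ → ℝ}
    {w W x d f : ℂ → ℂ} {C : ℝ} (m1 : ∀ k, Continuous (hk k)) (m2 : ∀ k, Continuous (wk k))
    (b1 : ∀ k z, |hk k z| ≤ 1) (b2 : ∀ k z, ‖wk k z‖ ≤ 1)
    (a1 : ∀ᵐ z, Tendsto (fun k => hk k z) atTop (𝓝 (h z)))
    (a2 : ∀ᵐ z, Tendsto (fun k => wk k z) atTop (𝓝 (w z)))
    (mW : ∀ k, MemLp (Wk k) 2) (mH : ∀ k, MemLp (Hk k) 2) (lW : MemLp W 2) (lH : MemLp H 2)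
    (cW : ∀ k, ∫ z, ‖Wk k z‖ ^ 2 ≤ C) (cH : ∀ k, ∫ z, Hk k z ^ 2 ≤ C) (wW : Ws univ Wk W)
    (wH : Ws univ (fun k z => (Hk k z : ℂ)) fun z => (H z : ℂ))
    (sx : ∀ R : ℝ, Ss (Metric.ball 0 R) xk x) (hd : Continuous d) (sd : HasCompactSupport d)
    (hf : Continuous f) (sf : HasCompactSupport f) :
    (∀ k, Integrable fun z => star ((hk k z : ℂ) * Wk k z - wk k z * Hk k z) *
      (d z - Complex.I * xk k z * f z)) ∧
    (Integrable fun z => star ((h z : ℂ) * W z - w z * H z) * (d z - Complex.I * x z * f z)) ∧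
    Tendsto (fun k => ∫ z, star ((hk k z : ℂ) * Wk k z - wk k z * Hk k z) *
      (d z - Complex.I * xk k z * f z)) atTop
      (𝓝 (∫ z, star ((h z : ℂ) * W z - w z * H z) * (d z - Complex.I * x z * f z))) := by
  have n1 : ∀ k, AEStronglyMeasurable fun z => (hk k z : ℂ) := fun k =>
    (Complex.continuous_ofReal.comp (m1 k)).aestronglyMeasurable
  have n2 : ∀ k, AEStronglyMeasurable fun z => star (wk k z) := fun k =>
    (continuous_star.comp (m2 k)).aestronglyMeasurable
  have c1 : ∀ k z, ‖((hk k z : ℝ) : ℂ)‖ ≤ 1 := fun k z => by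
    rw [Complex.norm_real, Real.norm_eq_abs]; exact b1 k z
  have c2 : ∀ k z, ‖star (wk k z)‖ ≤ 1 := fun k z => by rw [norm_star]; exact b2 k z
  have t1 : ∀ᵐ z, Tendsto (fun k => (hk k z : ℂ)) atTop (𝓝 (h z : ℂ)) := by
    filter_upwards [a1] with z hz
    exact (Complex.continuous_ofReal.tendsto _).comp hz
  have t2 : ∀ᵐ z, Tendsto (fun k => star (wk k z)) atTop (𝓝 (star (w z))) := by
    filter_upwards [a2] with z hz
    exact (continuous_star.tendsto _).comp hz
  have p1 : ∀ k, MemLp (fun z => star (Wk k z)) 2 := fun k => (mW k).star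
  have p2 : ∀ k, MemLp (fun z => (Hk k z : ℂ)) 2 := fun k => (mH k).ofReal
  have q1 : MemLp (fun z => star (W z)) 2 := lW.star
  have q2 : MemLp (fun z => (H z : ℂ)) 2 := lH.ofReal
  have C1 : ∀ k, ∫ z, ‖star (Wk k z)‖ ^ 2 ≤ C := fun k => by
    simp only [norm_star]; exact cW k
  have C2 : ∀ k, ∫ z, ‖((Hk k z : ℝ) : ℂ)‖ ^ 2 ≤ C := fun k => by
    simp only [Complex.norm_real, Real.norm_eq_abs, sq_abs]; exact cH k
  have w1 := star_ws wW
  have hg : Continuous fun z => Complex.I * f z := continuous_const.mul hf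
  have sg : HasCompactSupport fun z => Complex.I * f z := sf.mul_left
  -- the limits of the four terms
  have l1 := term1 n1 c1 t1 p1 q1 C1 w1 hd sd
  have l2 := term1 n2 c2 t2 p2 q2 C2 wH hd sd
  have l3 := term2 n1 c1 t1 p1 q1 C1 w1 sx hg sg
  have l4 := term2 n2 c2 t2 p2 q2 C2 wH sx hg sg
  -- integrability for the limit
  have i1 := term_int n1 c1 t1 q1 sx hd sd
  have i2 := term_int n2 c2 t2 q2 sx hd sd
  have i3 := term_int n1 c1 t1 q1 sx hg sg
  have i4 := term_int n2 c2 t2 q2 sx hg sg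
  -- integrability for the members
  have j1 : ∀ k, _ := fun k => term_int (m := fun _ z => (hk k z : ℂ)) (m₀ := fun z => (hk k z : ℂ))
    (a := fun _ => xk k) (b := xk k) (fun _ => n1 k) (fun _ => c1 k)
    (Filter.Eventually.of_forall fun z => tendsto_const_nhds) (p1 k)
    (fun R => Wl4_const ((sx R).mu k)) hd sd
  have j2 : ∀ k, _ := fun k => term_int (m := fun _ z => star (wk k z))
    (m₀ := fun z => star (wk k z))
    (a := fun _ => xk k) (b := xk k) (fun _ => n2 k) (fun _ => c2 k)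
    (Filter.Eventually.of_forall fun z => tendsto_const_nhds) (p2 k)
    (fun R => Wl4_const ((sx R).mu k)) hd sd
  have j3 : ∀ k, _ := fun k => term_int (m := fun _ z => (hk k z : ℂ)) (m₀ := fun z => (hk k z : ℂ))
    (a := fun _ => xk k) (b := xk k) (fun _ => n1 k) (fun _ => c1 k)
    (Filter.Eventually.of_forall fun z => tendsto_const_nhds) (p1 k)
    (fun R => Wl4_const ((sx R).mu k)) hg sg
  have j4 : ∀ k, _ := fun k => term_int (m := fun _ z => star (wk k z))
    (m₀ := fun z => star (wk k z))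
    (a := fun _ => xk k) (b := xk k) (fun _ => n2 k) (fun _ => c2 k)
    (Filter.Eventually.of_forall fun z => tendsto_const_nhds) (p2 k)
    (fun R => Wl4_const ((sx R).mu k)) hg sg
  have S0 := Wl4_split i1.1 i2.1 i3.2.1 i4.2.1
  have Sk := fun k => Wl4_split (j1 k).1 (j2 k).1 (j3 k).2.1 (j4 k).2.1
  refine ⟨fun k => ?_, ?_, ?_⟩
  · simp only [Wl4_alg]
    exact (Sk k).1
  · simp only [Wl4_alg]
    exact S0.1
  · simp only [Wl4_alg]
    rw [S0.2]
    simp only [fun k => (Sk k).2]
    exact ((l1.sub l2).sub l3).add l4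

theorem cv_eqp (hc : ∀ k, (c k).Adm n) (hE : ∀ k, (c k).E ≤ M) (H : Cv c w h F W1 W2 H1 H2)
    (f : ℂ → ℂ) (hf : Tst f) (hP : Tendsto (fun k => LP (c k) f) atTop (𝓝 0)) :
    ∫ z, ((star (h z * W1 z - w z * H1 z) *
      (fderiv ℝ f z 1 - Complex.I * (ip (Aof F z) 1 : ℂ) * f z)).re +
    (star (h z * W2 z - w z * H2 z) *
      (fderiv ℝ f z Complex.I - Complex.I * (ip (Aof F z) Complex.I : ℂ) * f z)).re +
    (1 - h z) * (star (w z) * f z).re) = 0 := by
  have hb1 : ∀ k z, |(c k).h z| ≤ 1 := fun k z => by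
    have := (hc k).unit z
    rw [abs_le]
    constructor <;> nlinarith [sq_nonneg ‖(c k).w z‖]
  have hb2 : ∀ k z, ‖(c k).w z‖ ≤ 1 := fun k z => by
    have := (hc k).unit z
    nlinarith [sq_nonneg ((c k).h z), norm_nonneg ((c k).w z)]
  have hcont : Continuous f := hf.1.continuous
  have hd : ∀ v : ℂ, Continuous fun z => fderiv ℝ f z v := fun v =>
    (hf.1.continuous_fderiv (by simp)).clm_apply continuous_const
  have sd : ∀ v : ℂ, HasCompactSupport fun z => fderiv ℝ f z v := fun v => hf.2.fderiv_apply ℝ v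
  have bd := fun k => bd_all (hc k) (hE k)
  have mm := fun k => mem_all (hc k)
  have x1 : ∀ R : ℝ, Ss (Metric.ball 0 R) (fun k z => ((ip ((c k).A z) 1 : ℝ) : ℂ))
      fun z => ((ip (Aof F z) 1 : ℝ) : ℂ) := fun R => by
    have := (H.sA R).re
    simpa [ip] using this
  have x2 : ∀ R : ℝ, Ss (Metric.ball 0 R) (fun k z => ((ip ((c k).A z) Complex.I : ℝ) : ℂ))
      fun z => ((ip (Aof F z) Complex.I : ℝ) : ℂ) := fun R => by
    have := (H.sA R).im
    simpa [ip] using this
  obtain ⟨ik1, i1, t1⟩ := Wl4_dir (fun k => (hc k).sh.continuous) (fun k => (hc k).sw.continuous)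
    hb1 hb2 H.ah H.aw (fun k => (mm k).W1) (fun k => (mm k).H1) H.mW1 H.mH1 (fun k => (bd k).W1)
    (fun k => (bd k).H1) H.wW1 H.wH1 x1 (hd 1) (sd 1) hcont hf.2
  obtain ⟨ik2, i2, t2⟩ := Wl4_dir (fun k => (hc k).sh.continuous) (fun k => (hc k).sw.continuous)
    hb1 hb2 H.ah H.aw (fun k => (mm k).W2) (fun k => (mm k).H2) H.mW2 H.mH2 (fun k => (bd k).W2)
    (fun k => (bd k).H2) H.wW2 H.wH2 x2 (hd Complex.I) (sd Complex.I) hcont hf.2
  -- the last term
  have n3 : ∀ k, AEStronglyMeasurable fun z => ((1 - (c k).h z : ℝ) : ℂ) * star ((c k).w z) :=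
    fun k => ((Complex.continuous_ofReal.comp (continuous_const.sub (hc k).sh.continuous)).mul
      (continuous_star.comp (hc k).sw.continuous)).aestronglyMeasurable
  have c3 : ∀ k z, ‖((1 - (c k).h z : ℝ) : ℂ) * star ((c k).w z)‖ ≤ 2 := fun k z => by
    rw [norm_mul, norm_star, Complex.norm_real, Real.norm_eq_abs]
    have h1 := hb1 k z
    have h2 := hb2 k z
    have h3 : |1 - (c k).h z| ≤ 2 := by
      rw [abs_le] at h1 ⊢
      constructor <;> linarith
    nlinarith [norm_nonneg ((c k).w z), abs_nonneg (1 - (c k).h z)]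
  have t3' : ∀ᵐ z, Tendsto (fun k => ((1 - (c k).h z : ℝ) : ℂ) * star ((c k).w z)) atTop
      (𝓝 (((1 - h z : ℝ) : ℂ) * star (w z))) := by
    filter_upwards [H.ah, H.aw] with z h1 h2
    exact ((Complex.continuous_ofReal.tendsto _).comp (h1.const_sub 1)).mul
      ((continuous_star.tendsto _).comp h2)
  have t3 := term3 n3 c3 t3' hcont hf.2
  have i3 := (term_int n3 c3 t3' (v := fun _ => 0) (by simp) x1 hcont hf.2).2.2.1
  have ik3 : ∀ k, Integrable fun z => ((1 - (c k).h z : ℝ) : ℂ) * star ((c k).w z) * f z :=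
    fun k => ((((Complex.continuous_ofReal.comp (continuous_const.sub (hc k).sh.continuous)).mul
      (continuous_star.comp (hc k).sw.continuous)).mul hcont).integrable_of_hasCompactSupport
      hf.2.mul_left)
  -- the real part of the complex integrals
  have key : ∀ {P Q R : ℂ → ℂ}, Integrable P → Integrable Q → Integrable R →
      ∫ z, ((P z).re + (Q z).re + (R z).re) = ((∫ z, P z) + (∫ z, Q z) + ∫ z, R z).re := by
    intro P Q R hP hQ hR
    have e1 := integral_add (hP.add hQ) hR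
    have e2 := integral_add hP hQ
    simp only [Pi.add_apply] at e1 e2
    rw [← e2, ← e1]
    have e3 := integral_re ((hP.add hQ).add hR)
    simp only [Pi.add_apply, RCLike.re_to_complex, Complex.add_re] at e3
    rw [e3]
  have tot := ((t1.add t2).add t3)
  have tot2 := (Complex.continuous_re.tendsto _).comp tot
  rw [← key i1 i2 i3] at tot2
  have eL : ∀ k, LP (c k) f = ∫ z, ((star (((c k).h z : ℂ) * (c k).Dw z 1 -
      (c k).w z * ((c k).dh z 1 : ℂ)) *
      (fderiv ℝ f z 1 - Complex.I * (ip ((c k).A z) 1 : ℂ) * f z)).re +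
    (star (((c k).h z : ℂ) * (c k).Dw z Complex.I - (c k).w z * ((c k).dh z Complex.I : ℂ)) *
      (fderiv ℝ f z Complex.I - Complex.I * (ip ((c k).A z) Complex.I : ℂ) * f z)).re +
    (((1 - (c k).h z : ℝ) : ℂ) * star ((c k).w z) * f z).re) := fun k => by
    unfold LP Cf.p
    refine integral_congr_ae (Filter.Eventually.of_forall fun z => ?_)
    simp only [mul_assoc, Complex.re_ofReal_mul]
  have tot3 : Tendsto (fun k => LP (c k) f) atTop (𝓝 _) := tot2.congr fun k => by
    rw [eL k, key (ik1 k) (ik2 k) (ik3 k)]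
    rfl
  have fin := tendsto_nhds_unique tot3 hP
  rw [← fin]
  refine integral_congr_ae (Filter.Eventually.of_forall fun z => ?_)
  simp only [mul_assoc, Complex.re_ofReal_mul]

end GO3
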