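import Pool.Agent.GO3.L.Ae
import Pool.Agent.GO3.L.Bds

/-! GO3 / L / Wl5: the limit of a convergent sequence of configurations: growth and energy.

PROOFS.
* `cv_growth`: for `q`, `0 < r ≤ 1`: `lsc` on `S = ball q r` for `m = 4` (`D_1 w, D_i w, ∂_1 h, ∂_2 h`, coerced),
  `∑ ∫_S ‖u i k‖² = 2 ee q r ≤ 2 C r^kap + 2 C δ k` (`ee_sum`), `e k = 2 C δ k`; the sum of the four integrals is the
  integral of the sum (`mW1`.. are in `L²`). `2 C` does not depend on `q`.
* `cv_energy`: `lsc` on `univ` for `m = 6` and `E_sum`, `M := 2 M`, `e := 2 e`. -/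

open MeasureTheory Filter Topology Set
open scoped ContDiff Real

noncomputable section

namespace GO3

variable {c : ℕ → Cf} {n : ℕ} {M : ℝ} {w : ℂ → ℂ} {h F : ℂ → ℝ} {W1 W2 : ℂ → ℂ} {H1 H2 : ℂ → ℝ}

theorem Wl5_sq_int {v : ℂ → ℂ} (hv : MemLp v 2) : Integrable fun z => ‖v z‖ ^ 2 :=
  (memLp_two_iff_integrable_sq_norm hv.1).1 hv

theorem Wl5_int4 {μ : Measure ℂ} {f1 f2 f3 f4 : ℂ → ℝ} (h1 : Integrable f1 μ) (h2 : Integrable f2 μ)
    (h3 : Integrable f3 μ) (h4 : Integrable f4 μ) : ∫ z, (f1 z + f2 z + f3 z + f4 z) ∂μ =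
      (∫ z, f1 z ∂μ) + (∫ z, f2 z ∂μ) + (∫ z, f3 z ∂μ) + ∫ z, f4 z ∂μ := by
  have e1 := integral_add ((h1.add h2).add h3) h4
  have e2 := integral_add (h1.add h2) h3
  have e3 := integral_add h1 h2
  simp only [Pi.add_apply] at e1 e2 e3
  rw [e1, e2, e3]

theorem cv_growth (hc : ∀ k, (c k).Adm n) (H : Cv c w h F W1 W2 H1 H2) {C : ℝ} {δ : ℕ → ℝ}
    (hδ : Tendsto δ atTop (𝓝 0)) (hg : ∀ (k : ℕ) (q : ℂ) (r : ℝ), 0 < r → r ≤ 1 →
      (c k).ee q r ≤ C * r ^ kap + C * δ k) (q : ℂ) {r : ℝ} (hr : r ∈ Ioc (0 : ℝ) 1) :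
    ∫ z in Metric.ball q r, (‖W1 z‖ ^ 2 + ‖W2 z‖ ^ 2 + H1 z ^ 2 + H2 z ^ 2) ≤ 2 * C * r ^ kap := by
  have hS : MeasurableSet (Metric.ball q r) := Metric.isOpen_ball.measurableSet
  have key := lsc (m := 4) hS
    ![fun k z => (c k).Dw z 1, fun k z => (c k).Dw z Complex.I, fun k z => ((c k).dh z 1 : ℂ),
      fun k z => ((c k).dh z Complex.I : ℂ)]
    ![W1, W2, fun z => (H1 z : ℂ), fun z => (H2 z : ℂ)]
    (by
      intro i k
      have ha := mem_all (hc k)
      fin_cases i
      · exact ha.W1.restrict _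
      · exact ha.W2.restrict _
      · exact ha.H1.ofReal.restrict _
      · exact ha.H2.ofReal.restrict _)
    (by
      intro i
      fin_cases i
      · exact H.mW1.restrict _
      · exact H.mW2.restrict _
      · exact H.mH1.ofReal.restrict _
      · exact H.mH2.ofReal.restrict _)
    (by
      intro i
      fin_cases i
      · exact H.wW1.mono (subset_univ _)
      · exact H.wW2.mono (subset_univ _)
      · exact H.wH1.mono (subset_univ _)
      · exact H.wH2.mono (subset_univ _))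
    (M := 2 * C * r ^ kap) (e := fun k => 2 * C * δ k) (by simpa using hδ.const_mul (2 * C))
    (Filter.Frequently.of_forall fun k => by
      have h1 := ee_sum (hc k) q r
      have h2 := hg k q r hr.1 hr.2
      rw [Fin.sum_univ_four]
      simp only [Matrix.cons_val_zero, Matrix.cons_val_one, Matrix.cons_val, Complex.norm_real,
        Real.norm_eq_abs, sq_abs]
      linarith)
  rw [Fin.sum_univ_four] at key
  simp only [Matrix.cons_val_zero, Matrix.cons_val_one, Matrix.cons_val, Complex.norm_real,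
    Real.norm_eq_abs, sq_abs] at key
  have i1 : IntegrableOn (fun z => ‖W1 z‖ ^ 2) (Metric.ball q r) := (Wl5_sq_int H.mW1).integrableOn
  have i2 : IntegrableOn (fun z => ‖W2 z‖ ^ 2) (Metric.ball q r) := (Wl5_sq_int H.mW2).integrableOn
  have i3 : IntegrableOn (fun z => H1 z ^ 2) (Metric.ball q r) := H.mH1.integrable_sq.integrableOn
  have i4 : IntegrableOn (fun z => H2 z ^ 2) (Metric.ball q r) := H.mH2.integrable_sq.integrableOn
  rw [Wl5_int4 i1 i2 i3 i4]
  exact key

theorem cv_energy (hc : ∀ k, (c k).Adm n) (H : Cv c w h F W1 W2 H1 H2) {e : ℕ → ℝ}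
    (he : Tendsto e atTop (𝓝 0)) (hE : ∃ᶠ k in atTop, (c k).E ≤ M + e k) :
    ∫ z, (‖W1 z‖ ^ 2 + ‖W2 z‖ ^ 2 + H1 z ^ 2 + H2 z ^ 2 + (1 - h z) ^ 2 + F z ^ 2) ≤ 2 * M := by
  have key := lsc (m := 6) MeasurableSet.univ
    ![fun k z => (c k).Dw z 1, fun k z => (c k).Dw z Complex.I, fun k z => ((c k).dh z 1 : ℂ),
      fun k z => ((c k).dh z Complex.I : ℂ), fun k z => ((1 - (c k).h z : ℝ) : ℂ),
      fun k z => ((c k).F z : ℂ)]
    ![W1, W2, fun z => (H1 z : ℂ), fun z => (H2 z : ℂ), fun z => ((1 - h z : ℝ) : ℂ),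
      fun z => (F z : ℂ)]
    (by
      intro i k
      have ha := mem_all (hc k)
      fin_cases i
      · exact ha.W1.restrict _
      · exact ha.W2.restrict _
      · exact ha.H1.ofReal.restrict _
      · exact ha.H2.ofReal.restrict _
      · exact ha.h.ofReal.restrict _
      · exact ha.F.ofReal.restrict _)
    (by
      intro i
      fin_cases i
      · exact H.mW1.restrict _
      · exact H.mW2.restrict _
      · exact H.mH1.ofReal.restrict _
      · exact H.mH2.ofReal.restrict _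
      · exact H.mh1.ofReal.restrict _
      · exact H.mF.ofReal.restrict _)
    (by
      intro i
      fin_cases i
      · exact H.wW1
      · exact H.wW2
      · exact H.wH1
      · exact H.wH2
      · exact H.wh
      · exact H.wF)
    (M := 2 * M) (e := fun k => 2 * e k) (by simpa using he.const_mul 2)
    (hE.mono fun k hk => by
      have h1 := E_sum (hc k)
      rw [Fin.sum_univ_six]
      simp only [Matrix.cons_val_zero, Matrix.cons_val_one, Matrix.cons_val, Complex.norm_real,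
        Real.norm_eq_abs, sq_abs, Measure.restrict_univ]
      linarith)
  rw [Fin.sum_univ_six] at key
  simp only [Matrix.cons_val_zero, Matrix.cons_val_one, Matrix.cons_val, Complex.norm_real,
    Real.norm_eq_abs, sq_abs, Measure.restrict_univ] at key
  have i1 := Wl5_sq_int H.mW1
  have i2 := Wl5_sq_int H.mW2
  have i3 := H.mH1.integrable_sq
  have i4 := H.mH2.integrable_sq
  have i5 := H.mh1.integrable_sq
  have i6 := H.mF.integrable_sq
  have e1 := integral_add ((((i1.add i2).add i3).add i4).add i5) i6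
  have e2 := integral_add (((i1.add i2).add i3).add i4) i5
  have e3 := Wl5_int4 i1 i2 i3 i4
  simp only [Pi.add_apply] at e1 e2
  rw [e1, e2, e3]
  exact key

end GO3
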