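import Pool.Agent.GO3.L.Wl1
import Pool.Agent.GO3.L.Wl2
import Pool.Agent.GO3.L.Wl3
import Pool.Agent.GO3.L.Wl4
import Pool.Agent.GO3.L.Wl5

/-! GO3 / L / Wsol: the limit is a weak solution with growth (assembly). -/

open MeasureTheory Filter Topology Set
open scoped ContDiff Real

noncomputable section

namespace GO3

variable {c : ℕ → Cf} {n : ℕ} {M : ℝ} {w : ℂ → ℂ} {h F : ℂ → ℝ} {W1 W2 : ℂ → ℂ} {H1 H2 : ℂ → ℝ}

theorem cv_wsol (hc : ∀ k, (c k).Adm n) (hE : ∀ k, (c k).E ≤ M) (H : Cv c w h F W1 W2 H1 H2)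
    (hA : ∀ f : ℂ → ℂ, Tst f → Tendsto (fun k => LA (c k) f) atTop (𝓝 0))
    (hP : ∀ f : ℂ → ℂ, Tst f → Tendsto (fun k => LP (c k) f) atTop (𝓝 0)) {C : ℝ} {δ : ℕ → ℝ}
    (hδ : Tendsto δ atTop (𝓝 0)) (hg : ∀ (k : ℕ) (q : ℂ) (r : ℝ), 0 < r → r ≤ 1 →
      (c k).ee q r ≤ C * r ^ kap + C * δ k) : WSol w h F W1 W2 H1 H2 where
  mw := H.mw
  mh := H.mh
  mF := H.mF
  mW1 := H.mW1
  mW2 := H.mW2
  mH1 := H.mH1
  mH2 := H.mH2
  unit := cv_unit hc H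
  tan1 := cv_tan1 hc hE H
  tan2 := cv_tan2 hc hE H
  dh1 := fun f hf => cv_dh1 hc H f hf
  dh2 := fun f hf => cv_dh2 hc H f hf
  dw1 := fun f hf => cv_dw1 hc H f hf
  dw2 := fun f hf => cv_dw2 hc H f hf
  eqp := fun f hf => cv_eqp hc hE H f hf (hP f hf)
  eqA := fun f hf => cv_eqA hc hE H f hf (hA f hf)
  growth := fun _ => ⟨2 * C, fun q _ _ hr => cv_growth hc H hδ hg q hr⟩

end GO3
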