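import Pool.Agent.GO3.L.Fc
import Pool.Agent.GO3.L.Tests
import Pool.Agent.GO3.L.Ext3
import Pool.Agent.GO3.L.Wsol
import Pool.Agent.GO3.L.Lf1
import Pool.Agent.GO3.L.Lf2
import Pool.Agent.GO3.R.Reg

/-! GO3 / L / Core: existence of a minimiser as a limit of almost minimisers (assembly; the growth estimate of
part G and the lower bound of part B are hypotheses). -/

open MeasureTheory Filter Topology Set
open scoped ContDiff Real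

noncomputable section

namespace GO3

theorem rp_exists {w : ℂ → ℂ} {h F : ℂ → ℝ} {W1 W2 : ℂ → ℂ} {H1 H2 : ℂ → ℝ}
    (s : WSol w h F W1 W2 H1 H2) : ∃ c' : Cf, Rp c' w h F W1 W2 H1 H2 := by
  obtain ⟨c', a1, a2, a3, a4, a5, a6, a7, a8, a9, a10, a11, a12, a13⟩ := reg s
  exact ⟨c', a1, a2, a3, a4, a5, a6, a7, a8, a9, a10, a11, a12, a13⟩

theorem limit_core (K : ℝ) (hK : 1 ≤ K)
    (gr : ∃ n₀ : ℕ, ∀ n : ℕ, n₀ ≤ n → ∀ r₀ : ℝ, 0 < r₀ → ∃ C : ℝ, 0 < C ∧ ∀ σ δ : ℝ, 0 ≤ δ →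
      ∀ c : Cf, c.Alm K n σ δ → c.ee 0 r₀ ≤ 1 / 100000 → ∀ (q : ℂ) (r : ℝ), 0 < r → r ≤ 1 →
      c.ee q r ≤ C * r ^ kap + C * δ)
    (lb : ∀ n : ℕ, 2 ≤ n → ∀ c : Cf, c.Adm n → c.Rad → c.E ≤ K * n ^ 2 → ∀ s : ℝ, 0 < s →
      s ≤ rz K n → |c.cc n s - c.cc n 0| ≤ c.ee 0 s) :
    ∃ n₀ : ℕ, 2 ≤ n₀ ∧ ∀ n : ℕ, n₀ ≤ n → ∀ σ : ℝ, (σ = 1 ∨ σ = -1) → ∀ r₀ : ℝ, 0 < r₀ →
      ∀ (c : ℕ → Cf) (δ : ℕ → ℝ), Tendsto δ atTop (𝓝 0) → (∀ k, 0 ≤ δ k) →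
      (∀ k, (c k).Alm K n σ (δ k)) → (∀ k, (c k).ee 0 r₀ ≤ 1 / 100000) →
      ∃ c' : Cf, c'.Mini n σ ∧ c'.EL ∧ c'.E ≤ K * n ^ 2 := by
  obtain ⟨n₁, hn₁⟩ := gr
  obtain ⟨n₂, h2n₂, hn₂⟩ := F_compact K hK
  obtain ⟨n₃, -, hn₃⟩ := LA_lim K hK
  obtain ⟨n₄, -, hn₄⟩ := LP_lim K hK
  obtain ⟨n₅, -, hn₅⟩ := wind_L2 K hK
  refine ⟨max (max n₁ n₂) (max (max n₃ n₄) n₅), le_max_of_le_left (le_max_of_le_right h2n₂),
    fun n hn σ _ r₀ hr₀ c δ hδ h0 hc he => ?_⟩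
  have k1 : n₁ ≤ n := le_trans (le_trans (le_max_left _ _) (le_max_left _ _)) hn
  have k2 : n₂ ≤ n := le_trans (le_trans (le_max_right _ _) (le_max_left _ _)) hn
  have k3 : n₃ ≤ n := le_trans (le_trans (le_trans (le_max_left _ _) (le_max_left _ _))
    (le_max_right _ _)) hn
  have k4 : n₄ ≤ n := le_trans (le_trans (le_trans (le_max_right _ _) (le_max_left _ _))
    (le_max_right _ _)) hn
  have k5 : n₅ ≤ n := le_trans (le_trans (le_max_right _ _) (le_max_right _ _)) hn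
  have hn2 : 2 ≤ n := le_trans h2n₂ k2
  obtain ⟨C, -, hC⟩ := hn₁ n k1 r₀ hr₀
  have hadm : ∀ k, (c k).Adm n := fun k => (hc k).1.1
  have hrad : ∀ k, (c k).Rad := fun k => (hc k).2.1
  have hEk : ∀ k, (c k).E ≤ K * n ^ 2 := fun k => (hc k).2.2.1
  have hFc : ∀ e : ℝ, 0 < e → ∃ ε : ℝ, 0 < ε ∧
      ∀ᶠ k in atTop, ∫ z, ((c k).F z - ba ε (c k).F z) ^ 2 ≤ e := by
    intro e hepos
    obtain ⟨ε, hε, d, hd, h5⟩ := hn₂ n k2 e hepos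
    refine ⟨ε, hε, ?_⟩
    filter_upwards [hδ.eventually (gt_mem_nhds hd)] with k hk
    exact h5 σ (δ k) (h0 k) hk.le (c k) (hc k)
  obtain ⟨φ, hφ, w, h, F, W1, W2, H1, H2, H⟩ := extract c hadm hrad hEk hFc
  have hδφ : Tendsto (fun k => δ (φ k)) atTop (𝓝 0) := hδ.comp hφ.tendsto_atTop
  have hgr : ∀ (k : ℕ) (q : ℂ) (r : ℝ), 0 < r → r ≤ 1 →
      (c (φ k)).ee q r ≤ C * r ^ kap + C * δ (φ k) := fun k q r hr hr1 =>
    hC σ (δ (φ k)) (h0 _) (c (φ k)) (hc _) (he _) q r hr hr1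
  have hsol : WSol w h F W1 W2 H1 H2 := cv_wsol (fun k => hadm (φ k)) (fun k => hEk (φ k)) H
    (fun f hf => (hn₃ n k3 σ c δ hδ h0 hc f hf).comp hφ.tendsto_atTop)
    (fun f hf => (hn₄ n k4 σ c δ hδ h0 hc f hf).comp hφ.tendsto_atTop) hδφ hgr
  obtain ⟨c', R⟩ := rp_exists hsol
  have hc' : c'.Adm n := rp_adm (by omega) (fun k => hadm (φ k)) H R
  have hE' : c'.E ≤ K * n ^ 2 := rp_E (fun k => hadm (φ k)) H R (e := fun _ => 0)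
    tendsto_const_nhds (Filter.Frequently.of_forall fun k => by
      have := hEk (φ k)
      linarith)
  have hdist := rp_dist (fun k => hadm (φ k)) H R
  have hh0 : c'.h 0 = σ := lim_h0 hK hn2 (fun k => hadm (φ k)) (fun k => hEk (φ k)) hc' hE' hdist
    (fun k => (hc (φ k)).1.2.2) hδφ (fun k s hs hs1 => hgr k 0 s hs hs1)
    (fun k s hs hs1 => lb n hn2 _ (hadm _) (hrad _) (hEk _) s hs hs1)
  have hwind : c'.Wind n := by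
    obtain ⟨ε, hε, h6⟩ := hn₅ n k5
    have h7 := (hdist (rp K n)).eventually (gt_mem_nhds hε)
    obtain ⟨k, hk⟩ := h7.exists
    exact h6 (c (φ k)) c' (hadm _) hc' (hEk _) hE' hk.le (hc (φ k)).1.2.1
  refine ⟨c', ⟨⟨hc', hwind, hh0⟩, R.rad, fun c'' hc'' => ?_⟩, R.el, hE'⟩
  refine rp_E (fun k => hadm (φ k)) H R (e := fun k => δ (φ k)) hδφ
    (Filter.Frequently.of_forall fun k => ?_)
  exact (hc (φ k)).2.2.2 c'' hc''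

end GO3
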