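import Pool.Agent.GO3.Defs

/-! # Gauged O(3) sigma model, part L (limit of almost minimisers): definitions (helper4)

All sequences are sequences of complex valued functions on the plane `ℂ`; real functions are coerced.
`ba ε u` is the average of `u` over the disc of radius `ε`. -/

open MeasureTheory Filter Topology Set
open scoped ContDiff Real

noncomputable section

namespace GO3

/-- the curl of a vector field -/
def curl (a : ℂ → ℂ) (z : ℂ) : ℝ := (fderiv ℝ a z 1).im - (fderiv ℝ a z Complex.I).re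

/-- weak convergence in `L²(S)` (bilinear pairing) -/
def Ws (S : Set ℂ) (u : ℕ → ℂ → ℂ) (v : ℂ → ℂ) : Prop :=
  ∀ g : ℂ → ℂ, MemLp g 2 → (∀ z, z ∉ S → g z = 0) →
    Tendsto (fun k => ∫ z, u k z * g z) atTop (𝓝 (∫ z, v z * g z))

/-- strong convergence in `L²(S)` -/
structure Ss (S : Set ℂ) (u : ℕ → ℂ → ℂ) (v : ℂ → ℂ) : Prop where
  mu : ∀ k, MemLp (u k) 2 (volume.restrict S)
  mv : MemLp v 2 (volume.restrict S)
  lim : Tendsto (fun k => ∫ z in S, ‖u k z - v z‖ ^ 2) atTop (𝓝 0)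

/-- average over the disc of radius `ε` -/
def ba {V : Type*} [NormedAddCommGroup V] [NormedSpace ℝ V] (ε : ℝ) (u : ℂ → V) (z : ℂ) : V :=
  (1 / (π * ε ^ 2)) • ∫ y in Metric.ball (0 : ℂ) ε, u (z - y)

/-- squared `L²` distance of two configurations on the disc of radius `R` -/
def dist2 (c c' : Cf) (R : ℝ) : ℝ := ∫ z in Metric.ball (0 : ℂ) R,
  (‖c'.w z - c.w z‖ ^ 2 + (c'.h z - c.h z) ^ 2 + ‖c'.A z - c.A z‖ ^ 2)

/-- first variation in the direction of the potential `f` -/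
def LA (c : Cf) (f : ℂ → ℂ) : ℝ :=
  ∫ z, (c.F z * curl f z - ((f z).re * c.j z 1 + (f z).im * c.j z Complex.I))

/-- first variation in the direction `(h f, - ⟨w, f⟩)` -/
def LP (c : Cf) (f : ℂ → ℂ) : ℝ :=
  ∫ z, ((star (c.p z 1) * (fderiv ℝ f z 1 - Complex.I * (ip (c.A z) 1 : ℂ) * f z)).re +
    (star (c.p z Complex.I) *
      (fderiv ℝ f z Complex.I - Complex.I * (ip (c.A z) Complex.I : ℂ) * f z)).re +
    (1 - c.h z) * (star (c.w z) * f z).re)

/-- symmetric smooth potentials with finite energy -/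
structure ASym (n : ℕ) (a : ℂ → ℂ) : Prop where
  s : ContDiff ℝ ∞ a
  rot : ∀ z, a (ze n * z) = ze n * a z
  ref : ∀ z, a (star z) = -star (a z)
  i : Integrable fun z => ‖a z‖ ^ 2
  ic : Integrable fun z => curl a z ^ 2

/-- change of the potential -/
def Cf.addA (c : Cf) (a : ℂ → ℂ) : Cf := ⟨c.w, c.h, fun z => c.A z + a z⟩

/-- the norm of `(w, h)` -/
def Cf.nm (c : Cf) (z : ℂ) : ℝ := Real.sqrt (‖c.w z‖ ^ 2 + c.h z ^ 2)

/-- normalisation -/
def Cf.nrm (c : Cf) : Cf :=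
  ⟨fun z => ((1 / c.nm z : ℝ) : ℂ) * c.w z, fun z => 1 / c.nm z * c.h z, c.A⟩

/-- `(w + t h f, h - t ⟨w, f⟩)`, not normalised -/
def Cf.var (c : Cf) (f : ℂ → ℂ) (t : ℝ) : Cf :=
  ⟨fun z => c.w z + (t * c.h z : ℝ) * f z, fun z => c.h z - t * (star (c.w z) * f z).re, c.A⟩

/-- the variation of `φ` in the direction `f` -/
def Cf.vp (c : Cf) (f : ℂ → ℂ) (t : ℝ) : Cf := (c.var f t).nrm

/-- convergence of a sequence of configurations to a weak limit -/
structure Cv (c : ℕ → Cf) (w : ℂ → ℂ) (h F : ℂ → ℝ) (W1 W2 : ℂ → ℂ) (H1 H2 : ℂ → ℝ) : Prop where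
  mw : AEStronglyMeasurable w
  mh : AEStronglyMeasurable h
  mF : MemLp F 2
  mW1 : MemLp W1 2
  mW2 : MemLp W2 2
  mH1 : MemLp H1 2
  mH2 : MemLp H2 2
  mh1 : MemLp (fun z => 1 - h z) 2
  aw : ∀ᵐ z, Tendsto (fun k => (c k).w z) atTop (𝓝 (w z))
  ah : ∀ᵐ z, Tendsto (fun k => (c k).h z) atTop (𝓝 (h z))
  aF : ∀ᵐ z, Tendsto (fun k => (c k).F z) atTop (𝓝 (F z))
  sF : ∀ R, Ss (Metric.ball 0 R) (fun k z => ((c k).F z : ℂ)) fun z => (F z : ℂ)
  sA : ∀ R, Ss (Metric.ball 0 R) (fun k => (c k).A) (Aof F)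
  wh : Ws univ (fun k z => ((1 - (c k).h z : ℝ) : ℂ)) fun z => ((1 - h z : ℝ) : ℂ)
  wF : Ws univ (fun k z => ((c k).F z : ℂ)) fun z => (F z : ℂ)
  wW1 : Ws univ (fun k z => (c k).Dw z 1) W1
  wW2 : Ws univ (fun k z => (c k).Dw z Complex.I) W2
  wH1 : Ws univ (fun k z => ((c k).dh z 1 : ℂ)) fun z => (H1 z : ℂ)
  wH2 : Ws univ (fun k z => ((c k).dh z Complex.I : ℂ)) fun z => (H2 z : ℂ)

end GO3
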