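import Pool.Agent.GO3.L.Ae
import Pool.Agent.GO3.L.Bds

/-! GO3 / L / Ext1: extraction of weak limits.

PROOF. `ω z = 1 / (1 + ‖z‖²)`: continuous, `0 < ω ≤ 1`, `∫ ω² < ∞` (`integrable_one_add_norm`-type or polar
coordinates). Apply `exists_wk` to the seven sequences `F, D_1 w, D_i w, ∂_1 h, ∂_2 h, 1 - h` (coerced) and `ω w`
(bounds: `bd_all`, `∫ ω²`; `mem_all`). The limits of the real sequences are replaced by their real parts
(`Ws.real`). `w = v / ω` where `v` is the limit of `ω w_k`; for a test `g` vanishing off `ball 0 R`: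
`∫ w_k g = ∫ (ω w_k) (g / ω)`, `g / ω ∈ L²` because `1/ω ≤ 1 + R²` on `ball 0 R`. `h = 1 - (limit of 1 - h_k)`. -/

open MeasureTheory Filter Topology Set
open scoped ContDiff Real

noncomputable section

namespace GO3

/-- weak convergence of a sequence of configurations -/
structure Cw (c : ℕ → Cf) (w : ℂ → ℂ) (h F : ℂ → ℝ) (W1 W2 : ℂ → ℂ) (H1 H2 : ℂ → ℝ) : Prop where
  mw : AEStronglyMeasurable w
  mh : AEStronglyMeasurable h
  mF : MemLp F 2
  mW1 : MemLp W1 2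
  mW2 : MemLp W2 2
  mH1 : MemLp H1 2
  mH2 : MemLp H2 2
  mh1 : MemLp (fun z => 1 - h z) 2
  lw : ∀ R, MemLp w 2 (volume.restrict (Metric.ball 0 R))
  ww : ∀ R, Ws (Metric.ball 0 R) (fun k => (c k).w) w
  wh : Ws univ (fun k z => ((1 - (c k).h z : ℝ) : ℂ)) fun z => ((1 - h z : ℝ) : ℂ)
  wF : Ws univ (fun k z => ((c k).F z : ℂ)) fun z => (F z : ℂ)
  wW1 : Ws univ (fun k z => (c k).Dw z 1) W1
  wW2 : Ws univ (fun k z => (c k).Dw z Complex.I) W2
  wH1 : Ws univ (fun k z => ((c k).dh z 1 : ℂ)) fun z => (H1 z : ℂ)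
  wH2 : Ws univ (fun k z => ((c k).dh z Complex.I : ℂ)) fun z => (H2 z : ℂ)

namespace Ext1Aux

/-- the weight `1 / (1 + ‖z‖²)` -/
def om (z : ℂ) : ℝ := (1 + ‖z‖ ^ 2)⁻¹

theorem om_pos (z : ℂ) : 0 < om z := by
  unfold om
  positivity

theorem om_cont : Continuous om := by
  unfold om
  refine Continuous.inv₀ (by fun_prop) fun z => ?_
  positivity

theorem om_int : Integrable fun z : ℂ => om z ^ 2 := by
  have h := integrable_rpow_neg_one_add_norm_sq (E := ℂ) (μ := volume) (r := 4)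
    (by rw [Complex.finrank_real_complex]; norm_num)
  refine h.congr (Eventually.of_forall fun z => ?_)
  have h1 : (-4 / 2 : ℝ) = -((2 : ℕ) : ℝ) := by norm_num
  have h2 : (0 : ℝ) ≤ 1 + ‖z‖ ^ 2 := by positivity
  change (1 + ‖z‖ ^ 2) ^ (-4 / 2 : ℝ) = om z ^ 2
  rw [h1, Real.rpow_neg h2, Real.rpow_natCast]
  unfold om
  rw [inv_pow]

theorem coe_mem {f : ℂ → ℝ} (hf : MemLp f 2) : MemLp (fun z => (f z : ℂ)) 2 := hf.ofReal

theorem coe_int (f : ℂ → ℝ) : ∫ z, ‖(f z : ℂ)‖ ^ 2 = ∫ z, f z ^ 2 := by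
  refine integral_congr_ae (Eventually.of_forall fun z => ?_)
  change ‖(f z : ℂ)‖ ^ 2 = f z ^ 2
  rw [Complex.norm_real, Real.norm_eq_abs, sq_abs]

theorem w_le {c : Cf} {n : ℕ} (hc : c.Adm n) (z : ℂ) : ‖c.w z‖ ≤ 1 := by
  have h := hc.unit z
  have h1 := norm_nonneg (c.w z)
  nlinarith [sq_nonneg (c.h z)]

theorem ow_norm {c : Cf} {n : ℕ} (hc : c.Adm n) (z : ℂ) : ‖(om z : ℂ) * c.w z‖ ^ 2 ≤ om z ^ 2 := by
  have h0 := (om_pos z).le
  rw [norm_mul, Complex.norm_real, Real.norm_eq_abs, abs_of_nonneg h0, mul_pow]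
  have h1 := w_le hc z
  have h2 : ‖c.w z‖ ^ 2 ≤ 1 := pow_le_one₀ (norm_nonneg _) h1
  nlinarith [sq_nonneg (om z)]

theorem ow_mem {c : Cf} {n : ℕ} (hc : c.Adm n) : MemLp (fun z => (om z : ℂ) * c.w z) 2 := by
  have hm : AEStronglyMeasurable (fun z => (om z : ℂ) * c.w z) :=
    ((Complex.continuous_ofReal.comp om_cont).mul hc.sw.continuous).aestronglyMeasurable
  rw [memLp_two_iff_integrable_sq_norm hm]
  refine om_int.mono' (hm.norm.pow 2) (Eventually.of_forall fun z => ?_)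
  rw [Real.norm_eq_abs, abs_of_nonneg (by positivity)]
  exact ow_norm hc z

theorem ow_int {c : Cf} {n : ℕ} (hc : c.Adm n) :
    ∫ z, ‖(om z : ℂ) * c.w z‖ ^ 2 ≤ ∫ z, om z ^ 2 :=
  integral_mono ((memLp_two_iff_integrable_sq_norm (ow_mem hc).1).1 (ow_mem hc)) om_int
    fun z => ow_norm hc z

theorem om_inv_le {R : ℝ} {z : ℂ} (hz : z ∈ Metric.ball (0 : ℂ) R) : 1 + ‖z‖ ^ 2 ≤ 1 + R ^ 2 := by
  rw [mem_ball_zero_iff] at hz
  have := norm_nonneg z
  nlinarith

end Ext1Aux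

open Ext1Aux

theorem ext1 (c : ℕ → Cf) {n : ℕ} (hc : ∀ k, (c k).Adm n) {M : ℝ} (hE : ∀ k, (c k).E ≤ M) :
    ∃ φ : ℕ → ℕ, StrictMono φ ∧ ∃ (w : ℂ → ℂ) (h F : ℂ → ℝ) (W1 W2 : ℂ → ℂ) (H1 H2 : ℂ → ℝ),
      Cw (fun k => c (φ k)) w h F W1 W2 H1 H2 := by
  have hm := fun k => mem_all (hc k)
  have hb := fun k => bd_all (hc k) (hE k)
  obtain ⟨φ, hφ, v, hv, hw⟩ := exists_wk (m := 7)
    (![fun k z => ((c k).F z : ℂ), fun k z => (c k).Dw z 1, fun k z => (c k).Dw z Complex.I,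
      fun k z => ((c k).dh z 1 : ℂ), fun k z => ((c k).dh z Complex.I : ℂ),
      fun k z => ((1 - (c k).h z : ℝ) : ℂ), fun k z => (om z : ℂ) * (c k).w z] :
      Fin 7 → ℕ → ℂ → ℂ)
    (by
      intro i k
      fin_cases i
      · exact coe_mem (hm k).F
      · exact (hm k).W1
      · exact (hm k).W2
      · exact coe_mem (hm k).H1
      · exact coe_mem (hm k).H2
      · exact coe_mem (hm k).h
      · exact ow_mem (hc k))
    (max (2 * M) (∫ z, om z ^ 2))
    (by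
      intro i k
      fin_cases i
      · exact (coe_int _).le.trans ((hb k).F.trans (le_max_left _ _))
      · exact (hb k).W1.trans (le_max_left _ _)
      · exact (hb k).W2.trans (le_max_left _ _)
      · exact (coe_int _).le.trans ((hb k).H1.trans (le_max_left _ _))
      · exact (coe_int _).le.trans ((hb k).H2.trans (le_max_left _ _))
      · exact (coe_int _).le.trans ((hb k).h.trans (le_max_left _ _))
      · exact (ow_int (hc k)).trans (le_max_right _ _))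
  have w0 : Ws univ (fun k z => ((c (φ k)).F z : ℂ)) (v 0) := hw 0
  have w1 : Ws univ (fun k z => (c (φ k)).Dw z 1) (v 1) := hw 1
  have w2 : Ws univ (fun k z => (c (φ k)).Dw z Complex.I) (v 2) := hw 2
  have w3 : Ws univ (fun k z => ((c (φ k)).dh z 1 : ℂ)) (v 3) := hw 3
  have w4 : Ws univ (fun k z => ((c (φ k)).dh z Complex.I : ℂ)) (v 4) := hw 4
  have w5 : Ws univ (fun k z => ((1 - (c (φ k)).h z : ℝ) : ℂ)) (v 5) := hw 5
  have w6 : Ws univ (fun k z => (om z : ℂ) * (c (φ k)).w z) (v 6) := hw 6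
  have hinv : ∀ z : ℂ, ((1 + ‖z‖ ^ 2 : ℝ) : ℂ) * (om z : ℂ) = 1 := by
    intro z
    have h1 : (1 + ‖z‖ ^ 2 : ℝ) * om z = 1 := by
      unfold om
      exact mul_inv_cancel₀ (by positivity)
    exact_mod_cast h1
  have hcont : Continuous fun z : ℂ => ((1 + ‖z‖ ^ 2 : ℝ) : ℂ) := by fun_prop
  have hnn : ∀ z : ℂ, ‖((1 + ‖z‖ ^ 2 : ℝ) : ℂ)‖ = 1 + ‖z‖ ^ 2 := by
    intro z
    rw [Complex.norm_real, Real.norm_eq_abs, abs_of_nonneg (by positivity)]
  refine ⟨φ, hφ, fun z => ((1 + ‖z‖ ^ 2 : ℝ) : ℂ) * v 6 z, fun z => 1 - (v 5 z).re,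
    fun z => (v 0 z).re, v 1, v 2, fun z => (v 3 z).re, fun z => (v 4 z).re, ?_⟩
  refine
    { mw := hcont.aestronglyMeasurable.mul (hv 6).1
      mh := aestronglyMeasurable_const.sub (hv 5).re.1
      mF := (hv 0).re
      mW1 := hv 1
      mW2 := hv 2
      mH1 := (hv 3).re
      mH2 := (hv 4).re
      mh1 := ?_
      lw := ?_
      ww := ?_
      wh := ?_
      wF := Ws.real (fun k => (hm (φ k)).F) (hv 0) w0
      wW1 := w1
      wW2 := w2
      wH1 := Ws.real (fun k => (hm (φ k)).H1) (hv 3) w3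
      wH2 := Ws.real (fun k => (hm (φ k)).H2) (hv 4) w4 }
  · have e : (fun z => 1 - (1 - (v 5 z).re)) = fun z => (v 5 z).re := by
      funext z
      ring
    rw [e]
    exact (hv 5).re
  · intro R
    refine MemLp.of_le_mul (c := 1 + R ^ 2) ((hv 6).restrict _)
      (hcont.aestronglyMeasurable.mul (hv 6).1).restrict ?_
    refine (ae_restrict_iff' Metric.isOpen_ball.measurableSet).2 (Eventually.of_forall ?_)
    intro z hz
    rw [norm_mul, hnn]
    exact mul_le_mul_of_nonneg_right (om_inv_le hz) (norm_nonneg _)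
  · intro R g hg hg0
    have hg' : MemLp (fun z => ((1 + ‖z‖ ^ 2 : ℝ) : ℂ) * g z) 2 := by
      refine MemLp.of_le_mul (c := 1 + R ^ 2) hg (hcont.aestronglyMeasurable.mul hg.1)
        (Eventually.of_forall ?_)
      intro z
      rw [norm_mul, hnn]
      by_cases hz : z ∈ Metric.ball (0 : ℂ) R
      · exact mul_le_mul_of_nonneg_right (om_inv_le hz) (norm_nonneg _)
      · rw [hg0 z hz, norm_zero, mul_zero, mul_zero]
    have h1 := w6 _ hg' fun z hz => absurd (mem_univ z) hz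
    have e1 : ∀ k, ∫ z, (om z : ℂ) * (c (φ k)).w z * (((1 + ‖z‖ ^ 2 : ℝ) : ℂ) * g z) =
        ∫ z, (c (φ k)).w z * g z := by
      intro k
      refine integral_congr_ae (Eventually.of_forall fun z => ?_)
      linear_combination (c (φ k)).w z * g z * hinv z
    have e2 : ∫ z, v 6 z * (((1 + ‖z‖ ^ 2 : ℝ) : ℂ) * g z) =
        ∫ z, ((1 + ‖z‖ ^ 2 : ℝ) : ℂ) * v 6 z * g z := by
      refine integral_congr_ae (Eventually.of_forall fun z => ?_)
      ring
    simp only [e1, e2] at h1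
    exact h1
  · have e : (fun z => ((1 - (1 - (v 5 z).re) : ℝ) : ℂ)) = fun z => ((v 5 z).re : ℂ) := by
      funext z
      congr 1
      ring
    rw [e]
    exact Ws.real (fun k => (hm (φ k)).h) (hv 5) w5

end GO3
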