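import Pool.Agent.GO3.L.Ext1

/-! GO3 / L / Ext2: strong local convergence.

PROOFS.
* `strong_w`: `ss_of_grad` with the bound `∫_{B_R} (‖w‖² + Gam w) ≤ π R² + 4 M (1 + R²)` (`norm_w_le`, `gam_w`; for
  `R ≤ 0` the ball is empty).
* `strong_h`: `ss_of_grad` for `1 - h_k`, bound `2 M + 2 M` (`bd_all`, `gam_h`).
* `strong_F`: `Ss.of_approx` on `ball 0 R` with `s k = ba ε (F_k)`, `t = ba ε F` (`ba_ss`; `ba_ofReal`;
  `∫_S ≤ ∫`, integrability of `(F_k - ba ε F_k)²` from `mem_all` and `ba_int_sq`).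
* `strong_A`: `A_k = Aof F_k` (`Rad.A_eq`), `aof_mem`, `aof_sub_le`, `strong_F` (squeeze). -/

open MeasureTheory Filter Topology Set
open scoped ContDiff Real

noncomputable section

namespace GO3

variable {c : ℕ → Cf} {n : ℕ} {M : ℝ} {w : ℂ → ℂ} {h F : ℂ → ℝ} {W1 W2 : ℂ → ℂ} {H1 H2 : ℂ → ℝ}

private theorem ext2_gc {u : ℂ → ℂ} (hu : ContDiff ℝ 1 u) : Continuous (Gam u) := by
  have h := hu.continuous_fderiv one_ne_zero
  unfold Gam
  exact ((h.clm_apply continuous_const).norm.pow 2).add ((h.clm_apply continuous_const).norm.pow 2)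

private theorem ext2_int {f : ℂ → ℝ} (hf : Continuous f) (R : ℝ) :
    IntegrableOn f (Metric.ball 0 R) :=
  (hf.locallyIntegrable.integrableOn_isCompact (isCompact_closedBall 0 R)).mono_set
    Metric.ball_subset_closedBall

private theorem ext2_sum {u : ℂ → ℂ} (hu : ContDiff ℝ 1 u) {R a b : ℝ}
    (ha : ∫ z in Metric.ball 0 R, ‖u z‖ ^ 2 ≤ a) (hb : ∫ z in Metric.ball 0 R, Gam u z ≤ b) :
    ∫ z in Metric.ball 0 R, (‖u z‖ ^ 2 + Gam u z) ≤ a + b := by
  have h1 : Continuous fun z => ‖u z‖ ^ 2 := hu.continuous.norm.pow 2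
  rw [integral_add (ext2_int h1 R) (ext2_int (ext2_gc hu) R)]
  exact add_le_add ha hb

private theorem ext2_re {f : ℂ → ℝ} : (∫ z, ‖(f z : ℂ)‖ ^ 2) = ∫ z, f z ^ 2 := by
  refine integral_congr_ae (Eventually.of_forall fun z => ?_)
  change ‖(f z : ℂ)‖ ^ 2 = f z ^ 2
  rw [Complex.norm_real, Real.norm_eq_abs, sq_abs]

private theorem ext2_le {f : ℂ → ℝ} (hf : MemLp f 2) {m : ℝ} (hm : ∫ z, f z ^ 2 ≤ m) (S : Set ℂ) :
    ∫ z in S, ‖(f z : ℂ)‖ ^ 2 ≤ m := by
  have hi : Integrable fun z => ‖(f z : ℂ)‖ ^ 2 :=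
    (memLp_two_iff_integrable_sq_norm hf.ofReal.1).1 hf.ofReal
  exact (setIntegral_le_integral hi (Eventually.of_forall fun z => sq_nonneg _)).trans
    (ext2_re.le.trans hm)

theorem strong_w (hc : ∀ k, (c k).Adm n) (hr : ∀ k, (c k).Rad) (hE : ∀ k, (c k).E ≤ M)
    (H : Cw c w h F W1 W2 H1 H2) (R : ℝ) : Ss (Metric.ball 0 R) (fun k => (c k).w) w := by
  refine ss_of_grad (fun k => (hc k).sw.of_le (by simp)) H.mw H.lw (fun R => ?_) H.ww R
  refine ⟨volume.real (Metric.ball (0 : ℂ) R) + 4 * M * (1 + R ^ 2), fun k => ?_⟩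
  refine ext2_sum ((hc k).sw.of_le (by simp)) ?_ (gam_w (hc k) (hr k) (hE k) R)
  have hfin : IsFiniteMeasure (volume.restrict (Metric.ball (0 : ℂ) R)) :=
    ⟨by rw [Measure.restrict_apply_univ]; exact measure_ball_lt_top⟩
  calc ∫ z in Metric.ball 0 R, ‖(c k).w z‖ ^ 2 ≤ ∫ z in Metric.ball (0 : ℂ) R, (1 : ℝ) := by
        refine integral_mono (ext2_int ((hc k).sw.continuous.norm.pow 2) R)
          (integrable_const 1) fun z => ?_
        exact pow_le_one₀ (norm_nonneg _) (Ext1Aux.w_le (hc k) z)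
    _ = volume.real (Metric.ball (0 : ℂ) R) := by simp

theorem strong_h (hc : ∀ k, (c k).Adm n) (hE : ∀ k, (c k).E ≤ M)
    (H : Cw c w h F W1 W2 H1 H2) (R : ℝ) :
    Ss (Metric.ball 0 R) (fun k z => ((1 - (c k).h z : ℝ) : ℂ)) fun z => ((1 - h z : ℝ) : ℂ) := by
  have hd : ∀ k, ContDiff ℝ 1 fun z => ((1 - (c k).h z : ℝ) : ℂ) := fun k =>
    Complex.ofRealCLM.contDiff.comp (contDiff_const.sub ((hc k).sh.of_le (by simp)))
  refine ss_of_grad hd H.mh1.ofReal.1 (fun R => H.mh1.ofReal.restrict _) (fun R => ?_)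
    (fun R => H.wh.mono (subset_univ _)) R
  refine ⟨2 * M + 2 * M, fun k => ?_⟩
  exact ext2_sum (hd k) (ext2_le (mem_all (hc k)).h (bd_all (hc k) (hE k)).h _)
    (gam_h (hc k) (hE k) R)

theorem strong_F (hc : ∀ k, (c k).Adm n) (hE : ∀ k, (c k).E ≤ M)
    (H : Cw c w h F W1 W2 H1 H2) (hF : ∀ e : ℝ, 0 < e → ∃ ε : ℝ, 0 < ε ∧
      ∀ᶠ k in atTop, ∫ z, ((c k).F z - ba ε (c k).F z) ^ 2 ≤ e) (R : ℝ) :
    Ss (Metric.ball 0 R) (fun k z => ((c k).F z : ℂ)) fun z => (F z : ℂ) := by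
  have hm : ∀ k, MemLp (fun z => ((c k).F z : ℂ)) 2 := fun k => (mem_all (hc k)).F.ofReal
  refine Ss.of_approx measurableSet_ball (fun k => (hm k).restrict _) (H.mF.ofReal.restrict _)
    (H.wF.mono (subset_univ _)) fun e he => ?_
  obtain ⟨ε, hε, hk⟩ := hF e he
  refine ⟨fun k => ba ε fun z => ((c k).F z : ℂ), ba ε fun z => (F z : ℂ), ?_, ?_⟩
  · exact ba_ss hε (fun k => (hm k).1) H.mF.ofReal.1 (fun k => (hm k).restrict _)
      (H.mF.ofReal.restrict _) (C := 2 * M)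
      (fun k => ext2_le (mem_all (hc k)).F (bd_all (hc k) (hE k)).F _)
      (H.wF.mono (subset_univ _))
  · filter_upwards [hk] with k hk
    refine le_trans ?_ hk
    have h1 : MemLp (fun z => ((c k).F z : ℂ) - ba ε (fun z => ((c k).F z : ℂ)) z) 2 :=
      (hm k).sub (ba_int_sq hε (hm k)).1
    have hi := (memLp_two_iff_integrable_sq_norm h1.1).1 h1
    refine (setIntegral_le_integral hi (Eventually.of_forall fun z => sq_nonneg _)).trans
      (le_of_eq ?_)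
    refine integral_congr_ae (Eventually.of_forall fun z => ?_)
    change ‖((c k).F z : ℂ) - ba ε (fun z => ((c k).F z : ℂ)) z‖ ^ 2 = _
    rw [ba_ofReal, ← Complex.ofReal_sub, Complex.norm_real, Real.norm_eq_abs, sq_abs]

theorem strong_A (hc : ∀ k, (c k).Adm n) (hr : ∀ k, (c k).Rad)
    (H : Cw c w h F W1 W2 H1 H2)
    (hF : ∀ R, Ss (Metric.ball 0 R) (fun k z => ((c k).F z : ℂ)) fun z => (F z : ℂ)) (R : ℝ) :
    Ss (Metric.ball 0 R) (fun k => (c k).A) (Aof F) := by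
  have hA : ∀ k, (c k).A = Aof (c k).F := fun k => funext fun z => (hr k).A_eq (hc k).sA z
  have hm : ∀ k, ∀ R : ℝ, MemLp (c k).F 2 (volume.restrict (Metric.ball 0 R)) :=
    fun k R => (mem_all (hc k)).F.restrict _
  have hm' : ∀ R : ℝ, MemLp F 2 (volume.restrict (Metric.ball 0 R)) := fun R => H.mF.restrict _
  refine ⟨fun k => ?_, (aof_mem hm' R).1, ?_⟩
  · rw [hA k]
    exact (aof_mem (hm k) R).1
  have h1 := (hF R).lim.const_mul (R ^ 2)
  rw [mul_zero] at h1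
  refine squeeze_zero (fun k => integral_nonneg fun z => sq_nonneg _) (fun k => ?_) h1
  rw [hA k]
  refine (aof_sub_le (hm k) hm' R).trans (le_of_eq ?_)
  congr 1
  refine integral_congr_ae (Eventually.of_forall fun z => ?_)
  change _ = ‖((c k).F z : ℂ) - (F z : ℂ)‖ ^ 2
  rw [← Complex.ofReal_sub, Complex.norm_real, Real.norm_eq_abs, sq_abs]

end GO3
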