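import Pool.Agent.GO3.L.Pot1

/-! GO3 / L / Pot2: norm and symmetries of the potential.

PROOFS.
* `pot_sq`: Cauchy-Schwarz for the probability measure `2 s ds dx dt` on `[0,1]³`:
  `‖pot ε F z‖² ≤ ε² ∫∫∫ 2 s F (z - t ε pu s x)² dt dx ds` (`‖i ε pu s x‖ ≤ ε`); integrate over `z` (Tonelli with
  `lintegral` is convenient; translation invariance): `≤ ε² ∫ F²`. Measurability: `pot_smooth` (continuity).
* `pot_rot`: `pu s x = ze n * pu s (x - 1 / n³)` (`n ≥ 1`), `F (ζ y) = F y`; the integrand is periodic in `x` with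
  period `1` (`Function.Periodic.intervalIntegral_add_eq`).
* `pot_ref`: `pu s x = star (pu s (-x))`, `i star y = - star (i y)`; `x ↦ -x` and periodicity; `star` commutes
  with the integral.
* `ba_sq`: `ba_int_sq` for the coerced function and `ba_ofReal`. -/

open MeasureTheory Filter Topology Set
open scoped ContDiff Real

noncomputable section

namespace GO3

/-- Lebesgue measure on the unit interval -/
private def mI : Measure ℝ := volume.restrict (Ioc (0 : ℝ) 1)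

private instance : SFinite mI := by unfold mI; infer_instance

private theorem pu_cont : Continuous fun p : ℝ × ℝ => pu p.1 p.2 := by
  unfold pu
  fun_prop

private theorem pu_norm (s x : ℝ) : ‖pu s x‖ = |s| := by
  unfold pu
  rw [norm_mul, Complex.norm_real, Real.norm_eq_abs]
  have : ‖Complex.exp (2 * π * x * Complex.I)‖ = 1 := by
    have := Complex.norm_exp_ofReal_mul_I (2 * π * x)
    push_cast at this
    exact this
  rw [this, mul_one]

private theorem phi_cont {F : ℂ → ℝ} (hF : Continuous F) (ε : ℝ) :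
    Continuous fun q : ℂ × ℝ × ℝ × ℝ =>
      F (q.1 - ((q.2.2.2 * ε : ℝ) : ℂ) * pu q.2.1 q.2.2.1) := by
  have h1 : Continuous fun q : ℂ × ℝ × ℝ × ℝ => pu q.2.1 q.2.2.1 :=
    pu_cont.comp (by fun_prop : Continuous fun q : ℂ × ℝ × ℝ × ℝ => (q.2.1, q.2.2.1))
  exact hF.comp (by fun_prop)

private theorem pot_en {F : ℂ → ℝ} (hF : Continuous F) {ε : ℝ} (hε : 0 < ε) (z : ℂ) :
    ‖pot ε F z‖ₑ ≤ ENNReal.ofReal ε * ∫⁻ p : ℝ × ℝ × ℝ, ENNReal.ofReal (2 * p.1) *
      ‖F (z - ((p.2.2 * ε : ℝ) : ℂ) * pu p.1 p.2.1)‖ₑ ∂(mI.prod (mI.prod mI)) := by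
  have hc : Continuous fun p : ℝ × ℝ × ℝ =>
      F (z - ((p.2.2 * ε : ℝ) : ℂ) * pu p.1 p.2.1) :=
    (phi_cont hF ε).comp (by fun_prop : Continuous fun p : ℝ × ℝ × ℝ => (z, p))
  have hm : Measurable fun p : ℝ × ℝ × ℝ => ENNReal.ofReal (2 * p.1) *
      ‖F (z - ((p.2.2 * ε : ℝ) : ℂ) * pu p.1 p.2.1)‖ₑ := by
    refine Measurable.mul ?_ hc.measurable.enorm
    exact (measurable_const.mul measurable_fst).ennreal_ofReal
  rw [lintegral_prod _ hm.aemeasurable]
  have h2 : ∀ s : ℝ, ∫⁻ q : ℝ × ℝ, ENNReal.ofReal (2 * s) *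
      ‖F (z - ((q.2 * ε : ℝ) : ℂ) * pu s q.1)‖ₑ ∂(mI.prod mI) =
      ∫⁻ x, ∫⁻ t, ENNReal.ofReal (2 * s) *
        ‖F (z - ((t * ε : ℝ) : ℂ) * pu s x)‖ₑ ∂mI ∂mI := by
    intro s
    have hm' : Measurable fun q : ℝ × ℝ => ENNReal.ofReal (2 * s) *
        ‖F (z - ((q.2 * ε : ℝ) : ℂ) * pu s q.1)‖ₑ :=
      hm.comp (measurable_prodMk_left (x := s))
    exact lintegral_prod _ hm'.aemeasurable
  simp only [h2]
  unfold pot
  simp only [intervalIntegral.integral_of_le zero_le_one]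
  have h3 : ∀ s ∈ Ioc (0 : ℝ) 1, ∀ x t : ℝ,
      ‖((2 * s * F (z - ((t * ε : ℝ) : ℂ) * pu s x) : ℝ) : ℂ) *
        (Complex.I * (ε : ℂ) * pu s x)‖ₑ ≤ ENNReal.ofReal ε * (ENNReal.ofReal (2 * s) *
        ‖F (z - ((t * ε : ℝ) : ℂ) * pu s x)‖ₑ) := by
    intro s hs x t
    rw [← ofReal_norm, ← ofReal_norm, ← ENNReal.ofReal_mul (by linarith [hs.1]),
      ← ENNReal.ofReal_mul hε.le]
    apply ENNReal.ofReal_le_ofReal
    rw [norm_mul, norm_mul, norm_mul, Complex.norm_I, one_mul, Complex.norm_real,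
      Complex.norm_real, pu_norm, norm_mul, Real.norm_of_nonneg hε.le, abs_of_pos hs.1,
      Real.norm_of_nonneg (by linarith [hs.1] : (0 : ℝ) ≤ 2 * s)]
    have h4 : 0 ≤ 2 * s * ‖F (z - ((t * ε : ℝ) : ℂ) * pu s x)‖ :=
      mul_nonneg (by linarith [hs.1]) (norm_nonneg _)
    have h5 : ε * s ≤ ε := by nlinarith [hs.2]
    calc 2 * s * ‖F (z - ((t * ε : ℝ) : ℂ) * pu s x)‖ * (ε * s)
        ≤ 2 * s * ‖F (z - ((t * ε : ℝ) : ℂ) * pu s x)‖ * ε := mul_le_mul_of_nonneg_left h5 h4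
      _ = ε * (2 * s * ‖F (z - ((t * ε : ℝ) : ℂ) * pu s x)‖) := by ring
  refine (enorm_integral_le_lintegral_enorm _).trans ?_
  rw [← lintegral_const_mul' _ _ ENNReal.ofReal_ne_top]
  refine setLIntegral_mono' measurableSet_Ioc fun s hs => ?_
  refine (enorm_integral_le_lintegral_enorm _).trans ?_
  rw [← lintegral_const_mul' _ _ ENNReal.ofReal_ne_top]
  refine lintegral_mono fun x => ?_
  refine (enorm_integral_le_lintegral_enorm _).trans ?_
  rw [← lintegral_const_mul' _ _ ENNReal.ofReal_ne_top]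
  exact lintegral_mono fun t => h3 s hs x t

private theorem wt_one : ∫⁻ p : ℝ × ℝ × ℝ, ENNReal.ofReal (2 * p.1) ∂(mI.prod (mI.prod mI)) = 1 := by
  have hm1 : mI univ = 1 := by
    unfold mI
    rw [Measure.restrict_apply_univ, Real.volume_Ioc]
    simp
  have hm2 : (mI.prod mI) univ = 1 := by
    rw [← univ_prod_univ, Measure.prod_prod, hm1, one_mul]
  have hm : Measurable fun p : ℝ × ℝ × ℝ => ENNReal.ofReal (2 * p.1) :=
    (measurable_const.mul measurable_fst).ennreal_ofReal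
  rw [lintegral_prod _ hm.aemeasurable]
  simp only [lintegral_const, hm2, mul_one]
  unfold mI
  rw [← ofReal_integral_eq_lintegral_ofReal]
  · rw [← intervalIntegral.integral_of_le zero_le_one, intervalIntegral.integral_const_mul,
      integral_id]
    norm_num
  · exact ((continuous_const.mul continuous_id).integrableOn_Icc.mono_set Ioc_subset_Icc_self)
  · refine (ae_restrict_iff' measurableSet_Ioc).2 (Eventually.of_forall fun s hs => ?_)
    exact mul_nonneg zero_le_two hs.1.le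

private theorem pot_en2 {F : ℂ → ℝ} (hF : Continuous F) {ε : ℝ} (hε : 0 < ε) (z : ℂ) :
    ‖pot ε F z‖ₑ ^ 2 ≤ ENNReal.ofReal ε ^ 2 * ∫⁻ p : ℝ × ℝ × ℝ, ENNReal.ofReal (2 * p.1) *
      ‖F (z - ((p.2.2 * ε : ℝ) : ℂ) * pu p.1 p.2.1)‖ₑ ^ 2 ∂(mI.prod (mI.prod mI)) := by
  have hc : Continuous fun p : ℝ × ℝ × ℝ =>
      F (z - ((p.2.2 * ε : ℝ) : ℂ) * pu p.1 p.2.1) :=
    (phi_cont hF ε).comp (by fun_prop : Continuous fun p : ℝ × ℝ × ℝ => (z, p))
  have hm : Measurable fun p : ℝ × ℝ × ℝ => ENNReal.ofReal (2 * p.1) :=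
    (measurable_const.mul measurable_fst).ennreal_ofReal
  set μ := mI.prod (mI.prod mI) with hμ
  set w : ℝ × ℝ × ℝ → ENNReal := fun p => ENNReal.ofReal (2 * p.1) with hw
  set f : ℝ × ℝ × ℝ → ENNReal := fun p => ‖F (z - ((p.2.2 * ε : ℝ) : ℂ) * pu p.1 p.2.1)‖ₑ with hf
  have hfm : Measurable f := hc.measurable.enorm
  have h1 : ∫⁻ p, w p * f p ∂μ ≤
      (∫⁻ p, w p ∂μ) ^ (1 / (2 : ℝ)) * (∫⁻ p, w p * f p ^ 2 ∂μ) ^ (1 / (2 : ℝ)) := by
    have h2 := ENNReal.lintegral_mul_le_Lp_mul_Lq μ (p := 2) (q := 2)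
      Real.HolderConjugate.two_two (f := fun p => w p ^ (1 / (2 : ℝ)))
      (g := fun p => w p ^ (1 / (2 : ℝ)) * f p)
      (hm.pow_const _).aemeasurable ((hm.pow_const _).mul hfm).aemeasurable
    have h3 : ∀ x : ENNReal, x ^ (1 / (2 : ℝ)) * x ^ (1 / (2 : ℝ)) = x := by
      intro x
      rw [← ENNReal.rpow_add_of_nonneg _ _ (by norm_num) (by norm_num)]
      norm_num
    have h4 : ∀ x : ENNReal, (x ^ (1 / (2 : ℝ))) ^ (2 : ℝ) = x := by
      intro x
      rw [← ENNReal.rpow_mul]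
      norm_num
    have h5 : ∀ p, ((fun p => w p ^ (1 / (2 : ℝ))) * fun p => w p ^ (1 / (2 : ℝ)) * f p) p =
        w p * f p := by
      intro p
      rw [Pi.mul_apply, ← mul_assoc, h3]
    have h6 : ∀ p, (w p ^ (1 / (2 : ℝ)) * f p) ^ (2 : ℝ) = w p * f p ^ 2 := by
      intro p
      rw [ENNReal.mul_rpow_of_nonneg _ _ (by norm_num), h4]
      congr 1
      exact_mod_cast ENNReal.rpow_natCast (f p) 2
    simp only [h5, h6, h4] at h2
    exact h2
  rw [hw, wt_one, ENNReal.one_rpow, one_mul] at h1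
  have h7 := (pot_en hF hε z).trans (mul_le_mul_right h1 _)
  calc ‖pot ε F z‖ₑ ^ 2 ≤ (ENNReal.ofReal ε * (∫⁻ p, w p * f p ^ 2 ∂μ) ^ (1 / (2 : ℝ))) ^ 2 := by
        gcongr
    _ = ENNReal.ofReal ε ^ 2 * ∫⁻ p, w p * f p ^ 2 ∂μ := by
        rw [mul_pow]
        congr 1
        rw [← ENNReal.rpow_natCast, ← ENNReal.rpow_mul]
        norm_num

private theorem pot_lint {F : ℂ → ℝ} (hF : Continuous F) {ε : ℝ} (hε : 0 < ε) :
    ∫⁻ z, ‖pot ε F z‖ₑ ^ 2 ≤ ENNReal.ofReal ε ^ 2 * ∫⁻ z, ‖F z‖ₑ ^ 2 := by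
  refine (lintegral_mono fun z => pot_en2 hF hε z).trans ?_
  rw [lintegral_const_mul' _ _ (ENNReal.pow_ne_top ENNReal.ofReal_ne_top)]
  apply mul_le_mul_right
  have hm : Measurable fun q : ℂ × ℝ × ℝ × ℝ => ENNReal.ofReal (2 * q.2.1) *
      ‖F (q.1 - ((q.2.2.2 * ε : ℝ) : ℂ) * pu q.2.1 q.2.2.1)‖ₑ ^ 2 := by
    refine Measurable.mul ?_ ((phi_cont hF ε).measurable.enorm.pow_const 2)
    exact (measurable_const.mul (measurable_fst.comp measurable_snd)).ennreal_ofReal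
  rw [lintegral_lintegral_swap hm.aemeasurable]
  have h1 : ∀ p : ℝ × ℝ × ℝ, ∫⁻ z : ℂ, ENNReal.ofReal (2 * p.1) *
      ‖F (z - ((p.2.2 * ε : ℝ) : ℂ) * pu p.1 p.2.1)‖ₑ ^ 2 =
      ENNReal.ofReal (2 * p.1) * ∫⁻ z, ‖F z‖ₑ ^ 2 := by
    intro p
    rw [lintegral_const_mul' _ _ ENNReal.ofReal_ne_top]
    congr 1
    exact lintegral_sub_right_eq_self (fun z : ℂ => ‖F z‖ₑ ^ 2) _
  simp only [h1]
  have hm1 : Measurable fun p : ℝ × ℝ × ℝ => ENNReal.ofReal (2 * p.1) :=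
    (measurable_const.mul measurable_fst).ennreal_ofReal
  rw [lintegral_mul_const _ hm1, wt_one, one_mul]

private theorem en_sq (x : ℝ) : ‖x‖ₑ ^ 2 = ENNReal.ofReal (x ^ 2) := by
  rw [← ofReal_norm, ← ENNReal.ofReal_pow (norm_nonneg _), Real.norm_eq_abs, sq_abs]

private theorem en_sqC (x : ℂ) : ‖x‖ₑ ^ 2 = ENNReal.ofReal (‖x‖ ^ 2) := by
  rw [← ofReal_norm, ← ENNReal.ofReal_pow (norm_nonneg _)]

theorem pot_sq {F : ℂ → ℝ} (hF : ContDiff ℝ ∞ F) (hi : Integrable fun z => F z ^ 2) {ε : ℝ}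
    (hε : 0 < ε) : Integrable (fun z => ‖pot ε F z‖ ^ 2) ∧
      ∫ z, ‖pot ε F z‖ ^ 2 ≤ ε ^ 2 * ∫ z, F z ^ 2 := by
  have h0 := pot_lint hF.continuous hε
  simp only [en_sq, en_sqC] at h0
  have hc : Continuous fun z => ‖pot ε F z‖ ^ 2 := ((pot_smooth hF ε).continuous.norm).pow 2
  have h1 : ∫⁻ z, ENNReal.ofReal (F z ^ 2) = ENNReal.ofReal (∫ z, F z ^ 2) :=
    (ofReal_integral_eq_lintegral_ofReal hi (Eventually.of_forall fun z => sq_nonneg _)).symm
  rw [h1, ← ENNReal.ofReal_pow hε.le, ← ENNReal.ofReal_mul (by positivity)] at h0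
  have h2 : Integrable fun z => ‖pot ε F z‖ ^ 2 := by
    refine ⟨hc.aestronglyMeasurable, ?_⟩
    rw [hasFiniteIntegral_iff_ofReal (Eventually.of_forall fun z => by positivity)]
    exact h0.trans_lt ENNReal.ofReal_lt_top
  refine ⟨h2, ?_⟩
  rw [← ofReal_integral_eq_lintegral_ofReal h2 (Eventually.of_forall fun z => by positivity)] at h0
  have h3 : 0 ≤ ε ^ 2 * ∫ z, F z ^ 2 :=
    mul_nonneg (by positivity) (integral_nonneg fun z => sq_nonneg _)
  exact (ENNReal.ofReal_le_ofReal_iff h3).1 h0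

private theorem pu_shift {n : ℕ} (hn : 0 < n) (s x : ℝ) :
    pu s x = ze n * pu s (x - 1 / (n : ℝ) ^ 3) := by
  unfold pu ze
  have hn' : (n : ℂ) ≠ 0 := by exact_mod_cast hn.ne'
  have h1 : Complex.exp (2 * π * x * Complex.I) =
      Complex.exp (2 * π * Complex.I / (n : ℂ) ^ 3) *
        Complex.exp (2 * π * ((x - 1 / (n : ℝ) ^ 3 : ℝ) : ℂ) * Complex.I) := by
    rw [← Complex.exp_add]
    congr 1
    push_cast
    field_simp
    ring
  rw [h1]
  ring

private theorem pu_per (s x : ℝ) : pu s (x + 1) = pu s x := by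
  unfold pu
  congr 1
  have h1 : (2 * π * ((x + 1 : ℝ) : ℂ) * Complex.I) = 2 * π * x * Complex.I + 2 * π * Complex.I := by
    push_cast
    ring
  rw [h1, Complex.exp_add, Complex.exp_two_pi_mul_I, mul_one]

private theorem pu_neg (s x : ℝ) : star (pu s (-x)) = pu s x := by
  unfold pu
  rw [Complex.star_def, map_mul, Complex.conj_ofReal, ← Complex.exp_conj]
  congr 2
  rw [map_mul, map_mul, map_mul, Complex.conj_ofReal, Complex.conj_I, Complex.conj_ofReal]
  have : (starRingEnd ℂ) 2 = 2 := by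
    have := Complex.conj_ofReal 2
    exact_mod_cast this
  rw [this]
  push_cast
  ring

private theorem int_shift {g : ℝ → ℂ} (hg : ∀ x, g (x + 1) = g x) (c : ℝ) :
    ∫ x in (0 : ℝ)..1, g (x - c) = ∫ x in (0 : ℝ)..1, g x := by
  have h1 : Function.Periodic g 1 := hg
  rw [intervalIntegral.integral_comp_sub_right]
  have h2 := h1.intervalIntegral_add_eq (0 - c) 0
  rw [show (0 : ℝ) - c + 1 = 1 - c by ring, zero_add] at h2
  exact h2

private theorem int_neg {g : ℝ → ℂ} (hg : ∀ x, g (x + 1) = g x) :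
    ∫ x in (0 : ℝ)..1, g (-x) = ∫ x in (0 : ℝ)..1, g x := by
  have h1 : Function.Periodic g 1 := hg
  rw [intervalIntegral.integral_comp_neg]
  have h2 := h1.intervalIntegral_add_eq (-1) 0
  rw [show (-1 : ℝ) + 1 = 0 by ring, zero_add] at h2
  rw [neg_zero]
  exact h2

theorem pot_rot {F : ℂ → ℝ} (hF : Continuous F) {ε : ℝ} {n : ℕ} (hn : 0 < n)
    (h : ∀ z, F (ze n * z) = F z) (z : ℂ) : pot ε F (ze n * z) = ze n * pot ε F z := by
  unfold pot
  rw [← intervalIntegral.integral_const_mul]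
  refine intervalIntegral.integral_congr fun s _ => ?_
  beta_reduce
  rw [← intervalIntegral.integral_const_mul]
  rw [← int_shift (g := fun x => ze n * ∫ t in (0 : ℝ)..1,
    ((2 * s * F (z - ((t * ε : ℝ) : ℂ) * pu s x) : ℝ) : ℂ) * (Complex.I * (ε : ℂ) * pu s x))
    (fun x => by simp only [pu_per]) (1 / (n : ℝ) ^ 3)]
  refine intervalIntegral.integral_congr fun x _ => ?_
  beta_reduce
  rw [← intervalIntegral.integral_const_mul]
  refine intervalIntegral.integral_congr fun t _ => ?_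
  beta_reduce
  have h1 : ze n * z - ((t * ε : ℝ) : ℂ) * pu s x =
      ze n * (z - ((t * ε : ℝ) : ℂ) * pu s (x - 1 / (n : ℝ) ^ 3)) := by
    rw [pu_shift hn s x]
    ring
  rw [h1, h, pu_shift hn s x]
  ring

private theorem int_star (g : ℝ → ℂ) (a b : ℝ) :
    ∫ x in a..b, -star (g x) = -star (∫ x in a..b, g x) := by
  rw [intervalIntegral.integral_neg]
  congr 1
  unfold intervalIntegral
  simp only [Complex.star_def, integral_conj, map_sub]

theorem pot_ref {F : ℂ → ℝ} (hF : Continuous F) {ε : ℝ} (h : ∀ z, F (star z) = F z) (z : ℂ) :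
    pot ε F (star z) = -star (pot ε F z) := by
  unfold pot
  rw [← int_star]
  refine intervalIntegral.integral_congr fun s _ => ?_
  beta_reduce
  rw [← int_star]
  rw [← int_neg (g := fun x => -star (∫ t in (0 : ℝ)..1,
    ((2 * s * F (z - ((t * ε : ℝ) : ℂ) * pu s x) : ℝ) : ℂ) * (Complex.I * (ε : ℂ) * pu s x)))
    (fun x => by simp only [pu_per])]
  refine intervalIntegral.integral_congr fun x _ => ?_
  beta_reduce
  rw [← int_star]
  refine intervalIntegral.integral_congr fun t _ => ?_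
  beta_reduce
  have h1 : star z - ((t * ε : ℝ) : ℂ) * pu s x =
      star (z - ((t * ε : ℝ) : ℂ) * pu s (-x)) := by
    rw [star_sub, star_mul', pu_neg s x, Complex.star_def, Complex.conj_ofReal]
  rw [h1, h, ← pu_neg s x]
  simp only [star_mul', star_star, Complex.star_def, Complex.conj_ofReal, Complex.conj_I,
    Complex.conj_conj, neg_neg]
  ring

theorem ba_sq {F : ℂ → ℝ} (hF : Continuous F) (hi : Integrable fun z => F z ^ 2) {ε : ℝ}
    (hε : 0 < ε) : Integrable (fun z => ba ε F z ^ 2) ∧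
      ∫ z, ba ε F z ^ 2 ≤ ∫ z, F z ^ 2 := by
  have hn : ∀ x : ℝ, ‖(x : ℂ)‖ ^ 2 = x ^ 2 := by
    intro x
    rw [Complex.norm_real, Real.norm_eq_abs, sq_abs]
  have hm : MemLp (fun z => (F z : ℂ)) 2 := by
    refine (memLp_two_iff_integrable_sq_norm (f := fun z => (F z : ℂ))
      (Complex.continuous_ofReal.comp hF).aestronglyMeasurable).2 ?_
    simpa only [hn] using hi
  obtain ⟨h1, h2⟩ := ba_int_sq hε hm
  have h3 : ba ε (fun z => (F z : ℂ)) = fun z => ((ba ε F z : ℝ) : ℂ) :=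
    funext fun z => ba_ofReal ε F z
  rw [h3] at h1 h2
  simp only [hn] at h2
  refine ⟨?_, h2⟩
  have h4 := (memLp_two_iff_integrable_sq_norm h1.1).1 h1
  simpa only [hn] using h4

end GO3
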