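import Pool.Agent.GO3.L.Qa
import Pool.Agent.GO3.L.Pot2
import Pool.Agent.GO3.L.Close2

/-! GO3 / L / Fc: compactness of the curvature (uniform smallness of `F - ba ε F`).

PROOF. `n₀`, `ε₀` from `almin K`. `M = K n²`. Let `F = c.F`, `T F = ba ε F`, `a₀ = pot ε F` (`pot_curl`,
`pot_sq`, `pot_smooth`, `pot_rot`, `pot_ref` with `F_rot`, `F_star`, `int_F`), `X = ∫ (F - T F)²`,
`Y = ∫ F (F - T F)`, `‖F‖² ≤ 2 c.E ≤ 2 M` (`E_eq`), `∫ ‖a₀‖² ≤ ε² 2 M`. `a = - a₀ / 2` is `ASym`.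
If `ε² M / 2 ≤ ε₀`, `almin` (with `addA_adm`, `addA_dist`) gives `c.E ≤ (c.addA a).E + δ`, so by `addA_E`
`0 ≤ 2 δ + 2 LA c a + ∫ (‖a‖² + (curl a)²)`, where
`2 LA c a = - Y + ∫ (a₀.re j_1 + a₀.im j_i) ≤ - Y + (∫ ‖a₀‖²)^{1/2} (∫ grad)^{1/2} ≤ - Y + 2 M ε`
(Cauchy-Schwarz pointwise and for integrals; or `x y ≤ (x²/ε + ε y²)/2`), and
`∫ (‖a‖² + (curl a)²) ≤ (1/4) (2 M ε² + X)`. Moreover `X = ∫ F² - 2 ∫ F T F + ∫ (T F)² ≤ 2 Y` (`ba_sq`). Hence
`X / 2 ≤ Y ≤ 2 δ + 2 M ε + M ε² / 2 + X / 4`, i.e. `X ≤ 8 δ + 8 M ε + 2 M ε²`. Choose `ε ≤ 1` with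
`10 M ε ≤ e / 2`, `ε² M / 2 ≤ ε₀`, and `d = e / 16`. -/

open MeasureTheory Filter Topology Set
open scoped ContDiff Real

noncomputable section

namespace GO3

private theorem cont_curl {a : ℂ → ℂ} (ha : ContDiff ℝ ∞ a) : Continuous (curl a) := by
  have h := ha.continuous_fderiv (by simp)
  unfold curl
  exact (Complex.continuous_im.comp (h.clm_apply continuous_const)).sub
    (Complex.continuous_re.comp (h.clm_apply continuous_const))

private theorem int_mul_of_sq {u v : ℂ → ℝ} (hu : Continuous u) (hv : Continuous v)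
    (h1 : Integrable fun z => u z ^ 2) (h2 : Integrable fun z => v z ^ 2) :
    Integrable fun z => u z * v z := by
  refine (h1.add h2).mono' (hu.mul hv).aestronglyMeasurable (Eventually.of_forall fun z => ?_)
  simp only [Pi.add_apply]
  rw [Real.norm_eq_abs, abs_mul]
  nlinarith [sq_nonneg (|u z| - |v z|), sq_abs (u z), sq_abs (v z), abs_nonneg (u z), abs_nonneg (v z),
    sq_nonneg (u z), sq_nonneg (v z)]

private theorem cs_aux {x y p q g ε : ℝ} (hε : 0 < ε) (h : p ^ 2 + q ^ 2 ≤ g) :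
    x * p + y * q ≤ ((x ^ 2 + y ^ 2) / ε + ε * g) / 2 := by
  have h1 : x * p + y * q ≤ ((x ^ 2 + y ^ 2) / ε + ε * (p ^ 2 + q ^ 2)) / 2 := by
    have e1 : ((x ^ 2 + y ^ 2) / ε + ε * (p ^ 2 + q ^ 2)) / 2 - (x * p + y * q) =
        ((x - ε * p) ^ 2 + (y - ε * q) ^ 2) / (2 * ε) := by
      field_simp
      ring
    have e2 : 0 ≤ ((x - ε * p) ^ 2 + (y - ε * q) ^ 2) / (2 * ε) := by positivity
    linarith
  have h2 : ε * (p ^ 2 + q ^ 2) ≤ ε * g := mul_le_mul_of_nonneg_left h hε.le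
  linarith

theorem F_compact (K : ℝ) (hK : 1 ≤ K) : ∃ n₀ : ℕ, 2 ≤ n₀ ∧ ∀ n : ℕ, n₀ ≤ n → ∀ e : ℝ, 0 < e →
    ∃ ε : ℝ, 0 < ε ∧ ∃ d : ℝ, 0 < d ∧ ∀ (σ δ : ℝ), 0 ≤ δ → δ ≤ d → ∀ c : Cf, c.Alm K n σ δ →
      ∫ z, (c.F z - ba ε c.F z) ^ 2 ≤ e := by
  obtain ⟨n₀, h2, H⟩ := almin K hK
  refine ⟨n₀, h2, fun n hn e he => ?_⟩
  obtain ⟨ε₀, hε₀, H1⟩ := H n hn
  have hn2 : 2 ≤ n := h2.trans hn
  have hn0 : 0 < n := by omega
  obtain ⟨M, hMd⟩ : ∃ M : ℝ, M = K * (n : ℝ) ^ 2 := ⟨_, rfl⟩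
  have hnR : (0 : ℝ) < n := by exact_mod_cast hn0
  have hM : 0 < M := by rw [hMd]; positivity
  obtain ⟨ε, hεd⟩ : ∃ ε : ℝ, ε = min 1 (min (e / (20 * M)) (ε₀ / M)) := ⟨_, rfl⟩
  have hε : 0 < ε := by
    rw [hεd]
    exact lt_min one_pos (lt_min (by positivity) (by positivity))
  have hε1 : ε ≤ 1 := by rw [hεd]; exact min_le_left _ _
  have hε2 : ε ≤ e / (20 * M) := by
    rw [hεd]; exact (min_le_right _ _).trans (min_le_left _ _)
  have hε3 : ε ≤ ε₀ / M := by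
    rw [hεd]; exact (min_le_right _ _).trans (min_le_right _ _)
  have hε2' : 20 * M * ε ≤ e := by
    rw [le_div_iff₀ (by positivity)] at hε2
    linarith
  have hε3' : M * ε ≤ ε₀ := by
    rw [le_div_iff₀ hM] at hε3
    linarith
  have hεsq : ε ^ 2 ≤ ε := by nlinarith
  refine ⟨ε, hε, e / 16, by positivity, fun σ δ hδ0 hδ c hc => ?_⟩
  have hA : c.Adm n := hc.1.1
  have hEM : c.E ≤ M := by rw [hMd]; exact hc.2.2.1
  have hF : ContDiff ℝ ∞ c.F := hA.contDiff_F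
  have hi := hA.int_F
  have hp := pot_sq hF hi hε
  have hb := ba_sq hF.continuous hi hε
  have hcurl : ∀ z, curl (pot ε c.F) z = c.F z - ba ε c.F z := pot_curl hF hε
  have hps := pot_smooth hF ε
  have hcc : Continuous (curl (pot ε c.F)) := cont_curl hps
  have hbc : Continuous (fun z => ba ε c.F z) := by
    have : (fun z => ba ε c.F z) = fun z => c.F z - curl (pot ε c.F) z := by
      funext z
      rw [hcurl z]; ring
    rw [this]
    exact hF.continuous.sub hcc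
  have hFT : Integrable fun z => c.F z * ba ε c.F z := int_mul_of_sq hF.continuous hbc hi hb.1
  have hD : Integrable fun z => (c.F z - ba ε c.F z) ^ 2 := by
    have : (fun z => (c.F z - ba ε c.F z) ^ 2) =
        fun z => c.F z ^ 2 - 2 * (c.F z * ba ε c.F z) + ba ε c.F z ^ 2 := by
      funext z; ring
    rw [this]
    exact (hi.sub (hFT.const_mul 2)).add hb.1
  have hc0 : Integrable fun z => curl (pot ε c.F) z ^ 2 := by
    simpa only [hcurl] using hD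
  have hS : ASym n (pot ε c.F) :=
    { s := hps
      rot := pot_rot hF.continuous hn0 (hA.F_rot)
      ref := pot_ref hF.continuous (hA.F_star)
      i := hp.1
      ic := hc0 }
  -- the integrals
  obtain ⟨X, hX⟩ : ∃ X : ℝ, X = ∫ z, (c.F z - ba ε c.F z) ^ 2 := ⟨_, rfl⟩
  obtain ⟨Y, hY⟩ : ∃ Y : ℝ, Y = ∫ z, c.F z * (c.F z - ba ε c.F z) := ⟨_, rfl⟩
  obtain ⟨P, hP⟩ : ∃ P : ℝ, P = ∫ z, ‖pot ε c.F z‖ ^ 2 := ⟨_, rfl⟩
  obtain ⟨I0, hI0⟩ : ∃ I : ℝ, I = ∫ z, c.F z ^ 2 := ⟨_, rfl⟩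
  obtain ⟨G, hG⟩ : ∃ I : ℝ, I = ∫ z, c.grad z := ⟨_, rfl⟩
  have hYi : Integrable fun z => c.F z * (c.F z - ba ε c.F z) := by
    have : (fun z => c.F z * (c.F z - ba ε c.F z)) =
        fun z => c.F z ^ 2 - c.F z * ba ε c.F z := by
      funext z; ring
    rw [this]
    exact hi.sub hFT
  have hXY : X ≤ 2 * Y := by
    have e1 : X = (∫ z, c.F z ^ 2) - 2 * (∫ z, c.F z * ba ε c.F z) + ∫ z, ba ε c.F z ^ 2 := by
      have hs : Integrable fun z => c.F z ^ 2 - 2 * (c.F z * ba ε c.F z) := hi.sub (hFT.const_mul 2)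
      rw [hX, ← integral_const_mul, ← integral_sub hi (hFT.const_mul 2),
        ← integral_add hs hb.1]
      congr 1
      funext z
      ring
    have e2 : Y = (∫ z, c.F z ^ 2) - ∫ z, c.F z * ba ε c.F z := by
      rw [hY, ← integral_sub hi hFT]
      congr 1
      funext z
      ring
    have := hb.2
    linarith
  have hE2 := hA.E_eq
  have hI0n : 0 ≤ I0 := by rw [hI0]; exact integral_nonneg fun z => sq_nonneg _
  have hGn : 0 ≤ G := by rw [hG]; exact integral_nonneg fun z => Cf.grad_nonneg c z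
  have hpn : 0 ≤ ∫ z, (1 - c.h z) ^ 2 := integral_nonneg fun z => sq_nonneg _
  have hI0M : I0 ≤ 2 * M := by
    rw [← hG, ← hI0] at hE2
    linarith
  have hGM : G ≤ 2 * M := by
    rw [← hG, ← hI0] at hE2
    linarith
  have hPM : P ≤ ε ^ 2 * (2 * M) := by
    rw [hP]
    exact hp.2.trans (mul_le_mul_of_nonneg_left (by rw [← hI0]; exact hI0M) (sq_nonneg _))
  have hXn : 0 ≤ X := by rw [hX]; exact integral_nonneg fun z => sq_nonneg _
  -- the competitor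
  have ha := hS.smul (-(1 / 2))
  obtain ⟨a, hae⟩ : ∃ a : ℂ → ℂ, a = fun z => ((-(1 / 2) : ℝ) : ℂ) * pot ε c.F z := ⟨_, rfl⟩
  rw [← hae] at ha
  have hna : ∀ z, ‖a z‖ ^ 2 = 1 / 4 * ‖pot ε c.F z‖ ^ 2 := by
    intro z
    rw [hae]
    simp only [norm_mul, Complex.norm_real]
    rw [Real.norm_eq_abs, mul_pow, sq_abs]
    norm_num
  have hca : ∀ z, curl a z ^ 2 = 1 / 4 * (c.F z - ba ε c.F z) ^ 2 := by
    intro z
    rw [hae, curl_smul hps, hcurl]
    ring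
  have hia : ∫ z, ‖a z‖ ^ 2 = 1 / 4 * P := by
    rw [hP, ← integral_const_mul]
    congr 1
    funext z
    exact hna z
  have hdist : dist2 c (c.addA a) (rp (K + 1) n) ≤ ε₀ := by
    refine (addA_dist ha _).trans ?_
    rw [hia]
    nlinarith
  have hE3 := H1 σ δ hδ0 c (c.addA a) hc (addA_adm hA ha) rfl hdist
  have hE4 := addA_E hA ha
  have hq : ∫ z, (‖a z‖ ^ 2 + curl a z ^ 2) = 1 / 4 * P + 1 / 4 * X := by
    rw [hP, hX, ← integral_const_mul, ← integral_const_mul,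
      ← integral_add (hp.1.const_mul _) (hD.const_mul _)]
    congr 1
    funext z
    rw [hna z, hca z]
  have hL : 2 * LA c a = -LA c (pot ε c.F) := by
    rw [hae, LA_smul hps]
    ring
  have k1 : Integrable fun z => -(c.F z * (c.F z - ba ε c.F z)) := hYi.neg
  have k2 : Integrable fun z => ‖pot ε c.F z‖ ^ 2 / ε := hp.1.div_const _
  have k3 : Integrable fun z => ε * c.grad z := hA.int_grad.const_mul _
  have k4 : Integrable fun z => (‖pot ε c.F z‖ ^ 2 / ε + ε * c.grad z) / 2 :=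
    (k2.add k3).div_const _
  have hL2 : -LA c (pot ε c.F) ≤ -Y + (P / ε + ε * G) / 2 := by
    have e1 : -Y + (P / ε + ε * G) / 2 = ∫ z, (-(c.F z * (c.F z - ba ε c.F z)) +
        (‖pot ε c.F z‖ ^ 2 / ε + ε * c.grad z) / 2) := by
      rw [integral_add k1 k4, integral_neg, integral_div, integral_add k2 k3,
        integral_div, integral_const_mul, ← hY, ← hP, ← hG]
    rw [e1]
    unfold LA
    rw [← integral_neg]
    refine integral_mono (int_LA hA hS).neg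
      (k1.add k4) fun z => ?_
    have h1 := j_sq hA z
    have h2 := cs_aux (x := (pot ε c.F z).re) (y := (pot ε c.F z).im) hε h1
    have h3 : ‖pot ε c.F z‖ ^ 2 = (pot ε c.F z).re ^ 2 + (pot ε c.F z).im ^ 2 := by
      rw [← Complex.normSq_eq_norm_sq, Complex.normSq_apply]
      ring
    simp only [Pi.neg_apply]
    rw [hcurl z, h3]
    linarith
  have hPε : P / ε ≤ 2 * M * ε := by
    rw [div_le_iff₀ hε]
    nlinarith
  have hGε : ε * G ≤ 2 * M * ε := by nlinarith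
  rw [hL, hq] at hE4
  have hfin : 0 ≤ 2 * δ - Y + 2 * M * ε + 1 / 4 * P + 1 / 4 * X := by linarith
  have hP2 : P ≤ 2 * M * ε := by nlinarith
  rw [← hX]
  nlinarith

end GO3
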