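import Pool.Agent.GO3.L.Defs
import Pool.Agent.GO3.Sym

/-! GO3 / L / Qa: change of the potential, `c.addA a = (w, h, A + a)`.

PROOFS. `(c.addA a).Dw z v = c.Dw z v - i (ip (a z) v) w`, `(c.addA a).dh = c.dh`, `(c.addA a).F = c.F + curl a`
(`fderiv` of a sum of smooth functions).
* `addA_dens`: for real `s`: `‖D - i s w‖² = ‖D‖² - 2 s Im (conj w D) + s² ‖w‖²`; sum over `v = 1, i` with
  `s = ip (a z) v` (`ip a 1 = a.re`, `ip a i = a.im`), `(c.F + curl a)²` expanded.
* `j_sq`: `|j_v| ≤ ‖D_v w‖` (`‖w‖ ≤ 1`), so `j_1² + j_i² ≤ grad`.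
* `int_LA`: `|c.F curl a| ≤ (c.F² + (curl a)²) / 2`, `|a.re j_1 + a.im j_i| ≤ (‖a‖² + grad) / 2`; continuity gives
  measurability (`contDiff_F`, `contDiff_Dw`, `curl` of a smooth field is continuous).
* `addA_adm`: `fin` from `addA_dens`; symmetries from `ASym`; the rest is unchanged.
* `addA_E`: integrate `addA_dens`, `‖w‖² ≤ 1`. -/

open MeasureTheory Filter Topology Set
open scoped ContDiff Real

noncomputable section

namespace GO3

variable {c : Cf} {n : ℕ} {a : ℂ → ℂ}

private theorem qa_Dw_59 (c : Cf) (a : ℂ → ℂ) (z v : ℂ) :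
    (c.addA a).Dw z v = c.Dw z v - Complex.I * (ip (a z) v : ℂ) * c.w z := by
  unfold Cf.Dw Cf.addA
  have e : ip (c.A z + a z) v = ip (c.A z) v + ip (a z) v := by
    unfold ip
    simp only [Complex.add_re, Complex.add_im]
    ring
  simp only [e]
  push_cast
  ring

private theorem qa_dh_59 (c : Cf) (a : ℂ → ℂ) (z v : ℂ) : (c.addA a).dh z v = c.dh z v := rfl

private theorem qa_nsq_59 (c : Cf) (a : ℂ → ℂ) (z v : ℂ) :
    (c.addA a).nsq z v = c.nsq z v - 2 * (ip (a z) v * c.j z v) +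
      ip (a z) v ^ 2 * ‖c.w z‖ ^ 2 := by
  unfold Cf.nsq Cf.j
  rw [qa_Dw_59, qa_dh_59]
  simp only [Complex.sq_norm, Complex.normSq_apply, Complex.sub_re, Complex.sub_im,
    Complex.mul_re, Complex.mul_im, Complex.I_re, Complex.I_im, Complex.ofReal_re,
    Complex.ofReal_im, Complex.star_def, Complex.conj_re, Complex.conj_im]
  ring

private theorem qa_contcurl_59 {a : ℂ → ℂ} (ha : ContDiff ℝ ∞ a) : Continuous (curl a) := by
  have h1 : ∀ v : ℂ, ContDiff ℝ ∞ fun z : ℂ => fderiv ℝ a z v := fun v =>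
    (ha.fderiv_right (m := ∞) (by simp)).clm_apply contDiff_const
  exact (Complex.continuous_im.comp (h1 1).continuous).sub
    (Complex.continuous_re.comp (h1 Complex.I).continuous)

private theorem qa_contj_59 (hc : c.Adm n) (v : ℂ) : Continuous fun z => c.j z v := by
  have h1 : Continuous fun z => c.Dw z v :=
    hc.contDiff_Dw.continuous.comp (continuous_id.prodMk continuous_const)
  exact Complex.continuous_im.comp ((continuous_star.comp hc.sw.continuous).mul h1)

theorem addA_F (hc : c.Adm n) (ha : ASym n a) (z : ℂ) : (c.addA a).F z = c.F z + curl a z := by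
  unfold Cf.F curl Cf.addA
  have h1 : DifferentiableAt ℝ c.A z := (hc.sA.differentiable (by simp)).differentiableAt
  have h2 : DifferentiableAt ℝ a z := (ha.s.differentiable (by simp)).differentiableAt
  have h3 : fderiv ℝ (fun z => c.A z + a z) z = fderiv ℝ c.A z + fderiv ℝ a z :=
    (h1.hasFDerivAt.add h2.hasFDerivAt).fderiv
  simp only [h3, add_apply, Complex.add_re, Complex.add_im]
  ring

theorem addA_dens (hc : c.Adm n) (ha : ASym n a) (z : ℂ) : (c.addA a).dens z = c.dens z +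
    2 * (c.F z * curl a z - ((a z).re * c.j z 1 + (a z).im * c.j z Complex.I)) +
    (‖a z‖ ^ 2 * ‖c.w z‖ ^ 2 + curl a z ^ 2) := by
  unfold Cf.dens Cf.grad
  rw [addA_F hc ha, qa_nsq_59, qa_nsq_59]
  have e1 : ip (a z) 1 = (a z).re := by simp [ip]
  have e2 : ip (a z) Complex.I = (a z).im := by simp [ip]
  have e3 : (c.addA a).h z = c.h z := rfl
  have e4 : ‖a z‖ ^ 2 = (a z).re ^ 2 + (a z).im ^ 2 := by
    rw [Complex.sq_norm, Complex.normSq_apply]
    ring
  rw [e1, e2, e3, e4]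
  ring

private theorem qa_j_le_59 (hc : c.Adm n) (z v : ℂ) : c.j z v ^ 2 ≤ c.nsq z v := by
  have h1 : |c.j z v| ≤ ‖c.Dw z v‖ := by
    unfold Cf.j
    refine (Complex.abs_im_le_norm _).trans ?_
    rw [norm_mul, norm_star]
    exact mul_le_of_le_one_left (norm_nonneg _) (hc.norm_w_le z)
  calc c.j z v ^ 2 = |c.j z v| ^ 2 := (sq_abs _).symm
    _ ≤ ‖c.Dw z v‖ ^ 2 := pow_le_pow_left₀ (abs_nonneg _) h1 2
    _ ≤ c.nsq z v := c.norm_Dw_le z v

theorem j_sq (hc : c.Adm n) (z : ℂ) : c.j z 1 ^ 2 + c.j z Complex.I ^ 2 ≤ c.grad z := by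
  unfold Cf.grad
  exact add_le_add (qa_j_le_59 hc z 1) (qa_j_le_59 hc z Complex.I)

theorem int_LA (hc : c.Adm n) (ha : ASym n a) : Integrable fun z =>
    c.F z * curl a z - ((a z).re * c.j z 1 + (a z).im * c.j z Complex.I) := by
  have hg : Integrable fun z => (c.F z ^ 2 + curl a z ^ 2) + (‖a z‖ ^ 2 + c.grad z) :=
    (hc.int_F.add ha.ic).add (ha.i.add hc.int_grad)
  have hcont : Continuous fun z =>
      c.F z * curl a z - ((a z).re * c.j z 1 + (a z).im * c.j z Complex.I) := by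
    have c1 := hc.contDiff_F.continuous
    have c2 := qa_contcurl_59 ha.s
    have c3 : Continuous fun z => (a z).re := Complex.continuous_re.comp ha.s.continuous
    have c4 : Continuous fun z => (a z).im := Complex.continuous_im.comp ha.s.continuous
    have c5 := qa_contj_59 hc 1
    have c6 := qa_contj_59 hc Complex.I
    exact (c1.mul c2).sub ((c3.mul c5).add (c4.mul c6))
  refine hg.mono' hcont.aestronglyMeasurable (Filter.Eventually.of_forall fun z => ?_)
  have h1 := j_sq hc z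
  have e4 : ‖a z‖ ^ 2 = (a z).re ^ 2 + (a z).im ^ 2 := by
    rw [Complex.sq_norm, Complex.normSq_apply]
    ring
  have h2 := c.grad_nonneg z
  rw [e4, Real.norm_eq_abs, abs_le]
  constructor
  · nlinarith [sq_nonneg (c.F z + curl a z), sq_nonneg ((a z).re - c.j z 1),
      sq_nonneg ((a z).im - c.j z Complex.I), sq_nonneg (c.F z), sq_nonneg (curl a z),
      sq_nonneg (a z).re, sq_nonneg (a z).im]
  · nlinarith [sq_nonneg (c.F z - curl a z), sq_nonneg ((a z).re + c.j z 1),
      sq_nonneg ((a z).im + c.j z Complex.I), sq_nonneg (c.F z), sq_nonneg (curl a z),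
      sq_nonneg (a z).re, sq_nonneg (a z).im]

private theorem qa_aw_le_59 (hc : c.Adm n) (z : ℂ) : ‖a z‖ ^ 2 * ‖c.w z‖ ^ 2 ≤ ‖a z‖ ^ 2 := by
  have h1 : ‖c.w z‖ ^ 2 ≤ 1 := pow_le_one₀ (norm_nonneg _) (hc.norm_w_le z)
  exact mul_le_of_le_one_right (sq_nonneg _) h1

private theorem qa_int_aw_59 (hc : c.Adm n) (ha : ASym n a) :
    Integrable fun z => ‖a z‖ ^ 2 * ‖c.w z‖ ^ 2 := by
  refine ha.i.mono' ?_ (Filter.Eventually.of_forall fun z => ?_)
  · exact ((ha.s.continuous.norm.pow 2).mul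
      (hc.sw.continuous.norm.pow 2)).aestronglyMeasurable
  · rw [Real.norm_eq_abs, abs_of_nonneg (by positivity)]
    exact qa_aw_le_59 hc z

private theorem qa_dens_fun_59 (hc : c.Adm n) (ha : ASym n a) :
    (c.addA a).dens = fun z => c.dens z +
    2 * (c.F z * curl a z - ((a z).re * c.j z 1 + (a z).im * c.j z Complex.I)) +
    (‖a z‖ ^ 2 * ‖c.w z‖ ^ 2 + curl a z ^ 2) := funext (addA_dens hc ha)

theorem addA_adm (hc : c.Adm n) (ha : ASym n a) : (c.addA a).Adm n where
  sw := hc.sw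
  sh := hc.sh
  sA := hc.sA.add ha.s
  unit := hc.unit
  fin := by
    rw [qa_dens_fun_59 hc ha]
    exact (hc.fin.add ((int_LA hc ha).const_mul 2)).add ((qa_int_aw_59 hc ha).add ha.ic)
  rw := hc.rw
  rh := hc.rh
  rA := fun z => by
    show c.A (ze n * z) + a (ze n * z) = ze n * (c.A z + a z)
    rw [hc.rA, ha.rot]
    ring
  cw := hc.cw
  ch := hc.ch
  cA := fun z => by
    show c.A (star z) + a (star z) = -star (c.A z + a z)
    rw [hc.cA, ha.ref, star_add]
    ring

theorem addA_E (hc : c.Adm n) (ha : ASym n a) : 2 * (c.addA a).E ≤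
    2 * c.E + 2 * LA c a + ∫ z, (‖a z‖ ^ 2 + curl a z ^ 2) := by
  have h1 := (int_LA hc ha).const_mul 2
  have h2 := (qa_int_aw_59 hc ha).add ha.ic
  have e1 : 2 * (c.addA a).E = ∫ z, (c.addA a).dens z := by
    unfold Cf.E
    ring
  have e2 : 2 * c.E = ∫ z, c.dens z := by
    unfold Cf.E
    ring
  have e3 : ∫ z, (c.addA a).dens z = (∫ z, c.dens z) +
      (∫ z, 2 * (c.F z * curl a z - ((a z).re * c.j z 1 + (a z).im * c.j z Complex.I))) +
      ∫ z, (‖a z‖ ^ 2 * ‖c.w z‖ ^ 2 + curl a z ^ 2) := by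
    have i1 : ∫ z, (c.dens z +
        2 * (c.F z * curl a z - ((a z).re * c.j z 1 + (a z).im * c.j z Complex.I))) =
        (∫ z, c.dens z) +
        ∫ z, 2 * (c.F z * curl a z - ((a z).re * c.j z 1 + (a z).im * c.j z Complex.I)) :=
      integral_add hc.fin h1
    have i2 : ∫ z, ((c.dens z +
        2 * (c.F z * curl a z - ((a z).re * c.j z 1 + (a z).im * c.j z Complex.I))) +
        (‖a z‖ ^ 2 * ‖c.w z‖ ^ 2 + curl a z ^ 2)) =
        (∫ z, (c.dens z +
        2 * (c.F z * curl a z - ((a z).re * c.j z 1 + (a z).im * c.j z Complex.I)))) +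
        ∫ z, (‖a z‖ ^ 2 * ‖c.w z‖ ^ 2 + curl a z ^ 2) :=
      integral_add (hc.fin.add h1) h2
    rw [← i1, ← i2]
    refine integral_congr_ae (Filter.Eventually.of_forall fun z => ?_)
    exact addA_dens hc ha z
  have h3 : ∫ z, (‖a z‖ ^ 2 * ‖c.w z‖ ^ 2 + curl a z ^ 2) ≤
      ∫ z, (‖a z‖ ^ 2 + curl a z ^ 2) := by
    refine integral_mono h2 (ha.i.add ha.ic) fun z => ?_
    exact add_le_add (qa_aw_le_59 hc z) le_rfl
  rw [integral_const_mul] at e3
  rw [e1, e2, e3]
  unfold LA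
  linarith

theorem addA_dist (ha : ASym n a) (R : ℝ) : dist2 c (c.addA a) R ≤ ∫ z, ‖a z‖ ^ 2 := by
  have e : dist2 c (c.addA a) R = ∫ z in Metric.ball (0 : ℂ) R, ‖a z‖ ^ 2 := by
    unfold dist2
    refine integral_congr_ae (Filter.Eventually.of_forall fun z => ?_)
    show ‖c.w z - c.w z‖ ^ 2 + (c.h z - c.h z) ^ 2 + ‖c.A z + a z - c.A z‖ ^ 2 = ‖a z‖ ^ 2
    rw [sub_self, sub_self, add_sub_cancel_left]
    simp
  rw [e]
  exact setIntegral_le_integral ha.i (Filter.Eventually.of_forall fun z => sq_nonneg _)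

theorem curl_smul (ha : ContDiff ℝ ∞ a) (t : ℝ) (z : ℂ) :
    curl (fun z => (t : ℂ) * a z) z = t * curl a z := by
  unfold curl
  have h2 : DifferentiableAt ℝ a z := (ha.differentiable (by simp)).differentiableAt
  have h3 : fderiv ℝ (fun z => (t : ℂ) * a z) z = (t : ℂ) • fderiv ℝ a z :=
    (h2.hasFDerivAt.const_mul (t : ℂ)).fderiv
  rw [h3]
  simp only [smul_apply, smul_eq_mul, Complex.re_ofReal_mul,
    Complex.im_ofReal_mul]
  ring

/-- multiples of a symmetric potential -/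
theorem ASym.smul (ha : ASym n a) (t : ℝ) : ASym n (fun z => (t : ℂ) * a z) where
  s := contDiff_const.mul ha.s
  rot := fun z => by
    rw [ha.rot]
    ring
  ref := fun z => by
    rw [ha.ref, star_mul', Complex.star_def, Complex.conj_ofReal]
    ring
  i := by
    have h := ha.i.const_mul (t ^ 2)
    refine h.congr (Filter.Eventually.of_forall fun z => ?_)
    show t ^ 2 * ‖a z‖ ^ 2 = ‖(t : ℂ) * a z‖ ^ 2
    rw [norm_mul, Complex.norm_real, Real.norm_eq_abs, mul_pow, sq_abs]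
  ic := by
    have h := ha.ic.const_mul (t ^ 2)
    refine h.congr (Filter.Eventually.of_forall fun z => ?_)
    show t ^ 2 * curl a z ^ 2 = curl (fun z => (t : ℂ) * a z) z ^ 2
    rw [curl_smul ha.s, mul_pow]

theorem LA_smul (ha : ContDiff ℝ ∞ a) (t : ℝ) : LA c (fun z => (t : ℂ) * a z) = t * LA c a := by
  unfold LA
  rw [← integral_const_mul]
  refine integral_congr_ae (Filter.Eventually.of_forall fun z => ?_)
  simp only
  rw [curl_smul ha, Complex.re_ofReal_mul, Complex.im_ofReal_mul]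
  ring

/-- test functions -/
theorem ASym.of_tst (ha : Tst a) (h1 : ∀ z, a (ze n * z) = ze n * a z)
    (h2 : ∀ z, a (star z) = -star (a z)) : ASym n a where
  s := ha.1
  rot := h1
  ref := h2
  i := by
    have hs : HasCompactSupport fun z => ‖a z‖ ^ 2 :=
      ha.2.comp_left (g := fun x : ℂ => ‖x‖ ^ 2) (by simp)
    exact (ha.1.continuous.norm.pow 2).integrable_of_hasCompactSupport hs
  ic := by
    have hf : HasCompactSupport (fderiv ℝ a) := ha.2.fderiv ℝ
    have hs : HasCompactSupport fun z => curl a z ^ 2 :=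
      hf.comp_left (g := fun L : ℂ →L[ℝ] ℂ => ((L 1).im - (L Complex.I).re) ^ 2) (by simp)
    exact ((qa_contcurl_59 ha.1).pow 2).integrable_of_hasCompactSupport hs

end GO3
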