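import Pool.Agent.GO3.L.SymAv
import Pool.Agent.GO3.L.Qa

/-! GO3 / L / InvA: the functional `LA c` is linear and invariant under the dihedral group.

PROOFS. The integrand is `c.F curl f - c.j z (f z)`, since `j z v` is real linear in `v`
(`f z = (f z).re 1 + (f z).im i`); it is continuous with compact support, so integrable.
* `rot`: `g z = conj ζ f (ζ z)`: `curl g z = curl f (ζ z)` (`dg_z (v) = conj ζ df_{ζ z} (ζ v)`; `curl` is
  frame independent: `curl f = ip (df (1)) (-i·..)`; concretely with `ζ = p + i q`, `p² + q² = 1`, expand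
  `df (ζ) = p df 1 + q df i`, `df (ζ i) = - q df 1 + p df i`), `F (ζ z) = F z` (`F_rot`),
  `j z (g z) = j z (conj ζ f (ζ z)) = j (ζ z) (f (ζ z))` because `j (ζ z) (ζ v) = j z v` (`Dw_rot`, `rw`). Then substitute
  `z ↦ ζ z` (a linear isometry: `LinearIsometryEquiv.measurePreserving`, e.g. `rotation`, or
  `integral_comp_mul_left`-type lemma for `ℂ`).
* `ref` (`τ = -1`): `g z = - conj (f (conj z))`: `curl g z = curl f (conj z)`, `F (conj z) = F z`,
  `j (conj z) (conj v) = - j z v` (`Dw_star`, `cw`), so `j z (g z) = - j z (conj (f (conj z))) = j (conj z) (f (conj z))`;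
  substitute `z ↦ conj z` (`Complex.conjLIE`). -/

open MeasureTheory Filter Topology Set
open scoped ContDiff Real

noncomputable section

namespace GO3

/-- the integrand of `LA` -/
private def li (c : Cf) (f : ℂ → ℂ) (z : ℂ) : ℝ :=
  c.F z * curl f z - ((f z).re * c.j z 1 + (f z).im * c.j z Complex.I)

private theorem LA_eq (c : Cf) (f : ℂ → ℂ) : LA c f = ∫ z, li c f z := rfl

private theorem lin_ia (L : ℂ →L[ℝ] ℂ) (v : ℂ) :
    L v = (v.re : ℂ) * L 1 + (v.im : ℂ) * L Complex.I := by
  have h : v = v.re • (1 : ℂ) + v.im • Complex.I := by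
    apply Complex.ext <;> simp
  conv_lhs => rw [h]
  rw [map_add, map_smul, map_smul, Complex.real_smul, Complex.real_smul]

private theorem j_ia (c : Cf) (z v : ℂ) :
    v.re * c.j z 1 + v.im * c.j z Complex.I = c.j z v := by
  have h3 : c.Dw z v = (v.re : ℂ) * c.Dw z 1 + (v.im : ℂ) * c.Dw z Complex.I := by
    unfold Cf.Dw
    rw [lin_ia (fderiv ℝ c.w z) v]
    simp only [ip, Complex.one_re, Complex.one_im, Complex.I_re, Complex.I_im]
    push_cast
    ring
  unfold Cf.j
  rw [h3]
  have h4 : star (c.w z) * ((v.re : ℂ) * c.Dw z 1 + (v.im : ℂ) * c.Dw z Complex.I) =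
      (v.re : ℂ) * (star (c.w z) * c.Dw z 1) + (v.im : ℂ) * (star (c.w z) * c.Dw z Complex.I) := by
    ring
  rw [h4, Complex.add_im, Complex.im_ofReal_mul, Complex.im_ofReal_mul]

private theorem li_eq (c : Cf) (f : ℂ → ℂ) (z : ℂ) : li c f z = c.F z * curl f z - c.j z (f z) := by
  unfold li
  rw [j_ia]

private theorem li_int {c : Cf} {n : ℕ} (hc : c.Adm n) {f : ℂ → ℂ} (hf : Tst f) :
    Integrable (li c f) := by
  have hFc : Continuous c.F := hc.contDiff_F.continuous
  have hfc : Continuous f := hf.1.continuous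
  have hd : ∀ v : ℂ, Continuous fun z : ℂ => fderiv ℝ f z v := fun v =>
    ((hf.1.fderiv_right (m := ∞) (by simp)).clm_apply contDiff_const).continuous
  have hcurl : Continuous fun z => curl f z :=
    (Complex.continuous_im.comp (hd 1)).sub (Complex.continuous_re.comp (hd Complex.I))
  have hD : ∀ v : ℂ, Continuous fun z : ℂ => c.Dw z v := fun v =>
    (hc.contDiff_Dw.comp (contDiff_id.prodMk contDiff_const)).continuous
  have hj : ∀ v : ℂ, Continuous fun z : ℂ => c.j z v := fun v =>
    Complex.continuous_im.comp ((continuous_star.comp hc.sw.continuous).mul (hD v))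
  have hcont : Continuous (li c f) :=
    (hFc.mul hcurl).sub (((Complex.continuous_re.comp hfc).mul (hj 1)).add
      ((Complex.continuous_im.comp hfc).mul (hj Complex.I)))
  refine hcont.integrable_of_hasCompactSupport ?_
  refine HasCompactSupport.intro' hf.2 (isClosed_tsupport f) fun z hz => ?_
  have h0 : f z = 0 := image_eq_zero_of_notMem_tsupport hz
  have h1 : fderiv ℝ f z = 0 := by
    by_contra h
    exact hz (support_fderiv_subset ℝ h)
  unfold li curl
  rw [h0, h1]
  simp

private theorem curl_add_ia {f g : ℂ → ℂ} (hf : ContDiff ℝ ∞ f) (hg : ContDiff ℝ ∞ g) (z : ℂ) :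
    curl (fun z => f z + g z) z = curl f z + curl g z := by
  have h1 : fderiv ℝ (fun z => f z + g z) z = fderiv ℝ f z + fderiv ℝ g z :=
    fderiv_fun_add (hf.differentiable (by simp) z) (hg.differentiable (by simp) z)
  unfold curl
  rw [h1]
  simp only [add_apply, Complex.add_im, Complex.add_re]
  ring

private theorem curl_smul_ia {f : ℂ → ℂ} (hf : ContDiff ℝ ∞ f) (a : ℝ) (z : ℂ) :
    curl (fun z => (a : ℂ) * f z) z = a * curl f z := by
  have h1 : fderiv ℝ (fun z => (a : ℂ) * f z) z = (a : ℂ) • fderiv ℝ f z :=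
    fderiv_const_mul (hf.differentiable (by simp) z) (a : ℂ)
  unfold curl
  rw [h1]
  simp only [smul_apply, smul_eq_mul, Complex.im_ofReal_mul,
    Complex.re_ofReal_mul]
  ring

private theorem curl_rot_ia {f : ℂ → ℂ} (hf : ContDiff ℝ ∞ f) (ζ : ℂ) (hζ : ‖ζ‖ = 1) (z : ℂ) :
    curl (fun z => star ζ * f (ζ * z)) z = curl f (ζ * z) := by
  have h1 : HasFDerivAt (fun y : ℂ => ζ * y) (ζ • (ContinuousLinearMap.id ℝ ℂ)) z :=
    (hasFDerivAt_id z).const_mul ζ
  have h2 : HasFDerivAt (fun y => f (ζ * y)) ((fderiv ℝ f (ζ * z)).comp (ζ • (ContinuousLinearMap.id ℝ ℂ))) z :=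
    (hf.differentiable (by simp) (ζ * z)).hasFDerivAt.comp z h1
  have h3 : HasFDerivAt (fun y => star ζ * f (ζ * y))
      (star ζ • (fderiv ℝ f (ζ * z)).comp (ζ • (ContinuousLinearMap.id ℝ ℂ))) z :=
    h2.const_mul (star ζ)
  have h4 : ∀ v, fderiv ℝ (fun y => star ζ * f (ζ * y)) z v = star ζ * fderiv ℝ f (ζ * z) (ζ * v) := by
    intro v
    rw [h3.fderiv]
    simp
  have hn : ζ.re * ζ.re + ζ.im * ζ.im = 1 := by
    have := Complex.sq_norm ζ
    rw [hζ, Complex.normSq_apply] at this
    linarith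
  unfold curl
  rw [h4, h4, lin_ia (fderiv ℝ f (ζ * z)) (ζ * 1), lin_ia (fderiv ℝ f (ζ * z)) (ζ * Complex.I)]
  generalize fderiv ℝ f (ζ * z) 1 = u
  generalize fderiv ℝ f (ζ * z) Complex.I = v
  simp
  linear_combination (u.im - v.re) * hn

private theorem curl_star_ia {f : ℂ → ℂ} (hf : ContDiff ℝ ∞ f) (z : ℂ) :
    curl (fun z => ((-1 : ℝ) : ℂ) * star (f (star z))) z = curl f (star z) := by
  have h0 : ∀ y : ℂ, HasFDerivAt (fun y : ℂ => star y) ((Complex.conjCLE : ℂ ≃L[ℝ] ℂ) : ℂ →L[ℝ] ℂ) y :=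
    fun y => (Complex.conjCLE : ℂ ≃L[ℝ] ℂ).hasFDerivAt
  have h2 : HasFDerivAt (fun y => f (star y)) ((fderiv ℝ f (star z)).comp
      ((Complex.conjCLE : ℂ ≃L[ℝ] ℂ) : ℂ →L[ℝ] ℂ)) z :=
    (hf.differentiable (by simp) (star z)).hasFDerivAt.comp z (h0 z)
  have h3 := ((h0 (f (star z))).comp z h2).const_mul ((-1 : ℝ) : ℂ)
  have h4 : ∀ v, fderiv ℝ (fun y => ((-1 : ℝ) : ℂ) * star (f (star y))) z v =
      -star (fderiv ℝ f (star z) (star v)) := by
    intro v
    have h5 : fderiv ℝ (fun y => ((-1 : ℝ) : ℂ) * star (f (star y))) z = _ := h3.fderiv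
    rw [h5]
    simp
  unfold curl
  rw [h4, h4, lin_ia (fderiv ℝ f (star z)) (star 1), lin_ia (fderiv ℝ f (star z)) (star Complex.I)]
  generalize fderiv ℝ f (star z) 1 = u
  generalize fderiv ℝ f (star z) Complex.I = v
  simp

private theorem li_rot {c : Cf} {n : ℕ} (hc : c.Adm n) {f : ℂ → ℂ} (hf : ContDiff ℝ ∞ f) (z : ℂ) :
    li c (fun z => star (ze n) * f (ze n * z)) z = li c f (ze n * z) := by
  have hζ := norm_ze n
  have h1 : ze n * star (ze n) = 1 := by
    have := Complex.mul_conj (ze n)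
    rw [Complex.normSq_eq_norm_sq, hζ] at this
    simpa using this
  rw [li_eq, li_eq, curl_rot_ia hf _ hζ, hc.F_rot]
  congr 1
  have h2 : f (ze n * z) = ze n * (star (ze n) * f (ze n * z)) := by
    rw [← mul_assoc, h1, one_mul]
  conv_rhs => rw [h2]
  generalize star (ze n) * f (ze n * z) = v
  unfold Cf.j
  rw [hc.Dw_rot, hc.rw, star_mul]
  have h3 : star (c.w z) * star (ze n) * (ze n * c.Dw z v) = star (c.w z) * c.Dw z v := by
    linear_combination star (c.w z) * c.Dw z v * h1
  rw [h3]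

private theorem li_ref {c : Cf} {n : ℕ} (hc : c.Adm n) {f : ℂ → ℂ} (hf : ContDiff ℝ ∞ f) (z : ℂ) :
    li c (fun z => ((-1 : ℝ) : ℂ) * star (f (star z))) z = li c f (star z) := by
  rw [li_eq, li_eq, curl_star_ia hf, hc.F_star]
  congr 1
  have h2 : f (star z) = star (star (f (star z))) := (star_star _).symm
  conv_rhs => rw [h2]
  generalize star (f (star z)) = v
  unfold Cf.j
  rw [hc.Dw_star, hc.cw]
  have h3 : c.Dw z (((-1 : ℝ) : ℂ) * v) = -c.Dw z v := by
    unfold Cf.Dw
    have : fderiv ℝ c.w z (((-1 : ℝ) : ℂ) * v) = -fderiv ℝ c.w z v := by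
      have e : ((-1 : ℝ) : ℂ) * v = -v := by push_cast; ring
      rw [e, map_neg]
    rw [this]
    simp [ip]
    ring
  rw [h3, ← star_mul', Complex.star_def, Complex.conj_im]
  simp

theorem inv_LA {c : Cf} {n : ℕ} (hc : c.Adm n) : Inv n (-1) (LA c) := by
  refine ⟨?_, ?_, ?_, ?_⟩
  · intro f g hf hg
    rw [LA_eq, LA_eq, LA_eq, ← integral_add (li_int hc hf) (li_int hc hg)]
    refine integral_congr_ae (Filter.Eventually.of_forall fun z => ?_)
    show li c (fun z => f z + g z) z = li c f z + li c g z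
    unfold li
    rw [curl_add_ia hf.1 hg.1]
    simp only [Complex.add_re, Complex.add_im]
    ring
  · intro a f hf
    rw [LA_eq, LA_eq, ← integral_const_mul]
    refine integral_congr_ae (Filter.Eventually.of_forall fun z => ?_)
    show li c (fun z => (a : ℂ) * f z) z = a * li c f z
    unfold li
    rw [curl_smul_ia hf.1]
    simp only [Complex.im_ofReal_mul, Complex.re_ofReal_mul]
    ring
  · intro f hf
    rw [LA_eq, LA_eq]
    have hm : ze n ∈ Submonoid.unitSphere ℂ := mem_sphere_zero_iff_norm.2 (norm_ze n)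
    have h1 := (rotation (⟨ze n, hm⟩ : Circle)).measurePreserving.integral_comp
      (rotation (⟨ze n, hm⟩ : Circle)).toHomeomorph.measurableEmbedding (li c f)
    rw [← h1]
    refine integral_congr_ae (Filter.Eventually.of_forall fun z => ?_)
    exact li_rot hc hf.1 z
  · intro f hf
    rw [LA_eq, LA_eq]
    have h1 := (Complex.conjLIE).measurePreserving.integral_comp
      (Complex.conjLIE).toHomeomorph.measurableEmbedding (li c f)
    rw [← h1]
    refine integral_congr_ae (Filter.Eventually.of_forall fun z => ?_)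
    exact li_ref hc hf.1 z

end GO3
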