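import Pool.Agent.GO3.L.Defs
import Pool.Agent.GO3.Sym

/-! GO3 / L / Nrm: normalisation of a field does not increase the gradient energy if its norm is at least `1`.

PROOFS. `N = c.nm = √(‖w‖² + h²) ≥ 1` is smooth (`ContDiff.sqrt`), `N² = ‖w‖² + h²`. Let `D = c.Dw z v`,
`H = c.dh z v`, `ν = ∂_v N`. Differentiating `N² = ‖w‖² + h²`: `N ν = Re (conj w D) + h H` (the term
`- i ⟨A, v⟩ w` of `D` does not contribute: `Re (conj w (i s w)) = 0`). For the normalised field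
`D' = D / N - w ν / N²`, `H' = H / N - h ν / N²`, hence
`‖D'‖² + H'² = (‖D‖² + H²) / N² - 2 ν (Re (conj w D) + h H) / N³ + ν² (‖w‖² + h²) / N⁴
= (‖D‖² + H² - ν²) / N² ≤ ‖D‖² + H²`. -/

open MeasureTheory Filter Topology Set
open scoped ContDiff Real

noncomputable section

namespace GO3

variable {c : Cf}

theorem nm_smooth (hw : ContDiff ℝ ∞ c.w) (hh : ContDiff ℝ ∞ c.h)
    (h1 : ∀ z, 1 ≤ ‖c.w z‖ ^ 2 + c.h z ^ 2) : ContDiff ℝ ∞ c.nm := by
  unfold Cf.nm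
  exact ((hw.norm_sq ℝ).add (hh.pow 2)).sqrt fun z => (lt_of_lt_of_le one_pos (h1 z)).ne'

private theorem nm_pos (h1 : ∀ z, 1 ≤ ‖c.w z‖ ^ 2 + c.h z ^ 2) (z : ℂ) : 1 ≤ c.nm z := by
  unfold Cf.nm
  rw [Real.one_le_sqrt]
  exact h1 z

private theorem nm_sq (c : Cf) (z : ℂ) : c.nm z ^ 2 = ‖c.w z‖ ^ 2 + c.h z ^ 2 := by
  unfold Cf.nm
  exact Real.sq_sqrt (by positivity)

theorem nrm_smooth (hw : ContDiff ℝ ∞ c.w) (hh : ContDiff ℝ ∞ c.h)
    (h1 : ∀ z, 1 ≤ ‖c.w z‖ ^ 2 + c.h z ^ 2) : ContDiff ℝ ∞ c.nrm.w ∧ ContDiff ℝ ∞ c.nrm.h := by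
  have h2 : ContDiff ℝ ∞ fun z => 1 / c.nm z :=
    contDiff_const.div (nm_smooth hw hh h1) fun z => (lt_of_lt_of_le one_pos (nm_pos h1 z)).ne'
  exact ⟨(Complex.ofRealCLM.contDiff.comp h2).mul hw, h2.mul hh⟩

theorem nrm_unit (h1 : ∀ z, 1 ≤ ‖c.w z‖ ^ 2 + c.h z ^ 2) (z : ℂ) :
    ‖c.nrm.w z‖ ^ 2 + c.nrm.h z ^ 2 = 1 := by
  have h2 := nm_pos h1 z
  have h3 : 0 < c.nm z := lt_of_lt_of_le one_pos h2
  have h4 := nm_sq c z
  show ‖((1 / c.nm z : ℝ) : ℂ) * c.w z‖ ^ 2 + (1 / c.nm z * c.h z) ^ 2 = 1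
  rw [norm_mul, Complex.norm_real, Real.norm_eq_abs, abs_of_pos (one_div_pos.2 h3), mul_pow,
    mul_pow, ← mul_add, ← h4]
  field_simp

private theorem nrm_alg {N ν H h : ℝ} {D w : ℂ} (hN : 1 ≤ N) (hw : N ^ 2 = ‖w‖ ^ 2 + h ^ 2)
    (hν : N * ν = (star w * D).re + h * H) :
    ‖((1 / N : ℝ) : ℂ) * D + ((-(N ^ 2)⁻¹ * ν : ℝ) : ℂ) * w‖ ^ 2 +
      (1 / N * H + (-(N ^ 2)⁻¹ * ν) * h) ^ 2 ≤ ‖D‖ ^ 2 + H ^ 2 := by
  have hN0 : 0 < N := by linarith
  have e1 : ‖((1 / N : ℝ) : ℂ) * D + ((-(N ^ 2)⁻¹ * ν : ℝ) : ℂ) * w‖ ^ 2 =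
      (1 / N) ^ 2 * ‖D‖ ^ 2 + (-(N ^ 2)⁻¹ * ν) ^ 2 * ‖w‖ ^ 2 +
        2 * ((1 / N) * (-(N ^ 2)⁻¹ * ν)) * (star w * D).re := by
    rw [Complex.star_def]
    simp only [Complex.sq_norm, Complex.normSq_apply, Complex.add_re, Complex.add_im,
      Complex.mul_re, Complex.mul_im, Complex.ofReal_re, Complex.ofReal_im, Complex.conj_re,
      Complex.conj_im]
    ring
  have e2 : (star w * D).re = N * ν - h * H := by linarith
  have e3 : ‖w‖ ^ 2 = N ^ 2 - h ^ 2 := by linarith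
  rw [e1, e2, e3]
  have e4 : (1 / N) ^ 2 * ‖D‖ ^ 2 + (-(N ^ 2)⁻¹ * ν) ^ 2 * (N ^ 2 - h ^ 2) +
      2 * ((1 / N) * (-(N ^ 2)⁻¹ * ν)) * (N * ν - h * H) +
      (1 / N * H + (-(N ^ 2)⁻¹ * ν) * h) ^ 2 = (‖D‖ ^ 2 + H ^ 2 - ν ^ 2) / N ^ 2 := by
    field_simp
    ring
  rw [e4, div_le_iff₀ (by positivity)]
  have h5 : 1 ≤ N ^ 2 := by nlinarith
  have h6 : 0 ≤ ‖D‖ ^ 2 + H ^ 2 := by positivity
  nlinarith [sq_nonneg ν]

theorem nrm_nsq (hw : ContDiff ℝ ∞ c.w) (hh : ContDiff ℝ ∞ c.h)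
    (h1 : ∀ z, 1 ≤ ‖c.w z‖ ^ 2 + c.h z ^ 2) (z v : ℂ) : c.nrm.nsq z v ≤ c.nsq z v := by
  have hN := nm_pos h1 z
  have hN0 : c.nm z ≠ 0 := (lt_of_lt_of_le one_pos hN).ne'
  have dw : HasFDerivAt c.w (fderiv ℝ c.w z) z := (hw.differentiable (by simp) z).hasFDerivAt
  have dh : HasFDerivAt c.h (fderiv ℝ c.h z) z := (hh.differentiable (by simp) z).hasFDerivAt
  have dN : HasFDerivAt c.nm (fderiv ℝ c.nm z) z :=
    ((nm_smooth hw hh h1).differentiable (by simp) z).hasFDerivAt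
  -- the derivative of the norm
  have hν : c.nm z * fderiv ℝ c.nm z v =
      (star (c.w z) * fderiv ℝ c.w z v).re + c.h z * fderiv ℝ c.h z v := by
    have a1 : HasFDerivAt (fun z => c.nm z ^ 2) (2 • (c.nm z • fderiv ℝ c.nm z)) z := by
      have := dN.pow 2
      simpa [two_smul, add_smul, mul_comm, two_mul] using this
    have a2 : HasFDerivAt (fun z => ‖c.w z‖ ^ 2 + c.h z ^ 2)
        (2 • ((innerSL ℝ (c.w z)).comp (fderiv ℝ c.w z)) + 2 • (c.h z • fderiv ℝ c.h z)) z := by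
      have a3 := dw.norm_sq
      have a4 : HasFDerivAt (fun z => c.h z ^ 2) (2 • (c.h z • fderiv ℝ c.h z)) z := by
        have := dh.pow 2
        simpa [two_smul, add_smul, mul_comm, two_mul] using this
      exact a3.add a4
    have a5 : (fun z => c.nm z ^ 2) = fun z => ‖c.w z‖ ^ 2 + c.h z ^ 2 := by
      funext z
      exact nm_sq c z
    rw [a5] at a1
    have a6 := congrArg (fun L : ℂ →L[ℝ] ℝ => L v) (a1.unique a2)
    simp only [ContinuousLinearMap.smul_apply, ContinuousLinearMap.add_apply,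
      ContinuousLinearMap.comp_apply, innerSL_apply_apply, smul_eq_mul, nsmul_eq_mul] at a6
    rw [Complex.inner] at a6
    rw [Complex.star_def]
    push_cast at a6
    have a7 : ((starRingEnd ℂ) (c.w z) * fderiv ℝ c.w z v).re =
        (fderiv ℝ c.w z v * (starRingEnd ℂ) (c.w z)).re := by rw [mul_comm]
    linarith
  -- the derivative of the normalised fields
  have du : HasFDerivAt (fun z => 1 / c.nm z) ((-(c.nm z ^ 2)⁻¹) • fderiv ℝ c.nm z) z := by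
    have := (hasDerivAt_inv hN0).comp_hasFDerivAt z dN
    refine this.congr_of_eventuallyEq (Filter.Eventually.of_forall fun y => ?_)
    simp
  have dw' : fderiv ℝ c.nrm.w z v = ((1 / c.nm z : ℝ) : ℂ) * fderiv ℝ c.w z v +
      ((-(c.nm z ^ 2)⁻¹ * fderiv ℝ c.nm z v : ℝ) : ℂ) * c.w z := by
    have b1 := du.smul dw
    have b2 : HasFDerivAt c.nrm.w _ z := b1.congr_of_eventuallyEq
      (Filter.Eventually.of_forall fun y => by
        show ((1 / c.nm y : ℝ) : ℂ) * c.w y = (1 / c.nm y) • c.w y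
        rw [Complex.real_smul])
    rw [b2.fderiv]
    simp only [ContinuousLinearMap.add_apply, ContinuousLinearMap.smul_apply,
      ContinuousLinearMap.smulRight_apply, Complex.real_smul, smul_eq_mul]
  have dh' : fderiv ℝ c.nrm.h z v = 1 / c.nm z * fderiv ℝ c.h z v +
      (-(c.nm z ^ 2)⁻¹ * fderiv ℝ c.nm z v) * c.h z := by
    have b1 := du.smul dh
    have b2 : HasFDerivAt c.nrm.h _ z := b1.congr_of_eventuallyEq
      (Filter.Eventually.of_forall fun y => by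
        show 1 / c.nm y * c.h y = (1 / c.nm y) • c.h y
        rw [smul_eq_mul])
    rw [b2.fderiv]
    simp only [ContinuousLinearMap.add_apply, ContinuousLinearMap.smul_apply,
      ContinuousLinearMap.smulRight_apply, smul_eq_mul]
  have eD : c.nrm.Dw z v = ((1 / c.nm z : ℝ) : ℂ) * c.Dw z v +
      ((-(c.nm z ^ 2)⁻¹ * fderiv ℝ c.nm z v : ℝ) : ℂ) * c.w z := by
    unfold Cf.Dw
    rw [dw']
    show _ - Complex.I * (ip (c.A z) v : ℂ) * (((1 / c.nm z : ℝ) : ℂ) * c.w z) = _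
    ring
  have eH : c.nrm.dh z v = 1 / c.nm z * c.dh z v +
      (-(c.nm z ^ 2)⁻¹ * fderiv ℝ c.nm z v) * c.h z := dh'
  have hν' : c.nm z * fderiv ℝ c.nm z v = (star (c.w z) * c.Dw z v).re + c.h z * c.dh z v := by
    rw [hν]
    unfold Cf.Dw Cf.dh
    congr 1
    rw [mul_sub, Complex.sub_re]
    have : (star (c.w z) * (Complex.I * (ip (c.A z) v : ℂ) * c.w z)).re = 0 := by
      rw [Complex.star_def]
      simp only [Complex.mul_re, Complex.mul_im, Complex.I_re, Complex.I_im, Complex.ofReal_re,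
        Complex.ofReal_im, Complex.conj_re, Complex.conj_im]
      ring
    rw [this, sub_zero]
  unfold Cf.nsq
  rw [eD, eH]
  exact nrm_alg hN (nm_sq c z) hν'

end GO3
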