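import Pool.Agent.GO3.L.Avg1
import Pool.Agent.GO3.Pol
import Pool.Agent.Helper76.ES.ZeroV

/-! GO3 / L / Pot1: a potential for `F - ba ε F` (smoothness and curl).

`pot ε F z = (1 / (π ε²)) ∫_{y ∈ ball 0 ε} (i y) ∫_0^1 F (z - t y) dt dy` in polar coordinates
`y = ε s e^{2 π i x}` (`dy / (π ε²) = 2 s ds dx`).
PROOFS.
* `ba_polar`: `GO3.polar_ball` (for `f y = F (z - y)`, `q = 0`, `R = ε`), then `r = ε s`, `χ = 2 π x`
  (`intervalIntegral.integral_comp_mul_left`-type substitutions).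
* `pot_smooth`: real and imaginary part are iterated integrals over `[0,1]` of functions smooth in all variables
  jointly; `smooth_integral` (namespace and exact form: see `Pool.Agent.Helper76.ES.ZeroV`; it is for real
  functions, `ContDiffOn` on an open set, parameter space any normed space) three times: parameters `(z, s, x)`,
  `(z, s)`, `z`. The real part of an interval integral: `Complex.reCLM.intervalIntegral_comp_comm` or
  `intervalIntegral.integral_ofReal` after splitting `pu` into cosine and sine.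
* `pot_curl`: differentiate under the three integral signs (`intervalIntegral.hasDerivAt_integral_of_...` or
  `hasFDerivAt_integral_of_dominated_of_fderiv_le`, everything is continuous on compact sets). For fixed `y` the
  field `z ↦ (i y) g z`, `g z = ∫_0^1 F (z - t y) dt`, has curl `dg_z (y) = ∫_0^1 dF_{z - t y} (y) dt =
  F z - F (z - y)` (fundamental theorem; `i y = (-y₂, y₁)`, `curl ((i y) g) = y₁ ∂₁ g + y₂ ∂₂ g`).
  Then average with `2 s ds dx` (total mass `1`) and use `ba_polar`. -/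

open MeasureTheory Filter Topology Set
open scoped ContDiff Real

noncomputable section

namespace GO3

/-- `s e^{2 π i x}` -/
def pu (s x : ℝ) : ℂ := s * Complex.exp (2 * π * x * Complex.I)

/-- the potential -/
def pot (ε : ℝ) (F : ℂ → ℝ) (z : ℂ) : ℂ := ∫ s in (0 : ℝ)..1, ∫ x in (0 : ℝ)..1,
  ∫ t in (0 : ℝ)..1, ((2 * s * F (z - ((t * ε : ℝ) : ℂ) * pu s x) : ℝ) : ℂ) *
    (Complex.I * (ε : ℂ) * pu s x)

private theorem pu_eq (s x : ℝ) : pu s x = pt s (2 * π * x) := by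
  unfold pu pt
  push_cast
  rfl

private theorem contDiff_pu : ContDiff ℝ ∞ fun q : ℝ × ℝ => pu q.1 q.2 := by
  have h : (fun q : ℝ × ℝ => pu q.1 q.2) = (fun q : ℝ × ℝ => pt q.1 q.2) ∘
      (fun q : ℝ × ℝ => (q.1, 2 * π * q.2)) := by
    funext q
    simp only [Function.comp, pu_eq]
  rw [h]
  exact contDiff_pt.comp (contDiff_fst.prodMk (contDiff_const.mul contDiff_snd))

theorem ba_polar {F : ℂ → ℝ} (hF : Continuous F) {ε : ℝ} (hε : 0 < ε) (z : ℂ) :
    ba ε F z = ∫ s in (0 : ℝ)..1, ∫ x in (0 : ℝ)..1, 2 * s * F (z - (ε : ℂ) * pu s x) := by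
  have h1 := polar_ball (fun y => F (z - y)) (hF.comp (continuous_const.sub continuous_id)) 0 hε.le
  unfold ba
  rw [h1, smul_eq_mul]
  have h2 := intervalIntegral.integral_comp_mul_left
    (f := fun r : ℝ => r * ∫ χ in (0 : ℝ)..2 * π, F (z - (0 + pt r χ))) (a := 0) (b := 1) hε.ne'
  rw [mul_zero, mul_one, smul_eq_mul] at h2
  have h3 : ∫ r in (0 : ℝ)..ε, r * ∫ χ in (0 : ℝ)..2 * π, F (z - (0 + pt r χ)) =
      ε * ∫ s in (0 : ℝ)..1, ε * s * ∫ χ in (0 : ℝ)..2 * π, F (z - (0 + pt (ε * s) χ)) := by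
    rw [h2]
    field_simp
  rw [h3, ← mul_assoc, ← intervalIntegral.integral_const_mul]
  refine intervalIntegral.integral_congr (fun s _ => ?_)
  have h4 := intervalIntegral.integral_comp_mul_left
    (f := fun χ : ℝ => F (z - (0 + pt (ε * s) χ))) (a := 0) (b := 1) (c := 2 * π) (by positivity)
  rw [mul_zero, mul_one, smul_eq_mul] at h4
  have h5 : ∫ χ in (0 : ℝ)..2 * π, F (z - (0 + pt (ε * s) χ)) =
      2 * π * ∫ x in (0 : ℝ)..1, F (z - (0 + pt (ε * s) (2 * π * x))) := by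
    rw [h4]
    have := Real.pi_pos
    field_simp
  rw [h5, intervalIntegral.integral_const_mul]
  have h6 : (fun x : ℝ => F (z - (0 + pt (ε * s) (2 * π * x)))) =
      fun x : ℝ => F (z - (ε : ℂ) * pu s x) := by
    funext x
    congr 2
    rw [pu_eq, pt, pt, zero_add]
    push_cast
    ring
  rw [h6]
  have := Real.pi_pos
  field_simp

section ker

variable {P : Type} [NormedAddCommGroup P] [NormedSpace ℝ P]

private theorem p1_smooth {h : P × ℝ → ℝ} (hh : ContDiff ℝ ∞ h) :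
    ContDiff ℝ ∞ (fun p => ∫ t in (0 : ℝ)..1, h (p, t)) :=
  contDiffOn_univ.1 (Pool.Agent.Helper76.ES.ZeroV.smooth_integral (s := (univ : Set P))
    (h := fun p t => h (p, t)) isOpen_univ hh.contDiffOn)

private theorem p1_deriv {h : P × ℝ → ℝ} (hh : ContDiff ℝ ∞ h) (p v : P) :
    fderiv ℝ (fun p => ∫ t in (0 : ℝ)..1, h (p, t)) p v =
      ∫ t in (0 : ℝ)..1, fderiv ℝ h (p, t) (v, 0) :=
  Pool.Agent.Helper76.ES.ZeroV.deriv_integral (s := (univ : Set P))
    (h := fun p t => h (p, t)) isOpen_univ hh.contDiffOn (mem_univ p) v (fun _ => rfl)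

end ker

/-- the real kernel -/
private def kr (ε : ℝ) (F : ℂ → ℝ) (k : ℝ → ℝ → ℝ) (q : ((ℂ × ℝ) × ℝ) × ℝ) : ℝ :=
  2 * q.1.1.2 * F (q.1.1.1 - ((q.2 * ε : ℝ) : ℂ) * pu q.1.1.2 q.1.2) * k q.1.1.2 q.1.2

private theorem kr_smooth {F : ℂ → ℝ} (hF : ContDiff ℝ ∞ F) (ε : ℝ) {k : ℝ → ℝ → ℝ}
    (hk : ContDiff ℝ ∞ fun q : ℝ × ℝ => k q.1 q.2) : ContDiff ℝ ∞ (kr ε F k) := by
  have hs : ContDiff ℝ ∞ fun q : ((ℂ × ℝ) × ℝ) × ℝ => q.1.1.2 :=
    contDiff_snd.comp (contDiff_fst.comp contDiff_fst)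
  have hz : ContDiff ℝ ∞ fun q : ((ℂ × ℝ) × ℝ) × ℝ => q.1.1.1 :=
    contDiff_fst.comp (contDiff_fst.comp contDiff_fst)
  have hx : ContDiff ℝ ∞ fun q : ((ℂ × ℝ) × ℝ) × ℝ => q.1.2 := contDiff_snd.comp contDiff_fst
  have hsx : ContDiff ℝ ∞ fun q : ((ℂ × ℝ) × ℝ) × ℝ => (q.1.1.2, q.1.2) := hs.prodMk hx
  have hp : ContDiff ℝ ∞ fun q : ((ℂ × ℝ) × ℝ) × ℝ => pu q.1.1.2 q.1.2 := contDiff_pu.comp hsx
  have hk' : ContDiff ℝ ∞ fun q : ((ℂ × ℝ) × ℝ) × ℝ => k q.1.1.2 q.1.2 := hk.comp hsx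
  have ht : ContDiff ℝ ∞ fun q : ((ℂ × ℝ) × ℝ) × ℝ => ((q.2 * ε : ℝ) : ℂ) :=
    Complex.ofRealCLM.contDiff.comp (contDiff_snd.mul contDiff_const)
  exact ((contDiff_const.mul hs).mul (hF.comp (hz.sub (ht.mul hp)))).mul hk'

/-- the real triple integral -/
private def Gr (ε : ℝ) (F : ℂ → ℝ) (k : ℝ → ℝ → ℝ) (z : ℂ) : ℝ :=
  ∫ s in (0 : ℝ)..1, ∫ x in (0 : ℝ)..1, ∫ t in (0 : ℝ)..1, kr ε F k (((z, s), x), t)

private theorem Gr_smooth {F : ℂ → ℝ} (hF : ContDiff ℝ ∞ F) (ε : ℝ) {k : ℝ → ℝ → ℝ}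
    (hk : ContDiff ℝ ∞ fun q : ℝ × ℝ => k q.1 q.2) : ContDiff ℝ ∞ (Gr ε F k) :=
  p1_smooth (p1_smooth (p1_smooth (kr_smooth hF ε hk)))

private theorem kr_deriv {F : ℂ → ℝ} (hF : ContDiff ℝ ∞ F) (ε : ℝ) {k : ℝ → ℝ → ℝ}
    (hk : ContDiff ℝ ∞ fun q : ℝ × ℝ => k q.1 q.2) (z v : ℂ) (s x t : ℝ) :
    fderiv ℝ (kr ε F k) (((z, s), x), t) (((v, 0), 0), 0) =
      2 * s * fderiv ℝ F (z - ((t * ε : ℝ) : ℂ) * pu s x) v * k s x := by
  refine Pool.Agent.Helper76.ES.ZeroV.dv_of_hasDerivAt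
    ((kr_smooth hF ε hk).differentiable (by simp) _) ?_
  have h0 : HasDerivAt (fun r : ℝ => z - ((t * ε : ℝ) : ℂ) * pu s x + r • v) v 0 := by
    have := ((hasDerivAt_id (0 : ℝ)).smul_const v).const_add (z - ((t * ε : ℝ) : ℂ) * pu s x)
    simpa using this
  have h1 : HasFDerivAt F (fderiv ℝ F (z - ((t * ε : ℝ) : ℂ) * pu s x))
      (z - ((t * ε : ℝ) : ℂ) * pu s x + (0 : ℝ) • v) := by
    rw [zero_smul, add_zero]
    exact (hF.differentiable (by simp) _).hasFDerivAt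
  have h2 := ((h1.comp_hasDerivAt (0 : ℝ) h0).const_mul (2 * s)).mul_const (k s x)
  refine h2.congr_of_eventuallyEq (Filter.Eventually.of_forall (fun r => ?_))
  simp only [kr, Function.comp, Prod.smul_mk, Prod.mk_add_mk, smul_zero, add_zero]
  congr 3
  ring

private theorem Gr_deriv {F : ℂ → ℝ} (hF : ContDiff ℝ ∞ F) (ε : ℝ) {k : ℝ → ℝ → ℝ}
    (hk : ContDiff ℝ ∞ fun q : ℝ × ℝ => k q.1 q.2) (z v : ℂ) :
    fderiv ℝ (Gr ε F k) z v = ∫ s in (0 : ℝ)..1, ∫ x in (0 : ℝ)..1, ∫ t in (0 : ℝ)..1,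
      2 * s * fderiv ℝ F (z - ((t * ε : ℝ) : ℂ) * pu s x) v * k s x := by
  have h3 := kr_smooth hF ε hk
  have h2 := p1_smooth h3
  have h1 := p1_smooth h2
  have e1 := p1_deriv h1 z v
  refine e1.trans (intervalIntegral.integral_congr (fun s _ => ?_))
  have e2 := p1_deriv h2 (z, s) (v, 0)
  refine e2.trans (intervalIntegral.integral_congr (fun x _ => ?_))
  have e3 := p1_deriv h3 ((z, s), x) ((v, 0), 0)
  refine e3.trans (intervalIntegral.integral_congr (fun t _ => ?_))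
  exact kr_deriv hF ε hk z v s x t

private theorem int_ri {u v : ℝ → ℝ} (hu : Continuous u) (hv : Continuous v) :
    ∫ t in (0 : ℝ)..1, ((u t : ℂ) + (v t : ℂ) * Complex.I) =
      ((∫ t in (0 : ℝ)..1, u t : ℝ) : ℂ) + ((∫ t in (0 : ℝ)..1, v t : ℝ) : ℂ) * Complex.I := by
  have hu' : Continuous fun t => (u t : ℂ) := Complex.continuous_ofReal.comp hu
  have hv' : Continuous fun t => (v t : ℂ) * Complex.I :=
    (Complex.continuous_ofReal.comp hv).mul continuous_const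
  rw [intervalIntegral.integral_add (hu'.intervalIntegrable _ _)
    (hv'.intervalIntegrable _ _), intervalIntegral.integral_mul_const,
    intervalIntegral.integral_ofReal, intervalIntegral.integral_ofReal]

/-- the two real kernels -/
private def k1 (ε s x : ℝ) : ℝ := (Complex.I * (ε : ℂ) * pu s x).re
private def k2 (ε s x : ℝ) : ℝ := (Complex.I * (ε : ℂ) * pu s x).im

private theorem k1_smooth (ε : ℝ) : ContDiff ℝ ∞ fun q : ℝ × ℝ => k1 ε q.1 q.2 :=
  Complex.reCLM.contDiff.comp (contDiff_const.mul contDiff_pu)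

private theorem k2_smooth (ε : ℝ) : ContDiff ℝ ∞ fun q : ℝ × ℝ => k2 ε q.1 q.2 :=
  Complex.imCLM.contDiff.comp (contDiff_const.mul contDiff_pu)

private theorem pot_eq {F : ℂ → ℝ} (hF : ContDiff ℝ ∞ F) (ε : ℝ) (z : ℂ) :
    pot ε F z = (Gr ε F (k1 ε) z : ℂ) + (Gr ε F (k2 ε) z : ℂ) * Complex.I := by
  have h3 := kr_smooth hF ε (k1_smooth ε)
  have h2 := p1_smooth h3
  have h1 := p1_smooth h2
  have g3 := kr_smooth hF ε (k2_smooth ε)
  have g2 := p1_smooth g3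
  have g1 := p1_smooth g2
  refine Eq.trans (intervalIntegral.integral_congr (fun s _ => ?_))
    (int_ri (u := fun s => ∫ x in (0 : ℝ)..1, ∫ t in (0 : ℝ)..1, kr ε F (k1 ε) (((z, s), x), t))
      (v := fun s => ∫ x in (0 : ℝ)..1, ∫ t in (0 : ℝ)..1, kr ε F (k2 ε) (((z, s), x), t))
      (h1.continuous.comp (Continuous.prodMk_right z))
      (g1.continuous.comp (Continuous.prodMk_right z)))
  refine Eq.trans (intervalIntegral.integral_congr (fun x _ => ?_))
    (int_ri (u := fun x => ∫ t in (0 : ℝ)..1, kr ε F (k1 ε) (((z, s), x), t))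
      (v := fun x => ∫ t in (0 : ℝ)..1, kr ε F (k2 ε) (((z, s), x), t))
      (h2.continuous.comp (Continuous.prodMk_right (z, s)))
      (g2.continuous.comp (Continuous.prodMk_right (z, s))))
  refine Eq.trans (intervalIntegral.integral_congr (fun t _ => ?_))
    (int_ri (u := fun t => kr ε F (k1 ε) (((z, s), x), t))
      (v := fun t => kr ε F (k2 ε) (((z, s), x), t))
      (h3.continuous.comp (Continuous.prodMk_right ((z, s), x)))
      (g3.continuous.comp (Continuous.prodMk_right ((z, s), x))))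
  simp only [kr, k1, k2]
  apply Complex.ext
  · simp [Complex.mul_re]
  · simp [Complex.mul_im]

theorem pot_smooth {F : ℂ → ℝ} (hF : ContDiff ℝ ∞ F) (ε : ℝ) : ContDiff ℝ ∞ (pot ε F) := by
  have h : pot ε F = fun z => (Gr ε F (k1 ε) z : ℂ) + (Gr ε F (k2 ε) z : ℂ) * Complex.I := by
    funext z
    exact pot_eq hF ε z
  rw [h]
  exact (Complex.ofRealCLM.contDiff.comp (Gr_smooth hF ε (k1_smooth ε))).add
    ((Complex.ofRealCLM.contDiff.comp (Gr_smooth hF ε (k2_smooth ε))).mul contDiff_const)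

private theorem int2_sub {Φ Ψ : ℝ × ℝ → ℝ} (hΦ : Continuous Φ) (hΨ : Continuous Ψ) :
    (∫ s in (0 : ℝ)..1, ∫ x in (0 : ℝ)..1, Φ (s, x)) - (∫ s in (0 : ℝ)..1, ∫ x in (0 : ℝ)..1,
      Ψ (s, x)) = ∫ s in (0 : ℝ)..1, ∫ x in (0 : ℝ)..1, (Φ (s, x) - Ψ (s, x)) := by
  have h1 : Continuous fun s => ∫ x in (0 : ℝ)..1, Φ (s, x) :=
    intervalIntegral.continuous_parametric_intervalIntegral_of_continuous'
      (f := fun s x => Φ (s, x)) hΦ 0 1
  have h2 : Continuous fun s => ∫ x in (0 : ℝ)..1, Ψ (s, x) :=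
    intervalIntegral.continuous_parametric_intervalIntegral_of_continuous'
      (f := fun s x => Ψ (s, x)) hΨ 0 1
  rw [← intervalIntegral.integral_sub (h1.intervalIntegrable _ _) (h2.intervalIntegrable _ _)]
  refine intervalIntegral.integral_congr (fun s _ => ?_)
  exact (intervalIntegral.integral_sub
    ((hΦ.comp (Continuous.prodMk_right s)).intervalIntegrable _ _)
    ((hΨ.comp (Continuous.prodMk_right s)).intervalIntegrable _ _)).symm

private theorem cont3 {F : ℂ → ℝ} (hF : ContDiff ℝ ∞ F) (ε : ℝ) {k : ℝ → ℝ → ℝ}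
    (hk : ContDiff ℝ ∞ fun q : ℝ × ℝ => k q.1 q.2) (z v : ℂ) :
    Continuous fun q : (ℝ × ℝ) × ℝ =>
      2 * q.1.1 * fderiv ℝ F (z - ((q.2 * ε : ℝ) : ℂ) * pu q.1.1 q.1.2) v * k q.1.1 q.1.2 := by
  have h1 : Continuous fun w : ℂ => fderiv ℝ F w v :=
    (hF.continuous_fderiv (by simp)).clm_apply continuous_const
  have h2 : Continuous fun q : (ℝ × ℝ) × ℝ => pu q.1.1 q.1.2 :=
    contDiff_pu.continuous.comp continuous_fst
  have h3 : Continuous fun q : (ℝ × ℝ) × ℝ => k q.1.1 q.1.2 :=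
    hk.continuous.comp continuous_fst
  have h4 : Continuous fun q : (ℝ × ℝ) × ℝ => ((q.2 * ε : ℝ) : ℂ) :=
    Complex.continuous_ofReal.comp (continuous_snd.mul continuous_const)
  have h5 : Continuous fun q : (ℝ × ℝ) × ℝ =>
      fderiv ℝ F (z - ((q.2 * ε : ℝ) : ℂ) * pu q.1.1 q.1.2) v :=
    h1.comp (continuous_const.sub (h4.mul h2))
  exact ((continuous_const.mul (continuous_fst.comp continuous_fst)).mul h5).mul h3

private theorem cont2 {F : ℂ → ℝ} (hF : ContDiff ℝ ∞ F) (ε : ℝ) {k : ℝ → ℝ → ℝ}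
    (hk : ContDiff ℝ ∞ fun q : ℝ × ℝ => k q.1 q.2) (z v : ℂ) :
    Continuous fun q : ℝ × ℝ => ∫ t in (0 : ℝ)..1,
      2 * q.1 * fderiv ℝ F (z - ((t * ε : ℝ) : ℂ) * pu q.1 q.2) v * k q.1 q.2 :=
  intervalIntegral.continuous_parametric_intervalIntegral_of_continuous'
    (f := fun (q : ℝ × ℝ) t =>
      2 * q.1 * fderiv ℝ F (z - ((t * ε : ℝ) : ℂ) * pu q.1 q.2) v * k q.1 q.2)
    (cont3 hF ε hk z v) 0 1

private theorem ftc {F : ℂ → ℝ} (hF : ContDiff ℝ ∞ F) (ε : ℝ) (z : ℂ) (s x : ℝ) :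
    ∫ t in (0 : ℝ)..1, fderiv ℝ F (z - ((t * ε : ℝ) : ℂ) * pu s x) ((ε : ℂ) * pu s x) =
      F z - F (z - (ε : ℂ) * pu s x) := by
  have hd : ∀ t : ℝ, HasDerivAt (fun t : ℝ => - F (z - ((t * ε : ℝ) : ℂ) * pu s x))
      (fderiv ℝ F (z - ((t * ε : ℝ) : ℂ) * pu s x) ((ε : ℂ) * pu s x)) t := by
    intro t
    have h0 : HasDerivAt (fun t : ℝ => z - ((t * ε : ℝ) : ℂ) * pu s x) (-((ε : ℂ) * pu s x)) t := by
      have a1 : HasDerivAt (fun t : ℝ => t * ε) ε t := by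
        simpa using (hasDerivAt_id t).mul_const ε
      have a2 : HasDerivAt (fun t : ℝ => ((t * ε : ℝ) : ℂ)) (ε : ℂ) t := a1.ofReal_comp
      have a3 := (a2.mul_const (pu s x)).const_sub z
      exact a3
    have h1 : HasFDerivAt F (fderiv ℝ F (z - ((t * ε : ℝ) : ℂ) * pu s x))
        (z - ((t * ε : ℝ) : ℂ) * pu s x) := (hF.differentiable (by simp) _).hasFDerivAt
    have h2 := (h1.comp_hasDerivAt t h0).neg
    rw [map_neg, neg_neg] at h2
    exact h2
  have hc : Continuous fun t : ℝ =>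
      fderiv ℝ F (z - ((t * ε : ℝ) : ℂ) * pu s x) ((ε : ℂ) * pu s x) := by
    have h1 : Continuous fun w : ℂ => fderiv ℝ F w ((ε : ℂ) * pu s x) :=
      (hF.continuous_fderiv (by simp)).clm_apply continuous_const
    have h4 : Continuous fun t : ℝ => ((t * ε : ℝ) : ℂ) :=
      Complex.continuous_ofReal.comp (continuous_id.mul continuous_const)
    exact h1.comp (continuous_const.sub (h4.mul continuous_const))
  rw [intervalIntegral.integral_eq_sub_of_hasDerivAt (fun t _ => hd t) (hc.intervalIntegrable _ _)]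
  simp only [zero_mul, one_mul, Complex.ofReal_zero, sub_zero]
  ring

theorem pot_curl {F : ℂ → ℝ} (hF : ContDiff ℝ ∞ F) {ε : ℝ} (hε : 0 < ε) (z : ℂ) :
    curl (pot ε F) z = F z - ba ε F z := by
  have hg1 := Gr_smooth hF ε (k1_smooth ε)
  have hg2 := Gr_smooth hF ε (k2_smooth ε)
  have h : pot ε F = fun z => (Gr ε F (k1 ε) z : ℂ) + (Gr ε F (k2 ε) z : ℂ) * Complex.I := by
    funext z
    exact pot_eq hF ε z
  have hd : ∀ v, fderiv ℝ (pot ε F) z v = ((fderiv ℝ (Gr ε F (k1 ε)) z v : ℝ) : ℂ) +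
      ((fderiv ℝ (Gr ε F (k2 ε)) z v : ℝ) : ℂ) * Complex.I := by
    intro v
    have a1 : HasFDerivAt (Gr ε F (k1 ε)) (fderiv ℝ (Gr ε F (k1 ε)) z) z :=
      (hg1.differentiable (by simp) z).hasFDerivAt
    have a2 : HasFDerivAt (Gr ε F (k2 ε)) (fderiv ℝ (Gr ε F (k2 ε)) z) z :=
      (hg2.differentiable (by simp) z).hasFDerivAt
    have b3 := (Complex.equivRealProdCLM.symm : ℝ × ℝ →L[ℝ] ℂ).hasFDerivAt.comp z (a1.prodMk a2)
    have b4 : pot ε F = (fun q => (Complex.equivRealProdCLM.symm : ℝ × ℝ →L[ℝ] ℂ) q) ∘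
        (fun z => (Gr ε F (k1 ε) z, Gr ε F (k2 ε) z)) := by
      rw [h]
      funext w
      apply Complex.ext <;> simp
    have b5 := b3.fderiv
    rw [← b4] at b5
    rw [b5]
    apply Complex.ext <;> simp
  have hc : curl (pot ε F) z = fderiv ℝ (Gr ε F (k2 ε)) z 1 -
      fderiv ℝ (Gr ε F (k1 ε)) z Complex.I := by
    unfold curl
    rw [hd, hd]
    simp
  rw [hc, Gr_deriv hF ε (k2_smooth ε), Gr_deriv hF ε (k1_smooth ε)]
  refine (int2_sub (cont2 hF ε (k2_smooth ε) z 1) (cont2 hF ε (k1_smooth ε) z Complex.I)).trans ?_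
  have hpt : ∀ s x : ℝ, (∫ t in (0 : ℝ)..1,
      2 * s * fderiv ℝ F (z - ((t * ε : ℝ) : ℂ) * pu s x) 1 * k2 ε s x) -
      (∫ t in (0 : ℝ)..1,
      2 * s * fderiv ℝ F (z - ((t * ε : ℝ) : ℂ) * pu s x) Complex.I * k1 ε s x) =
      2 * s * F z - 2 * s * F (z - (ε : ℂ) * pu s x) := by
    intro s x
    have c1 : Continuous fun t : ℝ =>
        2 * s * fderiv ℝ F (z - ((t * ε : ℝ) : ℂ) * pu s x) 1 * k2 ε s x :=
      (cont3 hF ε (k2_smooth ε) z 1).comp (Continuous.prodMk_right (s, x))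
    have c2 : Continuous fun t : ℝ =>
        2 * s * fderiv ℝ F (z - ((t * ε : ℝ) : ℂ) * pu s x) Complex.I * k1 ε s x :=
      (cont3 hF ε (k1_smooth ε) z Complex.I).comp (Continuous.prodMk_right (s, x))
    rw [← intervalIntegral.integral_sub (c1.intervalIntegrable _ _) (c2.intervalIntegrable _ _),
      ← mul_sub, ← ftc hF ε z s x, ← intervalIntegral.integral_const_mul]
    refine intervalIntegral.integral_congr (fun t _ => ?_)
    have hy : (ε : ℂ) * pu s x = (k2 ε s x) • (1 : ℂ) - (k1 ε s x) • Complex.I := by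
      apply Complex.ext
      · simp [k1, k2]
      · simp [k1, k2]
    rw [hy, map_sub, map_smul, map_smul, smul_eq_mul, smul_eq_mul]
    ring
  have hcF : Continuous fun q : ℝ × ℝ => 2 * q.1 * F z :=
    (continuous_const.mul continuous_fst).mul continuous_const
  have hcG : Continuous fun q : ℝ × ℝ => 2 * q.1 * F (z - (ε : ℂ) * pu q.1 q.2) :=
    (continuous_const.mul continuous_fst).mul (hF.continuous.comp
      (continuous_const.sub (continuous_const.mul contDiff_pu.continuous)))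
  have e1 : ∫ s in (0 : ℝ)..1, ∫ x in (0 : ℝ)..1, ((∫ t in (0 : ℝ)..1,
      2 * s * fderiv ℝ F (z - ((t * ε : ℝ) : ℂ) * pu s x) 1 * k2 ε s x) -
      (∫ t in (0 : ℝ)..1,
      2 * s * fderiv ℝ F (z - ((t * ε : ℝ) : ℂ) * pu s x) Complex.I * k1 ε s x)) =
      ∫ s in (0 : ℝ)..1, ∫ x in (0 : ℝ)..1,
        (2 * s * F z - 2 * s * F (z - (ε : ℂ) * pu s x)) := by
    refine intervalIntegral.integral_congr (fun s _ => ?_)
    refine intervalIntegral.integral_congr (fun x _ => ?_)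
    exact hpt s x
  refine e1.trans ?_
  refine (int2_sub hcF hcG).symm.trans ?_
  rw [ba_polar hF.continuous hε z]
  congr 1
  have e2 : ∀ s : ℝ, ∫ _x in (0 : ℝ)..1, 2 * s * F z = 2 * s * F z := by
    intro s
    simp
  simp only [e2]
  have e3 : (fun s : ℝ => 2 * s * F z) = fun s : ℝ => (2 * F z) * s := by
    funext s
    ring
  rw [e3, intervalIntegral.integral_const_mul, integral_id]
  ring

end GO3
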