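import Pool.Agent.GO3.L.Wk

/-! GO3 / L / Str: strong convergence, multipliers, products of weak and strong sequences.

PROOFS. All functions are in `L²(S)`; Cauchy-Schwarz in the form
`‖∫_S f g‖² ≤ (∫_S ‖f‖²) (∫_S ‖g‖²)` (`csq` below; from `integral_mul_le_Lp_mul_Lq_of_nonneg` with
`p = q = 2`, or from `0 ≤ ∫ (s ‖f‖ - ‖g‖ / s)²`).
* `Ws.mono`, `Ss.mono`, `Ws.comp`, `Ss.comp`: immediate (`Measure.restrict_mono`,
  `StrictMono.tendsto_atTop`, `setIntegral_mono_set`).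
* `Ss.re`, `Ss.im`: `|re x - re y| ≤ ‖x - y‖`. `Ss.int`: Cauchy-Schwarz with `g = 1`. `Ws.add`: `integral_add`.
* `Ss.sub`: `‖(u - u') - (v - v')‖² ≤ 2 ‖u - v‖² + 2 ‖u' - v'‖²`. `Ws.sub`: `integral_sub`.
* `Ss.ws`: `|∫ (u k - v) g| = |∫_S (u k - v) g| ≤ (∫_S ‖u k - v‖²)^{1/2} (∫ ‖g‖²)^{1/2}`.
* `Ss.of_approx`: given `e`, take `s, t`. `u - s ⇀ v - t` in `Ws S` (`Ws.sub`, `Ss.ws`), so `lsc` with `m = 1`,
  `M = e` (error sequence `0`) gives `∫_S ‖v - t‖² ≤ e`. Then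
  `∫_S ‖u k - v‖² ≤ 3 (∫_S ‖u k - s k‖² + ∫_S ‖s k - t‖² + ∫_S ‖t - v‖²) ≤ 7 e` eventually.
* `Ws.pair`: `∫_S u k a k - ∫_S v b = ∫_S u k (a k - b) + (∫ u k g - ∫ v g)`, `g = S.indicator b`.
* `Ss.mul`: `‖m k a k - m₀ b‖² ≤ 2 M² ‖a k - b‖² + 2 ‖m k - m₀‖² ‖b‖²`, `‖m₀‖ ≤ M` a.e.; the second part tends
  to `0` by dominated convergence (bound `8 M² ‖b‖²`).
* `Ws.mul`: for the test `g`: `∫ m k u k g = ∫_S u k (m k g)`; `m k g → m₀ g` strongly (`Ss.mul` with the constant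
  sequence `g`), then `Ws.pair`.
* `Ss.of_ae`: dominated convergence on a set of finite measure. -/

open MeasureTheory Filter Topology Set
open scoped ContDiff Real

noncomputable section

namespace GO3

variable {S T : Set ℂ} {u u' a m : ℕ → ℂ → ℂ} {v v' b m₀ : ℂ → ℂ} {φ : ℕ → ℕ}

private theorem sqi42 {f : ℂ → ℂ} (hf : MemLp f 2 (volume.restrict S)) :
    Integrable (fun z => ‖f z‖ ^ 2) (volume.restrict S) :=
  (memLp_two_iff_integrable_sq_norm hf.1).mp hf

private theorem mul42 {f g : ℂ → ℂ} (hf : MemLp f 2 (volume.restrict S))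
    (hg : MemLp g 2 (volume.restrict S)) : Integrable (fun z => f z * g z) (volume.restrict S) :=
  hf.integrable_mul hg

private theorem sq0_42 (f : ℂ → ℂ) : 0 ≤ ∫ z in S, ‖f z‖ ^ 2 :=
  integral_nonneg (fun _ => sq_nonneg _)

theorem csq {f g : ℂ → ℂ} (hf : MemLp f 2 (volume.restrict S)) (hg : MemLp g 2 (volume.restrict S)) :
    ‖∫ z in S, f z * g z‖ ^ 2 ≤ (∫ z in S, ‖f z‖ ^ 2) * ∫ z in S, ‖g z‖ ^ 2 := by
  have hf' : MemLp f (ENNReal.ofReal 2) (volume.restrict S) := by simpa using hf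
  have hg' : MemLp g (ENNReal.ofReal 2) (volume.restrict S) := by simpa using hg
  have h1 := integral_mul_norm_le_Lp_mul_Lq Real.HolderConjugate.two_two hf' hg'
  simp only [Real.rpow_two] at h1
  rw [← Real.sqrt_eq_rpow, ← Real.sqrt_eq_rpow] at h1
  have h2 : ‖∫ z in S, f z * g z‖ ≤ ∫ z in S, ‖f z‖ * ‖g z‖ := by
    refine (norm_integral_le_integral_norm _).trans (le_of_eq ?_)
    simp only [norm_mul]
  calc ‖∫ z in S, f z * g z‖ ^ 2
      ≤ (√(∫ z in S, ‖f z‖ ^ 2) * √(∫ z in S, ‖g z‖ ^ 2)) ^ 2 :=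
        pow_le_pow_left₀ (norm_nonneg _) (h2.trans h1) 2
    _ = (∫ z in S, ‖f z‖ ^ 2) * ∫ z in S, ‖g z‖ ^ 2 := by
        rw [mul_pow, Real.sq_sqrt (sq0_42 _), Real.sq_sqrt (sq0_42 _)]

private theorem tnd42 {x : ℕ → ℂ} {y : ℂ} {e : ℕ → ℝ} (he : Tendsto e atTop (𝓝 0))
    (h : ∀ k, ‖x k - y‖ ^ 2 ≤ e k) : Tendsto x atTop (𝓝 y) := by
  rw [tendsto_iff_norm_sub_tendsto_zero]
  have h1 : Tendsto (fun k => √(e k)) atTop (𝓝 0) := by
    have := (Real.continuous_sqrt.tendsto 0).comp he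
    rw [Real.sqrt_zero] at this
    exact this
  refine squeeze_zero (fun k => norm_nonneg _) (fun k => ?_) h1
  rw [← Real.sqrt_sq (norm_nonneg (x k - y))]
  exact Real.sqrt_le_sqrt (h k)

private theorem test42 {w g : ℂ → ℂ} (hg0 : ∀ z, z ∉ S → g z = 0) :
    ∫ z, w z * g z = ∫ z in S, w z * g z := by
  symm
  refine setIntegral_eq_integral_of_forall_compl_eq_zero (fun z hz => ?_)
  rw [hg0 z hz, mul_zero]

theorem Ws.mono (h : S ⊆ T) (hw : Ws T u v) : Ws S u v :=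
  fun g hg hg0 => hw g hg (fun z hz => hg0 z (fun h' => hz (h h')))

theorem Ss.mono (h : S ⊆ T) (hs : Ss T u v) : Ss S u v := by
  have hm : (volume : Measure ℂ).restrict S ≤ volume.restrict T := Measure.restrict_mono h le_rfl
  refine ⟨fun k => (hs.mu k).mono_measure hm, hs.mv.mono_measure hm, ?_⟩
  refine squeeze_zero (fun k => sq0_42 _) (fun k => ?_) hs.lim
  exact setIntegral_mono_set (sqi42 ((hs.mu k).sub hs.mv))
    (Filter.Eventually.of_forall fun z => sq_nonneg _) h.eventuallyLE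

theorem Ws.comp (hφ : StrictMono φ) (hw : Ws S u v) : Ws S (fun k => u (φ k)) v :=
  fun g hg hg0 => (hw g hg hg0).comp hφ.tendsto_atTop

theorem Ss.comp (hφ : StrictMono φ) (hs : Ss S u v) : Ss S (fun k => u (φ k)) v :=
  ⟨fun k => hs.mu (φ k), hs.mv, hs.lim.comp hφ.tendsto_atTop⟩

/-- comparison of squares under the integral -/
private theorem cmp42 {f g h : ℂ → ℂ} (hf : MemLp f 2 (volume.restrict S))
    (hg : MemLp g 2 (volume.restrict S)) (hh : MemLp h 2 (volume.restrict S)) {a b : ℝ}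
    (hle : ∀ z, ‖h z‖ ^ 2 ≤ a * ‖f z‖ ^ 2 + b * ‖g z‖ ^ 2) :
    ∫ z in S, ‖h z‖ ^ 2 ≤ a * (∫ z in S, ‖f z‖ ^ 2) + b * ∫ z in S, ‖g z‖ ^ 2 := by
  rw [← integral_const_mul, ← integral_const_mul,
    ← integral_add ((sqi42 hf).const_mul a) ((sqi42 hg).const_mul b)]
  exact integral_mono (sqi42 hh) (((sqi42 hf).const_mul a).add ((sqi42 hg).const_mul b)) hle

private theorem par42 (x y : ℂ) : ‖x - y‖ ^ 2 ≤ 2 * ‖x‖ ^ 2 + 2 * ‖y‖ ^ 2 := by
  have h1 : ‖x - y‖ ≤ ‖x‖ + ‖y‖ := norm_sub_le _ _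
  have h2 := norm_nonneg (x - y)
  nlinarith [sq_nonneg (‖x‖ - ‖y‖)]

theorem Ss.sub (h1 : Ss S u v) (h2 : Ss S u' v') :
    Ss S (fun k z => u k z - u' k z) fun z => v z - v' z := by
  refine ⟨fun k => (h1.mu k).sub (h2.mu k), h1.mv.sub h2.mv, ?_⟩
  have h3 : Tendsto (fun k => 2 * (∫ z in S, ‖u k z - v z‖ ^ 2) +
      2 * ∫ z in S, ‖u' k z - v' z‖ ^ 2) atTop (𝓝 0) := by
    simpa using (h1.lim.const_mul 2).add (h2.lim.const_mul 2)
  refine squeeze_zero (fun k => sq0_42 _) (fun k => ?_) h3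
  refine cmp42 ((h1.mu k).sub h1.mv) ((h2.mu k).sub h2.mv)
    (((h1.mu k).sub (h2.mu k)).sub (h1.mv.sub h2.mv)) (fun z => ?_)
  have : u k z - u' k z - (v z - v' z) = (u k z - v z) - (u' k z - v' z) := by ring
  show ‖u k z - u' k z - (v z - v' z)‖ ^ 2 ≤ _
  rw [this]
  exact par42 _ _

theorem Ss.ws (hS : MeasurableSet S) (h : Ss S u v) : Ws S u v := by
  intro g hg hg0
  have hgS : MemLp g 2 (volume.restrict S) := hg.restrict S
  have he : Tendsto (fun k => (∫ z in S, ‖u k z - v z‖ ^ 2) * ∫ z in S, ‖g z‖ ^ 2) atTop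
      (𝓝 0) := by
    simpa using h.lim.mul_const (∫ z in S, ‖g z‖ ^ 2)
  refine tnd42 he (fun k => ?_)
  rw [test42 hg0, test42 hg0, ← integral_sub (mul42 (h.mu k) hgS) (mul42 h.mv hgS)]
  simp only [← sub_mul]
  exact csq ((h.mu k).sub h.mv) hgS

theorem Ws.sub (hS : MeasurableSet S) (hu : ∀ k, MemLp (u k) 2 (volume.restrict S))
    (hu' : ∀ k, MemLp (u' k) 2 (volume.restrict S)) (hv : MemLp v 2 (volume.restrict S))
    (hv' : MemLp v' 2 (volume.restrict S)) (h1 : Ws S u v) (h2 : Ws S u' v') :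
    Ws S (fun k z => u k z - u' k z) fun z => v z - v' z := by
  intro g hg hg0
  have hgS : MemLp g 2 (volume.restrict S) := hg.restrict S
  have h3 := (h1 g hg hg0).sub (h2 g hg hg0)
  have e1 : ∀ k, ∫ z, (u k z - u' k z) * g z = (∫ z, u k z * g z) - ∫ z, u' k z * g z := by
    intro k
    rw [test42 hg0, test42 hg0, test42 hg0, ← integral_sub (mul42 (hu k) hgS) (mul42 (hu' k) hgS)]
    simp only [← sub_mul]
  have e2 : ∫ z, (v z - v' z) * g z = (∫ z, v z * g z) - ∫ z, v' z * g z := by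
    rw [test42 hg0, test42 hg0, test42 hg0, ← integral_sub (mul42 hv hgS) (mul42 hv' hgS)]
    simp only [← sub_mul]
  rw [e2]
  exact h3.congr (fun k => (e1 k).symm)

theorem Ws.add (hS : MeasurableSet S) (hu : ∀ k, MemLp (u k) 2 (volume.restrict S))
    (hu' : ∀ k, MemLp (u' k) 2 (volume.restrict S)) (hv : MemLp v 2 (volume.restrict S))
    (hv' : MemLp v' 2 (volume.restrict S)) (h1 : Ws S u v) (h2 : Ws S u' v') :
    Ws S (fun k z => u k z + u' k z) fun z => v z + v' z := by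
  intro g hg hg0
  have hgS : MemLp g 2 (volume.restrict S) := hg.restrict S
  have h3 := (h1 g hg hg0).add (h2 g hg hg0)
  have e1 : ∀ k, ∫ z, (u k z + u' k z) * g z = (∫ z, u k z * g z) + ∫ z, u' k z * g z := by
    intro k
    rw [test42 hg0, test42 hg0, test42 hg0, ← integral_add (mul42 (hu k) hgS) (mul42 (hu' k) hgS)]
    simp only [← add_mul]
  have e2 : ∫ z, (v z + v' z) * g z = (∫ z, v z * g z) + ∫ z, v' z * g z := by
    rw [test42 hg0, test42 hg0, test42 hg0, ← integral_add (mul42 hv hgS) (mul42 hv' hgS)]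
    simp only [← add_mul]
  rw [e2]
  exact h3.congr (fun k => (e1 k).symm)

theorem Ss.re (h : Ss S u v) :
    Ss S (fun k z => ((u k z).re : ℂ)) fun z => ((v z).re : ℂ) := by
  have e1 : ∀ f : ℂ → ℂ, MemLp f 2 (volume.restrict S) →
      MemLp (fun z => ((f z).re : ℂ)) 2 (volume.restrict S) := by
    intro f hf
    refine hf.mono (Complex.continuous_ofReal.comp_aestronglyMeasurable
      (Complex.continuous_re.comp_aestronglyMeasurable hf.1)) (Eventually.of_forall fun z => ?_)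
    rw [Complex.norm_real]
    exact Complex.abs_re_le_norm _
  refine ⟨fun k => e1 _ (h.mu k), e1 _ h.mv, ?_⟩
  refine squeeze_zero (fun k => sq0_42 _) (fun k => ?_) h.lim
  refine integral_mono (sqi42 ((e1 _ (h.mu k)).sub (e1 _ h.mv))) (sqi42 ((h.mu k).sub h.mv))
    (fun z => ?_)
  show ‖((u k z).re : ℂ) - ((v z).re : ℂ)‖ ^ 2 ≤ ‖u k z - v z‖ ^ 2
  rw [← Complex.ofReal_sub, Complex.norm_real, ← Complex.sub_re]
  exact pow_le_pow_left₀ (norm_nonneg _) (Complex.abs_re_le_norm _) 2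

theorem Ss.im (h : Ss S u v) :
    Ss S (fun k z => ((u k z).im : ℂ)) fun z => ((v z).im : ℂ) := by
  have e1 : ∀ f : ℂ → ℂ, MemLp f 2 (volume.restrict S) →
      MemLp (fun z => ((f z).im : ℂ)) 2 (volume.restrict S) := by
    intro f hf
    refine hf.mono (Complex.continuous_ofReal.comp_aestronglyMeasurable
      (Complex.continuous_im.comp_aestronglyMeasurable hf.1)) (Eventually.of_forall fun z => ?_)
    rw [Complex.norm_real]
    exact Complex.abs_im_le_norm _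
  refine ⟨fun k => e1 _ (h.mu k), e1 _ h.mv, ?_⟩
  refine squeeze_zero (fun k => sq0_42 _) (fun k => ?_) h.lim
  refine integral_mono (sqi42 ((e1 _ (h.mu k)).sub (e1 _ h.mv))) (sqi42 ((h.mu k).sub h.mv))
    (fun z => ?_)
  show ‖((u k z).im : ℂ) - ((v z).im : ℂ)‖ ^ 2 ≤ ‖u k z - v z‖ ^ 2
  rw [← Complex.ofReal_sub, Complex.norm_real, ← Complex.sub_im]
  exact pow_le_pow_left₀ (norm_nonneg _) (Complex.abs_im_le_norm _) 2

/-- convergence of the integrals on a set of finite measure -/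
theorem Ss.int (hS : volume S < ⊤) (h : Ss S u v) :
    Tendsto (fun k => ∫ z in S, u k z) atTop (𝓝 (∫ z in S, v z)) := by
  haveI : IsFiniteMeasure (volume.restrict S) := ⟨by rwa [Measure.restrict_apply_univ]⟩
  have h1 : MemLp (fun _ : ℂ => (1 : ℂ)) 2 (volume.restrict S) := memLp_const 1
  have he := h.lim.mul_const (∫ z in S, ‖(1 : ℂ)‖ ^ 2)
  rw [zero_mul] at he
  refine tnd42 he (fun k => ?_)
  have h2 := csq ((h.mu k).sub h.mv) h1
  have e1 : ∀ f : ℂ → ℂ, MemLp f 2 (volume.restrict S) → Integrable f (volume.restrict S) := by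
    intro f hf
    have := mul42 hf h1
    simpa using this
  rw [← integral_sub (e1 _ (h.mu k)) (e1 _ h.mv)]
  simpa using h2

theorem Ss.of_approx (hS : MeasurableSet S) (hu : ∀ k, MemLp (u k) 2 (volume.restrict S))
    (hv : MemLp v 2 (volume.restrict S)) (hw : Ws S u v)
    (ha : ∀ e : ℝ, 0 < e → ∃ (s : ℕ → ℂ → ℂ) (t : ℂ → ℂ), Ss S s t ∧
      ∀ᶠ k in atTop, ∫ z in S, ‖u k z - s k z‖ ^ 2 ≤ e) : Ss S u v := by
  refine ⟨hu, hv, ?_⟩
  rw [Metric.tendsto_atTop']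
  intro e he
  obtain ⟨s, t, hst, hsu⟩ := ha (e / 20) (by positivity)
  have hws : Ws S (fun k z => u k z - s k z) fun z => v z - t z :=
    Ws.sub hS hu hst.mu hv hst.mv hw (hst.ws hS)
  have hus : ∀ k, MemLp (fun z => u k z - s k z) 2 (volume.restrict S) :=
    fun k => (hu k).sub (hst.mu k)
  have h1 := lsc (m := 1) hS (fun _ k z => u k z - s k z) (fun _ z => v z - t z)
    (fun _ k => hus k) (fun _ => hv.sub hst.mv) (fun _ => hws) (M := e / 20) (e := fun _ => 0)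
    tendsto_const_nhds (by
      simp only [Finset.univ_unique, Finset.sum_singleton, add_zero]
      exact hsu.frequently)
  simp only [Finset.univ_unique, Finset.sum_singleton] at h1
  have h2 : ∀ᶠ k in atTop, ∫ z in S, ‖s k z - t z‖ ^ 2 < e / 20 :=
    hst.lim.eventually (gt_mem_nhds (by positivity))
  obtain ⟨N, hN⟩ := eventually_atTop.mp (hsu.and h2)
  refine ⟨N, fun k hk => ?_⟩
  obtain ⟨h3, h4⟩ := hN k hk.le
  rw [Real.dist_eq, sub_zero, abs_of_nonneg (sq0_42 _)]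
  have h5 : ∫ z in S, ‖s k z - v z‖ ^ 2 ≤ 2 * (∫ z in S, ‖s k z - t z‖ ^ 2) +
      2 * ∫ z in S, ‖v z - t z‖ ^ 2 := by
    refine cmp42 ((hst.mu k).sub hst.mv) (hv.sub hst.mv) ((hst.mu k).sub hv) (fun z => ?_)
    have : s k z - v z = (s k z - t z) - (v z - t z) := by ring
    show ‖s k z - v z‖ ^ 2 ≤ _
    rw [this]
    exact par42 _ _
  have h6 : ∫ z in S, ‖u k z - v z‖ ^ 2 ≤ 2 * (∫ z in S, ‖u k z - s k z‖ ^ 2) +
      2 * ∫ z in S, ‖s k z - v z‖ ^ 2 := by
    refine cmp42 (hus k) ((hst.mu k).sub hv) ((hu k).sub hv) (fun z => ?_)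
    have h7 := par42 (u k z - s k z) (-(s k z - v z))
    rw [norm_neg] at h7
    have : u k z - v z = (u k z - s k z) - (-(s k z - v z)) := by ring
    show ‖u k z - v z‖ ^ 2 ≤ _
    rw [this]
    exact h7
  linarith

theorem Ws.pair (hS : MeasurableSet S) (hu : ∀ k, MemLp (u k) 2 (volume.restrict S))
    (hv : MemLp v 2 (volume.restrict S)) {C : ℝ} (hC : ∀ k, ∫ z in S, ‖u k z‖ ^ 2 ≤ C)
    (hw : Ws S u v) (ha : Ss S a b) :
    Tendsto (fun k => ∫ z in S, u k z * a k z) atTop (𝓝 (∫ z in S, v z * b z)) := by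
  have hg : MemLp (S.indicator b) 2 := (memLp_indicator_iff_restrict hS).mpr ha.mv
  have hg0 : ∀ z, z ∉ S → S.indicator b z = 0 := fun z hz => Set.indicator_of_notMem hz _
  have h1 := hw _ hg hg0
  have e1 : ∀ f : ℂ → ℂ, ∫ z, f z * S.indicator b z = ∫ z in S, f z * b z := by
    intro f
    rw [test42 hg0]
    refine setIntegral_congr_fun hS (fun z hz => ?_)
    show f z * S.indicator b z = f z * b z
    rw [Set.indicator_of_mem hz]
  rw [e1] at h1
  simp only [e1] at h1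
  have he : Tendsto (fun k => C * ∫ z in S, ‖a k z - b z‖ ^ 2) atTop (𝓝 0) := by
    simpa using ha.lim.const_mul C
  have h2 : Tendsto (fun k => ∫ z in S, u k z * (a k z - b z)) atTop (𝓝 0) := by
    refine tnd42 he (fun k => ?_)
    rw [sub_zero]
    refine (csq (hu k) ((ha.mu k).sub ha.mv)).trans ?_
    exact mul_le_mul_of_nonneg_right (hC k) (sq0_42 _)
  have h3 := h1.add h2
  rw [add_zero] at h3
  refine h3.congr (fun k => ?_)
  have h8 : MemLp (fun z => a k z - b z) 2 (volume.restrict S) := (ha.mu k).sub ha.mv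
  rw [← integral_add (mul42 (hu k) ha.mv) (mul42 (hu k) h8)]
  refine integral_congr_ae (Eventually.of_forall fun z => ?_)
  show u k z * b z + u k z * (a k z - b z) = u k z * a k z
  ring

theorem Ss.mul (hm : ∀ k, AEStronglyMeasurable (m k)) {M : ℝ} (hb : ∀ k z, ‖m k z‖ ≤ M)
    (hae : ∀ᵐ z, Tendsto (fun k => m k z) atTop (𝓝 (m₀ z))) (ha : Ss S a b) :
    Ss S (fun k z => m k z * a k z) fun z => m₀ z * b z := by
  have hM : 0 ≤ M := (norm_nonneg _).trans (hb 0 0)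
  have hm0 : AEStronglyMeasurable m₀ := aestronglyMeasurable_of_tendsto_ae atTop hm hae
  have hb0 : ∀ᵐ z, ‖m₀ z‖ ≤ M := by
    filter_upwards [hae] with z hz
    exact le_of_tendsto hz.norm (Eventually.of_forall fun k => hb k z)
  have hmS : ∀ k, AEStronglyMeasurable (m k) (volume.restrict S) := fun k => (hm k).restrict
  have hm0S : AEStronglyMeasurable m₀ (volume.restrict S) := hm0.restrict
  have hb0S : ∀ᵐ z ∂(volume.restrict S), ‖m₀ z‖ ≤ M := ae_restrict_of_ae hb0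
  have haeS : ∀ᵐ z ∂(volume.restrict S), Tendsto (fun k => m k z) atTop (𝓝 (m₀ z)) :=
    ae_restrict_of_ae hae
  have e1 : ∀ k (f : ℂ → ℂ), MemLp f 2 (volume.restrict S) →
      MemLp (fun z => m k z * f z) 2 (volume.restrict S) := by
    intro k f hf
    refine MemLp.of_le_mul hf ((hmS k).mul hf.1) (c := M) (Eventually.of_forall fun z => ?_)
    rw [norm_mul]
    exact mul_le_mul_of_nonneg_right (hb k z) (norm_nonneg _)
  have e2 : MemLp (fun z => m₀ z * b z) 2 (volume.restrict S) := by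
    refine MemLp.of_le_mul ha.mv (hm0S.mul ha.mv.1) (c := M) ?_
    filter_upwards [hb0S] with z hz
    rw [norm_mul]
    exact mul_le_mul_of_nonneg_right hz (norm_nonneg _)
  refine ⟨fun k => e1 k _ (ha.mu k), e2, ?_⟩
  -- the second part
  have h1 : Tendsto (fun k => ∫ z in S, ‖m k z * b z - m₀ z * b z‖ ^ 2) atTop (𝓝 0) := by
    have h2 : Tendsto (fun k => ∫ z in S, ‖m k z * b z - m₀ z * b z‖ ^ 2) atTop
        (𝓝 (∫ z in S, (0 : ℝ))) := by
      refine tendsto_integral_of_dominated_convergence (fun z => (2 * M) ^ 2 * ‖b z‖ ^ 2) ?_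
        ((sqi42 ha.mv).const_mul _) ?_ ?_
      · intro k
        exact (((e1 k _ ha.mv).sub e2).1.norm.pow 2)
      · intro k
        filter_upwards [hb0S] with z hz
        rw [Real.norm_of_nonneg (sq_nonneg _), ← sub_mul, norm_mul, mul_pow]
        refine mul_le_mul_of_nonneg_right ?_ (sq_nonneg _)
        refine pow_le_pow_left₀ (norm_nonneg _) ?_ 2
        refine (norm_sub_le _ _).trans ?_
        have := hb k z
        linarith
      · filter_upwards [haeS] with z hz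
        have h3 : Tendsto (fun k => ‖m k z * b z - m₀ z * b z‖ ^ 2) atTop
            (𝓝 (‖m₀ z * b z - m₀ z * b z‖ ^ 2)) :=
          (((hz.mul_const (b z)).sub_const (m₀ z * b z)).norm.pow 2)
        simpa using h3
    simpa using h2
  have h3 : Tendsto (fun k => 2 * (M ^ 2 * ∫ z in S, ‖a k z - b z‖ ^ 2) +
      2 * ∫ z in S, ‖m k z * b z - m₀ z * b z‖ ^ 2) atTop (𝓝 0) := by
    simpa using ((ha.lim.const_mul (M ^ 2)).const_mul 2).add (h1.const_mul 2)
  refine squeeze_zero (fun k => sq0_42 _) (fun k => ?_) h3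
  have h4 : ∫ z in S, ‖m k z * (a k z - b z)‖ ^ 2 ≤ M ^ 2 * ∫ z in S, ‖a k z - b z‖ ^ 2 := by
    rw [← integral_const_mul]
    refine integral_mono (sqi42 (e1 k _ ((ha.mu k).sub ha.mv)))
      ((sqi42 ((ha.mu k).sub ha.mv)).const_mul _) (fun z => ?_)
    show ‖m k z * (a k z - b z)‖ ^ 2 ≤ M ^ 2 * ‖a k z - b z‖ ^ 2
    rw [norm_mul, mul_pow]
    exact mul_le_mul_of_nonneg_right (pow_le_pow_left₀ (norm_nonneg _) (hb k z) 2) (sq_nonneg _)
  have h5 : ∫ z in S, ‖m k z * a k z - m₀ z * b z‖ ^ 2 ≤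
      2 * (∫ z in S, ‖m k z * (a k z - b z)‖ ^ 2) +
      2 * ∫ z in S, ‖m k z * b z - m₀ z * b z‖ ^ 2 := by
    refine cmp42 (e1 k _ ((ha.mu k).sub ha.mv)) ((e1 k _ ha.mv).sub e2)
      ((e1 k _ (ha.mu k)).sub e2) (fun z => ?_)
    have h7 := par42 (m k z * (a k z - b z)) (-(m k z * b z - m₀ z * b z))
    rw [norm_neg] at h7
    have : m k z * a k z - m₀ z * b z =
        m k z * (a k z - b z) - (-(m k z * b z - m₀ z * b z)) := by ring
    show ‖m k z * a k z - m₀ z * b z‖ ^ 2 ≤ _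
    rw [this]
    exact h7
  linarith

private theorem const42 {g : ℂ → ℂ} (hg : MemLp g 2 (volume.restrict S)) : Ss S (fun _ => g) g :=
  ⟨fun _ => hg, hg, by simp⟩

theorem Ws.mul (hS : MeasurableSet S) (hm : ∀ k, AEStronglyMeasurable (m k)) {M : ℝ}
    (hb : ∀ k z, ‖m k z‖ ≤ M) (hae : ∀ᵐ z, Tendsto (fun k => m k z) atTop (𝓝 (m₀ z)))
    (hu : ∀ k, MemLp (u k) 2 (volume.restrict S)) (hv : MemLp v 2 (volume.restrict S)) {C : ℝ}
    (hC : ∀ k, ∫ z in S, ‖u k z‖ ^ 2 ≤ C) (hw : Ws S u v) :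
    Ws S (fun k z => m k z * u k z) fun z => m₀ z * v z := by
  intro g hg hg0
  have h1 : Ss S (fun k z => m k z * g z) fun z => m₀ z * g z :=
    Ss.mul hm hb hae (const42 (hg.restrict S))
  have h2 := Ws.pair hS hu hv hC hw h1
  rw [test42 hg0]
  have e1 : ∫ z in S, m₀ z * v z * g z = ∫ z in S, v z * (m₀ z * g z) := by
    refine integral_congr_ae (Eventually.of_forall fun z => ?_)
    show m₀ z * v z * g z = v z * (m₀ z * g z)
    ring
  rw [e1]
  refine h2.congr (fun k => ?_)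
  rw [test42 hg0]
  refine integral_congr_ae (Eventually.of_forall fun z => ?_)
  show u k z * (m k z * g z) = m k z * u k z * g z
  ring

theorem Ss.of_ae (hS : volume S < ⊤) (hm : ∀ k, AEStronglyMeasurable (m k)) {M : ℝ}
    (hb : ∀ k z, ‖m k z‖ ≤ M) (hae : ∀ᵐ z, Tendsto (fun k => m k z) atTop (𝓝 (m₀ z))) :
    Ss S m m₀ := by
  haveI : IsFiniteMeasure (volume.restrict S) := ⟨by rwa [Measure.restrict_apply_univ]⟩
  have h1 : MemLp (fun _ : ℂ => (1 : ℂ)) 2 (volume.restrict S) := memLp_const 1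
  have h2 := Ss.mul hm hb hae (const42 h1)
  simpa using h2

end GO3
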