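import Pool.Agent.GO3.L.Defs
import Pool.Agent.GO3.Pol

/-! GO3 / L / SymAv: averaging a test function over the dihedral group.

PROOF. Let `R f z = conj ζ f (ζ z)` (`ζ = ze n`), `S f z = τ conj (f (conj z))`. `R^[l] f z = (conj ζ)^l f (ζ^l z)`
(induction), `R^[n³] f = f` (`ze_pow`). `g₁ = (1/n³) ∑_{l < n³} R^[l] f` satisfies `R g₁ = g₁` (the sum is shifted
cyclically: `Finset.sum_range_succ'`/`Finset.sum_range_succ`), i.e. `g₁ (ζ z) = ζ g₁ z` (`ζ conj ζ = 1`,
`norm_ze`). `g = (g₁ + S g₁) / 2`: `S (S g₁) = g₁` (`τ² = 1`), so `S g = g`, i.e. `g (conj z) = τ conj (g z)`;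
`S g₁ (ζ z) = τ conj (g₁ (conj ζ conj z)) = τ conj (conj ζ g₁ (conj z)) = ζ S g₁ z`, using
`g₁ (conj ζ y) = conj ζ g₁ y`. All these functions are test functions (`R`, `S` preserve `Tst`: composition with
linear isometries). `L g₁ = (1/n³) ∑ L (R^[l] f) = L f`, `L g = (L g₁ + L (S g₁)) / 2 = L f`. -/

open MeasureTheory Filter Topology Set
open scoped ContDiff Real

noncomputable section

namespace GO3

/-- linear functionals on test functions invariant under the dihedral group -/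
structure Inv (n : ℕ) (τ : ℝ) (L : (ℂ → ℂ) → ℝ) : Prop where
  add : ∀ f g, Tst f → Tst g → L (fun z => f z + g z) = L f + L g
  smul : ∀ (a : ℝ) f, Tst f → L (fun z => (a : ℂ) * f z) = a * L f
  rot : ∀ f, Tst f → L (fun z => star (ze n) * f (ze n * z)) = L f
  ref : ∀ f, Tst f → L (fun z => (τ : ℂ) * star (f (star z))) = L f

private theorem starze (n : ℕ) : star (ze n) * ze n = 1 := by
  have h : (starRingEnd ℂ) (ze n) * ze n = 1 := by
    rw [mul_comm, Complex.mul_conj, Complex.normSq_eq_norm_sq, norm_ze]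
    norm_num
  exact h

private theorem tst_mul {f : ℂ → ℂ} (hf : Tst f) (a b : ℂ) (hb : b ≠ 0) :
    Tst fun z => a * f (b * z) := by
  refine ⟨contDiff_const.mul (hf.1.comp (contDiff_const.mul contDiff_id)), ?_⟩
  exact (hf.2.comp_homeomorph (Homeomorph.mulLeft₀ b hb)).mul_left (f := fun _ => a)

private theorem tst_cmul {f : ℂ → ℂ} (hf : Tst f) (a : ℂ) : Tst fun z => a * f z := by
  have h := tst_mul hf a 1 one_ne_zero
  simpa using h

private theorem tst_star {f : ℂ → ℂ} (hf : Tst f) (a : ℂ) :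
    Tst fun z => a * star (f (star z)) := by
  have h1 : Tst fun z => star (f (star z)) := by
    refine ⟨?_, ?_⟩
    · exact Complex.conjCLE.contDiff.comp (hf.1.comp Complex.conjCLE.contDiff)
    · exact (hf.2.comp_homeomorph Complex.conjCLE.toHomeomorph).comp_left
        (g := fun z : ℂ => star z) (star_zero ℂ)
  exact tst_cmul h1 a

private theorem tst_add {f g : ℂ → ℂ} (hf : Tst f) (hg : Tst g) : Tst fun z => f z + g z :=
  ⟨hf.1.add hg.1, hf.2.add hg.2⟩

private theorem tst_sum {f : ℕ → ℂ → ℂ} (hf : ∀ l, Tst (f l)) (m : ℕ) :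
    Tst fun z => ∑ l ∈ Finset.range m, f l z := by
  induction m with
  | zero =>
    have h := tst_cmul (hf 0) 0
    simpa using h
  | succ m ih =>
    have h := tst_add ih (hf m)
    simpa [Finset.sum_range_succ] using h

private theorem inv_pow {n : ℕ} {τ : ℝ} {L : (ℂ → ℂ) → ℝ} (hL : Inv n τ L) {f : ℂ → ℂ}
    (hf : Tst f) (m : ℕ) : L (fun z => star (ze n) ^ m * f (ze n ^ m * z)) = L f := by
  have hz : ze n ≠ 0 := by
    intro h
    have := norm_ze n
    rw [h, norm_zero] at this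
    exact zero_ne_one this
  induction m with
  | zero => simp
  | succ m ih =>
    have h := hL.rot (fun z => star (ze n) ^ m * f (ze n ^ m * z))
      (tst_mul hf _ _ (pow_ne_zero m hz))
    rw [ih] at h
    rw [← h]
    congr 1
    funext z
    rw [show ze n ^ (m + 1) * z = ze n ^ m * (ze n * z) by ring]
    ring

private theorem inv_sum {n : ℕ} {τ : ℝ} {L : (ℂ → ℂ) → ℝ} (hL : Inv n τ L) {f : ℂ → ℂ}
    (hf : Tst f) (m : ℕ) :
    L (fun z => ∑ l ∈ Finset.range m, star (ze n) ^ l * f (ze n ^ l * z)) = m * L f := by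
  have hz : ze n ≠ 0 := by
    intro h
    have := norm_ze n
    rw [h, norm_zero] at this
    exact zero_ne_one this
  have ht : ∀ l, Tst fun z => star (ze n) ^ l * f (ze n ^ l * z) := fun l =>
    tst_mul hf _ _ (pow_ne_zero l hz)
  induction m with
  | zero =>
    have h := hL.smul 0 f hf
    simpa using h
  | succ m ih =>
    have h := hL.add _ _ (tst_sum ht m) (ht m)
    rw [ih, inv_pow hL hf m] at h
    have h2 : (fun z => ∑ l ∈ Finset.range (m + 1), star (ze n) ^ l * f (ze n ^ l * z)) =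
        fun z => (∑ l ∈ Finset.range m, star (ze n) ^ l * f (ze n ^ l * z)) +
          star (ze n) ^ m * f (ze n ^ m * z) := by
      funext z
      rw [Finset.sum_range_succ]
    rw [h2, h]
    push_cast
    ring

theorem sym_av {n : ℕ} (hn : 0 < n) {τ : ℝ} (hτ : τ = 1 ∨ τ = -1) (f : ℂ → ℂ) (hf : Tst f) :
    ∃ g : ℂ → ℂ, Tst g ∧ (∀ z, g (ze n * z) = ze n * g z) ∧
      (∀ z, g (star z) = (τ : ℂ) * star (g z)) ∧
      ∀ L : (ℂ → ℂ) → ℝ, Inv n τ L → L g = L f := by
  have hz : ze n ≠ 0 := by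
    intro h
    have := norm_ze n
    rw [h, norm_zero] at this
    exact zero_ne_one this
  have hs := starze n
  have hτ2 : (τ : ℂ) * τ = 1 := by
    rcases hτ with h | h <;> rw [h] <;> norm_num
  have hτs : star (τ : ℂ) = (τ : ℂ) := Complex.conj_ofReal τ
  have hN : 0 < n ^ 3 := by positivity
  have hNR : ((n ^ 3 : ℕ) : ℝ) ≠ 0 := by exact_mod_cast hN.ne'
  have ht : ∀ l, Tst fun z => star (ze n) ^ l * f (ze n ^ l * z) := fun l =>
    tst_mul hf _ _ (pow_ne_zero l hz)
  have hp := ze_pow hn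
  have hps : star (ze n) ^ (n ^ 3) = 1 := by
    rw [← star_pow, hp, star_one]
  obtain ⟨g₁, hg₁⟩ : ∃ g₁ : ℂ → ℂ, g₁ = fun z => ((1 / ((n ^ 3 : ℕ) : ℝ) : ℝ) : ℂ) *
      ∑ l ∈ Finset.range (n ^ 3), star (ze n) ^ l * f (ze n ^ l * z) := ⟨_, rfl⟩
  have ht1 : Tst g₁ := by
    rw [hg₁]
    exact tst_cmul (tst_sum ht _) _
  have hrot : ∀ z, g₁ (ze n * z) = ze n * g₁ z := by
    intro z
    have h1 : ∑ l ∈ Finset.range (n ^ 3), star (ze n) ^ l * f (ze n ^ l * (ze n * z)) =
        ze n * ∑ l ∈ Finset.range (n ^ 3), star (ze n) ^ l * f (ze n ^ l * z) := by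
      have h2 : ∑ l ∈ Finset.range (n ^ 3), star (ze n) ^ l * f (ze n ^ l * (ze n * z)) =
          ze n * ∑ l ∈ Finset.range (n ^ 3), star (ze n) ^ (l + 1) * f (ze n ^ (l + 1) * z) := by
        rw [Finset.mul_sum]
        refine Finset.sum_congr rfl fun l _ => ?_
        rw [show ze n ^ l * (ze n * z) = ze n ^ (l + 1) * z by ring]
        rw [pow_succ (star (ze n)) l]
        linear_combination (-(star (ze n) ^ l * f (ze n ^ (l + 1) * z))) * hs
      rw [h2]
      congr 1
      have h3 := Finset.sum_range_succ (fun l => star (ze n) ^ l * f (ze n ^ l * z)) (n ^ 3)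
      have h4 := Finset.sum_range_succ' (fun l => star (ze n) ^ l * f (ze n ^ l * z)) (n ^ 3)
      rw [h4] at h3
      simp only [hp, hps, pow_zero] at h3
      exact add_right_cancel h3
    rw [hg₁]
    show ((1 / ((n ^ 3 : ℕ) : ℝ) : ℝ) : ℂ) *
      ∑ l ∈ Finset.range (n ^ 3), star (ze n) ^ l * f (ze n ^ l * (ze n * z)) = _
    rw [h1]
    ring
  have hrot2 : ∀ y, g₁ (star (ze n) * y) = star (ze n) * g₁ y := by
    intro y
    have h := hrot (star (ze n) * y)
    rw [show ze n * (star (ze n) * y) = y by linear_combination y * hs] at h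
    rw [h]
    linear_combination (-(g₁ (star (ze n) * y))) * hs
  have htS : Tst fun z => (τ : ℂ) * star (g₁ (star z)) := tst_star ht1 _
  refine ⟨fun z => ((1 / 2 : ℝ) : ℂ) * (g₁ z + (τ : ℂ) * star (g₁ (star z))),
    tst_cmul (tst_add ht1 htS) _, ?_, ?_, ?_⟩
  · intro z
    show ((1 / 2 : ℝ) : ℂ) * (g₁ (ze n * z) + (τ : ℂ) * star (g₁ (star (ze n * z)))) =
      ze n * (((1 / 2 : ℝ) : ℂ) * (g₁ z + (τ : ℂ) * star (g₁ (star z))))
    rw [hrot, show star (ze n * z) = star (ze n) * star z by rw [star_mul, mul_comm], hrot2,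
      star_mul, star_star]
    ring
  · intro z
    show ((1 / 2 : ℝ) : ℂ) * (g₁ (star z) + (τ : ℂ) * star (g₁ (star (star z)))) =
      (τ : ℂ) * star (((1 / 2 : ℝ) : ℂ) * (g₁ z + (τ : ℂ) * star (g₁ (star z))))
    have h2 : star (((1 / 2 : ℝ) : ℂ)) = ((1 / 2 : ℝ) : ℂ) := Complex.conj_ofReal _
    rw [star_star, star_mul, star_add, star_mul, star_star, hτs, h2]
    linear_combination (-(((1 / 2 : ℝ) : ℂ) * g₁ (star z))) * hτ2
  · intro L hL
    have h1 : L g₁ = L f := by
      have h := hL.smul (1 / ((n ^ 3 : ℕ) : ℝ)) _ (tst_sum ht (n ^ 3))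
      rw [inv_sum hL hf, ← mul_assoc, one_div, inv_mul_cancel₀ hNR, one_mul, ← one_div] at h
      rw [hg₁]
      exact h
    have h2 := hL.ref g₁ ht1
    have h3 := hL.add _ _ ht1 htS
    have h4 := hL.smul (1 / 2) _ (tst_add ht1 htS)
    rw [h3, h2, h1] at h4
    rw [h4]
    ring

end GO3
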