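import Pool.Agent.GO3.L.Nrm

/-! GO3 / L / Vp1: the variation `c.vp f t` of `φ` (pointwise estimates).

Notation `s = Re (conj w f)`, `D_v f = df (v) - i ⟨A, v⟩ f`, `q = h² ‖f‖² + s²`, `N² = 1 + t² q`. `q ≤ ‖f‖²`
(`s² ≤ ‖w‖² ‖f‖²`, `‖w‖² + h² = 1`).
PROOFS.
* `var_sq`: expand; the terms linear in `t` cancel: `2 t h s - 2 t h s`.
* `var_nsq`: `D_v (w + t h f) = D_v w + t (∂_v h f + h D_v f)`, `∂_v (h - t s) = ∂_v h - t (⟨D_v w, f⟩ + ⟨w, D_v f⟩)`.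
  The terms linear in `t`: `∂_v h ⟨D_v w, f⟩ + h ⟨D_v w, D_v f⟩ - ∂_v h ⟨D_v w, f⟩ - ∂_v h ⟨w, D_v f⟩ = ⟨p_v, D_v f⟩`.
  The terms quadratic in `t`: `‖∂_v h f + h D_v f‖² + (⟨D_v w, f⟩ + ⟨w, D_v f⟩)² ≤ 2 ‖f‖² nsq + 4 ‖D_v f‖²` and
  `‖D_v f‖² ≤ 2 ‖df (v)‖² + 2 ⟨A, v⟩² ‖f‖²`.
* `vp_pot`: `0 ≤ 1 - 1/N ≤ N - 1 ≤ (N² - 1) / 2 ≤ t² ‖f‖² / 2`. With `h' = (h - t s) / N`,
  `h - h' = t s + (h - t s) (1 - 1/N)`, `(1 - h')² = (1 - h)² + 2 (1 - h) (h - h') + (h - h')²`,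
  `2 (1 - h) (h - h') ≤ 2 t (1 - h) s + 2 t² ‖f‖² (1 + ‖f‖)`, `|h - h'| ≤ |t| (‖f‖ + ‖f‖²/2 + ‖f‖³/2)` (`|t| ≤ 1`,
  `|s| ≤ ‖f‖`, `0 ≤ 1 - h ≤ 2`), `2 x² + 2 x³ + 3 (x² + x⁴/4 + x⁶/4) ≤ 8 (x² + x⁴ + x⁶)`.
* `vp_dens`: `nrm_nsq`, `var_nsq` for `v = 1, i` and `vp_pot`; the curvature is unchanged; `ip A 1 = A.re`,
  `ip A i = A.im`.
* `vp_diff`: `w' - w = - w (1 - 1/N) + t h f / N`, `‖w' - w‖ ≤ |t| (‖f‖ + ‖f‖²/2)`, the same for `h`; the sum of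
  the squares is at most `2 t² (2 ‖f‖² + ‖f‖⁴/2)`. -/

open MeasureTheory Filter Topology Set
open scoped ContDiff Real

noncomputable section

namespace GO3

variable {c : Cf} {n : ℕ} {f : ℂ → ℂ}

/-- covariant derivative of a test function -/
def Df (c : Cf) (f : ℂ → ℂ) (z v : ℂ) : ℂ :=
  fderiv ℝ f z v - Complex.I * (ip (c.A z) v : ℂ) * f z

/-- the integrand of `LP` -/
def lp (c : Cf) (f : ℂ → ℂ) (z : ℂ) : ℝ := (star (c.p z 1) * Df c f z 1).re +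
  (star (c.p z Complex.I) * Df c f z Complex.I).re + (1 - c.h z) * (star (c.w z) * f z).re

/-- the error term -/
def erf (c : Cf) (f : ℂ → ℂ) (z : ℂ) : ℝ := 2 * ‖f z‖ ^ 2 * c.grad z +
  8 * (‖fderiv ℝ f z 1‖ ^ 2 + ‖fderiv ℝ f z Complex.I‖ ^ 2) + 8 * ‖c.A z‖ ^ 2 * ‖f z‖ ^ 2 +
  8 * (‖f z‖ ^ 2 + ‖f z‖ ^ 4 + ‖f z‖ ^ 6)

theorem LP_eq (c : Cf) (f : ℂ → ℂ) : LP c f = ∫ z, lp c f z := rfl

theorem vp1_aux_e {t q x : ℝ} (hq : 0 ≤ q) (hx : q ≤ x ^ 2) :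
    1 ≤ Real.sqrt (1 + t ^ 2 * q) ∧ 0 ≤ 1 - 1 / Real.sqrt (1 + t ^ 2 * q) ∧
      1 - 1 / Real.sqrt (1 + t ^ 2 * q) ≤ t ^ 2 * x ^ 2 / 2 := by
  have h0 : 0 ≤ t ^ 2 * q := mul_nonneg (sq_nonneg t) hq
  have h1 : t ^ 2 * q ≤ t ^ 2 * x ^ 2 := mul_le_mul_of_nonneg_left hx (sq_nonneg t)
  set N := Real.sqrt (1 + t ^ 2 * q) with hN
  have hN2 : N ^ 2 = 1 + t ^ 2 * q := Real.sq_sqrt (by linarith)
  have hN1 : 1 ≤ N := by
    rw [hN]
    exact Real.one_le_sqrt.2 (by linarith)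
  have hN0 : 0 < N := by linarith
  have hinv : 1 / N ≤ 1 := by
    rw [div_le_one hN0]
    exact hN1
  have hb : 1 - 1 / N ≤ N - 1 := by
    have : 2 ≤ N + 1 / N := by
      have h3 : (N + 1 / N) - 2 = (N - 1) ^ 2 / N := by
        field_simp
        ring
      have h4 : 0 ≤ (N - 1) ^ 2 / N := div_nonneg (sq_nonneg _) hN0.le
      linarith
    linarith
  refine ⟨hN1, by linarith, ?_⟩
  have hc : N - 1 ≤ (N ^ 2 - 1) / 2 := by nlinarith [sq_nonneg (N - 1)]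
  rw [hN2] at hc
  linarith

theorem vp1_re (a b : ℂ) : (star a * b).re = a.re * b.re + a.im * b.im := by
  simp [Complex.mul_re]

theorem vp1_nsq (a : ℂ) : ‖a‖ ^ 2 = a.re ^ 2 + a.im ^ 2 := by
  rw [Complex.sq_norm, Complex.normSq_apply]
  ring

theorem vp1_cs (a b : ℂ) : (star a * b).re ^ 2 ≤ ‖a‖ ^ 2 * ‖b‖ ^ 2 := by
  rw [vp1_re, vp1_nsq, vp1_nsq]
  nlinarith [sq_nonneg (a.re * b.im - a.im * b.re)]

theorem var_sq (hc : c.Adm n) (f : ℂ → ℂ) (t : ℝ) (z : ℂ) :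
    ‖(c.var f t).w z‖ ^ 2 + (c.var f t).h z ^ 2 =
      1 + t ^ 2 * (c.h z ^ 2 * ‖f z‖ ^ 2 + (star (c.w z) * f z).re ^ 2) := by
  have hu := hc.unit z
  have e1 : (c.var f t).w z = c.w z + (t * c.h z : ℝ) * f z := rfl
  have e2 : (c.var f t).h z = c.h z - t * (star (c.w z) * f z).re := rfl
  rw [e1, e2, vp1_re, vp1_nsq, vp1_nsq]
  rw [vp1_nsq] at hu
  simp only [Complex.add_re, Complex.add_im, Complex.re_ofReal_mul, Complex.im_ofReal_mul]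
  linear_combination hu

theorem vp1_one_le (hc : c.Adm n) (f : ℂ → ℂ) (t : ℝ) (z : ℂ) :
    1 ≤ ‖(c.var f t).w z‖ ^ 2 + (c.var f t).h z ^ 2 := by
  rw [var_sq hc f t z]
  have : 0 ≤ t ^ 2 * (c.h z ^ 2 * ‖f z‖ ^ 2 + (star (c.w z) * f z).re ^ 2) := by positivity
  linarith

theorem vp1_fw (hc : c.Adm n) (hf : ContDiff ℝ ∞ f) (t : ℝ) (z v : ℂ) :
    fderiv ℝ (c.var f t).w z v = fderiv ℝ c.w z v +
      ((t * fderiv ℝ c.h z v : ℝ) * f z + (t * c.h z : ℝ) * fderiv ℝ f z v) := by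
  have d1 : HasFDerivAt c.w (fderiv ℝ c.w z) z :=
    ((hc.sw.differentiable (by simp)) z).hasFDerivAt
  have d2 : HasFDerivAt c.h (fderiv ℝ c.h z) z :=
    ((hc.sh.differentiable (by simp)) z).hasFDerivAt
  have d3 : HasFDerivAt f (fderiv ℝ f z) z := ((hf.differentiable (by simp)) z).hasFDerivAt
  have d4 : HasFDerivAt (fun y => t * c.h y) (t • fderiv ℝ c.h z) z := d2.const_mul t
  have d5 : HasFDerivAt (fun y => (t * c.h y) • f y)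
      ((t * c.h z) • fderiv ℝ f z + (t • fderiv ℝ c.h z).smulRight (f z)) z := d4.smul d3
  have d6 := d1.add d5
  have e : (c.var f t).w = (c.w + fun y => (t * c.h y) • f y) := by
    funext y
    show c.w y + (t * c.h y : ℝ) * f y = c.w y + (t * c.h y) • f y
    rw [Complex.real_smul]
  rw [e, d6.fderiv]
  simp only [ContinuousLinearMap.add_apply, ContinuousLinearMap.smul_apply,
    ContinuousLinearMap.smulRight_apply, Complex.real_smul, smul_eq_mul]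
  ring

theorem vp1_fh (hc : c.Adm n) (hf : ContDiff ℝ ∞ f) (t : ℝ) (z v : ℂ) :
    fderiv ℝ (c.var f t).h z v = fderiv ℝ c.h z v -
      t * ((star (fderiv ℝ c.w z v) * f z).re + (star (c.w z) * fderiv ℝ f z v).re) := by
  have d1 : HasFDerivAt c.w (fderiv ℝ c.w z) z :=
    ((hc.sw.differentiable (by simp)) z).hasFDerivAt
  have d2 : HasFDerivAt c.h (fderiv ℝ c.h z) z :=
    ((hc.sh.differentiable (by simp)) z).hasFDerivAt
  have d3 : HasFDerivAt f (fderiv ℝ f z) z := ((hf.differentiable (by simp)) z).hasFDerivAt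
  have wr := Complex.reCLM.hasFDerivAt.comp z d1
  have wi := Complex.imCLM.hasFDerivAt.comp z d1
  have fr := Complex.reCLM.hasFDerivAt.comp z d3
  have fi := Complex.imCLM.hasFDerivAt.comp z d3
  have d7 := d2.sub (((wr.mul fr).add (wi.mul fi)).const_mul t)
  have e : (c.var f t).h = fun y => c.h y - t * ((c.w y).re * (f y).re + (c.w y).im * (f y).im) := by
    funext y
    show c.h y - t * (star (c.w y) * f y).re = _
    rw [vp1_re]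
  have d8 : HasFDerivAt
      (fun y => c.h y - t * ((c.w y).re * (f y).re + (c.w y).im * (f y).im)) _ z := d7
  rw [e, d8.fderiv, vp1_re, vp1_re]
  simp only [ContinuousLinearMap.sub_apply, ContinuousLinearMap.add_apply,
    ContinuousLinearMap.smul_apply, ContinuousLinearMap.comp_apply, smul_eq_mul,
    Function.comp_apply, Complex.reCLM_apply, Complex.imCLM_apply]
  ring

theorem var_nsq (hc : c.Adm n) (hf : ContDiff ℝ ∞ f) (t : ℝ) (z v : ℂ) :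
    (c.var f t).nsq z v ≤ c.nsq z v + 2 * t * (star (c.p z v) * Df c f z v).re +
      t ^ 2 * (2 * ‖f z‖ ^ 2 * c.nsq z v + 8 * ‖fderiv ℝ f z v‖ ^ 2 +
        8 * ip (c.A z) v ^ 2 * ‖f z‖ ^ 2) := by
  have hu := hc.unit z
  set a := ip (c.A z) v with ha
  set F := f z with hF
  set w := c.w z with hw
  set h := c.h z with hh
  set D := c.Dw z v with hD
  set H := fderiv ℝ c.h z v with hH
  set G := Df c f z v with hG
  set df := fderiv ℝ f z v with hdf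
  have eDw : D = fderiv ℝ c.w z v - Complex.I * (a : ℂ) * w := rfl
  have eG : G = df - Complex.I * (a : ℂ) * F := rfl
  have e1 : (c.var f t).Dw z v = D + (t : ℂ) * ((H : ℂ) * F + (h : ℂ) * G) := by
    show fderiv ℝ (c.var f t).w z v - Complex.I * (a : ℂ) * (w + (t * h : ℝ) * F) = _
    rw [vp1_fw hc hf, eDw, eG]
    push_cast
    ring
  have e2 : (c.var f t).dh z v = H - t * ((star D * F).re + (star w * G).re) := by
    show fderiv ℝ (c.var f t).h z v = _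
    rw [vp1_fh hc hf, eDw, eG, ← hw, ← hF, ← hH, ← hdf]
    simp only [vp1_re]
    simp only [Complex.sub_re, Complex.sub_im, Complex.mul_re, Complex.mul_im,
      Complex.I_re, Complex.I_im, Complex.ofReal_re, Complex.ofReal_im]
    ring
  have e3 : c.p z v = (h : ℂ) * D - w * (H : ℂ) := rfl
  have e4 : c.nsq z v = ‖D‖ ^ 2 + H ^ 2 := rfl
  have e5 : (c.var f t).nsq z v = ‖(c.var f t).Dw z v‖ ^ 2 + (c.var f t).dh z v ^ 2 := rfl
  have hq1 : ‖(H : ℂ) * F + (h : ℂ) * G‖ ^ 2 ≤ 2 * (H ^ 2 * ‖F‖ ^ 2 + h ^ 2 * ‖G‖ ^ 2) := by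
    simp only [vp1_nsq, Complex.add_re, Complex.add_im, Complex.re_ofReal_mul,
      Complex.im_ofReal_mul]
    nlinarith [sq_nonneg (H * F.re - h * G.re), sq_nonneg (H * F.im - h * G.im)]
  have hq2 : ((star D * F).re + (star w * G).re) ^ 2 ≤
      2 * (‖D‖ ^ 2 * ‖F‖ ^ 2 + ‖w‖ ^ 2 * ‖G‖ ^ 2) := by
    have a1 := vp1_cs D F
    have a2 := vp1_cs w G
    nlinarith [sq_nonneg ((star D * F).re - (star w * G).re)]
  have hq3 : ‖G‖ ^ 2 ≤ 2 * ‖df‖ ^ 2 + 2 * a ^ 2 * ‖F‖ ^ 2 := by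
    rw [eG]
    simp only [vp1_nsq, Complex.sub_re, Complex.sub_im, Complex.mul_re, Complex.mul_im,
      Complex.I_re, Complex.I_im, Complex.ofReal_re, Complex.ofReal_im]
    nlinarith [sq_nonneg (df.re - a * F.im), sq_nonneg (df.im + a * F.re)]
  have hexp : (c.var f t).nsq z v = ‖D‖ ^ 2 + H ^ 2 + 2 * t * (star (c.p z v) * G).re +
      t ^ 2 * (‖(H : ℂ) * F + (h : ℂ) * G‖ ^ 2 + ((star D * F).re + (star w * G).re) ^ 2) := by
    rw [e5, e1, e2, e3]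
    simp only [vp1_nsq, vp1_re]
    simp only [Complex.add_re, Complex.add_im, Complex.sub_re, Complex.sub_im,
      Complex.mul_re, Complex.mul_im, Complex.ofReal_re, Complex.ofReal_im]
    ring
  rw [hexp, e4]
  have hb : ‖(H : ℂ) * F + (h : ℂ) * G‖ ^ 2 + ((star D * F).re + (star w * G).re) ^ 2 ≤
      2 * ‖F‖ ^ 2 * (‖D‖ ^ 2 + H ^ 2) + 8 * ‖df‖ ^ 2 + 8 * a ^ 2 * ‖F‖ ^ 2 := by
    have hg : 2 * (h ^ 2 * ‖G‖ ^ 2 + ‖w‖ ^ 2 * ‖G‖ ^ 2) = 2 * ‖G‖ ^ 2 := by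
      linear_combination (2 * ‖G‖ ^ 2) * hu
    have hp1 : 0 ≤ ‖df‖ ^ 2 := sq_nonneg _
    have hp2 : 0 ≤ a ^ 2 * ‖F‖ ^ 2 := mul_nonneg (sq_nonneg _) (sq_nonneg _)
    nlinarith
  have := mul_le_mul_of_nonneg_left hb (sq_nonneg t)
  linarith

theorem vp1_h (hc : c.Adm n) (f : ℂ → ℂ) (t : ℝ) (z : ℂ) :
    (c.vp f t).h z = 1 / Real.sqrt (1 + t ^ 2 *
      (c.h z ^ 2 * ‖f z‖ ^ 2 + (star (c.w z) * f z).re ^ 2)) *
      (c.h z - t * (star (c.w z) * f z).re) := by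
  show 1 / (c.var f t).nm z * (c.var f t).h z = _
  rw [Cf.nm, var_sq hc f t z]
  rfl

theorem vp1_w (hc : c.Adm n) (f : ℂ → ℂ) (t : ℝ) (z : ℂ) :
    (c.vp f t).w z = ((1 / Real.sqrt (1 + t ^ 2 *
      (c.h z ^ 2 * ‖f z‖ ^ 2 + (star (c.w z) * f z).re ^ 2)) : ℝ) : ℂ) *
      (c.w z + (t * c.h z : ℝ) * f z) := by
  show ((1 / (c.var f t).nm z : ℝ) : ℂ) * (c.var f t).w z = _
  rw [Cf.nm, var_sq hc f t z]
  rfl

theorem vp1_q (hc : c.Adm n) (f : ℂ → ℂ) (z : ℂ) :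
    0 ≤ c.h z ^ 2 * ‖f z‖ ^ 2 + (star (c.w z) * f z).re ^ 2 ∧
      c.h z ^ 2 * ‖f z‖ ^ 2 + (star (c.w z) * f z).re ^ 2 ≤ ‖f z‖ ^ 2 := by
  have hu := hc.unit z
  have a1 := vp1_cs (c.w z) (f z)
  refine ⟨by positivity, ?_⟩
  have : c.h z ^ 2 * ‖f z‖ ^ 2 + ‖c.w z‖ ^ 2 * ‖f z‖ ^ 2 = ‖f z‖ ^ 2 := by
    linear_combination (‖f z‖ ^ 2) * hu
  linarith

theorem vp1_s (hc : c.Adm n) (f : ℂ → ℂ) (z : ℂ) : |(star (c.w z) * f z).re| ≤ ‖f z‖ := by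
  have h1 := (vp1_q hc f z).2
  have h2 : 0 ≤ c.h z ^ 2 * ‖f z‖ ^ 2 := by positivity
  exact abs_le_of_sq_le_sq (by linarith) (norm_nonneg _)

theorem vp1_hb (hc : c.Adm n) (z : ℂ) : |c.h z| ≤ 1 := by
  have hu := hc.unit z
  have h2 : 0 ≤ ‖c.w z‖ ^ 2 := by positivity
  exact abs_le_of_sq_le_sq (by linarith) zero_le_one

theorem vp1_wb (hc : c.Adm n) (z : ℂ) : ‖c.w z‖ ≤ 1 := by
  have hu := hc.unit z
  have h2 : 0 ≤ c.h z ^ 2 := by positivity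
  have := abs_le_of_sq_le_sq (a := ‖c.w z‖) (b := 1) (by linarith) zero_le_one
  rwa [abs_of_nonneg (norm_nonneg _)] at this

theorem vp1_pot_real {t h s e x : ℝ} (ht : |t| ≤ 1) (hh : |h| ≤ 1) (hs : |s| ≤ x) (he0 : 0 ≤ e)
    (he : e ≤ t ^ 2 * x ^ 2 / 2) :
    (1 - (1 - e) * (h - t * s)) ^ 2 ≤ (1 - h) ^ 2 + 2 * t * ((1 - h) * s) +
      t ^ 2 * (8 * (x ^ 2 + x ^ 4 + x ^ 6)) := by
  have hx : 0 ≤ x := (abs_nonneg s).trans hs
  obtain ⟨h1, h2⟩ := abs_le.1 hh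
  have hts : |t * s| ≤ |t| * x := by
    rw [abs_mul]
    exact mul_le_mul_of_nonneg_left hs (abs_nonneg t)
  have htx : |t| * x ≤ x := by nlinarith [abs_nonneg t]
  have ht2 : |t| ^ 2 = t ^ 2 := sq_abs t
  have ht0 := abs_nonneg t
  -- first term
  have hA : |h - t * s| ≤ 1 + x := by
    calc |h - t * s| ≤ |h| + |t * s| := abs_sub _ _
      _ ≤ 1 + x := by linarith
  have hA' : (h - t * s) * e ≤ (1 + x) * (t ^ 2 * x ^ 2 / 2) := by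
    calc (h - t * s) * e ≤ |h - t * s| * e := mul_le_mul_of_nonneg_right (le_abs_self _) he0
      _ ≤ (1 + x) * (t ^ 2 * x ^ 2 / 2) := by
        apply mul_le_mul hA he he0 (by linarith)
  have hB : 2 * (1 - h) * ((h - t * s) * e) ≤ 4 * ((1 + x) * (t ^ 2 * x ^ 2 / 2)) := by
    have hpos : 0 ≤ (1 + x) * (t ^ 2 * x ^ 2 / 2) := by positivity
    calc 2 * (1 - h) * ((h - t * s) * e) ≤ 2 * (1 - h) * ((1 + x) * (t ^ 2 * x ^ 2 / 2)) :=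
          mul_le_mul_of_nonneg_left hA' (by linarith)
      _ ≤ 4 * ((1 + x) * (t ^ 2 * x ^ 2 / 2)) :=
          mul_le_mul_of_nonneg_right (by linarith) hpos
  have hC : |t * s + (h - t * s) * e| ≤ |t| * (x + x ^ 2 / 2 + x ^ 3 / 2) := by
    have c1 : |(h - t * s) * e| ≤ (1 + x) * (t ^ 2 * x ^ 2 / 2) := by
      rw [abs_mul, abs_of_nonneg he0]
      exact mul_le_mul hA he he0 (by linarith)
    have c2 : (1 + x) * (t ^ 2 * x ^ 2 / 2) ≤ |t| * ((1 + x) * (x ^ 2 / 2)) := by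
      have hh3 : t ^ 2 ≤ |t| := by
        rw [← ht2]
        nlinarith
      have hh4 : 0 ≤ (1 + x) * (x ^ 2 / 2) := by positivity
      calc (1 + x) * (t ^ 2 * x ^ 2 / 2) = t ^ 2 * ((1 + x) * (x ^ 2 / 2)) := by ring
        _ ≤ |t| * ((1 + x) * (x ^ 2 / 2)) := mul_le_mul_of_nonneg_right hh3 hh4
    calc |t * s + (h - t * s) * e| ≤ |t * s| + |(h - t * s) * e| := abs_add_le _ _
      _ ≤ |t| * x + |t| * ((1 + x) * (x ^ 2 / 2)) := by linarith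
      _ = |t| * (x + x ^ 2 / 2 + x ^ 3 / 2) := by ring
  have hD : (t * s + (h - t * s) * e) ^ 2 ≤ t ^ 2 * (x + x ^ 2 / 2 + x ^ 3 / 2) ^ 2 := by
    have := pow_le_pow_left₀ (abs_nonneg _) hC 2
    rwa [sq_abs, mul_pow, ht2] at this
  have hE : (x + x ^ 2 / 2 + x ^ 3 / 2) ^ 2 ≤ 3 * (x ^ 2 + x ^ 4 / 4 + x ^ 6 / 4) := by
    nlinarith [sq_nonneg (x - x ^ 2 / 2), sq_nonneg (x - x ^ 3 / 2),
      sq_nonneg (x ^ 2 / 2 - x ^ 3 / 2)]
  have hF := mul_le_mul_of_nonneg_left hE (sq_nonneg t)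
  have hG : 4 * ((1 + x) * (x ^ 2 / 2)) + 3 * (x ^ 2 + x ^ 4 / 4 + x ^ 6 / 4) ≤
      8 * (x ^ 2 + x ^ 4 + x ^ 6) := by
    nlinarith [sq_nonneg (x - x ^ 2), sq_nonneg x, sq_nonneg (x ^ 2), sq_nonneg (x ^ 3)]
  have hH := mul_le_mul_of_nonneg_left hG (sq_nonneg t)
  have hI : (1 - (1 - e) * (h - t * s)) ^ 2 = (1 - h) ^ 2 + 2 * t * ((1 - h) * s) +
      2 * (1 - h) * ((h - t * s) * e) + (t * s + (h - t * s) * e) ^ 2 := by ring
  rw [hI]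
  nlinarith

theorem vp_pot (hc : c.Adm n) (f : ℂ → ℂ) {t : ℝ} (ht : |t| ≤ 1) (z : ℂ) :
    (1 - (c.vp f t).h z) ^ 2 ≤ (1 - c.h z) ^ 2 +
      2 * t * ((1 - c.h z) * (star (c.w z) * f z).re) +
      t ^ 2 * (8 * (‖f z‖ ^ 2 + ‖f z‖ ^ 4 + ‖f z‖ ^ 6)) := by
  rw [vp1_h hc f t z]
  obtain ⟨q0, q1⟩ := vp1_q hc f z
  obtain ⟨_, e0, e1⟩ := vp1_aux_e (t := t) (x := ‖f z‖) q0 q1
  have := vp1_pot_real ht (vp1_hb hc z) (vp1_s hc f z) e0 e1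
  rwa [sub_sub_cancel] at this

theorem vp1_sv (hc : c.Adm n) (hf : ContDiff ℝ ∞ f) (t : ℝ) :
    ContDiff ℝ ∞ (c.var f t).w ∧ ContDiff ℝ ∞ (c.var f t).h := by
  constructor
  · have e : (c.var f t).w = fun y => c.w y + (t * c.h y) • f y := by
      funext y
      show c.w y + (t * c.h y : ℝ) * f y = c.w y + (t * c.h y) • f y
      rw [Complex.real_smul]
    rw [e]
    exact hc.sw.add ((contDiff_const.mul hc.sh).smul hf)
  · have e : (c.var f t).h =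
        fun y => c.h y - t * ((c.w y).re * (f y).re + (c.w y).im * (f y).im) := by
      funext y
      show c.h y - t * (star (c.w y) * f y).re = _
      rw [vp1_re]
    rw [e]
    have r1 : ContDiff ℝ ∞ fun y => (c.w y).re := Complex.reCLM.contDiff.comp hc.sw
    have r2 : ContDiff ℝ ∞ fun y => (c.w y).im := Complex.imCLM.contDiff.comp hc.sw
    have r3 : ContDiff ℝ ∞ fun y => (f y).re := Complex.reCLM.contDiff.comp hf
    have r4 : ContDiff ℝ ∞ fun y => (f y).im := Complex.imCLM.contDiff.comp hf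
    exact hc.sh.sub (contDiff_const.mul ((r1.mul r3).add (r2.mul r4)))

theorem vp_dens (hc : c.Adm n) (hf : ContDiff ℝ ∞ f) {t : ℝ} (ht : |t| ≤ 1) (z : ℂ) :
    (c.vp f t).dens z ≤ c.dens z + 2 * t * lp c f z + t ^ 2 * erf c f z := by
  obtain ⟨s1, s2⟩ := vp1_sv hc hf t
  have n1 := nrm_nsq s1 s2 (vp1_one_le hc f t) z 1
  have n2 := nrm_nsq s1 s2 (vp1_one_le hc f t) z Complex.I
  have v1 := var_nsq hc hf t z 1
  have v2 := var_nsq hc hf t z Complex.I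
  have p1 := vp_pot hc f ht z
  have i1 : ip (c.A z) 1 = (c.A z).re := by simp [ip]
  have i2 : ip (c.A z) Complex.I = (c.A z).im := by simp [ip]
  rw [i1] at v1
  rw [i2] at v2
  have hA := vp1_nsq (c.A z)
  have e1 : (c.vp f t).dens z = (c.var f t).nrm.nsq z 1 + (c.var f t).nrm.nsq z Complex.I +
      (1 - (c.vp f t).h z) ^ 2 + c.F z ^ 2 := rfl
  have e2 : c.dens z = c.nsq z 1 + c.nsq z Complex.I + (1 - c.h z) ^ 2 + c.F z ^ 2 := rfl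
  have e3 : c.grad z = c.nsq z 1 + c.nsq z Complex.I := rfl
  rw [e1, e2, lp, erf, e3, hA]
  nlinarith

theorem vp1_diff_real {t x : ℝ} (ht : |t| ≤ 1) (hx : 0 ≤ x) {a b : ℝ} (ha0 : 0 ≤ a)
    (ha : a ≤ |t| * x + t ^ 2 * x ^ 2 / 2) (hb : |b| ≤ |t| * x + t ^ 2 * x ^ 2 / 2) :
    a ^ 2 + b ^ 2 ≤ t ^ 2 * (4 * x ^ 2 + x ^ 4) := by
  have ht2 : |t| ^ 2 = t ^ 2 := sq_abs t
  have ht0 := abs_nonneg t
  have hh3 : t ^ 2 ≤ |t| := by
    rw [← ht2]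
    nlinarith
  have hk : |t| * x + t ^ 2 * x ^ 2 / 2 ≤ |t| * (x + x ^ 2 / 2) := by
    have : t ^ 2 * x ^ 2 ≤ |t| * x ^ 2 := mul_le_mul_of_nonneg_right hh3 (sq_nonneg x)
    linarith
  have h1 := pow_le_pow_left₀ ha0 (ha.trans hk) 2
  have h2 := pow_le_pow_left₀ (abs_nonneg _) (hb.trans hk) 2
  rw [sq_abs] at h2
  rw [mul_pow, ht2] at h1 h2
  have h3 : (x + x ^ 2 / 2) ^ 2 ≤ 2 * (x ^ 2 + x ^ 4 / 4) := by
    nlinarith [sq_nonneg (x - x ^ 2 / 2)]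
  have h4 := mul_le_mul_of_nonneg_left h3 (sq_nonneg t)
  nlinarith

theorem vp_diff (hc : c.Adm n) (f : ℂ → ℂ) {t : ℝ} (ht : |t| ≤ 1) (z : ℂ) :
    ‖(c.vp f t).w z - c.w z‖ ^ 2 + ((c.vp f t).h z - c.h z) ^ 2 ≤
      t ^ 2 * (4 * ‖f z‖ ^ 2 + ‖f z‖ ^ 4) := by
  rw [vp1_h hc f t z, vp1_w hc f t z]
  obtain ⟨q0, q1⟩ := vp1_q hc f z
  obtain ⟨N1, e0, e1⟩ := vp1_aux_e (t := t) (x := ‖f z‖) q0 q1
  have hhb := vp1_hb hc z
  have hwb := vp1_wb hc z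
  have hsb := vp1_s hc f z
  set N := Real.sqrt (1 + t ^ 2 * (c.h z ^ 2 * ‖f z‖ ^ 2 + (star (c.w z) * f z).re ^ 2)) with hN
  have hN0 : 0 < N := by linarith
  have hi1 : 1 / N ≤ 1 := by linarith
  have hi0 : 0 ≤ 1 / N := by positivity
  have ht0 := abs_nonneg t
  apply vp1_diff_real ht (norm_nonneg _) (norm_nonneg _)
  · have : ((1 / N : ℝ) : ℂ) * (c.w z + (t * c.h z : ℝ) * f z) - c.w z =
        -(((1 - 1 / N : ℝ) : ℂ) * c.w z) + ((1 / N * (t * c.h z) : ℝ) : ℂ) * f z := by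
      push_cast
      ring
    rw [this]
    refine (norm_add_le _ _).trans ?_
    rw [norm_neg, norm_mul, norm_mul, Complex.norm_real, Complex.norm_real, Real.norm_eq_abs,
      Real.norm_eq_abs, abs_of_nonneg e0, abs_mul, abs_mul, abs_of_nonneg hi0]
    have h1 : (1 - 1 / N) * ‖c.w z‖ ≤ t ^ 2 * ‖f z‖ ^ 2 / 2 := by
      calc (1 - 1 / N) * ‖c.w z‖ ≤ (1 - 1 / N) * 1 := mul_le_mul_of_nonneg_left hwb e0
        _ ≤ _ := by linarith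
    have h2 : 1 / N * (|t| * |c.h z|) ≤ |t| := by
      calc 1 / N * (|t| * |c.h z|) ≤ 1 * (|t| * 1) := by
            apply mul_le_mul hi1 (mul_le_mul_of_nonneg_left hhb ht0) (by positivity) zero_le_one
        _ = |t| := by ring
    have h3 := mul_le_mul_of_nonneg_right h2 (norm_nonneg (f z))
    linarith
  · have : 1 / N * (c.h z - t * (star (c.w z) * f z).re) - c.h z =
        -((1 - 1 / N) * c.h z) + -(1 / N * (t * (star (c.w z) * f z).re)) := by ring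
    rw [this]
    refine (abs_add_le _ _).trans ?_
    rw [abs_neg, abs_neg, abs_mul, abs_mul, abs_mul, abs_of_nonneg e0, abs_of_nonneg hi0]
    have h1 : (1 - 1 / N) * |c.h z| ≤ t ^ 2 * ‖f z‖ ^ 2 / 2 := by
      calc (1 - 1 / N) * |c.h z| ≤ (1 - 1 / N) * 1 := mul_le_mul_of_nonneg_left hhb e0
        _ ≤ _ := by linarith
    have h2 : 1 / N * (|t| * |(star (c.w z) * f z).re|) ≤ |t| * ‖f z‖ := by
      calc 1 / N * (|t| * |(star (c.w z) * f z).re|) ≤ 1 * (|t| * ‖f z‖) := by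
            apply mul_le_mul hi1 (mul_le_mul_of_nonneg_left hsb ht0) (by positivity) zero_le_one
        _ = |t| * ‖f z‖ := by ring
    linarith

end GO3
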