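import Pool.Agent.GO3.L.Vp1
import Pool.Agent.GO3.L.AofL
import Pool.Agent.GO3.Rd

/-! GO3 / L / Vp2: the variation `c.vp f t` of `φ` (admissibility, energy).

PROOFS.
* `vp_adm`: smooth, unit: `nrm_smooth`, `nrm_unit` with `var_sq` (`≥ 1`). Symmetries: `h`, `‖f‖`, `Re (conj w f)` are
  invariant, `w + t h f` is equivariant (`conj` of it under the reflection), so `nm` is invariant. `fin`: off the
  support of `f` (an open set where `c.vp f t = c` locally: `w + t h 0 = w`, `nm = 1`) the densities agree, the density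
  is continuous, so `dens (vp) - dens c` is continuous with compact support. (`fderiv` is local:
  `Filter.EventuallyEq.fderiv_eq`.)
* `vp_h0`: `w 0 = 0` (`w_zero`) and `f 0 = 0` (`f 0 = ζ f 0`, `ze_ne_one`), so `nm 0 = |h 0| = 1` and `h' 0 = h 0`.
* `vp_dist`: integrate `vp_diff`; the potential is the same; `C = ∫ (4 ‖f‖² + ‖f‖⁴)` (continuous, compact support).
* `vp_E`: integrate `vp_dens`. `lp` is integrable (compact support, continuous). `∫ erf ≤ C`: let `‖f‖ ≤ B`,
  `supp f ⊆ ball 0 R` (`R > 0`); `∫ 2 ‖f‖² grad ≤ 2 B² 2 M`, `∫ 8 ‖A‖² ‖f‖² ≤ 8 B² ∫_{B_R} ‖A‖² ≤ 8 B² R² 2 M`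
  (`Rad.A_eq`, `aof_mem`, `E_eq`), the other terms depend on `f` only. -/

open MeasureTheory Filter Topology Set
open scoped ContDiff Real

noncomputable section

namespace GO3

variable {n : ℕ} {f : ℂ → ℂ}

private theorem vr_smooth {c : Cf} (hc : c.Adm n) (hf : ContDiff ℝ ∞ f) (t : ℝ) :
    ContDiff ℝ ∞ (c.var f t).w ∧ ContDiff ℝ ∞ (c.var f t).h := by
  constructor
  · have h1 : ContDiff ℝ ∞ fun z => ((t * c.h z : ℝ) : ℂ) :=
      Complex.ofRealCLM.contDiff.comp (contDiff_const.mul hc.sh)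
    exact hc.sw.add (h1.mul hf)
  · have h2 : ContDiff ℝ ∞ fun z => star (c.w z) :=
      (Complex.conjCLE : ℂ ≃L[ℝ] ℂ).contDiff.comp hc.sw
    have h3 : ContDiff ℝ ∞ fun z => (star (c.w z) * f z).re :=
      Complex.reCLM.contDiff.comp (h2.mul hf)
    exact hc.sh.sub (contDiff_const.mul h3)

private theorem vr_one {c : Cf} (hc : c.Adm n) (f : ℂ → ℂ) (t : ℝ) (z : ℂ) :
    1 ≤ ‖(c.var f t).w z‖ ^ 2 + (c.var f t).h z ^ 2 := by
  rw [var_sq hc]
  have : 0 ≤ t ^ 2 * (c.h z ^ 2 * ‖f z‖ ^ 2 + (star (c.w z) * f z).re ^ 2) := by positivity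
  linarith

private theorem vp_w (c : Cf) (f : ℂ → ℂ) (t : ℝ) (z : ℂ) :
    (c.vp f t).w z = ((1 / (c.var f t).nm z : ℝ) : ℂ) * (c.var f t).w z := rfl

private theorem vp_h (c : Cf) (f : ℂ → ℂ) (t : ℝ) (z : ℂ) :
    (c.vp f t).h z = 1 / (c.var f t).nm z * (c.var f t).h z := rfl

/-- where `f` vanishes nothing changes -/
private theorem vp_zero {c : Cf} (hu : ∀ z, ‖c.w z‖ ^ 2 + c.h z ^ 2 = 1) (t : ℝ) {z : ℂ}
    (hz : f z = 0) : (c.vp f t).w z = c.w z ∧ (c.vp f t).h z = c.h z := by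
  have h1 : (c.var f t).w z = c.w z := by
    show c.w z + ((t * c.h z : ℝ) : ℂ) * f z = c.w z
    rw [hz, mul_zero, add_zero]
  have h2 : (c.var f t).h z = c.h z := by
    show c.h z - t * (star (c.w z) * f z).re = c.h z
    rw [hz, mul_zero, Complex.zero_re, mul_zero, sub_zero]
  have h3 : (c.var f t).nm z = 1 := by
    unfold Cf.nm
    rw [h1, h2, hu z, Real.sqrt_one]
  rw [vp_w, vp_h, h1, h2, h3]
  constructor
  · rw [div_one, Complex.ofReal_one, one_mul]
  · rw [div_one, one_mul]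

/-- continuity of the density for smooth fields -/
private theorem dens_cont {c : Cf} (hw : ContDiff ℝ ∞ c.w) (hh : ContDiff ℝ ∞ c.h)
    (hA : ContDiff ℝ ∞ c.A) : Continuous c.dens := by
  have d1 : ∀ v, Continuous fun z => fderiv ℝ c.w z v := fun v =>
    (hw.continuous_fderiv (by simp)).clm_apply continuous_const
  have d2 : ∀ v, Continuous fun z => fderiv ℝ c.h z v := fun v =>
    (hh.continuous_fderiv (by simp)).clm_apply continuous_const
  have d3 : ∀ v, Continuous fun z => fderiv ℝ c.A z v := fun v =>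
    (hA.continuous_fderiv (by simp)).clm_apply continuous_const
  have d4 : ∀ v, Continuous fun z => ip (c.A z) v := by
    intro v
    unfold ip
    exact ((Complex.continuous_re.comp hA.continuous).mul continuous_const).add
      ((Complex.continuous_im.comp hA.continuous).mul continuous_const)
  have d5 : ∀ v, Continuous fun z => c.nsq z v := by
    intro v
    unfold Cf.nsq Cf.Dw Cf.dh
    refine (Continuous.pow (Continuous.norm ?_) 2).add ((d2 v).pow 2)
    exact (d1 v).sub ((continuous_const.mul (Complex.continuous_ofReal.comp (d4 v))).mul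
      hw.continuous)
  have d6 : Continuous c.F := by
    unfold Cf.F
    exact (Complex.continuous_im.comp (d3 1)).sub (Complex.continuous_re.comp (d3 Complex.I))
  unfold Cf.dens Cf.grad
  exact (((d5 1).add (d5 Complex.I)).add ((continuous_const.sub hh.continuous).pow 2)).add
    (d6.pow 2)

private theorem vp_loc {c : Cf} (hu : ∀ z, ‖c.w z‖ ^ 2 + c.h z ^ 2 = 1) (t : ℝ) {z : ℂ}
    (hz : z ∉ tsupport f) : (c.vp f t).dens z = c.dens z := by
  have h0 : f =ᶠ[𝓝 z] 0 := notMem_tsupport_iff_eventuallyEq.1 hz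
  have h1 : (c.vp f t).w =ᶠ[𝓝 z] c.w := h0.mono fun y hy => (vp_zero hu t hy).1
  have h2 : (c.vp f t).h =ᶠ[𝓝 z] c.h := h0.mono fun y hy => (vp_zero hu t hy).2
  have e1 : ∀ v, (c.vp f t).nsq z v = c.nsq z v := by
    intro v
    unfold Cf.nsq Cf.Dw Cf.dh
    rw [h1.fderiv_eq, h2.fderiv_eq, h1.eq_of_nhds]
    rfl
  unfold Cf.dens Cf.grad
  rw [e1, e1, h2.eq_of_nhds]
  rfl

theorem vp_adm {c : Cf} (hc : c.Adm n) (hf : Tst f) (h1 : ∀ z, f (ze n * z) = ze n * f z)
    (h2 : ∀ z, f (star z) = star (f z)) (t : ℝ) : (c.vp f t).Adm n := by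
  obtain ⟨s1, s2⟩ := vr_smooth hc hf.1 t
  have s3 := vr_one hc f t
  obtain ⟨s4, s5⟩ := nrm_smooth s1 s2 s3
  have hze : star (ze n) * ze n = 1 := by
    rw [Complex.star_def, mul_comm, Complex.mul_conj, Complex.normSq_eq_norm_sq, norm_ze]
    simp
  have r1 : ∀ z, (c.var f t).w (ze n * z) = ze n * (c.var f t).w z := by
    intro z
    show c.w (ze n * z) + ((t * c.h (ze n * z) : ℝ) : ℂ) * f (ze n * z) =
      ze n * (c.w z + ((t * c.h z : ℝ) : ℂ) * f z)
    rw [hc.rw, hc.rh, h1]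
    ring
  have r2 : ∀ z, (c.var f t).h (ze n * z) = (c.var f t).h z := by
    intro z
    show c.h (ze n * z) - t * (star (c.w (ze n * z)) * f (ze n * z)).re =
      c.h z - t * (star (c.w z) * f z).re
    rw [hc.rw, hc.rh, h1]
    have : star (ze n * c.w z) * (ze n * f z) = star (c.w z) * f z := by
      rw [star_mul]
      calc star (c.w z) * star (ze n) * (ze n * f z) =
            star (c.w z) * f z * (star (ze n) * ze n) := by ring
        _ = star (c.w z) * f z := by rw [hze, mul_one]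
    rw [this]
  have r3 : ∀ z, (c.var f t).nm (ze n * z) = (c.var f t).nm z := by
    intro z
    unfold Cf.nm
    rw [r1, r2, norm_mul, norm_ze, one_mul]
  have q1 : ∀ z, (c.var f t).w (star z) = star ((c.var f t).w z) := by
    intro z
    show c.w (star z) + ((t * c.h (star z) : ℝ) : ℂ) * f (star z) =
      star (c.w z + ((t * c.h z : ℝ) : ℂ) * f z)
    rw [hc.cw, hc.ch, h2, star_add, star_mul, Complex.star_def, Complex.conj_ofReal]
    ring
  have q2 : ∀ z, (c.var f t).h (star z) = (c.var f t).h z := by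
    intro z
    show c.h (star z) - t * (star (c.w (star z)) * f (star z)).re =
      c.h z - t * (star (c.w z) * f z).re
    rw [hc.cw, hc.ch, h2]
    have : (star (star (c.w z)) * star (f z)).re = (star (c.w z) * f z).re := by
      rw [← star_mul, Complex.star_def, Complex.conj_re, mul_comm]
    rw [this]
  have q3 : ∀ z, (c.var f t).nm (star z) = (c.var f t).nm z := by
    intro z
    unfold Cf.nm
    rw [q1, q2, norm_star]
  refine ⟨s4, s5, hc.sA, nrm_unit s3, ?_, ?_, ?_, hc.rA, ?_, ?_, hc.cA⟩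
  · have d1 : Continuous (c.vp f t).dens := dens_cont s4 s5 hc.sA
    have d2 : Continuous c.dens := dens_cont hc.sw hc.sh hc.sA
    have d3 : HasCompactSupport fun z => (c.vp f t).dens z - c.dens z :=
      HasCompactSupport.intro hf.2 fun z hz => by rw [vp_loc hc.unit t hz, sub_self]
    have d4 := (d1.sub d2).integrable_of_hasCompactSupport (μ := volume) d3
    have d5 := hc.fin.add d4
    refine d5.congr (Filter.Eventually.of_forall fun z => ?_)
    show c.dens z + ((c.vp f t).dens z - c.dens z) = (c.vp f t).dens z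
    ring
  · intro z
    rw [vp_w, vp_w, r3, r1]
    ring
  · intro z
    rw [vp_h, vp_h, r3, r2]
  · intro z
    rw [vp_w, vp_w, q3, q1, star_mul, Complex.star_def, Complex.conj_ofReal]
    ring
  · intro z
    rw [vp_h, vp_h, q3, q2]

theorem vp_h0 {c : Cf} (hn : 2 ≤ n) (hc : c.Adm n) (h1 : ∀ z, f (ze n * z) = ze n * f z) (t : ℝ) :
    (c.vp f t).h 0 = c.h 0 := by
  have h2 := h1 0
  rw [mul_zero] at h2
  have h3 : (ze n - 1) * f 0 = 0 := by linear_combination -h2
  have h4 : f 0 = 0 := (mul_eq_zero.1 h3).resolve_left (sub_ne_zero.2 (ze_ne_one hn))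
  exact (vp_zero hc.unit t h4).2

private theorem int_pow (hf : Tst f) {k : ℕ} (hk : k ≠ 0) : Integrable fun z => ‖f z‖ ^ k := by
  refine (hf.1.continuous.norm.pow k).integrable_of_hasCompactSupport ?_
  refine HasCompactSupport.intro hf.2 fun z hz => ?_
  show ‖f z‖ ^ k = 0
  rw [image_eq_zero_of_notMem_tsupport hz, norm_zero, zero_pow hk]

theorem vp_dist (hf : Tst f) : ∃ C : ℝ, ∀ c : Cf, c.Adm n → ∀ t : ℝ, |t| ≤ 1 → ∀ R : ℝ,
    dist2 c (c.vp f t) R ≤ t ^ 2 * C := by
  have hi : Integrable fun z => 4 * ‖f z‖ ^ 2 + ‖f z‖ ^ 4 :=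
    ((int_pow hf (by norm_num)).const_mul 4).add (int_pow hf (by norm_num))
  refine ⟨∫ z, (4 * ‖f z‖ ^ 2 + ‖f z‖ ^ 4), fun c hc t ht R => ?_⟩
  unfold dist2
  have h1 : ∫ z in Metric.ball (0 : ℂ) R, (‖(c.vp f t).w z - c.w z‖ ^ 2 +
      ((c.vp f t).h z - c.h z) ^ 2 + ‖(c.vp f t).A z - c.A z‖ ^ 2) ≤
      ∫ z in Metric.ball (0 : ℂ) R, t ^ 2 * (4 * ‖f z‖ ^ 2 + ‖f z‖ ^ 4) := by
    refine integral_mono_of_nonneg (Filter.Eventually.of_forall fun z => ?_)
      ((hi.const_mul _).integrableOn) (Filter.Eventually.of_forall fun z => ?_)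
    · positivity
    · have h2 := vp_diff hc f ht z
      have h3 : (c.vp f t).A z - c.A z = 0 := sub_self _
      show ‖(c.vp f t).w z - c.w z‖ ^ 2 + ((c.vp f t).h z - c.h z) ^ 2 +
        ‖(c.vp f t).A z - c.A z‖ ^ 2 ≤ t ^ 2 * (4 * ‖f z‖ ^ 2 + ‖f z‖ ^ 4)
      rw [h3, norm_zero]
      linarith
  refine h1.trans ?_
  rw [integral_const_mul]
  refine mul_le_mul_of_nonneg_left ?_ (sq_nonneg t)
  exact setIntegral_le_integral hi (Filter.Eventually.of_forall fun z => by positivity)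

private theorem tst_df (hf : Tst f) (v : ℂ) : Continuous (fun z => fderiv ℝ f z v) ∧
    ∀ z, z ∉ tsupport f → fderiv ℝ f z v = 0 := by
  refine ⟨(hf.1.continuous_fderiv (by simp)).clm_apply continuous_const, fun z hz => ?_⟩
  have h0 : f =ᶠ[𝓝 z] 0 := notMem_tsupport_iff_eventuallyEq.1 hz
  rw [h0.fderiv_eq]
  simp

private theorem lp_int {c : Cf} (hc : c.Adm n) (hf : Tst f) : Integrable (lp c f) := by
  obtain ⟨a1, a2⟩ := tst_df hf 1
  obtain ⟨b1, b2⟩ := tst_df hf Complex.I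
  have d1 : ∀ v, Continuous fun z => fderiv ℝ c.w z v := fun v =>
    (hc.sw.continuous_fderiv (by simp)).clm_apply continuous_const
  have d2 : ∀ v, Continuous fun z => fderiv ℝ c.h z v := fun v =>
    (hc.sh.continuous_fderiv (by simp)).clm_apply continuous_const
  have d4 : ∀ v, Continuous fun z => ip (c.A z) v := by
    intro v
    unfold ip
    exact ((Complex.continuous_re.comp hc.sA.continuous).mul continuous_const).add
      ((Complex.continuous_im.comp hc.sA.continuous).mul continuous_const)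
  have d5 : ∀ v, Continuous fun z => c.p z v := by
    intro v
    unfold Cf.p Cf.Dw Cf.dh
    exact ((Complex.continuous_ofReal.comp hc.sh.continuous).mul
      ((d1 v).sub ((continuous_const.mul (Complex.continuous_ofReal.comp (d4 v))).mul
        hc.sw.continuous))).sub
      (hc.sw.continuous.mul (Complex.continuous_ofReal.comp (d2 v)))
  have d6 : ∀ v, Continuous fun z => Df c f z v := by
    intro v
    unfold Df
    exact (tst_df hf v).1.sub ((continuous_const.mul (Complex.continuous_ofReal.comp (d4 v))).mul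
        hf.1.continuous)
  have d7 : Continuous (lp c f) := by
    unfold lp
    exact ((Complex.continuous_re.comp ((continuous_star.comp (d5 1)).mul (d6 1))).add
      (Complex.continuous_re.comp ((continuous_star.comp (d5 Complex.I)).mul
        (d6 Complex.I)))).add ((continuous_const.sub hc.sh.continuous).mul
      (Complex.continuous_re.comp ((continuous_star.comp hc.sw.continuous).mul hf.1.continuous)))
  refine d7.integrable_of_hasCompactSupport (HasCompactSupport.intro hf.2 fun z hz => ?_)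
  have e0 := image_eq_zero_of_notMem_tsupport hz
  unfold lp Df
  rw [a2 z hz, b2 z hz, e0]
  simp

/-- the part of the error which only depends on `f` -/
private def er0 (f : ℂ → ℂ) (z : ℂ) : ℝ :=
  8 * (‖fderiv ℝ f z 1‖ ^ 2 + ‖fderiv ℝ f z Complex.I‖ ^ 2) +
    8 * (‖f z‖ ^ 2 + ‖f z‖ ^ 4 + ‖f z‖ ^ 6)

private theorem er0_int (hf : Tst f) : Integrable (er0 f) := by
  obtain ⟨a1, a2⟩ := tst_df hf 1
  obtain ⟨b1, b2⟩ := tst_df hf Complex.I
  have d1 : Continuous (er0 f) := by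
    unfold er0
    have h0 := hf.1.continuous.norm
    exact (continuous_const.mul ((a1.norm.pow 2).add (b1.norm.pow 2))).add
      (continuous_const.mul (((h0.pow 2).add (h0.pow 4)).add (h0.pow 6)))
  refine d1.integrable_of_hasCompactSupport (HasCompactSupport.intro hf.2 fun z hz => ?_)
  unfold er0
  rw [a2 z hz, b2 z hz, image_eq_zero_of_notMem_tsupport hz]
  simp

private theorem erf_eq (c : Cf) (f : ℂ → ℂ) (z : ℂ) : erf c f z =
    2 * (‖f z‖ ^ 2 * c.grad z) + 8 * (‖c.A z‖ ^ 2 * ‖f z‖ ^ 2) + er0 f z := by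
  unfold erf er0
  ring

private theorem cs_int {c : Cf} (hf : Tst f) {g : ℂ → ℝ} (hg : Continuous g) :
    Integrable fun z => ‖f z‖ ^ 2 * g z := by
  have _ := c
  refine ((hf.1.continuous.norm.pow 2).mul hg).integrable_of_hasCompactSupport
    (HasCompactSupport.intro hf.2 fun z hz => ?_)
  show ‖f z‖ ^ 2 * g z = 0
  rw [image_eq_zero_of_notMem_tsupport hz]
  simp

theorem vp_E (hf : Tst f) (h1 : ∀ z, f (ze n * z) = ze n * f z)
    (h2 : ∀ z, f (star z) = star (f z)) (M : ℝ) : ∃ C : ℝ, ∀ c : Cf, c.Adm n → c.Rad → c.E ≤ M →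
    ∀ t : ℝ, |t| ≤ 1 → 2 * (c.vp f t).E ≤ 2 * c.E + 2 * t * LP c f + t ^ 2 * C := by
  -- bounds for the test function
  obtain ⟨B, hB⟩ : ∃ B : ℝ, ∀ z, ‖f z‖ ≤ B := by
    obtain ⟨B, hB⟩ := hf.1.continuous.bounded_above_of_compact_support hf.2
    exact ⟨B, hB⟩
  have hB0 : 0 ≤ B := (norm_nonneg _).trans (hB 0)
  obtain ⟨R, hR0, hR⟩ : ∃ R : ℝ, 0 < R ∧ ∀ z, z ∉ Metric.ball (0 : ℂ) R → f z = 0 := by
    obtain ⟨R, hR⟩ := hf.2.isBounded.subset_ball (0 : ℂ)
    refine ⟨max R 1, lt_max_of_lt_right one_pos, fun z hz => ?_⟩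
    refine image_eq_zero_of_notMem_tsupport fun h3 => hz ?_
    exact Metric.ball_subset_ball (le_max_left _ _) (hR h3)
  refine ⟨2 * (B ^ 2 * (2 * M)) + 8 * (B ^ 2 * (R ^ 2 * (2 * M))) + ∫ z, er0 f z,
    fun c hc hr hE t ht => ?_⟩
  have hadm := vp_adm hc hf h1 h2 t
  have i1 := lp_int hc hf
  have cg : Continuous c.grad := (hc.contDiff_grad).continuous
  have i2 : Integrable fun z => ‖f z‖ ^ 2 * c.grad z := cs_int (c := c) hf cg
  have cA : Continuous fun z => ‖c.A z‖ ^ 2 := hc.sA.continuous.norm.pow 2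
  have i3 : Integrable fun z => ‖c.A z‖ ^ 2 * ‖f z‖ ^ 2 := by
    refine (cs_int (c := c) hf cA).congr (Filter.Eventually.of_forall fun z => ?_)
    show ‖f z‖ ^ 2 * ‖c.A z‖ ^ 2 = ‖c.A z‖ ^ 2 * ‖f z‖ ^ 2
    ring
  have i4 := er0_int hf
  have i5 : Integrable (erf c f) := by
    refine (((i2.const_mul 2).add (i3.const_mul 8)).add i4).congr
      (Filter.Eventually.of_forall fun z => ?_)
    exact (erf_eq c f z).symm
  have hEE := hc.E_eq
  have p1 : 0 ≤ ∫ z, c.grad z := integral_nonneg fun z => Cf.grad_nonneg c z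
  have p2 : 0 ≤ ∫ z, (1 - c.h z) ^ 2 := integral_nonneg fun z => sq_nonneg _
  have p3 : 0 ≤ ∫ z, c.F z ^ 2 := integral_nonneg fun z => sq_nonneg _
  -- the three integrals
  have b2 : ∫ z, ‖f z‖ ^ 2 * c.grad z ≤ B ^ 2 * (2 * M) := by
    calc ∫ z, ‖f z‖ ^ 2 * c.grad z ≤ ∫ z, B ^ 2 * c.grad z :=
          integral_mono i2 (hc.int_grad.const_mul _) fun z => mul_le_mul_of_nonneg_right
            (pow_le_pow_left₀ (norm_nonneg _) (hB z) 2) (Cf.grad_nonneg c z)
      _ = B ^ 2 * ∫ z, c.grad z := integral_const_mul _ _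
      _ ≤ B ^ 2 * (2 * M) := mul_le_mul_of_nonneg_left (by linarith) (sq_nonneg B)
  have hFm : ∀ R : ℝ, MemLp c.F 2 (volume.restrict (Metric.ball 0 R)) := by
    intro R
    have m1 : MemLp c.F 2 volume :=
      (memLp_two_iff_integrable_sq hc.contDiff_F.continuous.aestronglyMeasurable).2 hc.int_F
    exact m1.restrict _
  have b3 : ∫ z, ‖c.A z‖ ^ 2 * ‖f z‖ ^ 2 ≤ B ^ 2 * (R ^ 2 * (2 * M)) := by
    have e1 : ∫ z, ‖c.A z‖ ^ 2 * ‖f z‖ ^ 2 =
        ∫ z in Metric.ball (0 : ℂ) R, ‖c.A z‖ ^ 2 * ‖f z‖ ^ 2 := by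
      rw [setIntegral_eq_integral_of_forall_compl_eq_zero]
      intro z hz
      rw [hR z hz]
      simp
    have e2 := (aof_mem hFm R).2
    have e3 : ∫ z in Metric.ball (0 : ℂ) R, ‖c.A z‖ ^ 2 ≤ R ^ 2 * (2 * M) := by
      have e4 : ∫ z in Metric.ball (0 : ℂ) R, ‖c.A z‖ ^ 2 =
          ∫ z in Metric.ball (0 : ℂ) R, ‖Aof c.F z‖ ^ 2 := by
        refine integral_congr_ae (Filter.Eventually.of_forall fun z => ?_)
        show ‖c.A z‖ ^ 2 = ‖Aof c.F z‖ ^ 2
        rw [hr.A_eq hc.sA]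
      rw [e4]
      refine e2.trans (mul_le_mul_of_nonneg_left ?_ (sq_nonneg R))
      have e5 : ∫ z in Metric.ball (0 : ℂ) R, c.F z ^ 2 ≤ ∫ z, c.F z ^ 2 :=
        setIntegral_le_integral hc.int_F (Filter.Eventually.of_forall fun z => sq_nonneg _)
      linarith
    have iA : IntegrableOn (fun z => ‖c.A z‖ ^ 2) (Metric.ball (0 : ℂ) R) :=
      (cA.continuousOn.integrableOn_compact (isCompact_closedBall 0 R)).mono_set
        Metric.ball_subset_closedBall
    rw [e1]
    calc ∫ z in Metric.ball (0 : ℂ) R, ‖c.A z‖ ^ 2 * ‖f z‖ ^ 2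
        ≤ ∫ z in Metric.ball (0 : ℂ) R, B ^ 2 * ‖c.A z‖ ^ 2 := by
          refine integral_mono i3.integrableOn (iA.const_mul _) fun z => ?_
          show ‖c.A z‖ ^ 2 * ‖f z‖ ^ 2 ≤ B ^ 2 * ‖c.A z‖ ^ 2
          rw [mul_comm]
          exact mul_le_mul_of_nonneg_right (pow_le_pow_left₀ (norm_nonneg _) (hB z) 2)
            (sq_nonneg _)
      _ = B ^ 2 * ∫ z in Metric.ball (0 : ℂ) R, ‖c.A z‖ ^ 2 := integral_const_mul _ _
      _ ≤ B ^ 2 * (R ^ 2 * (2 * M)) := mul_le_mul_of_nonneg_left e3 (sq_nonneg B)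
  have b4 : ∫ z, erf c f z ≤ 2 * (B ^ 2 * (2 * M)) + 8 * (B ^ 2 * (R ^ 2 * (2 * M))) +
      ∫ z, er0 f z := by
    have e1 : ∫ z, erf c f z = 2 * (∫ z, ‖f z‖ ^ 2 * c.grad z) +
        8 * (∫ z, ‖c.A z‖ ^ 2 * ‖f z‖ ^ 2) + ∫ z, er0 f z := by
      have j1 : Integrable fun z => 2 * (‖f z‖ ^ 2 * c.grad z) + 8 * (‖c.A z‖ ^ 2 * ‖f z‖ ^ 2) :=
        (i2.const_mul 2).add (i3.const_mul 8)
      rw [← integral_const_mul, ← integral_const_mul, ← integral_add (i2.const_mul 2)
        (i3.const_mul 8), ← integral_add j1 i4]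
      exact integral_congr_ae (Filter.Eventually.of_forall fun z => erf_eq c f z)
    rw [e1]
    linarith
  have key : ∫ z, (c.vp f t).dens z ≤ (∫ z, c.dens z) + 2 * t * (∫ z, lp c f z) +
      t ^ 2 * ∫ z, erf c f z := by
    have j1 : Integrable fun z => c.dens z + 2 * t * lp c f z := hc.fin.add (i1.const_mul _)
    have j2 : Integrable fun z => t ^ 2 * erf c f z := i5.const_mul _
    rw [← integral_const_mul, ← integral_const_mul, ← integral_add hc.fin (i1.const_mul _),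
      ← integral_add j1 j2]
    exact integral_mono hadm.fin (j1.add j2)
      fun z => vp_dens hc hf.1 ht z
  have k2 : t ^ 2 * ∫ z, erf c f z ≤ t ^ 2 * (2 * (B ^ 2 * (2 * M)) +
      8 * (B ^ 2 * (R ^ 2 * (2 * M))) + ∫ z, er0 f z) :=
    mul_le_mul_of_nonneg_left b4 (sq_nonneg t)
  have k3 : 2 * (c.vp f t).E = ∫ z, (c.vp f t).dens z := by
    unfold Cf.E
    ring
  have k4 : 2 * c.E = ∫ z, c.dens z := by
    unfold Cf.E
    ring
  rw [k3, k4, LP_eq]
  linarith

end GO3
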