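import Pool.Agent.GO3.L.Defs

/-! GO3 / L / Wk: weak compactness in `L²(ℂ; ℂ)` and lower semicontinuity.

PROOFS.
`exists_wk1` (one sequence). Let `H = Lp ℂ 2 volume` (a complex Hilbert space, second countable by
`Lp.SecondCountableTopology`, hence separable). Put `f k = (star (u k))` as an element of `H` and
`Λ k = InnerProductSpace.toDual ℂ H (f k) : StrongDual ℂ H`, so `Λ k (g) = ∫ u k z * g z`
(`L2.inner_def`: `⟪f, g⟫ = ∫ ⟪f z, g z⟫`, the inner product of `ℂ` is `conj a * b` up to order, and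
`MemLp.coeFn_toLp`). `‖Λ k‖ = ‖f k‖ ≤ √C`. `WeakDual.isSeqCompact_closedBall ℂ H 0 √C` gives a
subsequence with `Λ (φ k) → Λ` in `WeakDual`, i.e. `Λ (φ k) g → Λ g` for every `g ∈ H` (evaluation is
continuous, `WeakDual.eval_continuous` or `WeakBilin.eval_continuous`). `Λ = toDual ℂ H f`; `v = star f`.
`exists_wk`: induction on `m` (a subsequence of a weakly convergent sequence converges weakly,
`StrictMono.tendsto_atTop`; the induction step uses `Fin.cons`/`Fin.cases` or `Fin.snoc`).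
`lsc`: pointwise `‖v‖² ≤ ‖u‖² - 2 Re (conj v (u - v))` (because `‖u - v‖² ≥ 0`). Integrate over `S` and sum
over `i`: `∑ ∫_S ‖v i‖² ≤ M + e k - 2 Re ∑ (∫ u i k * g i - ∫ v i * g i)` for the frequently many `k`, with
`g i = S.indicator (conj (v i))` (in `L²(ℂ)`: `memLp_indicator_iff_restrict`); the right hand side tends to
`M`; `le_of_tendsto`-type argument: if `M < LHS` then eventually `M + e k - ... < LHS`, contradiction with
`∃ᶠ` (`Frequently.and_eventually`, `.exists`). -/

open MeasureTheory Filter Topology Set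
open scoped ContDiff Real

noncomputable section

namespace GO3

theorem exists_wk1 (u : ℕ → ℂ → ℂ) (hu : ∀ k, MemLp (u k) 2) (C : ℝ)
    (hC : ∀ k, ∫ z, ‖u k z‖ ^ 2 ≤ C) :
    ∃ φ : ℕ → ℕ, StrictMono φ ∧ ∃ v : ℂ → ℂ, MemLp v 2 ∧ Ws univ (fun k => u (φ k)) v := by
  classical
  have hst : ∀ k, MemLp (fun z => star (u k z)) 2 := fun k => (hu k).star
  let H := Lp ℂ 2 (volume : Measure ℂ)
  let f : ℕ → H := fun k => (hst k).toLp _
  have pair : ∀ (k : ℕ) (g : ℂ → ℂ) (hg : MemLp g 2),
      inner ℂ (f k) (hg.toLp g : H) = ∫ z, u k z * g z := by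
    intro k g hg
    rw [L2.inner_def]
    apply integral_congr_ae
    filter_upwards [(hst k).coeFn_toLp, hg.coeFn_toLp] with z h1 h2
    change inner ℂ ((hst k).toLp _ z) (hg.toLp g z) = _
    rw [h1, h2, RCLike.inner_apply, mul_comm]
    simp
  have hC0 : 0 ≤ C := le_trans (integral_nonneg fun z => by positivity) (hC 0)
  have hnorm : ∀ k, ‖f k‖ ≤ Real.sqrt C := by
    intro k
    apply Real.le_sqrt_of_sq_le
    have h1 := pair k (fun z => star (u k z)) (hst k)
    have h2 : inner ℂ (f k) (f k) = ((‖f k‖ ^ 2 : ℝ) : ℂ) := by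
      rw [inner_self_eq_norm_sq_to_K]
      norm_cast
    have h3 : ∫ z, u k z * star (u k z) = ((∫ z, ‖u k z‖ ^ 2 : ℝ) : ℂ) := by
      rw [← integral_complex_ofReal]
      apply integral_congr_ae
      filter_upwards with z
      change u k z * (starRingEnd ℂ) (u k z) = _
      rw [Complex.mul_conj, Complex.normSq_eq_norm_sq]
    have h4 : ((‖f k‖ ^ 2 : ℝ) : ℂ) = ((∫ z, ‖u k z‖ ^ 2 : ℝ) : ℂ) := by
      rw [← h2, ← h3]
      exact h1
    have h5 : ‖f k‖ ^ 2 = ∫ z, ‖u k z‖ ^ 2 := by exact_mod_cast h4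
    rw [h5]
    exact hC k
  let Λ : ℕ → WeakDual ℂ H := fun k => StrongDual.toWeakDual (InnerProductSpace.toDual ℂ H (f k))
  have hΛ : ∀ k, Λ k ∈ WeakDual.toStrongDual ⁻¹' Metric.closedBall (0 : StrongDual ℂ H)
      (Real.sqrt C) := by
    intro k
    rw [mem_preimage, mem_closedBall_zero_iff]
    change ‖InnerProductSpace.toDual ℂ H (f k)‖ ≤ _
    rw [LinearIsometryEquiv.norm_map]
    exact hnorm k
  have hfact : Fact ((2 : ENNReal) ≠ ⊤) := ⟨by norm_num⟩
  obtain ⟨L, -, φ, hφ, hL⟩ := WeakDual.isSeqCompact_closedBall ℂ H 0 (Real.sqrt C) hΛ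
  let F : H := (InnerProductSpace.toDual ℂ H).symm (WeakDual.toStrongDual L)
  refine ⟨φ, hφ, fun z => star (F z), (Lp.memLp F).star, ?_⟩
  intro g hg _
  have h1 : Tendsto (fun k => (Λ (φ k)) (hg.toLp g : H)) atTop (𝓝 (L (hg.toLp g : H))) :=
    ((WeakDual.eval_continuous (hg.toLp g : H)).tendsto L).comp hL
  have h2 : ∀ k, (Λ (φ k)) (hg.toLp g : H) = ∫ z, u (φ k) z * g z := by
    intro k
    rw [← pair (φ k) g hg]
    exact InnerProductSpace.toDual_apply_apply
  have h3 : L (hg.toLp g : H) = ∫ z, star (F z) * g z := by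
    have h4 : inner ℂ F (hg.toLp g : H) = L (hg.toLp g : H) := by
      rw [← InnerProductSpace.toDual_apply_apply (𝕜 := ℂ)]
      change (InnerProductSpace.toDual ℂ H ((InnerProductSpace.toDual ℂ H).symm _)) _ = _
      rw [LinearIsometryEquiv.apply_symm_apply]
      rfl
    rw [← h4, L2.inner_def]
    apply integral_congr_ae
    filter_upwards [hg.coeFn_toLp] with z h5
    rw [h5, RCLike.inner_apply, mul_comm]
    rfl
  simp only [h2, h3] at h1
  exact h1

theorem exists_wk {m : ℕ} (u : Fin m → ℕ → ℂ → ℂ) (hu : ∀ i k, MemLp (u i k) 2) (C : ℝ)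
    (hC : ∀ i k, ∫ z, ‖u i k z‖ ^ 2 ≤ C) :
    ∃ φ : ℕ → ℕ, StrictMono φ ∧ ∃ v : Fin m → ℂ → ℂ, (∀ i, MemLp (v i) 2) ∧
      ∀ i, Ws univ (fun k => u i (φ k)) (v i) := by
  induction m with
  | zero => exact ⟨id, strictMono_id, fun i => i.elim0, fun i => i.elim0, fun i => i.elim0⟩
  | succ m ih =>
    obtain ⟨φ, hφ, v, hv, hw⟩ := ih (fun i => u i.succ) (fun i k => hu _ _) (fun i k => hC _ _)
    obtain ⟨ψ, hψ, v0, hv0, hw0⟩ := exists_wk1 (fun k => u 0 (φ k)) (fun k => hu _ _) C
      (fun k => hC _ _)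
    refine ⟨φ ∘ ψ, hφ.comp hψ, Fin.cons v0 v, ?_, ?_⟩
    · intro i
      refine Fin.cases ?_ (fun j => ?_) i
      · exact hv0
      · exact hv j
    · intro i
      refine Fin.cases ?_ (fun j => ?_) i
      · exact hw0
      · intro g hg h0
        exact (hw j g hg h0).comp hψ.tendsto_atTop

theorem lsc {m : ℕ} {S : Set ℂ} (hS : MeasurableSet S) (u : Fin m → ℕ → ℂ → ℂ)
    (v : Fin m → ℂ → ℂ) (hu : ∀ i k, MemLp (u i k) 2 (volume.restrict S))
    (hv : ∀ i, MemLp (v i) 2 (volume.restrict S)) (hw : ∀ i, Ws S (u i) (v i)) {M : ℝ}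
    {e : ℕ → ℝ} (he : Tendsto e atTop (𝓝 0))
    (hb : ∃ᶠ k in atTop, ∑ i, ∫ z in S, ‖u i k z‖ ^ 2 ≤ M + e k) :
    ∑ i, ∫ z in S, ‖v i z‖ ^ 2 ≤ M := by
  classical
  have hg : ∀ i, MemLp (S.indicator fun z => star (v i z)) 2 := fun i =>
    (memLp_indicator_iff_restrict hS).2 (hv i).star
  have hint : ∀ (i : Fin m) (a : ℂ → ℂ), ∫ z, a z * S.indicator (fun z => star (v i z)) z =
      ∫ z in S, a z * star (v i z) := by
    intro i a
    rw [← integral_indicator hS]
    congr 1
    funext z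
    by_cases h : z ∈ S
    · rw [indicator_of_mem h, indicator_of_mem h]
    · rw [indicator_of_notMem h, indicator_of_notMem h, mul_zero]
  have hlim : ∀ i, Tendsto (fun k => (∫ z in S, u i k z * star (v i z)).re) atTop
      (𝓝 (∫ z in S, v i z * star (v i z)).re) := by
    intro i
    have h1 := hw i _ (hg i) (fun z hz => indicator_of_notMem hz _)
    simp only [hint] at h1
    exact (Complex.continuous_re.tendsto _).comp h1
  have key : ∀ i k, ∫ z in S, ‖v i z‖ ^ 2 ≤ (∫ z in S, ‖u i k z‖ ^ 2) -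
      2 * ((∫ z in S, u i k z * star (v i z)).re - (∫ z in S, v i z * star (v i z)).re) := by
    intro i k
    have i1 : Integrable (fun z => ‖v i z‖ ^ 2) (volume.restrict S) :=
      (memLp_two_iff_integrable_sq_norm (hv i).1).1 (hv i)
    have i2 : Integrable (fun z => ‖u i k z‖ ^ 2) (volume.restrict S) :=
      (memLp_two_iff_integrable_sq_norm (hu i k).1).1 (hu i k)
    have i3 : Integrable (fun z => u i k z * star (v i z)) (volume.restrict S) :=
      (hu i k).integrable_mul (hv i).star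
    have i4 : Integrable (fun z => v i z * star (v i z)) (volume.restrict S) :=
      (hv i).integrable_mul (hv i).star
    have e3 : (∫ z in S, u i k z * star (v i z)).re = ∫ z in S, (u i k z * star (v i z)).re :=
      (integral_re i3).symm
    have e4 : (∫ z in S, v i z * star (v i z)).re = ∫ z in S, (v i z * star (v i z)).re :=
      (integral_re i4).symm
    have r3 : Integrable (fun z => (u i k z * star (v i z)).re) (volume.restrict S) := i3.re
    have r4 : Integrable (fun z => (v i z * star (v i z)).re) (volume.restrict S) := i4.re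
    have r5 : Integrable (fun z => 2 * ((u i k z * star (v i z)).re -
      (v i z * star (v i z)).re)) (volume.restrict S) := (r3.sub r4).const_mul 2
    rw [e3, e4, ← integral_sub r3 r4, ← integral_const_mul, ← integral_sub i2 r5]
    apply integral_mono i1 (i2.sub r5)
    intro z
    change ‖v i z‖ ^ 2 ≤ ‖u i k z‖ ^ 2 - 2 * ((u i k z * star (v i z)).re -
      (v i z * star (v i z)).re)
    have n1 : ‖v i z‖ ^ 2 = (v i z).re ^ 2 + (v i z).im ^ 2 := by
      rw [← Complex.normSq_eq_norm_sq, Complex.normSq_apply]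
      ring
    have n2 : ‖u i k z‖ ^ 2 = (u i k z).re ^ 2 + (u i k z).im ^ 2 := by
      rw [← Complex.normSq_eq_norm_sq, Complex.normSq_apply]
      ring
    have n3 : (star (v i z)).re = (v i z).re := Complex.conj_re _
    have n4 : (star (v i z)).im = -(v i z).im := Complex.conj_im _
    rw [n1, n2, Complex.mul_re, Complex.mul_re, n3, n4]
    nlinarith [sq_nonneg ((u i k z).re - (v i z).re), sq_nonneg ((u i k z).im - (v i z).im)]
  by_contra hlt
  rw [not_le] at hlt
  have h1 : Tendsto (fun k => M + e k - 2 * ∑ i, ((∫ z in S, u i k z * star (v i z)).re -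
      (∫ z in S, v i z * star (v i z)).re)) atTop (𝓝 (M + 0 - 2 * ∑ i : Fin m,
        ((∫ z in S, v i z * star (v i z)).re - (∫ z in S, v i z * star (v i z)).re))) := by
    refine (tendsto_const_nhds.add he).sub (Tendsto.const_mul 2 ?_)
    exact tendsto_finsetSum _ fun i _ => (hlim i).sub tendsto_const_nhds
  have h2 : M + 0 - 2 * ∑ i : Fin m,
        ((∫ z in S, v i z * star (v i z)).re - (∫ z in S, v i z * star (v i z)).re) = M := by
    simp
  rw [h2] at h1
  obtain ⟨k, h3, h4⟩ := (hb.and_eventually (h1.eventually_lt_const hlt)).exists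
  have h5 : ∑ i, ∫ z in S, ‖v i z‖ ^ 2 ≤ ∑ i, ((∫ z in S, ‖u i k z‖ ^ 2) -
      2 * ((∫ z in S, u i k z * star (v i z)).re - (∫ z in S, v i z * star (v i z)).re)) :=
    Finset.sum_le_sum fun i _ => key i k
  rw [Finset.sum_sub_distrib, ← Finset.mul_sum] at h5
  linarith

end GO3
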