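import Pool.Agent.GO3.L.Ae
import Pool.Agent.GO3.L.Tl
import Pool.Agent.GO3.L.Bds

/-! GO3 / L / Wl1: the limit of a convergent sequence of configurations, part 1: constraint, tangency,
derivatives of `h`.

PROOFS.
* `cv_unit`: a.e. convergence.
* `cv_tan1`: `u k = star (w_k) * D_1 w_k + h_k * ∂_1 h_k` (complex valued) has real part `0` (`Adm.tan`),
  converges weakly in `L²(ℂ)` to `star w * W1 + h H1` (`Ws.mul` with the multipliers `star w_k`, `h_k`, `Ws.add`, bounds
  `bd_all`, `mem_all`); `Ws.re_zero`. `cv_tan2` in the same way.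
* `cv_dh1`, `cv_dh2`: for `h_k`: integration by parts
  (`integral_mul_fderiv_eq_neg_fderiv_mul_of_integrable` in `Mathlib.Analysis.Calculus.LineDeriv.IntegrationByParts`);
  the left side converges by dominated convergence, the right side by weak convergence with the test `f` (real parts). -/

open MeasureTheory Filter Topology Set
open scoped ContDiff Real

noncomputable section

namespace GO3

variable {c : ℕ → Cf} {n : ℕ} {M : ℝ} {w : ℂ → ℂ} {h F : ℂ → ℝ} {W1 W2 : ℂ → ℂ} {H1 H2 : ℂ → ℝ}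

private theorem wl1_tan {v : ℂ} {W : ℂ → ℂ} {Q : ℂ → ℝ} {C : ℝ} (hc : ∀ k, (c k).Adm n)
    (H : Cv c w h F W1 W2 H1 H2) (mW : ∀ k, MemLp (fun z => (c k).Dw z v) 2)
    (mH : ∀ k, MemLp (fun z => (c k).dh z v) 2) (lW : MemLp W 2) (lH : MemLp Q 2)
    (cW : ∀ k, ∫ z, ‖(c k).Dw z v‖ ^ 2 ≤ C) (cH : ∀ k, ∫ z, (c k).dh z v ^ 2 ≤ C)
    (wW : Ws univ (fun k z => (c k).Dw z v) W)
    (wH : Ws univ (fun k z => ((c k).dh z v : ℂ)) fun z => (Q z : ℂ))
    (hu : ∀ᵐ z, ‖w z‖ ^ 2 + h z ^ 2 = 1) :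
    ∀ᵐ z, (star (w z) * W z).re + h z * Q z = 0 := by
  have b1 : ∀ k z, ‖(((c k).h z : ℝ) : ℂ)‖ ≤ 1 := fun k z => by
    rw [Complex.norm_real, Real.norm_eq_abs]
    exact (hc k).abs_h_le z
  have b2 : ∀ k z, ‖star ((c k).w z)‖ ≤ 1 := fun k z => by
    rw [norm_star]; exact (hc k).norm_w_le z
  have n1 : ∀ k, AEStronglyMeasurable (fun z => (((c k).h z : ℝ) : ℂ)) := fun k =>
    (Complex.continuous_ofReal.comp (hc k).sh.continuous).aestronglyMeasurable
  have n2 : ∀ k, AEStronglyMeasurable (fun z => star ((c k).w z)) := fun k =>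
    (continuous_star.comp (hc k).sw.continuous).aestronglyMeasurable
  have t1 : ∀ᵐ z, Tendsto (fun k => (((c k).h z : ℝ) : ℂ)) atTop (𝓝 (h z : ℂ)) := by
    filter_upwards [H.ah] with z hz
    exact (Complex.continuous_ofReal.tendsto _).comp hz
  have t2 : ∀ᵐ z, Tendsto (fun k => star ((c k).w z)) atTop (𝓝 (star (w z))) := by
    filter_upwards [H.aw] with z hz
    exact (continuous_star.tendsto _).comp hz
  have mHc : ∀ k, MemLp (fun z => (((c k).dh z v : ℝ) : ℂ)) 2 := fun k => (mH k).ofReal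
  have lHc : MemLp (fun z => (Q z : ℂ)) 2 := lH.ofReal
  have cHc : ∀ k, ∫ z, ‖(((c k).dh z v : ℝ) : ℂ)‖ ^ 2 ≤ C := fun k => by
    simp only [Complex.norm_real, Real.norm_eq_abs, sq_abs]; exact cH k
  have w1 : Ws univ (fun k z => star ((c k).w z) * (c k).Dw z v) fun z => star (w z) * W z :=
    Ws.mul MeasurableSet.univ n2 b2 t2 (fun k => by simpa using mW k) (by simpa using lW)
      (C := C) (fun k => by simpa using cW k) wW
  have w2 : Ws univ (fun k z => (((c k).h z : ℝ) : ℂ) * (((c k).dh z v : ℝ) : ℂ))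
      fun z => (h z : ℂ) * (Q z : ℂ) :=
    Ws.mul MeasurableSet.univ n1 b1 t1 (fun k => by simpa using mHc k) (by simpa using lHc)
      (C := C) (fun k => by simpa using cHc k) wH
  have p1 : ∀ k, MemLp (fun z => star ((c k).w z) * (c k).Dw z v) 2 := fun k => by
    refine MemLp.of_le_mul (c := 1) (mW k) ((n2 k).mul (mW k).1) (Eventually.of_forall fun z => ?_)
    rw [norm_mul]
    exact mul_le_mul_of_nonneg_right (b2 k z) (norm_nonneg _)
  have p2 : ∀ k, MemLp (fun z => (((c k).h z : ℝ) : ℂ) * (((c k).dh z v : ℝ) : ℂ)) 2 :=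
    fun k => by
    refine MemLp.of_le_mul (c := 1) (mHc k) ((n1 k).mul (mHc k).1)
      (Eventually.of_forall fun z => ?_)
    rw [norm_mul]
    exact mul_le_mul_of_nonneg_right (b1 k z) (norm_nonneg _)
  have q1 : MemLp (fun z => star (w z) * W z) 2 := by
    refine MemLp.of_le_mul (c := 1) lW (H.mw.star.mul lW.1) ?_
    filter_upwards [hu] with z hz
    rw [norm_mul, norm_star]
    have : ‖w z‖ ≤ 1 := by nlinarith [sq_nonneg (h z), norm_nonneg (w z)]
    exact mul_le_mul_of_nonneg_right this (norm_nonneg _)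
  have q2 : MemLp (fun z => (h z : ℂ) * (Q z : ℂ)) 2 := by
    refine MemLp.of_le_mul (c := 1) lHc
      ((Complex.continuous_ofReal.comp_aestronglyMeasurable H.mh).mul lHc.1) ?_
    filter_upwards [hu] with z hz
    rw [norm_mul, Complex.norm_real, Real.norm_eq_abs]
    have : |h z| ≤ 1 := by
      rw [abs_le]
      constructor <;> nlinarith [sq_nonneg ‖w z‖]
    exact mul_le_mul_of_nonneg_right this (norm_nonneg _)
  have w3 := Ws.add MeasurableSet.univ (fun k => by simpa using p1 k)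
    (fun k => by simpa using p2 k) (by simpa using q1) (by simpa using q2) w1 w2
  have r := Ws.re_zero (fun k => (p1 k).add (p2 k)) (fun k z => ?_) (q1.add q2) w3
  · filter_upwards [r] with z hz
    simpa using hz
  · have := (hc k).tan z v
    simpa using this

private theorem wl1_dh {v : ℂ} {Q : ℂ → ℝ} (hc : ∀ k, (c k).Adm n)
    (H : Cv c w h F W1 W2 H1 H2)
    (wH : Ws univ (fun k z => ((c k).dh z v : ℂ)) fun z => (Q z : ℂ))
    (f : ℂ → ℝ) (hf : Tst f) :
    ∫ z, h z * fderiv ℝ f z v = -∫ z, Q z * f z := by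
  have b1 : ∀ k z, ‖(((c k).h z : ℝ) : ℂ)‖ ≤ 1 := fun k z => by
    rw [Complex.norm_real, Real.norm_eq_abs]
    exact (hc k).abs_h_le z
  have n1 : ∀ k, AEStronglyMeasurable (fun z => (((c k).h z : ℝ) : ℂ)) := fun k =>
    (Complex.continuous_ofReal.comp (hc k).sh.continuous).aestronglyMeasurable
  have t1 : ∀ᵐ z, Tendsto (fun k => (((c k).h z : ℝ) : ℂ)) atTop (𝓝 (h z : ℂ)) := by
    filter_upwards [H.ah] with z hz
    exact (Complex.continuous_ofReal.tendsto _).comp hz
  have hcont : Continuous f := hf.1.continuous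
  have hd : Continuous fun z => fderiv ℝ f z v :=
    (hf.1.continuous_fderiv (by simp)).clm_apply continuous_const
  have sd : HasCompactSupport fun z => fderiv ℝ f z v := hf.2.fderiv_apply ℝ v
  have A := term3 n1 b1 t1 (g := fun z => ((fderiv ℝ f z v : ℝ) : ℂ))
    (Complex.continuous_ofReal.comp hd) (sd.comp_left Complex.ofReal_zero)
  have mf : MemLp (fun z => ((f z : ℝ) : ℂ)) 2 :=
    (Complex.continuous_ofReal.comp hcont).memLp_of_hasCompactSupport
      (hf.2.comp_left Complex.ofReal_zero)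
  have B := wH (fun z => ((f z : ℝ) : ℂ)) mf (fun z hz => absurd (mem_univ z) hz)
  have E : ∀ k, ∫ z, (((c k).h z : ℝ) : ℂ) * ((fderiv ℝ f z v : ℝ) : ℂ) =
      -∫ z, (((c k).dh z v : ℝ) : ℂ) * ((f z : ℝ) : ℂ) := fun k => by
    have ch : Continuous (c k).h := (hc k).sh.continuous
    have cdh : Continuous fun z => fderiv ℝ (c k).h z v :=
      ((hc k).sh.continuous_fderiv (by simp)).clm_apply continuous_const
    have e := integral_mul_fderiv_eq_neg_fderiv_mul_of_integrable (μ := volume) (𝕜 := ℝ)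
      (f := (c k).h) (g := f) (v := v)
      ((cdh.mul hcont).integrable_of_hasCompactSupport hf.2.mul_left)
      ((ch.mul hd).integrable_of_hasCompactSupport sd.mul_left)
      ((ch.mul hcont).integrable_of_hasCompactSupport hf.2.mul_left)
      (fun x _ => ((hc k).sh.differentiable (by simp)).differentiableAt)
      (fun x _ => (hf.1.differentiable (by simp)).differentiableAt)
    have e1 : ∫ z, (((c k).h z : ℝ) : ℂ) * ((fderiv ℝ f z v : ℝ) : ℂ) =
        ((∫ z, (c k).h z * fderiv ℝ f z v : ℝ) : ℂ) := by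
      rw [← integral_complex_ofReal]
      exact integral_congr_ae (Eventually.of_forall fun z => by push_cast; rfl)
    have e2 : ∫ z, (((c k).dh z v : ℝ) : ℂ) * ((f z : ℝ) : ℂ) =
        ((∫ z, fderiv ℝ (c k).h z v * f z : ℝ) : ℂ) := by
      rw [← integral_complex_ofReal]
      exact integral_congr_ae (Eventually.of_forall fun z => by simp [Cf.dh])
    rw [e1, e2, e]
    push_cast
    rfl
  have A' := A.congr E
  have U := tendsto_nhds_unique A' B.neg
  have e1 : ∫ z, ((h z : ℝ) : ℂ) * ((fderiv ℝ f z v : ℝ) : ℂ) =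
      ((∫ z, h z * fderiv ℝ f z v : ℝ) : ℂ) := by
    rw [← integral_complex_ofReal]
    exact integral_congr_ae (Eventually.of_forall fun z => by push_cast; rfl)
  have e2 : ∫ z, ((Q z : ℝ) : ℂ) * ((f z : ℝ) : ℂ) = ((∫ z, Q z * f z : ℝ) : ℂ) := by
    rw [← integral_complex_ofReal]
    exact integral_congr_ae (Eventually.of_forall fun z => by push_cast; rfl)
  rw [e1, e2] at U
  exact_mod_cast U

theorem cv_unit (hc : ∀ k, (c k).Adm n) (H : Cv c w h F W1 W2 H1 H2) :
    ∀ᵐ z, ‖w z‖ ^ 2 + h z ^ 2 = 1 := by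
  filter_upwards [H.aw, H.ah] with z h1 h2
  have h3 : Tendsto (fun k => ‖(c k).w z‖ ^ 2 + (c k).h z ^ 2) atTop
      (𝓝 (‖w z‖ ^ 2 + h z ^ 2)) := (h1.norm.pow 2).add (h2.pow 2)
  have h4 : (fun k => ‖(c k).w z‖ ^ 2 + (c k).h z ^ 2) = fun _ => (1 : ℝ) :=
    funext fun k => (hc k).unit z
  rw [h4] at h3
  exact tendsto_nhds_unique h3 tendsto_const_nhds

theorem cv_tan1 (hc : ∀ k, (c k).Adm n) (hE : ∀ k, (c k).E ≤ M) (H : Cv c w h F W1 W2 H1 H2) :
    ∀ᵐ z, (star (w z) * W1 z).re + h z * H1 z = 0 := by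
  exact wl1_tan hc H (fun k => (mem_all (hc k)).W1) (fun k => (mem_all (hc k)).H1) H.mW1 H.mH1
    (fun k => (bd_all (hc k) (hE k)).W1) (fun k => (bd_all (hc k) (hE k)).H1) H.wW1 H.wH1
    (cv_unit hc H)

theorem cv_tan2 (hc : ∀ k, (c k).Adm n) (hE : ∀ k, (c k).E ≤ M) (H : Cv c w h F W1 W2 H1 H2) :
    ∀ᵐ z, (star (w z) * W2 z).re + h z * H2 z = 0 := by
  exact wl1_tan hc H (fun k => (mem_all (hc k)).W2) (fun k => (mem_all (hc k)).H2) H.mW2 H.mH2
    (fun k => (bd_all (hc k) (hE k)).W2) (fun k => (bd_all (hc k) (hE k)).H2) H.wW2 H.wH2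
    (cv_unit hc H)

theorem cv_dh1 (hc : ∀ k, (c k).Adm n) (H : Cv c w h F W1 W2 H1 H2) (f : ℂ → ℝ) (hf : Tst f) :
    ∫ z, h z * fderiv ℝ f z 1 = -∫ z, H1 z * f z := by
  exact wl1_dh hc H H.wH1 f hf

theorem cv_dh2 (hc : ∀ k, (c k).Adm n) (H : Cv c w h F W1 W2 H1 H2) (f : ℂ → ℝ) (hf : Tst f) :
    ∫ z, h z * fderiv ℝ f z Complex.I = -∫ z, H2 z * f z := by
  exact wl1_dh hc H H.wH2 f hf

end GO3
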